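import Mathlib

/-!
# DSTJ-Ad: the equation `n H = A H - H A + B`

`adM A` is the matrix of `H ↦ A H - H A`; `sol n A B` is the solution of `n H = A H - H A + B`.
-/

set_option autoImplicit false

open scoped BigOperators Topology
open Filter

namespace Pool.Agent.DSTJ

variable {N : ℕ}

/-- the matrix of `H ↦ A H - H A` -/
def adM (A : Matrix (Fin N) (Fin N) ℂ) : Matrix (Fin N × Fin N) (Fin N × Fin N) ℂ := fun a b =>
  (if a.2 = b.2 then A a.1 b.1 else 0) - (if a.1 = b.1 then A b.2 a.2 else 0)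

/-- the matrix of `H ↦ n H - A H + H A` -/
def opM (n : ℂ) (A : Matrix (Fin N) (Fin N) ℂ) : Matrix (Fin N × Fin N) (Fin N × Fin N) ℂ :=
  n • (1 : Matrix (Fin N × Fin N) (Fin N × Fin N) ℂ) - adM A

/-- the solution of `n H = A H - H A + B` -/
noncomputable def sol (n : ℂ) (A B : Matrix (Fin N) (Fin N) ℂ) : Matrix (Fin N) (Fin N) ℂ :=
  Matrix.of fun i j => (opM n A)⁻¹.mulVec (fun a => B a.1 a.2) (i, j)

theorem opM_mulVec (n : ℂ) (A H : Matrix (Fin N) (Fin N) ℂ) (i j : Fin N) :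
    (opM n A).mulVec (fun a => H a.1 a.2) (i, j) = (n • H - A * H + H * A) i j := by
  have h1 : ∀ b : Fin N × Fin N, opM n A (i, j) b * H b.1 b.2 =
      n * (if (i, j) = b then H b.1 b.2 else 0) - (if j = b.2 then A i b.1 * H b.1 b.2 else 0) +
        (if i = b.1 then H b.1 b.2 * A b.2 j else 0) := by
    intro b
    simp only [opM, adM, Matrix.sub_apply, Matrix.smul_apply, Matrix.one_apply, smul_eq_mul]
    split_ifs <;> ring
  simp only [Matrix.mulVec, dotProduct]
  rw [Finset.sum_congr rfl fun b _ => h1 b, Finset.sum_add_distrib, Finset.sum_sub_distrib,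
    ← Finset.mul_sum, Finset.sum_ite_eq Finset.univ (i, j) (fun b => H b.1 b.2)]
  rw [Fintype.sum_prod_type_right
      (f := fun b : Fin N × Fin N => if j = b.2 then A i b.1 * H b.1 b.2 else 0),
    Fintype.sum_prod_type
      (f := fun b : Fin N × Fin N => if i = b.1 then H b.1 b.2 * A b.2 j else 0)]
  simp only [Matrix.add_apply, Matrix.sub_apply, Matrix.smul_apply, Matrix.mul_apply,
    smul_eq_mul, Finset.mem_univ, if_true]
  have h2 : ∀ y : Fin N, (∑ x : Fin N, if j = y then A i x * H x y else 0) =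
      if j = y then ∑ x : Fin N, A i x * H x y else 0 := by
    intro y
    split_ifs
    · rfl
    · exact Finset.sum_const_zero
  have h3 : ∀ x : Fin N, (∑ y : Fin N, if i = x then H x y * A y j else 0) =
      if i = x then ∑ y : Fin N, H x y * A y j else 0 := by
    intro x
    split_ifs
    · rfl
    · exact Finset.sum_const_zero
  rw [Finset.sum_congr rfl fun y _ => h2 y, Finset.sum_congr rfl fun x _ => h3 x,
    Finset.sum_ite_eq, Finset.sum_ite_eq]
  simp only [Finset.mem_univ, if_true]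

theorem sol_eq {n : ℂ} {A : Matrix (Fin N) (Fin N) ℂ} (h : (opM n A).det ≠ 0)
    (B : Matrix (Fin N) (Fin N) ℂ) : n • sol n A B = A * sol n A B - sol n A B * A + B := by
  have h1 : (opM n A).mulVec (fun a => sol n A B a.1 a.2) = fun a => B a.1 a.2 := by
    have h2 : (fun a : Fin N × Fin N => sol n A B a.1 a.2) =
        (opM n A)⁻¹.mulVec (fun a => B a.1 a.2) := by
      funext a
      rfl
    rw [h2, Matrix.mulVec_mulVec, Matrix.mul_nonsing_inv _ (isUnit_iff_ne_zero.2 h),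
      Matrix.one_mulVec]
  ext i j
  have h3 := opM_mulVec n A (sol n A B) i j
  rw [h1] at h3
  simp only [Matrix.add_apply, Matrix.sub_apply] at h3 ⊢
  rw [h3]
  ring

open scoped Kronecker in
private theorem opM_kron (n : ℂ) (A : Matrix (Fin N) (Fin N) ℂ) :
    opM n A = n • (1 : Matrix (Fin N × Fin N) (Fin N × Fin N) ℂ) -
      A ⊗ₖ (1 : Matrix (Fin N) (Fin N) ℂ) + (1 : Matrix (Fin N) (Fin N) ℂ) ⊗ₖ A.transpose := by
  ext a b
  simp only [opM, adM, Matrix.sub_apply, Matrix.add_apply, Matrix.kroneckerMap_apply,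
    Matrix.one_apply, Matrix.transpose_apply]
  split_ifs <;> ring

/-- PLAN. `R A = diag(E) R`: `opM n A` is conjugate by the matrix of `H ↦ R H R⁻¹` to the matrix of
`K ↦ n K - diag E K + K diag E`, which is diagonal with the entries `n - E i + E j`. (Kronecker products, or:
`opM n A = Q⁻¹ * diagonal * Q` with `Q a b = R a.1 b.1 * R⁻¹ b.2 a.2`, whose inverse is
`R⁻¹ a.1 b.1 * R b.2 a.2`.) -/
theorem opM_det {n : ℂ} {A R : Matrix (Fin N) (Fin N) ℂ} {E : Fin N → ℂ} (hR : R.det ≠ 0)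
    (h : R * A = Matrix.diagonal E * R) :
    (opM n A).det = ∏ a : Fin N × Fin N, (n - (E a.1 - E a.2)) := by
  classical
  open scoped Kronecker in
  have hu : IsUnit R.det := isUnit_iff_ne_zero.2 hR
  have hA : A * R⁻¹ = R⁻¹ * Matrix.diagonal E := by
    have h1 : R⁻¹ * (R * A) * R⁻¹ = R⁻¹ * (Matrix.diagonal E * R) * R⁻¹ := by rw [h]
    rw [← Matrix.mul_assoc, Matrix.nonsing_inv_mul _ hu, Matrix.one_mul, Matrix.mul_assoc,
      Matrix.mul_assoc, Matrix.mul_nonsing_inv _ hu, Matrix.mul_one] at h1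
    exact h1
  open scoped Kronecker in
  set Q : Matrix (Fin N × Fin N) (Fin N × Fin N) ℂ := R ⊗ₖ (R⁻¹).transpose with hQ
  have hQdet : Q.det ≠ 0 := by
    rw [hQ, Matrix.det_kronecker, Matrix.det_transpose]
    refine mul_ne_zero (pow_ne_zero _ hR) (pow_ne_zero _ ?_)
    rw [Matrix.det_nonsing_inv]
    exact (isUnit_iff_ne_zero.1 (hu.ringInverse))
  have hmain : Q * opM n A = Matrix.diagonal (fun a : Fin N × Fin N => n - (E a.1 - E a.2)) * Q := by
    have hd : Matrix.diagonal (fun a : Fin N × Fin N => n - (E a.1 - E a.2)) =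
        n • (1 : Matrix (Fin N × Fin N) (Fin N × Fin N) ℂ) -
          Matrix.kroneckerMap (· * ·) (Matrix.diagonal E) (1 : Matrix (Fin N) (Fin N) ℂ) +
          Matrix.kroneckerMap (· * ·) (1 : Matrix (Fin N) (Fin N) ℂ) (Matrix.diagonal E) := by
      ext a b
      obtain ⟨a1, a2⟩ := a
      obtain ⟨b1, b2⟩ := b
      simp only [Matrix.sub_apply, Matrix.add_apply, Matrix.kroneckerMap_apply,
        Matrix.one_apply, Matrix.diagonal_apply, Matrix.smul_apply, Prod.mk.injEq, smul_eq_mul]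
      by_cases h1 : a1 = b1
      · by_cases h2 : a2 = b2
        · simp only [h1, h2, and_self, if_true, mul_one, one_mul]
          ring
        · simp [h1, h2]
      · by_cases h2 : a2 = b2
        · simp [h1, h2]
        · simp [h1, h2]
    rw [hd, opM_kron, Matrix.mul_add, Matrix.mul_sub, Matrix.add_mul, Matrix.sub_mul,
      Matrix.mul_smul, Matrix.smul_mul, Matrix.mul_one, Matrix.one_mul, hQ,
      ← Matrix.mul_kronecker_mul, ← Matrix.mul_kronecker_mul, ← Matrix.mul_kronecker_mul,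
      ← Matrix.mul_kronecker_mul, Matrix.mul_one, Matrix.one_mul, Matrix.mul_one, Matrix.one_mul,
      h, ← Matrix.transpose_mul, hA, Matrix.transpose_mul, Matrix.diagonal_transpose]
  have h2 : Q.det * (opM n A).det =
      (∏ a : Fin N × Fin N, (n - (E a.1 - E a.2))) * Q.det := by
    rw [← Matrix.det_mul, hmain, Matrix.det_mul, Matrix.det_diagonal]
  rw [mul_comm] at h2
  exact mul_right_cancel₀ hQdet h2

private theorem ad_bd {a : ℝ} (ha : 0 ≤ a) {n : ℕ} (hn : 4 * N * a + 1 ≤ n)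
    {A B H : Matrix (Fin N) (Fin N) ℂ} (hA : ∀ i j, ‖A i j‖ ≤ a)
    (h : ∀ i j, ((n : ℂ) • H - A * H + H * A) i j = B i j) {b : ℝ} (hb : ∀ i j, ‖B i j‖ ≤ b)
    (i j : Fin N) : ‖H i j‖ ≤ 2 * b / n := by
  obtain ⟨⟨p, q⟩, -, hpq⟩ := Finset.exists_max_image (Finset.univ : Finset (Fin N × Fin N))
    (fun c => ‖H c.1 c.2‖) ⟨(i, j), Finset.mem_univ _⟩
  have hmax : ∀ i j, ‖H i j‖ ≤ ‖H p q‖ := fun i j => hpq (i, j) (Finset.mem_univ _)
  have hn0 : (0 : ℝ) < n := by
    have : 0 ≤ 4 * (N : ℝ) * a := by positivity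
    linarith
  have h1 : (n : ℂ) * H p q = (∑ k, A p k * H k q) - (∑ k, H p k * A k q) + B p q := by
    have h2 := h p q
    rw [Matrix.add_apply, Matrix.sub_apply, Matrix.smul_apply, Matrix.mul_apply, Matrix.mul_apply,
      smul_eq_mul] at h2
    rw [← h2]
    ring
  have h2 : ‖∑ k, A p k * H k q‖ ≤ N * (a * ‖H p q‖) := by
    refine (norm_sum_le _ _).trans ?_
    refine (Finset.sum_le_card_nsmul _ _ (a * ‖H p q‖) fun k _ => ?_).trans ?_
    · rw [norm_mul]
      exact mul_le_mul (hA _ _) (hmax _ _) (norm_nonneg _) ha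
    · rw [Finset.card_univ, Fintype.card_fin, nsmul_eq_mul]
  have h3 : ‖∑ k, H p k * A k q‖ ≤ N * (a * ‖H p q‖) := by
    refine (norm_sum_le _ _).trans ?_
    refine (Finset.sum_le_card_nsmul _ _ (a * ‖H p q‖) fun k _ => ?_).trans ?_
    · rw [norm_mul, mul_comm]
      exact mul_le_mul (hA _ _) (hmax _ _) (norm_nonneg _) ha
    · rw [Finset.card_univ, Fintype.card_fin, nsmul_eq_mul]
  have h4 : (n : ℝ) * ‖H p q‖ ≤ N * (a * ‖H p q‖) + N * (a * ‖H p q‖) + b := by
    calc (n : ℝ) * ‖H p q‖ = ‖(n : ℂ) * H p q‖ := by rw [norm_mul, Complex.norm_natCast]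
      _ = ‖(∑ k, A p k * H k q) - (∑ k, H p k * A k q) + B p q‖ := by rw [h1]
      _ ≤ ‖(∑ k, A p k * H k q) - (∑ k, H p k * A k q)‖ + ‖B p q‖ := norm_add_le _ _
      _ ≤ (‖∑ k, A p k * H k q‖ + ‖∑ k, H p k * A k q‖) + ‖B p q‖ :=
        add_le_add (norm_sub_le _ _) le_rfl
      _ ≤ _ := add_le_add (add_le_add h2 h3) (hb _ _)
  have h5 : ‖H p q‖ ≤ 2 * b / n := by
    rw [le_div_iff₀ hn0]
    have h6 : 4 * (N : ℝ) * a * ‖H p q‖ ≤ n * ‖H p q‖ :=
      mul_le_mul_of_nonneg_right (by linarith) (norm_nonneg _)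
    nlinarith
  exact (hmax i j).trans h5

/-- If `n H = A H - H A + B`, `|A i j| ≤ a`, `|B i j| ≤ b`, and `|H i j| ≤ h` with `h` the maximum, then
`n h ≤ 2 N a h + b`. With `B = 0` this shows that `opM n A` is injective, so `det ≠ 0`. -/
theorem sol_bound (a : ℝ) (ha : 0 ≤ a) (n : ℕ) (hn : 4 * N * a + 1 ≤ n)
    (A : Matrix (Fin N) (Fin N) ℂ) (hA : ∀ i j, ‖A i j‖ ≤ a) :
    (opM (n : ℂ) A).det ≠ 0 ∧ ∀ (B : Matrix (Fin N) (Fin N) ℂ) (b : ℝ), (∀ i j, ‖B i j‖ ≤ b) →
      ∀ i j, ‖sol (n : ℂ) A B i j‖ ≤ 2 * b / n := by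
  have hdet : (opM (n : ℂ) A).det ≠ 0 := by
    intro h0
    obtain ⟨v, hv, hv0⟩ := Matrix.exists_mulVec_eq_zero_iff.2 h0
    apply hv
    have h1 : ∀ i j, ((n : ℂ) • (Matrix.of fun i j => v (i, j)) - A * (Matrix.of fun i j => v (i, j)) +
        (Matrix.of fun i j => v (i, j)) * A) i j = (0 : Matrix (Fin N) (Fin N) ℂ) i j := by
      intro i j
      rw [← opM_mulVec]
      have h2 : (fun a : Fin N × Fin N => (Matrix.of fun i j => v (i, j)) a.1 a.2) = v := by
        funext a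
        rfl
      rw [h2, hv0]
      rfl
    funext c
    have h2 := ad_bd ha hn hA h1 (b := 0) (fun i j => by rw [Matrix.zero_apply, norm_zero]) c.1 c.2
    rw [mul_zero, zero_div] at h2
    have h3 : (Matrix.of fun i j => v (i, j)) c.1 c.2 = v c := rfl
    rw [h3] at h2
    exact norm_le_zero_iff.1 h2
  refine ⟨hdet, fun B b hb i j => ad_bd ha hn hA (H := sol (n : ℂ) A B) (B := B) (fun i j => ?_) hb i j⟩
  have h1 := sol_eq hdet B
  rw [h1]
  simp only [Matrix.add_apply, Matrix.sub_apply]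
  ring

private theorem det_diff {F : Type*} [NormedAddCommGroup F] [NormedSpace ℂ F] {ι : Type*} [Fintype ι]
    [DecidableEq ι] {M : F → Matrix ι ι ℂ} {y : F}
    (h : ∀ i j, DifferentiableAt ℂ (fun y => M y i j) y) :
    DifferentiableAt ℂ (fun y => (M y).det) y := by
  simp only [Matrix.det_apply]
  refine DifferentiableAt.fun_sum fun σ _ => ?_
  refine DifferentiableAt.fun_const_smul ?_ _
  exact (HasFDerivAt.finsetProd (u := Finset.univ) (g := fun i y => M y (σ i) i)
    fun i _ => (h (σ i) i).hasFDerivAt).differentiableAt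

private theorem adj_diff {F : Type*} [NormedAddCommGroup F] [NormedSpace ℂ F] {ι : Type*} [Fintype ι]
    [DecidableEq ι] {M : F → Matrix ι ι ℂ} {y : F}
    (h : ∀ i j, DifferentiableAt ℂ (fun y => M y i j) y) (i j : ι) :
    DifferentiableAt ℂ (fun y => (M y).adjugate i j) y := by
  simp only [Matrix.adjugate_apply]
  refine det_diff fun p q => ?_
  by_cases hp : p = j
  · subst hp
    simp only [Matrix.updateRow_self]
    exact differentiableAt_const _
  · simp only [Matrix.updateRow_ne hp]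
    exact h p q

private theorem opM_diff {F : Type*} [NormedAddCommGroup F] [NormedSpace ℂ F] {n : ℂ}
    {A : F → Matrix (Fin N) (Fin N) ℂ} {y : F} (hA : ∀ i j, DifferentiableAt ℂ (fun y => A y i j) y)
    (a b : Fin N × Fin N) : DifferentiableAt ℂ (fun y => opM n (A y) a b) y := by
  have h1 : (fun y => opM n (A y) a b) = fun y =>
      (n • (1 : Matrix (Fin N × Fin N) (Fin N × Fin N) ℂ)) a b -
      ((if a.2 = b.2 then A y a.1 b.1 else 0) - (if a.1 = b.1 then A y b.2 a.2 else 0)) := rfl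
  rw [h1]
  refine (differentiableAt_const _).fun_sub (DifferentiableAt.fun_sub ?_ ?_)
  · split_ifs
    · exact hA _ _
    · exact differentiableAt_const _
  · split_ifs
    · exact hA _ _
    · exact differentiableAt_const _

private theorem sol_apply (n : ℂ) (A B : Matrix (Fin N) (Fin N) ℂ) (i j : Fin N) :
    sol n A B i j = ∑ c, (opM n A).det⁻¹ * ((opM n A).adjugate (i, j) c * B c.1 c.2) := by
  show (opM n A)⁻¹.mulVec (fun a => B a.1 a.2) (i, j) = _
  rw [Matrix.inv_def, Matrix.mulVec]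
  refine Finset.sum_congr rfl fun c _ => ?_
  show (Ring.inverse (opM n A).det * (opM n A).adjugate (i, j) c) * B c.1 c.2 = _
  rw [Ring.inverse_eq_inv', mul_assoc]

/-- the solution depends differentiably on `A` and `B` -/
theorem sol_diff {F : Type*} [NormedAddCommGroup F] [NormedSpace ℂ F] {n : ℂ}
    {A B : F → Matrix (Fin N) (Fin N) ℂ} {y : F} (hA : ∀ i j, DifferentiableAt ℂ (fun y => A y i j) y)
    (hB : ∀ i j, DifferentiableAt ℂ (fun y => B y i j) y) (h : (opM n (A y)).det ≠ 0) (i j : Fin N) :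
    DifferentiableAt ℂ (fun y => sol n (A y) (B y) i j) y := by
  simp only [sol_apply]
  refine DifferentiableAt.fun_sum fun c _ => ?_
  exact ((det_diff fun a b => opM_diff hA a b).fun_inv h).fun_mul
    ((adj_diff (fun a b => opM_diff hA a b) _ _).fun_mul (hB _ _))

/-- Near a zero of the determinant of order at most `k` the solution has a pole of order at most `k`. -/
theorem sol_pole {ε : ℝ} {n : ℂ} {A B : ℂ → Matrix (Fin N) (Fin N) ℂ}
    (hA : ∀ i j, DifferentiableOn ℂ (fun σ => A σ i j) (Metric.ball 0 ε))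
    (l k : ℕ) (hB : ∀ i j, ∃ F : ℂ → ℂ, DifferentiableOn ℂ F (Metric.ball 0 ε) ∧
      ∀ σ ∈ Metric.ball (0 : ℂ) ε, σ ≠ 0 → F σ = σ ^ l * B σ i j)
    (D : ℂ → ℂ) (hD : DifferentiableOn ℂ D (Metric.ball 0 ε))
    (hDet : ∀ σ ∈ Metric.ball (0 : ℂ) ε, σ ≠ 0 → (opM n (A σ)).det ≠ 0 ∧
      D σ * (opM n (A σ)).det = σ ^ k) (i j : Fin N) :
    ∃ F : ℂ → ℂ, DifferentiableOn ℂ F (Metric.ball 0 ε) ∧
      ∀ σ ∈ Metric.ball (0 : ℂ) ε, σ ≠ 0 → F σ = σ ^ (l + k) * sol n (A σ) (B σ) i j := by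
  choose G hG1 hG2 using hB
  refine ⟨fun σ => ∑ c : Fin N × Fin N, D σ * ((opM n (A σ)).adjugate (i, j) c * G c.1 c.2 σ), ?_, ?_⟩
  · intro σ hσ
    have hn := Metric.isOpen_ball.mem_nhds hσ
    refine DifferentiableAt.differentiableWithinAt ?_
    refine DifferentiableAt.fun_sum fun c _ => ?_
    exact (hD.differentiableAt hn).fun_mul ((adj_diff (fun a b =>
      opM_diff (fun i j => (hA i j).differentiableAt hn) a b) _ _).fun_mul
        ((hG1 _ _).differentiableAt hn))
  · intro σ hσ hσ0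
    obtain ⟨h1, h2⟩ := hDet σ hσ hσ0
    rw [sol_apply, Finset.mul_sum]
    refine Finset.sum_congr rfl fun c _ => ?_
    have h3 : D σ = σ ^ k * (opM n (A σ)).det⁻¹ := by
      rw [← h2, mul_assoc, mul_inv_cancel₀ h1, mul_one]
    rw [h3, hG2 _ _ σ hσ hσ0]
    ring

end Pool.Agent.DSTJ
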