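import Pool.Agent.DSTJ.DetAll

/-!
# DSTJ-CalHol: the calibration is holomorphic in `(y, x)` off the resonances

A locally uniformly absolutely convergent series of holomorphic functions is holomorphic (Cauchy estimate for
the derivatives), and `mm_bound` gives the estimates for the calibration.
-/

set_option autoImplicit false

open scoped BigOperators Topology
open Filter

namespace Pool.Agent.DSTJ

open Pool.Agent.DST.TE

/-- a locally uniformly absolutely convergent series of holomorphic functions of several variables -/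
theorem diff_tsum {E : Type*} [NormedAddCommGroup E] [NormedSpace ℂ E] {f : ℕ → E → ℂ} {x : E} {r : ℝ}
    (hr : 0 < r) (hf : ∀ n, DifferentiableOn ℂ (f n) (Metric.ball x r)) {u : ℕ → ℝ} (hu : Summable u)
    (hfu : ∀ n, ∀ y ∈ Metric.ball x r, ‖f n y‖ ≤ u n) :
    DifferentiableAt ℂ (fun y => ∑' n, f n y) x := by
  have hu0 : ∀ n, 0 ≤ u n := fun n => (norm_nonneg _).trans (hfu n x (Metric.mem_ball_self hr))
  have hr2 : 0 < r / 2 := by linarith
  have hsub : ∀ y ∈ Metric.ball x (r / 2), Metric.ball y (r / 2) ⊆ Metric.ball x r := by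
    intro y hy
    apply Metric.ball_subset_ball'
    have := Metric.mem_ball.1 hy
    linarith
  have h1 : ∀ n, ∀ y ∈ Metric.ball x (r / 2), HasFDerivAt (f n) (fderiv ℂ (f n) y) y := by
    intro n y hy
    have hy' : y ∈ Metric.ball x r := hsub y hy (Metric.mem_ball_self hr2)
    exact ((hf n y hy').differentiableAt (Metric.isOpen_ball.mem_nhds hy')).hasFDerivAt
  have h2 : ∀ n, ∀ y ∈ Metric.ball x (r / 2), ‖fderiv ℂ (f n) y‖ ≤ u n / (r / 2) := by
    intro n y hy
    exact Pool.Agent.WW.T3o.norm_fderiv_le hr2 (hu0 n) ((hf n).mono (hsub y hy))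
      (fun z hz => hfu n z (hsub y hy hz))
  have h3 : Summable fun n => u n / (r / 2) := hu.div_const _
  have h4 : Summable fun n => f n x :=
    Summable.of_norm_bounded hu fun n => hfu n x (Metric.mem_ball_self hr)
  exact (hasFDerivAt_tsum_of_isPreconnected h3 Metric.isOpen_ball
    (convex_ball x (r / 2)).isPreconnected h1 h2 (Metric.mem_ball_self hr2) h4
    (Metric.mem_ball_self hr2)).differentiableAt

namespace Base

variable {m N : ℕ} (D : Base m N)

private theorem cal_bd {y : Fin m → ℂ} (hy : D.NR y) (X : ℝ) (hX : 0 < X) :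
    ∃ r : ℝ, 0 < r ∧ ∃ B : ℝ, ∀ y' ∈ Metric.ball y r, D.NR y' ∧
      ∀ x' : ℂ, ‖x'‖ ≤ X → ∀ n i j, ‖x' ^ n * D.ms y' n i j‖ ≤ B * (1 / 2) ^ n := by
  obtain ⟨r, hr, hsub⟩ := Metric.nhds_basis_closedBall.mem_iff.1 (D.isOpen_NR.mem_nhds hy)
  obtain ⟨B, hB⟩ := mm_bound (C := D.C) (K := D.K) D.C_big (isCompact_closedBall y r)
    (fun n i j y' _ => D.C_hol n i j y') (fun y' hy' n hn => D.nr_det (hsub hy') n hn) (2 * X)
    (by linarith)
  refine ⟨r, hr, B, fun y' hy' => ⟨hsub (Metric.ball_subset_closedBall hy'), ?_⟩⟩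
  intro x' hx' n i j
  have h1 := hB y' (Metric.ball_subset_closedBall hy') n i j
  have h2 : ‖x' ^ n * D.ms y' n i j‖ ≤ X ^ n * ‖D.ms y' n i j‖ := by
    rw [norm_mul, norm_pow]
    exact mul_le_mul_of_nonneg_right (pow_le_pow_left₀ (norm_nonneg _) hx' n) (norm_nonneg _)
  refine h2.trans ?_
  have h3 : ‖D.ms y' n i j‖ * (2 * X) ^ n ≤ B := h1
  have h4 : X ^ n * ‖D.ms y' n i j‖ = (‖D.ms y' n i j‖ * (2 * X) ^ n) * (1 / 2) ^ n := by
    rw [mul_pow, mul_assoc, mul_assoc, mul_comm (X ^ n) ((1 / 2 : ℝ) ^ n), ← mul_assoc ((2 : ℝ) ^ n),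
      ← mul_pow]
    norm_num
    ring
  rw [h4]
  exact mul_le_mul_of_nonneg_right h3 (by positivity)

private theorem half_sum (B : ℝ) : Summable fun n : ℕ => B * (1 / 2 : ℝ) ^ n :=
  (summable_geometric_of_lt_one (by norm_num) (by norm_num)).mul_left B

theorem cal_diff {y : Fin m → ℂ} (hy : D.NR y) (x : ℂ) (i j : Fin N) :
    DifferentiableAt ℂ (fun q : (Fin m → ℂ) × ℂ => D.cal q.1 q.2 i j) (y, x) := by
  obtain ⟨r, hr, B, hB⟩ := D.cal_bd hy (‖x‖ + 1) (by positivity)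
  have hr1 : 0 < min r 1 := lt_min hr one_pos
  have hb : ∀ q ∈ Metric.ball ((y, x) : (Fin m → ℂ) × ℂ) (min r 1),
      q.1 ∈ Metric.ball y r ∧ ‖q.2‖ ≤ ‖x‖ + 1 := by
    intro q hq
    have h1 := Metric.mem_ball.1 hq
    rw [Prod.dist_eq] at h1
    have h2 : dist q.1 y < min r 1 := lt_of_le_of_lt (le_max_left _ _) h1
    have h3 : dist q.2 x < min r 1 := lt_of_le_of_lt (le_max_right _ _) h1
    refine ⟨Metric.mem_ball.2 (lt_of_lt_of_le h2 (min_le_left _ _)), ?_⟩
    have h4 : dist q.2 x < 1 := lt_of_lt_of_le h3 (min_le_right _ _)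
    rw [dist_eq_norm] at h4
    calc ‖q.2‖ = ‖x + (q.2 - x)‖ := by rw [add_sub_cancel]
      _ ≤ ‖x‖ + ‖q.2 - x‖ := norm_add_le _ _
      _ ≤ ‖x‖ + 1 := by linarith
  refine diff_tsum (f := fun n (q : (Fin m → ℂ) × ℂ) => q.2 ^ n * D.ms q.1 n i j) hr1 ?_
    (half_sum B) ?_
  · intro n q hq
    have h1 := (hB q.1 (hb q hq).1).1
    have h2 : DifferentiableAt ℂ (fun y' : Fin m → ℂ => D.ms y' n i j) q.1 :=
      mm_diff (C := D.C) (fun n i j => D.C_hol n i j q.1) (fun n hn => D.nr_det h1 n hn) n i j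
    have h3 : DifferentiableAt ℂ (fun q : (Fin m → ℂ) × ℂ => D.ms q.1 n i j) q :=
      h2.comp q differentiableAt_fst
    exact ((differentiableAt_snd.pow n).mul h3).differentiableWithinAt
  · intro n q hq
    exact (hB q.1 (hb q hq).1).2 q.2 (hb q hq).2 n i j

theorem cal_summable {y : Fin m → ℂ} (hy : D.NR y) (x : ℂ) (i j : Fin N) :
    Summable fun n => x ^ n * D.ms y n i j := by
  obtain ⟨r, hr, B, hB⟩ := D.cal_bd hy (‖x‖ + 1) (by positivity)
  exact Summable.of_norm_bounded (half_sum B)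
    fun n => (hB y (Metric.mem_ball_self hr)).2 x (by linarith) n i j

theorem cal_zero (y : Fin m → ℂ) : D.cal y 0 = 1 := by
  ext i j
  show ∑' n, (0 : ℂ) ^ n * D.ms y n i j = _
  rw [tsum_eq_single 0]
  · rw [pow_zero, one_mul]
    unfold ms
    rw [mm_zero]
  · intro n hn
    rw [zero_pow hn, zero_mul]

/-- the calibration tends to `1` as `z → ∞` -/
theorem cal_lim {y : Fin m → ℂ} (hy : D.NR y) (i j : Fin N) :
    Tendsto (fun z : ℂ => D.cal y z⁻¹ i j) (Bornology.cobounded ℂ) (𝓝 ((1 : Matrix _ _ ℂ) i j)) := by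
  have h1 : ContinuousAt (fun x : ℂ => D.cal y x i j) 0 := by
    have h2 := (D.cal_diff hy 0 i j).continuousAt
    have h3 : ContinuousAt (fun x : ℂ => ((y, x) : (Fin m → ℂ) × ℂ)) 0 := by fun_prop
    exact ContinuousAt.comp (x := (0 : ℂ)) (f := fun x : ℂ => ((y, x) : (Fin m → ℂ) × ℂ)) h2 h3
  have h4 : Tendsto (fun x : ℂ => D.cal y x i j) (𝓝 0) (𝓝 ((1 : Matrix _ _ ℂ) i j)) := by
    have h5 := h1.tendsto
    rw [D.cal_zero y] at h5
    exact h5
  exact h4.comp tendsto_inv₀_cobounded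

end Base

end Pool.Agent.DSTJ
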