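import Pool.Agent.DSTJ.Peel

/-!
# DSTJ-Core: no resonant polar part

PLAN. `peel` gives `r n = ∑_{p ∈ A} α p u_p (n - nn p)`, so (`E p = q + nn p`)
`so θ r q w = ∑_{p ∈ A} α p • so θ (u p) (E p) w` (interchange of `tsum` and a finite sum, `tsum` shifted by
`nn p`: `∑_n x^n u_{n - nn p} [nn p ≤ n] = x^(nn p) sm u x`; summability from `Fast`). By `h1`, `h2` and the
invertibility of `S w`:
`so θ r' q' w = ∑_{p ∈ A} (dq / d p * α p) • so θ (u' p) (E' p) w` for all `w`.
Suppose some `α p ≠ 0`, `p ∈ A`; take `p₀` among these with `M p₀` maximal. Multiply component `i` by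
`exp (-w θ i) exp (w q') exp (-w M p₀)`, `w = s → +∞` real: the left side is
`sm r' (e^{-s}) i e^{-s M p₀} → 0` (`sm r' (e^{-s}) i → r' 0 i = 0`); on the right the term of `p` is
`(dq / d p * α p) e^{s (M p - M p₀)} sm (u' p) (e^{-s}) i`, which tends to `0` for `M p < M p₀` and to
`(dq / d p₀ * α p₀) u' p₀ 0 i` for `p = p₀` (`hMinj`); so `u' p₀ 0 = 0`, a contradiction.
So `r n = 0` for all `n` (all `α p = 0` for `p ∈ A`); then `so θ r' q' w = 0` for all `w`, so `sm r' x i = 0` for all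
`x ≠ 0`, and the coefficients of the power series vanish (`sm_eq_zero` below; identity theorem or
`HasFPowerSeriesOnBall` / induction on `n` with `sm r' x / x^n → r' n` as `x → 0`).
-/

set_option autoImplicit false

open scoped BigOperators Topology
open Filter

namespace Pool.Agent.DSTJ

variable {N : ℕ}

theorem sm_summable {r : ℕ → Fin N → ℂ} (hr : Fast r) (x : ℂ) (i : Fin N) :
    Summable fun n => x ^ n * r n i := by
  obtain ⟨B, hB⟩ := hr (2 * ‖x‖ + 1) (by positivity)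
  refine Summable.of_norm_bounded (g := fun n => B * (1 / 2 : ℝ) ^ n)
    ((summable_geometric_of_lt_one (by norm_num) (by norm_num)).mul_left B) fun n => ?_
  have h1 := hB n i
  have h2 : ‖x‖ ^ n ≤ (1 / 2 : ℝ) ^ n * (2 * ‖x‖ + 1) ^ n := by
    rw [← mul_pow]
    apply pow_le_pow_left₀ (norm_nonneg _)
    linarith
  rw [norm_mul, norm_pow]
  calc ‖x‖ ^ n * ‖r n i‖ ≤ ((1 / 2 : ℝ) ^ n * (2 * ‖x‖ + 1) ^ n) * ‖r n i‖ :=
        mul_le_mul_of_nonneg_right h2 (norm_nonneg _)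
    _ = (1 / 2 : ℝ) ^ n * (‖r n i‖ * (2 * ‖x‖ + 1) ^ n) := by ring
    _ ≤ (1 / 2 : ℝ) ^ n * B := mul_le_mul_of_nonneg_left h1 (by positivity)
    _ = B * (1 / 2 : ℝ) ^ n := mul_comm _ _

/-- `∑ x^n r_n → r_0` as `x → 0` -/
theorem sm_tendsto {r : ℕ → Fin N → ℂ} (hr : Fast r) (i : Fin N) :
    Tendsto (fun x : ℂ => sm r x i) (𝓝 0) (𝓝 (r 0 i)) := by
  obtain ⟨B, hB⟩ := hr 2 (by norm_num)
  have h0 : ∑' n, (0 : ℂ) ^ n * r n i = r 0 i := by
    rw [tsum_eq_single 0]
    · simp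
    · intro n hn
      rw [zero_pow hn, zero_mul]
  rw [← h0]
  refine tendsto_tsum_of_dominated_convergence (bound := fun n => B * (1 / 2 : ℝ) ^ n)
    ((summable_geometric_of_lt_one (by norm_num) (by norm_num)).mul_left B) ?_ ?_
  · intro n
    exact ((continuous_id.pow n).mul continuous_const).tendsto (0 : ℂ)
  · filter_upwards [Metric.ball_mem_nhds (0 : ℂ) one_pos] with x hx n
    rw [mem_ball_zero_iff] at hx
    have h1 := hB n i
    have h2 : ‖x‖ ^ n ≤ 1 := pow_le_one₀ (norm_nonneg _) hx.le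
    have h3 : (1 / 2 : ℝ) ^ n * 2 ^ n = 1 := by
      rw [← mul_pow]
      norm_num
    rw [norm_mul, norm_pow]
    calc ‖x‖ ^ n * ‖r n i‖ ≤ 1 * ‖r n i‖ := mul_le_mul_of_nonneg_right h2 (norm_nonneg _)
      _ = ‖r n i‖ * ((1 / 2 : ℝ) ^ n * 2 ^ n) := by rw [h3, one_mul, mul_one]
      _ = (1 / 2 : ℝ) ^ n * (‖r n i‖ * 2 ^ n) := by ring
      _ ≤ (1 / 2 : ℝ) ^ n * B := mul_le_mul_of_nonneg_left h1 (by positivity)
      _ = B * (1 / 2 : ℝ) ^ n := mul_comm _ _

private theorem fast_shift {r : ℕ → Fin N → ℂ} (hr : Fast r) (n : ℕ) :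
    Fast (fun k => r (k + n)) := by
  intro ρ hρ
  obtain ⟨B, hB⟩ := hr ρ hρ
  refine ⟨B / ρ ^ n, fun k i => ?_⟩
  rw [le_div_iff₀ (by positivity), mul_assoc, ← pow_add]
  exact hB (k + n) i

theorem sm_eq_zero {r : ℕ → Fin N → ℂ} (hr : Fast r) (h : ∀ x : ℂ, x ≠ 0 → ∀ i, sm r x i = 0) (n : ℕ) :
    r n = 0 := by
  induction n using Nat.strong_induction_on with
  | _ n ih =>
    funext i
    have h1 : ∀ x : ℂ, x ≠ 0 → sm (fun k => r (k + n)) x i = 0 := by
      intro x hx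
      have h2 := (sm_summable hr x i).sum_add_tsum_nat_add n
      have h3 : ∑ k ∈ Finset.range n, x ^ k * r k i = 0 := by
        refine Finset.sum_eq_zero fun k hk => ?_
        rw [ih k (Finset.mem_range.1 hk)]
        simp
      have h4 : ∑' k, x ^ (k + n) * r (k + n) i = x ^ n * sm (fun k => r (k + n)) x i := by
        unfold sm
        rw [← tsum_mul_left]
        refine tsum_congr fun k => ?_
        rw [pow_add]
        ring
      have h5 : ∑' k, x ^ k * r k i = 0 := h x hx i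
      rw [h3, h4, h5, zero_add] at h2
      rcases mul_eq_zero.1 h2 with h6 | h6
      · exact absurd h6 (pow_ne_zero _ hx)
      · exact h6
    have h7 := (sm_tendsto (fast_shift hr n) i).mono_left (nhdsWithin_le_nhds (s := {0}ᶜ))
    have h8 : Tendsto (fun x : ℂ => sm (fun k => r (k + n)) x i) (𝓝[{0}ᶜ] 0) (𝓝 0) := by
      refine tendsto_const_nhds.congr' ?_
      filter_upwards [self_mem_nhdsWithin] with x hx
      exact (h1 x hx).symm
    have h9 := tendsto_nhds_unique h7 h8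
    simpa using h9

private theorem sm_shift {u : ℕ → Fin N → ℂ} (hu : Fast u) (a : ℂ) (k : ℕ) (x : ℂ) (i : Fin N) :
    HasSum (fun n => x ^ n * (if k ≤ n then a • u (n - k) else 0) i)
      (a * (x ^ k * sm u x i)) := by
  have h1 : HasSum (fun n => x ^ n * u n i) (sm u x i) := (sm_summable hu x i).hasSum
  have h2 : HasSum (fun n => x ^ (n + k) * (if k ≤ n + k then a • u (n + k - k) else 0) i)
      (a * (x ^ k * sm u x i)) := by
    refine ((h1.mul_left (x ^ k)).mul_left a).congr_fun ?_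
    intro n
    rw [if_pos (Nat.le_add_left k n), Nat.add_sub_cancel, Pi.smul_apply, smul_eq_mul, pow_add]
    ring
  have h3 := (hasSum_nat_add_iff (f := fun n => x ^ n * (if k ≤ n then a • u (n - k) else 0) i) k).1 h2
  have h4 : ∑ n ∈ Finset.range k, x ^ n * (if k ≤ n then a • u (n - k) else 0) i = 0 := by
    refine Finset.sum_eq_zero fun n hn => ?_
    rw [if_neg (by
      have := Finset.mem_range.1 hn
      omega)]
    simp
  rw [h4, add_zero] at h3
  exact h3

private theorem so_sum {θ : Fin N → ℂ} {E : Fin N → ℂ} {q : ℂ} {r : ℕ → Fin N → ℂ}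
    (A : Finset (Fin N)) (nn : Fin N → ℕ) (hn : ∀ p ∈ A, E p = q + nn p)
    (u : Fin N → ℕ → Fin N → ℂ) (huF : ∀ p ∈ A, Fast (u p)) (α : Fin N → ℂ)
    (hα : ∀ n, r n = ∑ p ∈ A, if nn p ≤ n then α p • u p (n - nn p) else 0) (w : ℂ) :
    so θ r q w = ∑ p ∈ A, α p • so θ (u p) (E p) w := by
  funext i
  have h1 : HasSum (fun n => ∑ p ∈ A, Complex.exp (-w) ^ n *
      (if nn p ≤ n then α p • u p (n - nn p) else 0) i)
      (∑ p ∈ A, α p * (Complex.exp (-w) ^ nn p * sm (u p) (Complex.exp (-w)) i)) :=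
    hasSum_sum fun p hp => sm_shift (huF p hp) (α p) (nn p) (Complex.exp (-w)) i
  have h2 : sm r (Complex.exp (-w)) i =
      ∑ p ∈ A, α p * (Complex.exp (-w) ^ nn p * sm (u p) (Complex.exp (-w)) i) := by
    rw [← h1.tsum_eq]
    unfold sm
    refine tsum_congr fun n => ?_
    rw [hα n, Finset.sum_apply, Finset.mul_sum]
  rw [Finset.sum_apply]
  unfold so
  rw [h2, Finset.mul_sum, Finset.sum_mul]
  refine Finset.sum_congr rfl fun p hp => ?_
  rw [Pi.smul_apply, smul_eq_mul]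
  have h3 : Complex.exp (-w * E p) = Complex.exp (-w) ^ nn p * Complex.exp (-w * q) := by
    rw [← Complex.exp_nat_mul, ← Complex.exp_add, hn p hp]
    congr 1
    ring
  rw [h3]
  ring

theorem core {θ : Fin N → ℂ} {C : ℕ → Matrix (Fin N) (Fin N) ℂ} {V : Matrix (Fin N) (Fin N) ℂ}
    {E : Fin N → ℂ} (hV : V.det ≠ 0) (hCV : C 0 * V = V * Matrix.diagonal E) {q : ℂ}
    {r : ℕ → Fin N → ℂ} (hr : IsRec C q r) (h0 : r 0 = 0) (A : Finset (Fin N)) (nn : Fin N → ℕ)
    (hA : ∀ p, ∀ n : ℕ, 1 ≤ n → E p = q + n → p ∈ A)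
    (hn : ∀ p ∈ A, 1 ≤ nn p ∧ E p = q + nn p)
    (u : Fin N → ℕ → Fin N → ℂ) (hu : ∀ p ∈ A, IsRec C (E p) (u p))
    (hu0 : ∀ p ∈ A, u p 0 = fun i => V i p) (hrF : Fast r) (huF : ∀ p ∈ A, Fast (u p))
    {q' : ℂ} {r' : ℕ → Fin N → ℂ} (h0' : r' 0 = 0) (hrF' : Fast r') (E' : Fin N → ℂ)
    (M : Fin N → ℕ) (hM : ∀ p ∈ A, 1 ≤ M p ∧ E' p = q' - M p) (hMinj : Set.InjOn M A)
    (u' : Fin N → ℕ → Fin N → ℂ) (huF' : ∀ p ∈ A, Fast (u' p)) (hu0' : ∀ p ∈ A, u' p 0 ≠ 0)
    (S : ℂ → Matrix (Fin N) (Fin N) ℂ) (hS : ∀ w, (S w).det ≠ 0) (d : Fin N → ℂ)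
    (hd : ∀ p ∈ A, d p ≠ 0) {dq : ℂ} (hdq : dq ≠ 0)
    (h1 : ∀ p ∈ A, ∀ w, d p • so θ (u p) (E p) w = (S w).mulVec (so θ (u' p) (E' p) w))
    (h2 : ∀ w, dq • so θ r q w = (S w).mulVec (so θ r' q' w)) :
    (∀ n, r n = 0) ∧ ∀ n, r' n = 0 := by
  have _ := hrF
  obtain ⟨α, hα⟩ := peel hV hCV hr h0 A nn hA hn u hu hu0
  obtain ⟨β, hβ⟩ : ∃ β : Fin N → ℂ, β = fun p => dq / d p * α p := ⟨_, rfl⟩
  have hso := so_sum (θ := θ) A nn (fun p hp => (hn p hp).2) u huF α hα
  -- the relation at the other end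
  have h3 : ∀ w, so θ r' q' w = ∑ p ∈ A, β p • so θ (u' p) (E' p) w := by
    intro w
    have h4 : (S w).mulVec (∑ p ∈ A, β p • so θ (u' p) (E' p) w) =
        ∑ p ∈ A, β p • (S w).mulVec (so θ (u' p) (E' p) w) := by
      rw [Matrix.mulVec_sum]
      refine Finset.sum_congr rfl fun p _ => ?_
      rw [Matrix.mulVec_smul]
    have h5 : (S w).mulVec (so θ r' q' w) = (S w).mulVec (∑ p ∈ A, β p • so θ (u' p) (E' p) w) := by
      rw [← h2 w, h4, hso w, Finset.smul_sum]
      refine Finset.sum_congr rfl fun p hp => ?_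
      rw [← h1 p hp w, smul_smul, smul_smul, hβ]
      congr 1
      have := hd p hp
      field_simp
    have h6 := Matrix.eq_zero_of_mulVec_eq_zero (hS w)
      (v := so θ r' q' w - ∑ p ∈ A, β p • so θ (u' p) (E' p) w) (by
        rw [Matrix.mulVec_sub, h5, sub_self])
    exact sub_eq_zero.1 h6
  -- the relation of the power series
  have h7 : ∀ x : ℂ, x ≠ 0 → ∀ i, sm r' x i = ∑ p ∈ A, β p * ((x⁻¹) ^ M p * sm (u' p) x i) := by
    intro x hx i
    have hw : Complex.exp (-(-Complex.log x)) = x := by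
      rw [neg_neg, Complex.exp_log hx]
    have h8 := congrFun (h3 (-Complex.log x)) i
    rw [Finset.sum_apply] at h8
    unfold so at h8
    rw [hw] at h8
    have h9 : ∀ p ∈ A, (β p • (fun i => Complex.exp (-Complex.log x * θ i) * sm (u' p) x i *
        Complex.exp (-(-Complex.log x) * E' p))) i =
        Complex.exp (-Complex.log x * θ i) * Complex.exp (-(-Complex.log x) * q') *
          (β p * ((x⁻¹) ^ M p * sm (u' p) x i)) := by
      intro p hp
      have h10 : Complex.exp (-(-Complex.log x) * E' p) =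
          Complex.exp (-(-Complex.log x) * q') * (x⁻¹) ^ M p := by
        have h11 : x⁻¹ = Complex.exp (-Complex.log x) := by
          rw [Complex.exp_neg, Complex.exp_log hx]
        rw [h11, ← Complex.exp_nat_mul, ← Complex.exp_add, (hM p hp).2]
        congr 1
        ring
      rw [Pi.smul_apply, smul_eq_mul, h10]
      ring
    rw [Finset.sum_congr rfl h9, ← Finset.mul_sum] at h8
    have h12 : Complex.exp (-Complex.log x * θ i) * Complex.exp (-(-Complex.log x) * q') ≠ 0 :=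
      mul_ne_zero (Complex.exp_ne_zero _) (Complex.exp_ne_zero _)
    apply mul_left_cancel₀ h12
    rw [← h8]
    ring
  -- all coefficients vanish
  have hβ0 : ∀ p ∈ A, β p = 0 := by
    by_contra hcon
    push Not at hcon
    obtain ⟨p1, hp1, hβ1⟩ := hcon
    obtain ⟨p0, hp0, hmax⟩ := Finset.exists_max_image (A.filter fun p => β p ≠ 0) M
      ⟨p1, Finset.mem_filter.2 ⟨hp1, hβ1⟩⟩
    rw [Finset.mem_filter] at hp0
    apply hu0' p0 hp0.1
    funext i
    have h8 : ∀ x : ℂ, x ≠ 0 → x ^ M p0 * sm r' x i =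
        ∑ p ∈ A, β p * (x ^ (M p0 - M p) * sm (u' p) x i) := by
      intro x hx
      rw [h7 x hx i, Finset.mul_sum]
      refine Finset.sum_congr rfl fun p hp => ?_
      by_cases hb : β p = 0
      · rw [hb]
        ring
      · have h9 : M p ≤ M p0 := hmax p (Finset.mem_filter.2 ⟨hp, hb⟩)
        have h10 : x ^ M p0 = x ^ (M p0 - M p) * x ^ M p := by
          rw [← pow_add, Nat.sub_add_cancel h9]
        rw [h10]
        have h11 : x ^ M p * (x⁻¹) ^ M p = 1 := by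
          rw [← mul_pow, mul_inv_cancel₀ hx, one_pow]
        calc x ^ (M p0 - M p) * x ^ M p * (β p * ((x⁻¹) ^ M p * sm (u' p) x i))
            = β p * (x ^ (M p0 - M p) * (x ^ M p * (x⁻¹) ^ M p) * sm (u' p) x i) := by ring
          _ = _ := by rw [h11, mul_one]
    have hpow : ∀ k : ℕ, Tendsto (fun x : ℂ => x ^ k) (𝓝[{0}ᶜ] 0) (𝓝 (0 ^ k)) := fun k =>
      ((continuous_pow k).tendsto (0 : ℂ)).mono_left nhdsWithin_le_nhds
    have hL : Tendsto (fun x : ℂ => x ^ M p0 * sm r' x i) (𝓝[{0}ᶜ] 0) (𝓝 (0 ^ M p0 * r' 0 i)) :=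
      (hpow _).mul ((sm_tendsto hrF' i).mono_left nhdsWithin_le_nhds)
    have hR : Tendsto (fun x : ℂ => ∑ p ∈ A, β p * (x ^ (M p0 - M p) * sm (u' p) x i)) (𝓝[{0}ᶜ] 0)
        (𝓝 (∑ p ∈ A, β p * (0 ^ (M p0 - M p) * u' p 0 i))) :=
      tendsto_finsetSum _ fun p hp => ((hpow _).mul
        ((sm_tendsto (huF' p hp) i).mono_left nhdsWithin_le_nhds)).const_mul _
    have hR' : Tendsto (fun x : ℂ => x ^ M p0 * sm r' x i) (𝓝[{0}ᶜ] 0)
        (𝓝 (∑ p ∈ A, β p * (0 ^ (M p0 - M p) * u' p 0 i))) := by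
      refine hR.congr' ?_
      filter_upwards [self_mem_nhdsWithin] with x hx
      exact (h8 x hx).symm
    have h9 := tendsto_nhds_unique hL hR'
    rw [h0', Finset.sum_eq_single p0] at h9
    · rw [Nat.sub_self, pow_zero, one_mul] at h9
      have h10 : β p0 * u' p0 0 i = 0 := by
        rw [← h9]
        simp
      rcases mul_eq_zero.1 h10 with h11 | h11
      · exact absurd h11 hp0.2
      · exact h11
    · intro p hp hne
      by_cases hb : β p = 0
      · rw [hb, zero_mul]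
      · have h10 : M p ≤ M p0 := hmax p (Finset.mem_filter.2 ⟨hp, hb⟩)
        have h11 : M p ≠ M p0 := fun h => hne (hMinj hp hp0.1 h)
        rw [zero_pow (by omega), zero_mul, mul_zero]
    · intro h
      exact absurd hp0.1 h
  have hα0 : ∀ p ∈ A, α p = 0 := by
    intro p hp
    have h8 := hβ0 p hp
    rw [hβ] at h8
    rcases mul_eq_zero.1 h8 with h9 | h9
    · exact absurd h9 (div_ne_zero hdq (hd p hp))
    · exact h9
  constructor
  · intro n
    rw [hα n]
    refine Finset.sum_eq_zero fun p hp => ?_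
    rw [hα0 p hp, zero_smul, ite_self]
  · apply sm_eq_zero hrF'
    intro x hx i
    rw [h7 x hx i]
    refine Finset.sum_eq_zero fun p hp => ?_
    rw [hβ0 p hp, zero_mul]

end Pool.Agent.DSTJ
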