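import Mathlib

/-!
# DSTJ-Seq: sequences of coefficients (definitions)

`r` is a sequence of vectors, `so θ r e w = e^{wθ} (∑ r_n e^{-nw}) e^{-we}` the corresponding solution of
`dJ/dw = (θ - e^{-w} C) J`, `C_k` the graded pieces of `C`.
-/

set_option autoImplicit false

open scoped BigOperators Topology
open Filter

namespace Pool.Agent.DSTJ

variable {N : ℕ}

/-- `(n + e) r_n = ∑_{k ≤ n} C_k r_{n-k}` -/
def IsRec (C : ℕ → Matrix (Fin N) (Fin N) ℂ) (e : ℂ) (r : ℕ → Fin N → ℂ) : Prop :=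
  ∀ n : ℕ, ((n : ℂ) + e) • r n = ∑ k ∈ Finset.range (n + 1), (C k).mulVec (r (n - k))

/-- super-exponential decay -/
def Fast (r : ℕ → Fin N → ℂ) : Prop :=
  ∀ ρ : ℝ, 0 < ρ → ∃ B : ℝ, ∀ n i, ‖r n i‖ * ρ ^ n ≤ B

/-- the power series `∑ x^n r_n` -/
noncomputable def sm (r : ℕ → Fin N → ℂ) (x : ℂ) (i : Fin N) : ℂ := ∑' n, x ^ n * r n i

/-- the solution attached to the sequence `r` and the exponent `e` -/
noncomputable def so (θ : Fin N → ℂ) (r : ℕ → Fin N → ℂ) (e w : ℂ) : Fin N → ℂ :=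
  fun i => Complex.exp (w * θ i) * sm r (Complex.exp (-w)) i * Complex.exp (-w * e)

/-- `σ ^ k f(σ)` extends to a holomorphic function on the ball of radius `ε` -/
def Pol (ε : ℝ) (k : ℕ) (f : ℂ → ℂ) : Prop :=
  ∃ F : ℂ → ℂ, DifferentiableOn ℂ F (Metric.ball 0 ε) ∧
    ∀ σ ∈ Metric.ball (0 : ℂ) ε, σ ≠ 0 → F σ = σ ^ k * f σ

/-- The columns of the fundamental solution along the line `y + σ ξ`, `σ ≠ 0` small. -/
structure End (N : ℕ) (ε : ℝ) where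
  /-- the graded pieces of the equation -/
  C : ℕ → ℂ → Matrix (Fin N) (Fin N) ℂ
  /-- the exponents -/
  E : Fin N → ℂ → ℂ
  /-- the coefficients of the columns -/
  x : Fin N → ℕ → ℂ → Fin N → ℂ
  C_cont : ∀ n i j, ContinuousAt (fun σ => C n σ i j) 0
  E_cont : ∀ p, ContinuousAt (E p) 0
  isRec : ∀ σ ∈ Metric.ball (0 : ℂ) ε, σ ≠ 0 → ∀ p,
    IsRec (fun n => C n σ) (E p σ) (fun n => x p n σ)
  x_zero : ∀ p i, DifferentiableOn ℂ (fun σ => x p 0 σ i) (Metric.ball 0 ε)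
  x_det : (Matrix.of fun i p => x p 0 0 i).det ≠ 0
  eig : C 0 0 * (Matrix.of fun i p => x p 0 0 i) =
    (Matrix.of fun i p => x p 0 0 i) * Matrix.diagonal fun p => E p 0
  /-- the poles at `σ = 0` have bounded order -/
  pole : ∃ K : ℕ, ∀ p n i, Pol ε K fun σ => x p n σ i
  /-- uniform decay on a small circle -/
  fast : ∃ ε' : ℝ, 0 < ε' ∧ ε' < ε ∧ ∀ ρ : ℝ, 0 < ρ → ∃ B : ℝ, ∀ p n i (σ : ℂ), ‖σ‖ = ε' →
    ‖x p n σ i‖ * ρ ^ n ≤ B

end Pool.Agent.DSTJ
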