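import Pool.Agent.DSTJ.Frob
import Pool.Agent.DSTJ.Seq
import Pool.Agent.DST.TorusExt

/-!
# DSTJ-Data: the equation over `ℂ^m` and its solutions (definitions)

`y ∈ ℂ^m`, `λ = y z`, `z = e^w`. `C n y` are the graded pieces of the multiplication by the first Chern
class, `R y` the restriction to the fixed points, `pr (e p) y` the value of the first Chern class at the fixed
point `p`, `w k` the tangent weights.
-/

set_option autoImplicit false

open scoped BigOperators Topology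
open Filter

namespace Pool.Agent.DSTJ

open Pool.Agent.DST.TE

/-- The equation. -/
structure Base (m N : ℕ) where
  θ : Fin N → ℂ
  K : ℕ
  C : ℕ → (Fin m → ℂ) → Matrix (Fin N) (Fin N) ℂ
  C_hol : ∀ n i j, Differentiable ℂ fun y => C n y i j
  C_big : ∀ n, K < n → ∀ y, C n y = 0
  e : Fin N → Fin m → ℤ
  I : Type
  finI : Finite I
  wt : I → Fin m → ℤ
  R : (Fin m → ℂ) → Matrix (Fin N) (Fin N) ℂ
  R_hol : ∀ i j, Differentiable ℂ fun y => R y i j
  R_comm : ∀ y, R y * C 0 y = Matrix.diagonal (fun p => pr (e p) y) * R y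
  R_det : ∀ y, (∀ k, pr (wt k) y ≠ 0) → (R y).det ≠ 0
  ξ : Fin m → ℤ
  ξ_wt : ∀ k, ∑ i, wt k i * ξ i ≠ 0
  ξ_e : Function.Injective fun p => ∑ i, e p i * ξ i

namespace Base

variable {m N : ℕ} (D : Base m N)

/-- no resonance -/
def NR (y : Fin m → ℂ) : Prop := ∀ p q, ∀ n : ℤ, n ≠ 0 → pr (D.e p) y - pr (D.e q) y ≠ n

/-- no tangent weight is integral -/
def W1 (y : Fin m → ℂ) : Prop := ∀ k, ∀ n : ℤ, pr (D.wt k) y ≠ n

/-- no tangent weight is a nonzero integer -/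
def W2 (y : Fin m → ℂ) : Prop := ∀ k, ∀ n : ℤ, n ≠ 0 → pr (D.wt k) y ≠ n

/-- the line `y + σ ξ` -/
noncomputable def ln (y : Fin m → ℂ) (σ : ℂ) : Fin m → ℂ := fun i => y i + σ * (D.ξ i : ℂ)

/-- the coefficients of the calibration -/
noncomputable def ms (y : Fin m → ℂ) : ℕ → Matrix (Fin N) (Fin N) ℂ := mm fun n => D.C n y

/-- the calibration as a function of `x = 1/z` -/
noncomputable def cal (y : Fin m → ℂ) (x : ℂ) : Matrix (Fin N) (Fin N) ℂ :=
  Matrix.of fun i j => ∑' n, x ^ n * D.ms y n i j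

/-- `z^θ 𝓜 z^{-c_1} G` -/
noncomputable def J0 (G : (Fin m → ℂ) → Matrix (Fin N) (Fin N) ℂ) (y : Fin m → ℂ) (w : ℂ) :
    Matrix (Fin N) (Fin N) ℂ :=
  NormedSpace.exp (w • Matrix.diagonal D.θ) * D.cal y (Complex.exp (-w)) *
    NormedSpace.exp (-w • D.C 0 y) * G y

/-- the coefficients of the columns -/
noncomputable def xs (y : Fin m → ℂ) (p : Fin N) (n : ℕ) (i : Fin N) : ℂ :=
  (D.ms y n * (D.R y)⁻¹) i p

end Base

/-- The equation together with the shift operators and the `Γ`-classes. -/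
structure Fro (m N : ℕ) extends Base m N where
  G : (Fin m → ℂ) → Matrix (Fin N) (Fin N) ℂ
  G_hol : ∀ y, toBase.W2 y → ∀ i j, DifferentiableAt ℂ (fun y => G y i j) y
  g : Fin N → (Fin m → ℂ) → ℂ
  g_hol : ∀ y, toBase.W1 y → ∀ p, DifferentiableAt ℂ (g p) y
  g_ne : ∀ y, toBase.W1 y → ∀ p, g p y ≠ 0
  B : (Fin m → ℂ) → Matrix (Fin N) (Fin N) ℂ
  B_per : ∀ y, toBase.W1 y → ∀ j : ℤ, B (toBase.ln y j) = B y
  B_det : ∀ y, toBase.W1 y → (B y).det ≠ 0
  RG : ∀ y, toBase.W1 y → R y * G y = Matrix.diagonal (fun p => g p y) * B y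
  S : (Fin m → ℤ) → (Fin m → ℂ) → ℂ → Matrix (Fin N) (Fin N) ℂ
  S_hol : ∀ μ p q, Differentiable ℂ fun x : (Fin m → ℂ) × ℂ => S μ x.1 x.2 p q
  S_det : ∀ μ y w, (S μ y w).det ≠ 0
  shift : ∀ (μ : Fin m → ℤ) (y : Fin m → ℂ), toBase.W1 y → toBase.NR y →
    toBase.NR (y - cc μ) → ∀ w, toBase.J0 G y w = S μ y w * toBase.J0 G (y - cc μ) w

end Pool.Agent.DSTJ
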