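import Pool.Agent.DSTJ.Data

/-!
# DSTJ-DetAll: the determinant of `H ↦ n H - C_0 H + H C_0`, open sets
-/

set_option autoImplicit false

open scoped BigOperators Topology
open Filter

namespace Pool.Agent.DSTJ

open Pool.Agent.DST.TE

private theorem punct_eq {f g : ℂ → ℂ} (hf : ContinuousAt f 0) (hg : ContinuousAt g 0)
    (h : ∀ᶠ σ in 𝓝[≠] (0 : ℂ), f σ = g σ) : f 0 = g 0 := by
  have h1 : Tendsto f (𝓝[≠] 0) (𝓝 (f 0)) := hf.tendsto.mono_left nhdsWithin_le_nhds
  have h2 : Tendsto g (𝓝[≠] 0) (𝓝 (g 0)) := hg.tendsto.mono_left nhdsWithin_le_nhds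
  exact tendsto_nhds_unique (h1.congr' h) h2

private theorem pr_sub_left {m : ℕ} (a b : Fin m → ℤ) (y : Fin m → ℂ) :
    pr (fun i => a i - b i) y = pr a y - pr b y := by
  simp only [pr, ← Finset.sum_sub_distrib]
  exact Finset.sum_congr rfl fun i _ => by push_cast; ring

namespace Base

variable {m N : ℕ} (D : Base m N)

theorem pr_ln (a : Fin m → ℤ) (y : Fin m → ℂ) (σ : ℂ) :
    pr a (D.ln y σ) = pr a y + σ * ((∑ i, a i * D.ξ i : ℤ) : ℂ) := by
  simp only [pr, ln, mul_add, Finset.sum_add_distrib, Int.cast_sum, Int.cast_mul, Finset.mul_sum]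
  congr 1
  exact Finset.sum_congr rfl fun i _ => by ring

private theorem ln_zero (y : Fin m → ℂ) : D.ln y 0 = y := by
  funext i
  simp [ln]

private theorem ln_cont (y : Fin m → ℂ) : Continuous (D.ln y) := by
  unfold ln
  fun_prop

private theorem ev_ne (a : Fin m → ℤ) (ha : ∑ i, a i * D.ξ i ≠ 0) (y : Fin m → ℂ) :
    ∀ᶠ σ in 𝓝[≠] (0 : ℂ), pr a (D.ln y σ) ≠ 0 := by
  by_cases h : pr a y = 0
  · filter_upwards [self_mem_nhdsWithin] with σ hσ
    rw [D.pr_ln, h, zero_add]
    exact mul_ne_zero hσ (by exact_mod_cast ha)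
  · apply Filter.Eventually.filter_mono nhdsWithin_le_nhds
    have h1 : ContinuousAt (fun σ => pr a (D.ln y σ)) 0 :=
      ((continuous_pr a).comp (D.ln_cont y)).continuousAt
    apply h1.eventually_ne
    rw [D.ln_zero]
    exact h

theorem opM_det_all (y : Fin m → ℂ) (n : ℂ) :
    (opM n (D.C 0 y)).det = ∏ a : Fin N × Fin N, (n - (pr (D.e a.1) y - pr (D.e a.2) y)) := by
  have := D.finI
  have hev : ∀ᶠ σ in 𝓝[≠] (0 : ℂ), ∀ k, pr (D.wt k) (D.ln y σ) ≠ 0 :=
    eventually_all.2 fun k => D.ev_ne (D.wt k) (D.ξ_wt k) y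
  have hC : ∀ i j, Continuous fun σ => D.C 0 (D.ln y σ) i j := fun i j =>
    (D.C_hol 0 i j).continuous.comp (D.ln_cont y)
  have hf : Continuous fun σ => (opM n (D.C 0 (D.ln y σ))).det := by
    apply Continuous.matrix_det
    apply continuous_matrix
    intro a b
    simp only [opM, adM, Matrix.sub_apply, Matrix.smul_apply]
    apply Continuous.sub continuous_const
    apply Continuous.sub
    · split_ifs
      · exact hC _ _
      · exact continuous_const
    · split_ifs
      · exact hC _ _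
      · exact continuous_const
  have hg : Continuous fun σ => ∏ a : Fin N × Fin N,
      (n - (pr (D.e a.1) (D.ln y σ) - pr (D.e a.2) (D.ln y σ))) := by
    apply continuous_finsetProd
    intro a _
    exact continuous_const.sub (((continuous_pr _).comp (D.ln_cont y)).sub
      ((continuous_pr _).comp (D.ln_cont y)))
  have h := punct_eq hf.continuousAt hg.continuousAt (by
    filter_upwards [hev] with σ hσ
    exact opM_det (D.R_det _ hσ) (D.R_comm _))
  simpa only [D.ln_zero] using h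

theorem nr_det {y : Fin m → ℂ} (hy : D.NR y) (n : ℕ) (hn : 1 ≤ n) :
    (opM (n : ℂ) (D.C 0 y)).det ≠ 0 := by
  rw [D.opM_det_all]
  refine Finset.prod_ne_zero_iff.2 fun a _ h => ?_
  refine hy a.1 a.2 n (by exact_mod_cast (Nat.one_le_iff_ne_zero.1 hn)) ?_
  rw [Int.cast_natCast]
  exact (sub_eq_zero.1 h).symm

/-- the differences of the exponents -/
private def df (a : Fin N × Fin N) (i : Fin m) : ℤ := D.e a.1 i - D.e a.2 i

private theorem pr_df (a : Fin N × Fin N) (y : Fin m → ℂ) :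
    pr (D.df a) y = pr (D.e a.1) y - pr (D.e a.2) y := pr_sub_left _ _ _

theorem isOpen_NR : IsOpen {y | D.NR y} := by
  rw [isOpen_iff_mem_nhds]
  intro y hy
  filter_upwards [ev_int D.df (g := fun x => x) (x0 := y) continuousAt_id] with y' hy' p q n hn h
  have h1 := hy' (p, q) n (by rw [pr_df]; exact h)
  rw [pr_df] at h1
  exact hy p q n hn h1

theorem isOpen_W1 : IsOpen {y | D.W1 y} := by
  have := D.finI
  rw [isOpen_iff_mem_nhds]
  intro y hy
  filter_upwards [ev_int D.wt (g := fun x => x) (x0 := y) continuousAt_id] with y' hy' k n h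
  exact hy k n (hy' k n h)

theorem isOpen_W2 : IsOpen {y | D.W2 y} := by
  have := D.finI
  rw [isOpen_iff_mem_nhds]
  intro y hy
  filter_upwards [ev_int D.wt (g := fun x => x) (x0 := y) continuousAt_id] with y' hy' k n hn h
  exact hy k n hn (hy' k n h)

theorem W1.det {y : Fin m → ℂ} (hy : D.W1 y) : (D.R y).det ≠ 0 :=
  D.R_det y fun k h => hy k 0 (by rw [h]; simp)

/-- near every point of the line only the point itself can be resonant -/
theorem nr_ln (y : Fin m → ℂ) : ∃ ε : ℝ, 0 < ε ∧ ∀ σ ∈ Metric.ball (0 : ℂ) ε, σ ≠ 0 →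
    D.NR (D.ln y σ) := by
  have hev := ev_int D.df (g := D.ln y) (x0 := (0 : ℂ)) (D.ln_cont y).continuousAt
  obtain ⟨ε, hε, hball⟩ := Metric.eventually_nhds_iff_ball.1 hev
  refine ⟨ε, hε, fun σ hσ hσ0 p q n hn h => ?_⟩
  have h1 := hball σ hσ (p, q) n (by rw [pr_df]; exact h)
  rw [D.ln_zero, pr_df] at h1
  simp only at h1
  rw [D.pr_ln, D.pr_ln] at h
  have h2 : σ * (((∑ i, D.e p i * D.ξ i : ℤ) : ℂ) - ((∑ i, D.e q i * D.ξ i : ℤ) : ℂ)) = 0 := by
    linear_combination h - h1
  rcases mul_eq_zero.1 h2 with h3 | h3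
  · exact hσ0 h3
  · have h4 : p = q := D.ξ_e (by exact_mod_cast sub_eq_zero.1 h3)
    rw [h4, sub_self] at h1
    exact hn (by exact_mod_cast h1.symm)

end Base

end Pool.Agent.DSTJ
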