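import Pool.Agent.DSTJ.DetAll

/-!
# DSTJ-EndLine: the columns along the line `y + σ ξ`

PLAN. `ε₀`: `W1` is open, `nr_ln`; moreover for `0 < |σ| < ε₀` the determinants `det (opM n (C 0 (ln y σ)))
= ∏ (n - a_pq - σ δ_pq)` (`opM_det_all`, `pr_ln`) have no zero, and at `σ = 0` a zero only if some `a_pq = n`, so for
`n ≤ n₀`. Fields of `End`: `C_cont`, `E_cont` clear; `isRec`: multiply `mm_rec` by `R⁻¹` on the right,
`C_0 R⁻¹ = R⁻¹ diag(pr e)`; `x_zero`: `ms 0 = 1`, `R⁻¹` differentiable (adjugate / det); `x_det`: `det R⁻¹ ≠ 0`;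
`eig` from `R_comm`; `pole`: by induction on `n` with `sol_pole`: for each `n ≥ 1` the function
`D_n(σ) = ∏ over the factors which do not vanish at 0 of 1/(factor) · ∏ over the vanishing factors of (-1/δ_pq)` is
holomorphic on the ball and `D_n(σ) det = σ^{k_n}`, `k_n` = number of the pairs with `a_pq = n` (`δ_pq ≠ 0` for these,
because `p ≠ q` as `n ≠ 0`, `ξ_e`), so `k_n ≤ N^2` and `k_n = 0` for `n > n₀`; the pole order of `ms n` is at most
`∑_{l ≤ n} k_l ≤ N² n₀ =: K` (multiply by further powers of `σ` to get the common `K`); finally multiply by `R⁻¹`;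
`fast`: `ε' = ε/2`, `mm_bound` on the compact circle (image of the circle under `ln y`, inside `NR`), and `R⁻¹`
is bounded there.
-/

set_option autoImplicit false

open scoped BigOperators Topology
open Filter

namespace Pool.Agent.DSTJ

open Pool.Agent.DST.TE

namespace Base

variable {m N : ℕ} (D : Base m N)

private theorem el_pol_mono {ε : ℝ} {k l : ℕ} {f : ℂ → ℂ} (h : Pol ε k f) (hkl : k ≤ l) :
    Pol ε l f := by
  obtain ⟨F, hF, hFf⟩ := h
  refine ⟨fun σ => σ ^ (l - k) * F σ, ?_, ?_⟩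
  · exact (differentiable_id.pow (l - k)).differentiableOn.mul hF
  · intro σ hσ hσ0
    simp only
    rw [hFf σ hσ hσ0, ← mul_assoc, ← pow_add, Nat.sub_add_cancel hkl]

private theorem el_pol_sum {ε : ℝ} {k : ℕ} {ι : Type*} (s : Finset ι) {f : ι → ℂ → ℂ}
    (h : ∀ i ∈ s, Pol ε k (f i)) : Pol ε k (fun σ => ∑ i ∈ s, f i σ) := by
  classical
  choose! F hF hFf using h
  refine ⟨fun σ => ∑ i ∈ s, F i σ, ?_, ?_⟩
  · exact DifferentiableOn.fun_sum fun i hi => hF i hi
  · intro σ hσ hσ0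
    simp only
    rw [Finset.mul_sum]
    exact Finset.sum_congr rfl fun i hi => hFf i hi σ hσ hσ0

private theorem el_pol_mul {ε : ℝ} {k : ℕ} {f g : ℂ → ℂ}
    (hf : DifferentiableOn ℂ f (Metric.ball 0 ε)) (hg : Pol ε k g) :
    Pol ε k (fun σ => f σ * g σ) := by
  obtain ⟨G, hG, hGg⟩ := hg
  refine ⟨fun σ => f σ * G σ, hf.mul hG, ?_⟩
  intro σ hσ hσ0
  simp only
  rw [hGg σ hσ hσ0]
  ring

private theorem el_det_diff {A : ℂ → Matrix (Fin N) (Fin N) ℂ} {s : Set ℂ}
    (hA : ∀ i j, DifferentiableOn ℂ (fun σ => A σ i j) s) :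
    DifferentiableOn ℂ (fun σ => (A σ).det) s := by
  simp only [Matrix.det_apply']
  apply DifferentiableOn.fun_sum
  intro τ _
  apply DifferentiableOn.fun_mul (differentiableOn_const _)
  apply DifferentiableOn.fun_finsetProd
  intro i _
  exact hA _ _

private theorem el_inv_diff {A : ℂ → Matrix (Fin N) (Fin N) ℂ} {s : Set ℂ}
    (hA : ∀ i j, DifferentiableOn ℂ (fun σ => A σ i j) s) (hd : ∀ σ ∈ s, (A σ).det ≠ 0)
    (i j : Fin N) : DifferentiableOn ℂ (fun σ => (A σ)⁻¹ i j) s := by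
  have h1 : (fun σ => (A σ)⁻¹ i j) = fun σ => ((A σ).det)⁻¹ * (A σ).adjugate i j := by
    funext σ
    rw [Matrix.inv_def, Matrix.smul_apply, smul_eq_mul, Ring.inverse_eq_inv']
  rw [h1]
  apply DifferentiableOn.fun_mul
  · exact (el_det_diff hA).fun_inv hd
  · simp only [Matrix.adjugate_apply]
    apply el_det_diff
    intro k l
    by_cases hk : k = j
    · subst hk
      simp only [Matrix.updateRow_self]
      exact differentiableOn_const _
    · simp only [Matrix.updateRow_ne hk]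
      exact hA k l

private theorem el_ln_zero (y : Fin m → ℂ) : D.ln y 0 = y := by
  funext i
  simp [Base.ln]

private theorem el_ln_diff (y : Fin m → ℂ) : Differentiable ℂ fun σ => D.ln y σ := by
  rw [differentiable_pi]
  intro i
  unfold Base.ln
  exact (differentiable_const _).fun_add (differentiable_id.mul (differentiable_const _))

private theorem el_C_diff (y : Fin m → ℂ) (n : ℕ) (i j : Fin N) :
    Differentiable ℂ fun σ => D.C n (D.ln y σ) i j :=
  (D.C_hol n i j).comp (el_ln_diff D y)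

private theorem el_R_diff (y : Fin m → ℂ) (i j : Fin N) :
    Differentiable ℂ fun σ => D.R (D.ln y σ) i j :=
  (D.R_hol i j).comp (el_ln_diff D y)

/-- the eigenvectors -/
private theorem el_eig {y : Fin m → ℂ} (hd : (D.R y).det ≠ 0) :
    D.C 0 y * (D.R y)⁻¹ = (D.R y)⁻¹ * Matrix.diagonal fun p => pr (D.e p) y := by
  have hu : IsUnit (D.R y).det := isUnit_iff_ne_zero.2 hd
  have h1 : (D.R y)⁻¹ * (D.R y * D.C 0 y) * (D.R y)⁻¹ =
      (D.R y)⁻¹ * (Matrix.diagonal (fun p => pr (D.e p) y) * D.R y) * (D.R y)⁻¹ := by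
    rw [D.R_comm y]
  rw [← Matrix.mul_assoc, Matrix.nonsing_inv_mul _ hu, Matrix.one_mul, Matrix.mul_assoc,
    Matrix.mul_assoc, Matrix.mul_nonsing_inv _ hu, Matrix.mul_one] at h1
  exact h1

/-- the recursion of the columns -/
private theorem el_rec {y : Fin m → ℂ} (hd : (D.R y).det ≠ 0) (hNR : D.NR y) (p : Fin N) :
    IsRec (fun n => D.C n y) (pr (D.e p) y) (fun n => D.xs y p n) := by
  intro n
  have h1 := mm_rec (C := fun n => D.C n y) (fun k hk => D.nr_det hNR k hk) n
  have h2 : (n : ℂ) • (D.ms y n * (D.R y)⁻¹) =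
      D.C 0 y * (D.ms y n * (D.R y)⁻¹) -
        (D.ms y n * (D.R y)⁻¹) * Matrix.diagonal (fun p => pr (D.e p) y) +
        ∑ k ∈ Finset.range n, D.C (n - k) y * (D.ms y k * (D.R y)⁻¹) := by
    have h3 : ((n : ℂ) • D.ms y n) * (D.R y)⁻¹ =
        (D.C 0 y * D.ms y n - D.ms y n * D.C 0 y +
          ∑ k ∈ Finset.range n, D.C (n - k) y * D.ms y k) * (D.R y)⁻¹ := by
      unfold Base.ms
      rw [h1]
    rw [Matrix.smul_mul, Matrix.add_mul, Matrix.sub_mul, Matrix.mul_assoc, Matrix.mul_assoc,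
      el_eig D hd, Finset.sum_mul] at h3
    rw [h3, Matrix.mul_assoc]
    congr 1
    apply Finset.sum_congr rfl
    intro k _
    rw [Matrix.mul_assoc]
  have hrefl : ∑ k ∈ Finset.range (n + 1), (D.C k y).mulVec (D.xs y p (n - k)) =
      (D.C 0 y).mulVec (D.xs y p n) +
        ∑ k ∈ Finset.range n, (D.C (n - k) y).mulVec (D.xs y p k) := by
    rw [← Finset.sum_range_reflect, Finset.sum_range_succ]
    rw [add_comm]
    congr 1
    · have e1 : n + 1 - 1 - n = 0 := by omega
      have e2 : n - 0 = n := by omega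
      rw [e1, e2]
    · apply Finset.sum_congr rfl
      intro k hk
      rw [Finset.mem_range] at hk
      have e1 : n + 1 - 1 - k = n - k := by omega
      have e2 : n - (n - k) = k := by omega
      rw [e1, e2]
  funext i
  have h4 := congrFun (congrFun h2 i) p
  rw [hrefl]
  simp only [Pi.smul_apply, Pi.add_apply, Finset.sum_apply, smul_eq_mul]
  have h5 : ∀ k l, (D.C k y).mulVec (D.xs y p l) i = (D.C k y * (D.ms y l * (D.R y)⁻¹)) i p := by
    intro k l
    rw [Matrix.mul_apply]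
    rfl
  rw [h5]
  rw [Finset.sum_congr rfl fun k _ => h5 (n - k) k]
  have h6 : D.xs y p n i = (D.ms y n * (D.R y)⁻¹) i p := rfl
  rw [Matrix.smul_apply, Matrix.add_apply, Matrix.sub_apply, Matrix.mul_diagonal,
    Matrix.sum_apply, smul_eq_mul] at h4
  rw [h6, add_mul, h4]
  ring

/-- the poles of the calibration -/
private theorem el_pole {y : Fin m → ℂ} {ε : ℝ} (hε : 0 < ε)
    (hNR : ∀ σ ∈ Metric.ball (0 : ℂ) ε, σ ≠ 0 → D.NR (D.ln y σ)) :
    ∀ n i j, Pol ε (N * N) fun σ => D.ms (D.ln y σ) n i j := by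
  classical
  set a : Fin N × Fin N → ℂ := fun c => pr (D.e c.1) y - pr (D.e c.2) y with ha
  set δ : Fin N × Fin N → ℂ := fun c =>
    ((∑ i, D.e c.1 i * D.ξ i : ℤ) : ℂ) - ((∑ i, D.e c.2 i * D.ξ i : ℤ) : ℂ) with hδ
  set L : ℕ → ℕ := fun n => ((Finset.univ : Finset (Fin N × Fin N)).filter
    (fun c => ∃ l : ℕ, 1 ≤ l ∧ l ≤ n ∧ a c = l)).card with hL
  set kk : ℕ → ℕ := fun n => ((Finset.univ : Finset (Fin N × Fin N)).filter
    (fun c => a c = (n : ℂ))).card with hkk
  have hLmono : ∀ k n, k ≤ n → L k ≤ L n := by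
    intro k n hkn
    apply Finset.card_le_card
    intro c hc
    rw [Finset.mem_filter] at hc ⊢
    obtain ⟨h1, l, h2, h3, h4⟩ := hc
    exact ⟨h1, l, h2, h3.trans hkn, h4⟩
  have hLstep : ∀ n, L n + kk (n + 1) ≤ L (n + 1) := by
    intro n
    simp only [hL, hkk]
    rw [← Finset.card_union_of_disjoint]
    · apply Finset.card_le_card
      intro c hc
      rw [Finset.mem_union, Finset.mem_filter, Finset.mem_filter] at hc
      rw [Finset.mem_filter]
      rcases hc with ⟨h1, l, h2, h3, h4⟩ | ⟨h1, h2⟩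
      · exact ⟨h1, l, h2, by omega, h4⟩
      · exact ⟨h1, n + 1, by omega, le_rfl, h2⟩
    · rw [Finset.disjoint_left]
      intro c hc hc'
      rw [Finset.mem_filter] at hc hc'
      obtain ⟨_, l, _, h3, h4⟩ := hc
      rw [h4] at hc'
      have h5 : l = n + 1 := by exact_mod_cast hc'.2
      omega
  have hLtop : ∀ n, L n ≤ N * N := by
    intro n
    refine (Finset.card_filter_le _ _).trans ?_
    rw [Finset.card_univ, Fintype.card_prod, Fintype.card_fin]
  have hprln : ∀ σ c, pr (D.e c.1) (D.ln y σ) - pr (D.e c.2) (D.ln y σ) = a c + σ * δ c := by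
    intro σ c
    rw [D.pr_ln, D.pr_ln, ha, hδ]
    ring
  have hfac : ∀ n : ℕ, 1 ≤ n → ∀ c, a c ≠ n → ∀ σ ∈ Metric.ball (0 : ℂ) ε,
      (n : ℂ) - (a c + σ * δ c) ≠ 0 := by
    intro n hn c hc σ hσ
    by_cases hσ0 : σ = 0
    · rw [hσ0, zero_mul, add_zero, sub_ne_zero]
      exact hc.symm
    · have h1 := hNR σ hσ hσ0 c.1 c.2 n (by omega)
      rw [hprln σ c] at h1
      rw [sub_ne_zero]
      intro h2
      apply h1
      rw [← h2]
      norm_cast
  have hδ0 : ∀ n : ℕ, 1 ≤ n → ∀ c, a c = n → δ c ≠ 0 := by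
    intro n hn c hc h0
    have h1 : c.1 = c.2 := by
      apply D.ξ_e
      simp only
      simp only [hδ] at h0
      rw [sub_eq_zero] at h0
      exact_mod_cast h0
    have h2 : a c = 0 := by
      simp only [ha]
      rw [h1, sub_self]
    rw [h2] at hc
    have h3 : (n : ℂ) = 0 := hc.symm
    have h4 : n = 0 := by exact_mod_cast h3
    omega
  -- the inverse of the determinant
  have key : ∀ n : ℕ, 1 ≤ n → ∃ Dn : ℂ → ℂ, DifferentiableOn ℂ Dn (Metric.ball 0 ε) ∧
      ∀ σ ∈ Metric.ball (0 : ℂ) ε, σ ≠ 0 → (opM (n : ℂ) (D.C 0 (D.ln y σ))).det ≠ 0 ∧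
        Dn σ * (opM (n : ℂ) (D.C 0 (D.ln y σ))).det = σ ^ kk n := by
    intro n hn
    refine ⟨fun σ => ∏ c : Fin N × Fin N,
      (if a c = n then (-δ c)⁻¹ else ((n : ℂ) - (a c + σ * δ c))⁻¹), ?_, ?_⟩
    · apply DifferentiableOn.fun_finsetProd
      intro c _
      by_cases hc : a c = n
      · simp only [if_pos hc]
        exact differentiableOn_const _
      · simp only [if_neg hc]
        apply DifferentiableOn.fun_inv
        · exact (differentiable_const _).differentiableOn.fun_sub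
            ((differentiable_const _).differentiableOn.fun_add
              (differentiable_id.differentiableOn.mul (differentiable_const _).differentiableOn))
        · intro σ hσ
          exact hfac n hn c hc σ hσ
    · intro σ hσ hσ0
      refine ⟨D.nr_det (hNR σ hσ hσ0) n hn, ?_⟩
      rw [D.opM_det_all]
      simp only
      rw [← Finset.prod_mul_distrib]
      have h1 : ∀ c ∈ (Finset.univ : Finset (Fin N × Fin N)),
          (if a c = n then (-δ c)⁻¹ else ((n : ℂ) - (a c + σ * δ c))⁻¹) *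
            ((n : ℂ) - (pr (D.e c.1) (D.ln y σ) - pr (D.e c.2) (D.ln y σ))) =
          if a c = n then σ else 1 := by
        intro c _
        rw [hprln σ c]
        by_cases hc : a c = n
        · rw [if_pos hc, if_pos hc, hc]
          have h2 := hδ0 n hn c hc
          field_simp
          ring
        · rw [if_neg hc, if_neg hc]
          exact inv_mul_cancel₀ (hfac n hn c hc σ hσ)
      rw [Finset.prod_congr rfl h1, Finset.prod_ite, Finset.prod_const_one, mul_one,
        Finset.prod_const]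
  have main : ∀ n i j, Pol ε (L n) fun σ => D.ms (D.ln y σ) n i j := by
    intro n
    induction n using Nat.strong_induction_on with
    | _ n ih => ?_
    intro i j
    cases n with
    | zero =>
      refine ⟨fun _ => (1 : Matrix (Fin N) (Fin N) ℂ) i j * 0 ^ 0, differentiableOn_const _, ?_⟩
      intro σ _ _
      have h0 : L 0 = 0 := by
        simp only [hL]
        rw [Finset.card_eq_zero, Finset.filter_eq_empty_iff]
        rintro c _ ⟨l, h1, h2, _⟩
        omega
      rw [h0]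
      have h1 : D.ms (D.ln y σ) 0 = 1 := by
        unfold Base.ms
        rw [mm_zero]
      simp only [h1]
      ring
    | succ n =>
      obtain ⟨Dn, hDn, hDet⟩ := key (n + 1) (by omega)
      have hB : ∀ i j, ∃ F : ℂ → ℂ, DifferentiableOn ℂ F (Metric.ball 0 ε) ∧
          ∀ σ ∈ Metric.ball (0 : ℂ) ε, σ ≠ 0 → F σ = σ ^ (L n) *
            (∑ k : Fin (n + 1), D.C (n + 1 - k) (D.ln y σ) * D.ms (D.ln y σ) k) i j := by
        intro i j
        have h1 : Pol ε (L n) fun σ => ∑ k : Fin (n + 1), ∑ l,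
            D.C (n + 1 - k) (D.ln y σ) i l * D.ms (D.ln y σ) k l j := by
          apply el_pol_sum
          intro k _
          apply el_pol_sum
          intro l _
          apply el_pol_mul (el_C_diff D y _ i l).differentiableOn
          exact el_pol_mono (ih k k.2 l j) (hLmono k n (by have := k.2; omega))
        obtain ⟨F, hF, hFf⟩ := h1
        refine ⟨F, hF, ?_⟩
        intro σ hσ hσ0
        rw [hFf σ hσ hσ0, Matrix.sum_apply]
        simp only [Matrix.mul_apply]
      obtain ⟨F, hF, hFf⟩ := sol_pole (n := ((n + 1 : ℕ) : ℂ))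
        (A := fun σ => D.C 0 (D.ln y σ))
        (B := fun σ => ∑ k : Fin (n + 1), D.C (n + 1 - k) (D.ln y σ) * D.ms (D.ln y σ) k)
        (fun i j => (el_C_diff D y 0 i j).differentiableOn) (L n) (kk (n + 1)) hB Dn hDn hDet i j
      have h2 : Pol ε (L n + kk (n + 1)) fun σ => D.ms (D.ln y σ) (n + 1) i j := by
        refine ⟨F, hF, ?_⟩
        intro σ hσ hσ0
        rw [hFf σ hσ hσ0]
        have h3 : D.ms (D.ln y σ) (n + 1) = sol ((n + 1 : ℕ) : ℂ) (D.C 0 (D.ln y σ))
            (∑ k : Fin (n + 1), D.C (n + 1 - k) (D.ln y σ) * D.ms (D.ln y σ) k) := by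
          unfold Base.ms
          rw [mm_succ]
        simp only [h3]
      exact el_pol_mono h2 (hLstep n)
  intro n i j
  exact el_pol_mono (main n i j) (hLtop n)

theorem exists_end {y : Fin m → ℂ} (hy : D.W1 y) : ∃ ε₀ : ℝ, 0 < ε₀ ∧ ∀ ε : ℝ, 0 < ε → ε ≤ ε₀ →
    (∀ σ ∈ Metric.ball (0 : ℂ) ε, D.W1 (D.ln y σ)) ∧
    (∀ σ ∈ Metric.ball (0 : ℂ) ε, σ ≠ 0 → D.NR (D.ln y σ)) ∧
    ∃ T : End N ε, (∀ n σ, T.C n σ = D.C n (D.ln y σ)) ∧ (∀ p σ, T.E p σ = pr (D.e p) (D.ln y σ)) ∧
      ∀ p n σ, T.x p n σ = D.xs (D.ln y σ) p n := by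
  classical
  obtain ⟨ε₁, hε₁, hW⟩ : ∃ ε₁ : ℝ, 0 < ε₁ ∧ ∀ σ ∈ Metric.ball (0 : ℂ) ε₁, D.W1 (D.ln y σ) := by
    have h1 : IsOpen ((fun σ => D.ln y σ) ⁻¹' {y | D.W1 y}) :=
      D.isOpen_W1.preimage (el_ln_diff D y).continuous
    have h2 : (0 : ℂ) ∈ (fun σ => D.ln y σ) ⁻¹' {y | D.W1 y} := by
      rw [Set.mem_preimage, el_ln_zero]
      exact hy
    obtain ⟨ε₁, h3, h4⟩ := Metric.isOpen_iff.1 h1 0 h2
    exact ⟨ε₁, h3, fun σ hσ => h4 hσ⟩
  obtain ⟨ε₂, hε₂, hN⟩ := D.nr_ln y
  refine ⟨min ε₁ ε₂, lt_min hε₁ hε₂, ?_⟩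
  intro ε hε hεle
  have hW' : ∀ σ ∈ Metric.ball (0 : ℂ) ε, D.W1 (D.ln y σ) := fun σ hσ =>
    hW σ (Metric.ball_subset_ball (hεle.trans (min_le_left _ _)) hσ)
  have hN' : ∀ σ ∈ Metric.ball (0 : ℂ) ε, σ ≠ 0 → D.NR (D.ln y σ) := fun σ hσ hσ0 =>
    hN σ (Metric.ball_subset_ball (hεle.trans (min_le_right _ _)) hσ) hσ0
  have hRdet : ∀ σ ∈ Metric.ball (0 : ℂ) ε, (D.R (D.ln y σ)).det ≠ 0 := fun σ hσ => (hW' σ hσ).det
  have hinv : ∀ i j, DifferentiableOn ℂ (fun σ => (D.R (D.ln y σ))⁻¹ i j) (Metric.ball 0 ε) :=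
    fun i j => el_inv_diff (fun i j => (el_R_diff D y i j).differentiableOn) hRdet i j
  have hx0 : ∀ (p : Fin N) (σ : ℂ) (i : Fin N), D.xs (D.ln y σ) p 0 i = (D.R (D.ln y σ))⁻¹ i p := by
    intro p σ i
    unfold Base.xs Base.ms
    rw [mm_zero, Matrix.one_mul]
  have hmat : (Matrix.of fun i p => D.xs (D.ln y 0) p 0 i) = (D.R y)⁻¹ := by
    ext i p
    rw [Matrix.of_apply, hx0, el_ln_zero]
  have hydet : (D.R y).det ≠ 0 := hy.det
  refine ⟨hW', hN', ⟨?_, ?_⟩⟩
  · refine
      { C := fun n σ => D.C n (D.ln y σ)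
        E := fun p σ => pr (D.e p) (D.ln y σ)
        x := fun p n σ => D.xs (D.ln y σ) p n
        C_cont := ?_
        E_cont := ?_
        isRec := ?_
        x_zero := ?_
        x_det := ?_
        eig := ?_
        pole := ?_
        fast := ?_ }
    · intro n i j
      exact (el_C_diff D y n i j).continuous.continuousAt
    · intro p
      have h1 : (fun σ => pr (D.e p) (D.ln y σ)) =
          fun σ => pr (D.e p) y + σ * ((∑ i, D.e p i * D.ξ i : ℤ) : ℂ) := by
        funext σ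
        rw [D.pr_ln]
      rw [h1]
      fun_prop
    · intro σ hσ hσ0 p
      exact el_rec D (hRdet σ hσ) (hN' σ hσ hσ0) p
    · intro p i
      simp only [hx0]
      exact hinv i p
    · rw [hmat]
      rw [Matrix.det_nonsing_inv]
      exact (isUnit_iff_ne_zero.2 hydet).ringInverse.ne_zero
    · rw [hmat]
      simp only [el_ln_zero]
      exact el_eig D hydet
    · refine ⟨N * N, ?_⟩
      intro p n i
      have h1 : Pol ε (N * N) fun σ => ∑ j, (D.R (D.ln y σ))⁻¹ j p * D.ms (D.ln y σ) n i j := by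
        apply el_pol_sum
        intro j _
        exact el_pol_mul (hinv j p) (el_pole D hε hN' n i j)
      have h2 : (fun σ => D.xs (D.ln y σ) p n i) =
          fun σ => ∑ j, (D.R (D.ln y σ))⁻¹ j p * D.ms (D.ln y σ) n i j := by
        funext σ
        unfold Base.xs
        rw [Matrix.mul_apply]
        exact Finset.sum_congr rfl fun j _ => mul_comm _ _
      rw [h2]
      exact h1
    · refine ⟨ε / 2, by positivity, by linarith, ?_⟩
      intro ρ hρ
      set S : Set ℂ := Metric.sphere 0 (ε / 2) with hS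
      have hSc : IsCompact S := isCompact_sphere _ _
      have hSb : ∀ σ ∈ S, σ ∈ Metric.ball (0 : ℂ) ε ∧ σ ≠ 0 := by
        intro σ hσ
        rw [hS, mem_sphere_zero_iff_norm] at hσ
        constructor
        · rw [mem_ball_zero_iff, hσ]
          linarith
        · rw [← norm_pos_iff, hσ]
          positivity
      obtain ⟨B, hB⟩ := mm_bound (C := fun n y => D.C n y) (K := D.K)
        (s := (fun σ => D.ln y σ) '' S) (fun n hn y => D.C_big n hn y)
        (hSc.image (el_ln_diff D y).continuous) (fun n i j z _ => D.C_hol n i j z)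
        (by
          rintro z ⟨σ, hσ, rfl⟩ n hn
          exact D.nr_det (hN' σ (hSb σ hσ).1 (hSb σ hσ).2) n hn) ρ hρ
      have hRb : ∃ M : ℝ, ∀ σ ∈ S, ∑ i, ∑ j, ‖(D.R (D.ln y σ))⁻¹ i j‖ ≤ M := by
        have hc : ContinuousOn (fun σ => ∑ i, ∑ j, ‖(D.R (D.ln y σ))⁻¹ i j‖) S := by
          refine continuousOn_finsetSum _ fun i _ => continuousOn_finsetSum _ fun j _ => ?_
          exact ((hinv i j).continuousOn.mono fun σ hσ => (hSb σ hσ).1).norm
        obtain ⟨M, hM⟩ := hSc.exists_bound_of_continuousOn hc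
        exact ⟨M, fun σ hσ => (le_abs_self _).trans (hM σ hσ)⟩
      obtain ⟨M, hM⟩ := hRb
      refine ⟨N * (max B 0 * max M 0), ?_⟩
      intro p n i σ hσ
      have hσS : σ ∈ S := by
        rw [hS, mem_sphere_zero_iff_norm]
        exact hσ
      have hRle : ∀ j, ‖(D.R (D.ln y σ))⁻¹ j p‖ ≤ max M 0 := by
        intro j
        have h1 : ‖(D.R (D.ln y σ))⁻¹ j p‖ ≤ ∑ q, ‖(D.R (D.ln y σ))⁻¹ j q‖ :=
          Finset.single_le_sum (f := fun q => ‖(D.R (D.ln y σ))⁻¹ j q‖)
            (fun q _ => norm_nonneg _) (Finset.mem_univ p)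
        have h2 : ∑ q, ‖(D.R (D.ln y σ))⁻¹ j q‖ ≤ ∑ i, ∑ q, ‖(D.R (D.ln y σ))⁻¹ i q‖ :=
          Finset.single_le_sum (f := fun i => ∑ q, ‖(D.R (D.ln y σ))⁻¹ i q‖)
            (fun i _ => Finset.sum_nonneg fun q _ => norm_nonneg _) (Finset.mem_univ j)
        exact (h1.trans (h2.trans (hM σ hσS))).trans (le_max_left _ _)
      have hms : ∀ j, ‖D.ms (D.ln y σ) n i j‖ * ρ ^ n ≤ max B 0 := by
        intro j
        exact (hB (D.ln y σ) ⟨σ, hσS, rfl⟩ n i j).trans (le_max_left _ _)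
      have h3 : ‖D.xs (D.ln y σ) p n i‖ ≤
          ∑ j, ‖D.ms (D.ln y σ) n i j‖ * ‖(D.R (D.ln y σ))⁻¹ j p‖ := by
        unfold Base.xs
        rw [Matrix.mul_apply]
        refine (norm_sum_le _ _).trans (le_of_eq ?_)
        exact Finset.sum_congr rfl fun j _ => norm_mul _ _
      have hρn : 0 < ρ ^ n := pow_pos hρ n
      calc ‖D.xs (D.ln y σ) p n i‖ * ρ ^ n
          ≤ (∑ j, ‖D.ms (D.ln y σ) n i j‖ * ‖(D.R (D.ln y σ))⁻¹ j p‖) * ρ ^ n :=
            mul_le_mul_of_nonneg_right h3 hρn.le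
        _ = ∑ j, (‖D.ms (D.ln y σ) n i j‖ * ρ ^ n) * ‖(D.R (D.ln y σ))⁻¹ j p‖ := by
            rw [Finset.sum_mul]
            exact Finset.sum_congr rfl fun j _ => by ring
        _ ≤ ∑ _j : Fin N, max B 0 * max M 0 := by
            apply Finset.sum_le_sum
            intro j _
            exact mul_le_mul (hms j) (hRle j) (norm_nonneg _) (le_max_right _ _)
        _ = N * (max B 0 * max M 0) := by
            rw [Finset.sum_const, Finset.card_univ, Fintype.card_fin, nsmul_eq_mul]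
  · exact ⟨fun _ _ => rfl, fun _ _ => rfl, fun _ _ _ => rfl⟩

end Base

end Pool.Agent.DSTJ
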