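import Pool.Agent.DSTJ.LineReg

/-!
# DSTJ-Ext: the solutions are holomorphic where no tangent weight is integral

`J y w` is the limit of `J0 (ln y σ) w` as `σ → 0`.  It equals `J0 y w` off the resonances.  Along the lines
`ln y σ` it is differentiable where no tangent weight is integral (`line_bdd` and removable singularities), so
it is the mean value of `J0 (ln y σ) w` over a small circle `|σ| = ε` without resonances, and this mean value
is differentiable in `(y, w)`.  The restriction to the line through `ξ` extends by `torus_ext`.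
-/

set_option autoImplicit false

open scoped BigOperators Topology
open Filter

namespace Pool.Agent.DSTJ

open Pool.Agent.DST.TE

/-- circle integrals of holomorphic functions with parameters -/
private theorem circ_param {m : ℕ} {f : ((Fin m → ℂ) × ℂ) × ℂ → ℂ} {W : Set (((Fin m → ℂ) × ℂ) × ℂ)}
    (hW : IsOpen W) (hf : DifferentiableOn ℂ f W) {q0 : (Fin m → ℂ) × ℂ} {ε : ℝ} (hε : 0 < ε)
    (hs : ∀ s : ℂ, ‖s‖ = ε → (q0, s) ∈ W) :
    DifferentiableAt ℂ
      (fun q : (Fin m → ℂ) × ℂ => ∫ θ in (0 : ℝ)..2 * Real.pi, f (q, circleMap 0 ε θ)) q0 := by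
  set K : Set (((Fin m → ℂ) × ℂ) × ℂ) := (fun s : ℂ => (q0, s)) '' Metric.sphere (0 : ℂ) ε with hK
  have hKc : IsCompact K := (isCompact_sphere (0 : ℂ) ε).image (by fun_prop)
  have hKW : K ⊆ W := by
    rintro _ ⟨s, hs1, rfl⟩
    exact hs s (mem_sphere_zero_iff_norm.1 hs1)
  obtain ⟨δ, hδ, hδW⟩ := hKc.exists_cthickening_subset_open hW hKW
  obtain ⟨C0, hC0⟩ := hKc.cthickening (r := δ) |>.exists_bound_of_continuousOn
    (hf.continuousOn.mono hδW)
  set C : ℝ := max C0 0 with hC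
  have hC00 : 0 ≤ C := le_max_right _ _
  have hball : ∀ q ∈ Metric.ball q0 (δ / 2), ∀ θ : ℝ,
      Metric.ball ((q, circleMap 0 ε θ) : ((Fin m → ℂ) × ℂ) × ℂ) (δ / 2) ⊆
      Metric.cthickening δ K := by
    intro q hq θ z hz
    have hmem : ((q0, circleMap 0 ε θ) : ((Fin m → ℂ) × ℂ) × ℂ) ∈ K := by
      refine ⟨circleMap 0 ε θ, ?_, rfl⟩
      rw [mem_sphere_zero_iff_norm, norm_circleMap_zero, abs_of_pos hε]
    apply Metric.mem_cthickening_of_dist_le z (q0, circleMap 0 ε θ) δ K hmem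
    have h1 : dist z (q, circleMap 0 ε θ) < δ / 2 := Metric.mem_ball.1 hz
    have h2 : dist ((q, circleMap 0 ε θ) : ((Fin m → ℂ) × ℂ) × ℂ) (q0, circleMap 0 ε θ) < δ / 2 := by
      rw [Prod.dist_eq]
      simp only [dist_self]
      rw [max_eq_left dist_nonneg]
      exact Metric.mem_ball.1 hq
    linarith [dist_triangle z (q, circleMap 0 ε θ) (q0, circleMap 0 ε θ)]
  have hfd : ∀ q ∈ Metric.ball q0 (δ / 2), ∀ θ : ℝ,
      ‖fderiv ℂ f (q, circleMap 0 ε θ)‖ ≤ C / (δ / 2) := by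
    intro q hq θ
    refine WW.T3o.norm_fderiv_le (by positivity) hC00
      (hf.mono ((hball q hq θ).trans hδW)) fun z hz => ?_
    exact (hC0 z (hball q hq θ hz)).trans (le_max_left _ _)
  have hmemW : ∀ q ∈ Metric.ball q0 (δ / 2), ∀ θ : ℝ,
      ((q, circleMap 0 ε θ) : ((Fin m → ℂ) × ℂ) × ℂ) ∈ W :=
    fun q hq θ => hδW (hball q hq θ (Metric.mem_ball_self (by positivity)))
  have hcm : Continuous (circleMap (0 : ℂ) ε) := continuous_circleMap 0 ε
  have hcF : ∀ q ∈ Metric.ball q0 (δ / 2), Continuous fun θ : ℝ => f (q, circleMap 0 ε θ) := by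
    intro q hq
    refine hf.continuousOn.comp_continuous (by fun_prop) fun θ => ?_
    exact hmemW q hq θ
  have hmain : HasFDerivAt
      (fun q : (Fin m → ℂ) × ℂ => ∫ θ in (0 : ℝ)..2 * Real.pi, f (q, circleMap 0 ε θ))
      (∫ θ in (0 : ℝ)..2 * Real.pi, (fderiv ℂ f (q0, circleMap 0 ε θ)).comp
        (ContinuousLinearMap.inl ℂ ((Fin m → ℂ) × ℂ) ℂ)) q0 := by
    apply intervalIntegral.hasFDerivAt_integral_of_dominated_of_fderiv_le
      (F := fun q θ => f (q, circleMap 0 ε θ))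
      (F' := fun q θ => (fderiv ℂ f (q, circleMap 0 ε θ)).comp
        (ContinuousLinearMap.inl ℂ ((Fin m → ℂ) × ℂ) ℂ))
      (bound := fun _ => C / (δ / 2))
      (Metric.ball_mem_nhds q0 (by positivity : 0 < δ / 2))
    · filter_upwards [Metric.ball_mem_nhds q0 (by positivity : 0 < δ / 2)] with q hq
      exact (hcF q hq).aestronglyMeasurable
    · exact (hcF q0 (Metric.mem_ball_self (by positivity))).intervalIntegrable _ _
    · have hm : Measurable fun θ : ℝ => fderiv ℂ f (q0, circleMap 0 ε θ) :=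
        (measurable_fderiv ℂ f).comp (Continuous.measurable (by fun_prop))
      have hL : Continuous fun A : (((Fin m → ℂ) × ℂ) × ℂ) →L[ℂ] ℂ =>
          A.comp (ContinuousLinearMap.inl ℂ ((Fin m → ℂ) × ℂ) ℂ) :=
        ((ContinuousLinearMap.compL ℂ ((Fin m → ℂ) × ℂ) (((Fin m → ℂ) × ℂ) × ℂ) ℂ).flip
          (ContinuousLinearMap.inl ℂ ((Fin m → ℂ) × ℂ) ℂ)).continuous
      exact hL.comp_aestronglyMeasurable hm.aestronglyMeasurable
    · refine Eventually.of_forall fun θ _ q hq => ?_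
      calc ‖(fderiv ℂ f (q, circleMap 0 ε θ)).comp (ContinuousLinearMap.inl ℂ ((Fin m → ℂ) × ℂ) ℂ)‖
          ≤ ‖fderiv ℂ f (q, circleMap 0 ε θ)‖ * ‖ContinuousLinearMap.inl ℂ ((Fin m → ℂ) × ℂ) ℂ‖ :=
            ContinuousLinearMap.opNorm_comp_le _ _
        _ ≤ C / (δ / 2) * 1 := by
            apply mul_le_mul (hfd q hq θ) (ContinuousLinearMap.norm_inl_le_one ℂ ((Fin m → ℂ) × ℂ) ℂ)
              (norm_nonneg _) (by positivity)
        _ = C / (δ / 2) := mul_one _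
    · exact continuous_const.intervalIntegrable _ _
    · refine Eventually.of_forall fun θ _ q hq => ?_
      have h1 : HasFDerivAt f (fderiv ℂ f (q, circleMap 0 ε θ)) (q, circleMap 0 ε θ) :=
        ((hf _ (hmemW q hq θ)).differentiableAt (hW.mem_nhds (hmemW q hq θ))).hasFDerivAt
      have h3 : HasFDerivAt (fun q : (Fin m → ℂ) × ℂ => ((q, circleMap 0 ε θ) : ((Fin m → ℂ) × ℂ) × ℂ))
          (ContinuousLinearMap.inl ℂ ((Fin m → ℂ) × ℂ) ℂ) q := hasFDerivAt_prodMk_left q _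
      exact h1.comp q h3
  exact hmain.differentiableAt

variable {m N : ℕ} (D : Fro m N)

private theorem ln_zero (y : Fin m → ℂ) : D.ln y 0 = y := by
  funext i
  simp [Base.ln]

private theorem ln_ln (y : Fin m → ℂ) (σ τ : ℂ) : D.ln (D.ln y σ) τ = D.ln y (σ + τ) := by
  funext i
  simp only [Base.ln]
  ring

private theorem ln_diff : Differentiable ℂ fun p : (Fin m → ℂ) × ℂ => D.ln p.1 p.2 := by
  unfold Base.ln
  fun_prop

private theorem ln_diff' (y : Fin m → ℂ) : Differentiable ℂ fun σ : ℂ => D.ln y σ := by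
  unfold Base.ln
  fun_prop

private theorem w1_w2 {y : Fin m → ℂ} (h : D.W1 y) : D.W2 y := fun k n _ => h k n

/-- the limits of `J0` along the lines -/
private noncomputable def Jl (y : Fin m → ℂ) (w : ℂ) : Matrix (Fin N) (Fin N) ℂ :=
  Matrix.of fun i j => limUnder (𝓝[≠] (0 : ℂ)) fun σ => D.J0 D.G (D.ln y σ) w i j

private theorem Jl_eq {y : Fin m → ℂ} (h2 : D.W2 y) (hr : D.NR y) (w : ℂ) :
    Jl D y w = D.J0 D.G y w := by
  ext i j
  show limUnder (𝓝[≠] (0 : ℂ)) (fun σ => D.J0 D.G (D.ln y σ) w i j) = _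
  apply Tendsto.limUnder_eq
  have h := (D.J0_diff hr (D.G_hol y h2) w i j).continuousAt
  have h3 : ContinuousAt (fun σ : ℂ => ((D.ln y σ, w) : (Fin m → ℂ) × ℂ)) 0 :=
    ((ln_diff' D y).continuous.continuousAt).prodMk continuousAt_const
  have h4 : ((D.ln y 0, w) : (Fin m → ℂ) × ℂ) = (y, w) := by rw [ln_zero]
  have h5 : ContinuousAt (fun σ : ℂ => D.J0 D.G (D.ln y σ) w i j) 0 :=
    ContinuousAt.comp (g := fun q : (Fin m → ℂ) × ℂ => D.J0 D.G q.1 q.2 i j)
      (f := fun σ : ℂ => ((D.ln y σ, w) : (Fin m → ℂ) × ℂ)) (by rw [h4]; exact h) h3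
  have h6 := h5.tendsto.mono_left (nhdsWithin_le_nhds (s := {(0 : ℂ)}ᶜ))
  rwa [ln_zero] at h6

private theorem Jl_diff_line {y : Fin m → ℂ} {σ0 : ℂ} (h1 : D.W1 (D.ln y σ0)) (w : ℂ) (i j : Fin N) :
    DifferentiableAt ℂ (fun σ => Jl D (D.ln y σ) w i j) σ0 := by
  obtain ⟨y1, hy1⟩ : ∃ y1, y1 = D.ln y σ0 := ⟨_, rfl⟩
  rw [← hy1] at h1
  obtain ⟨B, hB⟩ := line_bdd D h1 w i j
  obtain ⟨r1, hr1, hNR⟩ := D.nr_ln y1
  have hW : ∀ᶠ σ in 𝓝 (0 : ℂ), D.W1 (D.ln y1 σ) := by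
    apply (ln_diff' D y1).continuous.continuousAt.eventually
    show ∀ᶠ z in 𝓝 (D.ln y1 0), D.W1 z
    rw [ln_zero]
    exact D.isOpen_W1.mem_nhds h1
  obtain ⟨r, hr, hball⟩ := Metric.eventually_nhds_iff_ball.1
    ((eventually_nhdsWithin_iff.1 hB).and (hW.and (Metric.ball_mem_nhds (0 : ℂ) hr1)))
  have hd : DifferentiableOn ℂ (fun σ => D.J0 D.G (D.ln y1 σ) w i j)
      (Metric.ball (0 : ℂ) r \ {0}) := by
    intro σ hσ
    obtain ⟨hb, hw, hn⟩ := hball σ hσ.1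
    have h3 := D.J0_diff (hNR σ hn hσ.2) (D.G_hol _ (w1_w2 D hw)) w i j
    have h4 : DifferentiableAt ℂ (fun σ : ℂ => ((D.ln y1 σ, w) : (Fin m → ℂ) × ℂ)) σ :=
      ((ln_diff' D y1) σ).prodMk (differentiableAt_const w)
    exact (DifferentiableAt.comp σ (g := fun q : (Fin m → ℂ) × ℂ => D.J0 D.G q.1 q.2 i j)
      (f := fun σ : ℂ => ((D.ln y1 σ, w) : (Fin m → ℂ) × ℂ)) h3 h4).differentiableWithinAt
  have hbd : BddAbove (norm ∘ (fun σ => D.J0 D.G (D.ln y1 σ) w i j) ''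
      (Metric.ball (0 : ℂ) r \ {0})) := by
    refine ⟨B, ?_⟩
    rintro _ ⟨σ, hσ, rfl⟩
    exact (hball σ hσ.1).1 hσ.2
  have H := (Complex.differentiableOn_update_limUnder_of_bddAbove
    (Metric.ball_mem_nhds (0 : ℂ) hr) hd hbd).differentiableAt (Metric.ball_mem_nhds (0 : ℂ) hr)
  have h5 : DifferentiableAt ℂ (fun τ => Jl D (D.ln y1 τ) w i j) 0 := by
    refine H.congr_of_eventuallyEq ?_
    filter_upwards [Metric.ball_mem_nhds (0 : ℂ) hr] with τ hτ
    rcases eq_or_ne τ 0 with rfl | h0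
    · rw [Function.update_self, ln_zero]
      rfl
    · rw [Function.update_of_ne h0, Jl_eq D (w1_w2 D (hball τ hτ).2.1) (hNR τ (hball τ hτ).2.2 h0)]
  have h6 : (fun σ => Jl D (D.ln y σ) w i j) =
      (fun τ => Jl D (D.ln y1 τ) w i j) ∘ fun σ => σ - σ0 := by
    funext σ
    simp only [Function.comp]
    rw [hy1, ln_ln, add_sub_cancel]
  rw [h6]
  refine DifferentiableAt.comp σ0 ?_ (by fun_prop)
  rw [sub_self]
  exact h5

private theorem Jl_diff {y0 : Fin m → ℂ} (h1 : D.W1 y0) (w : ℂ) (i j : Fin N) :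
    DifferentiableAt ℂ (fun x : (Fin m → ℂ) × ℂ => Jl D x.1 x.2 i j) (y0, w) := by
  obtain ⟨r1, hr1, hNR⟩ := D.nr_ln y0
  have hW : ∀ᶠ σ in 𝓝 (0 : ℂ), D.W1 (D.ln y0 σ) := by
    apply (ln_diff' D y0).continuous.continuousAt.eventually
    show ∀ᶠ z in 𝓝 (D.ln y0 0), D.W1 z
    rw [ln_zero]
    exact D.isOpen_W1.mem_nhds h1
  obtain ⟨r2, hr2, hball⟩ := Metric.eventually_nhds_iff_ball.1 hW
  obtain ⟨ε, hε, hε1, hε2⟩ : ∃ ε : ℝ, 0 < ε ∧ ε < r1 ∧ ε < r2 :=
    ⟨min r1 r2 / 2, by positivity, by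
      have := min_le_left r1 r2
      linarith [lt_min hr1 hr2], by
      have := min_le_right r1 r2
      linarith [lt_min hr1 hr2]⟩
  have hc : Continuous fun p : (Fin m → ℂ) × ℂ => D.ln p.1 p.2 := (ln_diff D).continuous
  have hev1 : ∀ᶠ y in 𝓝 y0, ∀ σ ∈ Metric.closedBall (0 : ℂ) ε, D.W1 (D.ln y σ) := by
    refine (isCompact_closedBall (0 : ℂ) ε).eventually_forall_of_forall_eventually ?_
    intro σ hσ
    apply hc.continuousAt.eventually
    refine D.isOpen_W1.mem_nhds ?_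
    apply hball σ
    rw [Metric.mem_closedBall, dist_zero_right] at hσ
    rw [Metric.mem_ball, dist_zero_right]
    linarith
  have hsp : ∀ σ : ℂ, ‖σ‖ = ε → D.NR (D.ln y0 σ) ∧ D.W1 (D.ln y0 σ) := by
    intro σ hσ
    constructor
    · apply hNR σ
      · rw [Metric.mem_ball, dist_zero_right]
        linarith
      · rintro rfl
        rw [norm_zero] at hσ
        linarith
    · apply hball σ
      rw [Metric.mem_ball, dist_zero_right]
      linarith
  have hev2 : ∀ᶠ y in 𝓝 y0, ∀ σ ∈ Metric.sphere (0 : ℂ) ε, D.NR (D.ln y σ) := by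
    refine (isCompact_sphere (0 : ℂ) ε).eventually_forall_of_forall_eventually ?_
    intro σ hσ
    apply hc.continuousAt.eventually
    exact D.isOpen_NR.mem_nhds (hsp σ (mem_sphere_zero_iff_norm.1 hσ)).1
  -- the mean value property
  have key : ∀ᶠ y in 𝓝 y0, ∀ w, Jl D y w i j =
      (2 * Real.pi)⁻¹ • ∫ θ in (0 : ℝ)..2 * Real.pi, D.J0 D.G (D.ln y (circleMap 0 ε θ)) w i j := by
    filter_upwards [hev1, hev2] with y hy1 hy2 w
    have h3 : DiffContOnCl ℂ (fun σ => Jl D (D.ln y σ) w i j) (Metric.ball 0 |ε|) := by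
      rw [abs_of_pos hε]
      apply DifferentiableOn.diffContOnCl
      rw [closure_ball _ hε.ne']
      intro σ hσ
      exact (Jl_diff_line D (hy1 σ hσ) w i j).differentiableWithinAt
    have h4 := h3.circleAverage
    rw [ln_zero] at h4
    rw [← h4, Real.circleAverage_def]
    congr 1
    refine intervalIntegral.integral_congr fun θ _ => ?_
    have h5 : circleMap 0 ε θ ∈ Metric.sphere (0 : ℂ) ε := circleMap_mem_sphere 0 hε.le θ
    show Jl D (D.ln y (circleMap 0 ε θ)) w i j = _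
    rw [Jl_eq D (w1_w2 D (hy1 _ (Metric.sphere_subset_closedBall h5))) (hy2 _ h5)]
  have hcirc : DifferentiableAt ℂ (fun q : (Fin m → ℂ) × ℂ =>
      ∫ θ in (0 : ℝ)..2 * Real.pi, (fun x : ((Fin m → ℂ) × ℂ) × ℂ =>
        D.J0 D.G (D.ln x.1.1 x.2) x.1.2 i j) (q, circleMap 0 ε θ)) (y0, w) := by
    have hcc : Continuous fun x : ((Fin m → ℂ) × ℂ) × ℂ => D.ln x.1.1 x.2 :=
      hc.comp (by fun_prop : Continuous fun x : ((Fin m → ℂ) × ℂ) × ℂ => (x.1.1, x.2))
    refine circ_param (f := fun x : ((Fin m → ℂ) × ℂ) × ℂ => D.J0 D.G (D.ln x.1.1 x.2) x.1.2 i j)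
      (W := {x | D.NR (D.ln x.1.1 x.2)} ∩ {x | D.W1 (D.ln x.1.1 x.2)})
      ((D.isOpen_NR.preimage hcc).inter (D.isOpen_W1.preimage hcc)) ?_ hε ?_
    · rintro x ⟨hx1, hx2⟩
      have h3 := D.J0_diff hx1 (D.G_hol _ (w1_w2 D hx2)) x.1.2 i j
      have h4 : DifferentiableAt ℂ (fun x : ((Fin m → ℂ) × ℂ) × ℂ =>
          ((D.ln x.1.1 x.2, x.1.2) : (Fin m → ℂ) × ℂ)) x := by
        refine DifferentiableAt.prodMk ?_ (by fun_prop)
        exact DifferentiableAt.comp x (g := fun p : (Fin m → ℂ) × ℂ => D.ln p.1 p.2)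
          (f := fun x : ((Fin m → ℂ) × ℂ) × ℂ => (x.1.1, x.2)) ((ln_diff D) _) (by fun_prop)
      exact (DifferentiableAt.comp x (g := fun q : (Fin m → ℂ) × ℂ => D.J0 D.G q.1 q.2 i j)
        (f := fun x : ((Fin m → ℂ) × ℂ) × ℂ => ((D.ln x.1.1 x.2, x.1.2) : (Fin m → ℂ) × ℂ))
        h3 h4).differentiableWithinAt
    · intro s hs
      exact hsp s hs
  refine (hcirc.const_smul ((2 * Real.pi)⁻¹ : ℝ)).congr_of_eventuallyEq ?_
  have h7 : ∀ᶠ x : (Fin m → ℂ) × ℂ in 𝓝 (y0, w), ∀ w, Jl D x.1 w i j =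
      (2 * Real.pi)⁻¹ • ∫ θ in (0 : ℝ)..2 * Real.pi, D.J0 D.G (D.ln x.1 (circleMap 0 ε θ)) w i j :=
    key.prod_inl_nhds w
  filter_upwards [h7] with x hx
  exact hx x.2

theorem exists_J : ∃ J : (Fin m → ℂ) → ℂ → Matrix (Fin N) (Fin N) ℂ,
    (∀ y, D.W1 y → ∀ w p q,
      DifferentiableAt ℂ (fun x : (Fin m → ℂ) × ℂ => J x.1 x.2 p q) (y, w)) ∧
    (∀ y, D.W2 y → D.NR y → ∀ w, J y w = D.J0 D.G y w) ∧
    ∀ y, D.W2 y → D.NR y → ∀ w p q,
      DifferentiableAt ℂ (fun x : (Fin m → ℂ) × ℂ => J x.1 x.2 p q) (y, w) := by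
  refine ⟨Jl D, fun y hy w p q => Jl_diff D hy w p q, fun y h2 hr w => Jl_eq D h2 hr w,
    fun y h2 hr w p q => ?_⟩
  refine (D.J0_diff hr (D.G_hol y h2) w p q).congr_of_eventuallyEq ?_
  have h3 : ∀ᶠ x : (Fin m → ℂ) × ℂ in 𝓝 (y, w), D.W2 x.1 ∧ D.NR x.1 :=
    ((D.isOpen_W2.eventually_mem h2).and (D.isOpen_NR.eventually_mem hr)).prod_inl_nhds w
  filter_upwards [h3] with x hx
  rw [Jl_eq D hx.1 hx.2]

/-- The restriction to the line through `ξ` extends to an entire function. -/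
theorem exists_Jt (hprim : ∀ k, ∀ n : ℤ, ∃ μ : Fin m → ℤ, ∑ i, D.wt k i * μ i = n) :
    ∃ Jt : ℂ → ℂ → Matrix (Fin N) (Fin N) ℂ,
      (∀ p q, Differentiable ℂ fun x : ℂ × ℂ => Jt x.1 x.2 p q) ∧
      ∀ y : ℂ, (y.im ≠ 0 ∨ y = 0) → ∀ w, Jt y w = D.J0 D.G (fun i => y * (D.ξ i : ℂ)) w := by
  obtain ⟨J, hJ1, hJ2, hJ3⟩ := exists_J D
  have hfin : Finite D.I := D.finI
  have hsub : ∀ (l : Fin N × Fin N) (y : Fin m → ℂ),
      pr (fun i => D.e l.1 i - D.e l.2 i) y = pr (D.e l.1) y - pr (D.e l.2) y := by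
    intro l y
    unfold pr
    rw [← Finset.sum_sub_distrib]
    refine Finset.sum_congr rfl fun i _ => ?_
    push_cast
    ring
  have hNR : ∀ y : Fin m → ℂ, (∀ l : Fin N × Fin N, ∀ n : ℤ, n ≠ 0 →
      pr (fun i => D.e l.1 i - D.e l.2 i) y ≠ n) → D.NR y := by
    intro y hy p q n hn
    rw [← hsub (p, q)]
    exact hy (p, q) n hn
  obtain ⟨Jt, hJt1, hJt2⟩ := torus_ext D.wt (fun (l : Fin N × Fin N) i => D.e l.1 i - D.e l.2 i) D.ξ
    hprim D.ξ_wt J D.S D.S_hol (fun y hy w p q => hJ1 y hy w p q)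
    (fun y h2 hr w p q => hJ3 y h2 (hNR y hr) w p q)
    (fun μ y h1 hr hr' w => by
      have h1' : D.W1 (y - cc μ) := by
        intro k n hn
        rw [pr_sub, pr_cc] at hn
        apply h1 k (n + ∑ i, D.wt k i * μ i)
        rw [Int.cast_add, ← hn]
        ring
      rw [hJ2 y (w1_w2 D h1) (hNR y hr) w, hJ2 (y - cc μ) (w1_w2 D h1') (hNR _ hr') w]
      exact D.shift μ y h1 (hNR y hr) (hNR _ hr') w)
  refine ⟨Jt, hJt1, fun y hy w => ?_⟩
  have hint : ∀ a n : ℤ, n ≠ 0 → y * (a : ℂ) ≠ n := by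
    intro a n hn h
    rcases hy with hy | hy
    · have h3 := congrArg Complex.im h
      simp only [Complex.mul_im, Complex.intCast_im, Complex.intCast_re, mul_zero, zero_add] at h3
      rcases mul_eq_zero.1 h3 with h4 | h4
      · exact hy h4
      · have h5 : a = 0 := by exact_mod_cast h4
        rw [h5, Int.cast_zero, mul_zero] at h
        exact hn (by exact_mod_cast h.symm)
    · rw [hy, zero_mul] at h
      exact hn (by exact_mod_cast h.symm)
  have hprl : ∀ a : Fin m → ℤ, pr a (fun i => y * (D.ξ i : ℂ)) = y * ((∑ i, a i * D.ξ i : ℤ) : ℂ) := by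
    intro a
    unfold pr
    push_cast
    rw [Finset.mul_sum]
    refine Finset.sum_congr rfl fun i _ => ?_
    ring
  rw [hJt2 y (fun k n hn => hint _ n hn) w]
  refine hJ2 _ (fun k n hn => ?_) (fun p q n hn => ?_) w
  · rw [hprl]
    exact hint _ n hn
  · rw [← hsub (p, q), hprl]
    exact hint _ n hn

end Pool.Agent.DSTJ
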