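import Pool.Agent.DSTJ.Ad

/-!
# DSTJ-Frob: the coefficients of the Frobenius method
-/

set_option autoImplicit false

open scoped BigOperators Topology
open Filter

namespace Pool.Agent.DSTJ

variable {N : ℕ}

/-- `m_0 = 1`, `n m_n = C_0 m_n - m_n C_0 + ∑_{k < n} C_{n-k} m_k` -/
noncomputable def mm (C : ℕ → Matrix (Fin N) (Fin N) ℂ) : ℕ → Matrix (Fin N) (Fin N) ℂ
  | 0 => 1
  | n + 1 => sol ((n + 1 : ℕ) : ℂ) (C 0) (∑ k : Fin (n + 1), C (n + 1 - k) * mm C k)
decreasing_by exact k.2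

theorem mm_zero (C : ℕ → Matrix (Fin N) (Fin N) ℂ) : mm C 0 = 1 := by rw [mm]

theorem mm_succ (C : ℕ → Matrix (Fin N) (Fin N) ℂ) (n : ℕ) :
    mm C (n + 1) = sol ((n + 1 : ℕ) : ℂ) (C 0) (∑ k : Fin (n + 1), C (n + 1 - k) * mm C k) := by
  rw [mm]

private theorem mm_succ' (C : ℕ → Matrix (Fin N) (Fin N) ℂ) (n : ℕ) :
    mm C (n + 1) = sol ((n + 1 : ℕ) : ℂ) (C 0)
      (∑ k ∈ Finset.range (n + 1), C (n + 1 - k) * mm C k) := by
  rw [mm_succ, Finset.sum_range]

theorem mm_rec {C : ℕ → Matrix (Fin N) (Fin N) ℂ} (h : ∀ n : ℕ, 1 ≤ n → (opM (n : ℂ) (C 0)).det ≠ 0)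
    (n : ℕ) : (n : ℂ) • mm C n =
      C 0 * mm C n - mm C n * C 0 + ∑ k ∈ Finset.range n, C (n - k) * mm C k := by
  cases n with
  | zero =>
    rw [mm_zero]
    simp
  | succ n =>
    rw [mm_succ']
    exact sol_eq (h (n + 1) (Nat.le_add_left 1 n)) _

private theorem ent_sum {ι : Type*} (t : Finset ι) (f : ι → Matrix (Fin N) (Fin N) ℂ) (i j : Fin N) :
    (∑ k ∈ t, f k) i j = ∑ k ∈ t, f k i j := by
  exact Matrix.sum_apply i j t f

theorem mm_diff {F : Type*} [NormedAddCommGroup F] [NormedSpace ℂ F]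
    {C : ℕ → F → Matrix (Fin N) (Fin N) ℂ} {y : F}
    (hC : ∀ n i j, DifferentiableAt ℂ (fun y => C n y i j) y)
    (h : ∀ n : ℕ, 1 ≤ n → (opM (n : ℂ) (C 0 y)).det ≠ 0) (n : ℕ) (i j : Fin N) :
    DifferentiableAt ℂ (fun y => mm (fun n => C n y) n i j) y := by
  induction n using Nat.strong_induction_on generalizing i j with
  | _ n ih =>
    cases n with
    | zero =>
      simp only [mm_zero]
      exact differentiableAt_const _
    | succ n =>
      simp only [mm_succ']
      refine sol_diff (fun i j => hC 0 i j) (fun i j => ?_) (h (n + 1) (Nat.le_add_left 1 n)) i j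
      simp only [ent_sum, Matrix.mul_apply]
      refine DifferentiableAt.fun_sum fun k hk => DifferentiableAt.fun_sum fun l _ => ?_
      exact (hC (n + 1 - k) i l).fun_mul (ih k (Finset.mem_range.1 hk) l j)

private theorem unif {F : Type*} [NormedAddCommGroup F] [NormedSpace ℂ F] {s : Set F}
    (hs : IsCompact s) {f : Fin N → Fin N → F → ℂ}
    (hf : ∀ i j, ∀ y ∈ s, DifferentiableAt ℂ (f i j) y) :
    ∃ M : ℝ, 0 ≤ M ∧ ∀ y ∈ s, ∀ i j, ‖f i j y‖ ≤ M := by
  have hc : ContinuousOn (fun y => ∑ i, ∑ j, ‖f i j y‖) s := by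
    refine continuousOn_finsetSum _ fun i _ => continuousOn_finsetSum _ fun j _ => ?_
    exact ContinuousOn.norm fun y hy => (hf i j y hy).continuousAt.continuousWithinAt
  obtain ⟨M, hM⟩ := hs.exists_bound_of_continuousOn hc
  refine ⟨max M 0, le_max_right _ _, fun y hy i j => ?_⟩
  have h1 : ‖f i j y‖ ≤ ∑ j, ‖f i j y‖ :=
    Finset.single_le_sum (f := fun j => ‖f i j y‖) (fun j _ => norm_nonneg _) (Finset.mem_univ j)
  have h2 : ∑ j, ‖f i j y‖ ≤ ∑ i, ∑ j, ‖f i j y‖ :=
    Finset.single_le_sum (f := fun i => ∑ j, ‖f i j y‖)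
      (fun i _ => Finset.sum_nonneg fun j _ => norm_nonneg _) (Finset.mem_univ i)
  have h3 : ∑ i, ∑ j, ‖f i j y‖ ≤ M := (le_abs_self _).trans (hM y hy)
  exact (h1.trans (h2.trans h3)).trans (le_max_left _ _)

private theorem refl_sum {K : ℕ} {ρ : ℝ} (hρ : 0 < ρ) (n : ℕ) :
    ∑ k ∈ Finset.range n, (if n - k ≤ K then ρ ^ (n - k) else 0) ≤
      ∑ m ∈ Finset.range (K + 1), ρ ^ m := by
  rw [← Finset.sum_filter]
  have hinj : Set.InjOn (fun k => n - k)
      ((Finset.range n).filter (fun k => n - k ≤ K) : Finset ℕ) := by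
    intro k hk l hl hkl
    rw [Finset.mem_coe, Finset.mem_filter, Finset.mem_range] at hk hl
    have h1 : n - k = n - l := hkl
    omega
  rw [← Finset.sum_image (f := fun m => ρ ^ m) hinj]
  refine Finset.sum_le_sum_of_subset_of_nonneg ?_ (fun m _ _ => (pow_pos hρ m).le)
  intro m hm
  obtain ⟨k, hk, rfl⟩ := Finset.mem_image.1 hm
  rw [Finset.mem_filter] at hk
  exact Finset.mem_range.2 (by omega)

/-- Uniform decay on compact sets without resonances.

PLAN. `a` = bound of the entries of `C k y`, `k ≤ K`, `y ∈ s` (compactness). For `n ≥ n₀ = ⌈4 N a⌉ + 1` `sol_bound`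
gives `max |m_n| ≤ (2/n) K N a max_{n-K ≤ k < n} max |m_k|`; for the finitely many `n < n₀` the functions
`y ↦ m_n(y)` are continuous on `s` (the determinants do not vanish), so bounded. Choose `n₁ ≥ n₀` with
`2 K N a ρ^K max(1, 1/ρ)^K / n ≤ 1` for `n ≥ n₁`; then `max_{k ≤ n} |m_k| ρ^k` is constant for `n ≥ n₁`. -/
theorem mm_bound {F : Type*} [NormedAddCommGroup F] [NormedSpace ℂ F]
    {C : ℕ → F → Matrix (Fin N) (Fin N) ℂ} {K : ℕ} (hK : ∀ n, K < n → ∀ y, C n y = 0) {s : Set F}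
    (hs : IsCompact s) (hC : ∀ n i j, ∀ y ∈ s, DifferentiableAt ℂ (fun y => C n y i j) y)
    (h : ∀ y ∈ s, ∀ n : ℕ, 1 ≤ n → (opM (n : ℂ) (C 0 y)).det ≠ 0) (ρ : ℝ) (hρ : 0 < ρ) :
    ∃ B : ℝ, ∀ y ∈ s, ∀ n i j, ‖mm (fun n => C n y) n i j‖ * ρ ^ n ≤ B := by
  -- a bound for the coefficients
  have hCb : ∀ n, ∃ M : ℝ, 0 ≤ M ∧ ∀ y ∈ s, ∀ i j, ‖C n y i j‖ ≤ M := fun n =>
    unif hs (f := fun i j y => C n y i j) (fun i j y hy => hC n i j y hy)
  choose Ca hCa0 hCa using hCb
  obtain ⟨a, ha⟩ : ∃ a : ℝ, a = ∑ k ∈ Finset.range (K + 1), Ca k := ⟨_, rfl⟩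
  have ha0 : 0 ≤ a := by
    rw [ha]
    exact Finset.sum_nonneg fun k _ => hCa0 k
  have hCle : ∀ n, ∀ y ∈ s, ∀ i j, ‖C n y i j‖ ≤ if n ≤ K then a else 0 := by
    intro n y hy i j
    split_ifs with hn
    · refine (hCa n y hy i j).trans ?_
      rw [ha]
      exact Finset.single_le_sum (f := Ca) (fun k _ => hCa0 k)
        (Finset.mem_range.2 (Nat.lt_succ_of_le hn))
    · rw [hK n (by omega) y]
      simp
  -- bounds for the first coefficients
  have hmb : ∀ n, ∃ M : ℝ, 0 ≤ M ∧ ∀ y ∈ s, ∀ i j, ‖mm (fun n => C n y) n i j‖ ≤ M := fun n =>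
    unif hs (f := fun i j y => mm (fun n => C n y) n i j)
      (fun i j y hy => mm_diff (fun n i j => hC n i j y hy) (h y hy) n i j)
  choose Mm hMm0 hMm using hmb
  obtain ⟨S, hS⟩ : ∃ S : ℝ, S = ∑ m ∈ Finset.range (K + 1), ρ ^ m := ⟨_, rfl⟩
  have hS0 : 0 ≤ S := by
    rw [hS]
    exact Finset.sum_nonneg fun m _ => (pow_pos hρ m).le
  obtain ⟨n₀, hn₀⟩ := exists_nat_ge (4 * N * a + 1 + 2 * N * a * S)
  obtain ⟨B, hB⟩ : ∃ B : ℝ, B = ∑ n ∈ Finset.range (n₀ + 1), Mm n * ρ ^ n := ⟨_, rfl⟩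
  have hB0 : 0 ≤ B := by
    rw [hB]
    exact Finset.sum_nonneg fun n _ => mul_nonneg (hMm0 n) (pow_pos hρ n).le
  refine ⟨B, fun y hy n => ?_⟩
  induction n using Nat.strong_induction_on with
  | _ n ih =>
    intro i j
    by_cases hn : n ≤ n₀
    · refine (mul_le_mul_of_nonneg_right (hMm n y hy i j) (pow_pos hρ n).le).trans ?_
      rw [hB]
      exact Finset.single_le_sum (f := fun n => Mm n * ρ ^ n)
        (fun n _ => mul_nonneg (hMm0 n) (pow_pos hρ n).le)
        (Finset.mem_range.2 (Nat.lt_succ_of_le hn))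
    · cases n with
      | zero => exact absurd (Nat.zero_le n₀) hn
      | succ n =>
        have hn1 : ((n₀ : ℕ) : ℝ) ≤ ((n + 1 : ℕ) : ℝ) := by
          exact_mod_cast (by omega : n₀ ≤ n + 1)
        have hNaS : 0 ≤ 2 * N * a * S := by positivity
        have hNa : 0 ≤ 4 * N * a := by positivity
        have hnpos : (0 : ℝ) < ((n + 1 : ℕ) : ℝ) := by
          exact_mod_cast Nat.succ_pos n
        have hA : ∀ i j, ‖C 0 y i j‖ ≤ a := by
          intro i j
          have h1 := hCle 0 y hy i j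
          rw [if_pos (Nat.zero_le K)] at h1
          exact h1
        obtain ⟨-, hsol⟩ := sol_bound a ha0 (n + 1) (by linarith) (C 0 y) hA
        obtain ⟨b, hb⟩ : ∃ b : ℝ, b = ∑ k ∈ Finset.range (n + 1),
            (N * (if n + 1 - k ≤ K then a else 0) * (B / ρ ^ k)) := ⟨_, rfl⟩
        have hbd : ∀ i j, ‖(∑ k ∈ Finset.range (n + 1), C (n + 1 - k) y *
            mm (fun n => C n y) k) i j‖ ≤ b := by
          intro i j
          rw [ent_sum, hb]
          refine (norm_sum_le _ _).trans (Finset.sum_le_sum fun k hk => ?_)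
          rw [Matrix.mul_apply]
          refine (norm_sum_le _ _).trans ?_
          have h1 : ∀ l ∈ (Finset.univ : Finset (Fin N)),
              ‖C (n + 1 - k) y i l * mm (fun n => C n y) k l j‖ ≤
              (if n + 1 - k ≤ K then a else 0) * (B / ρ ^ k) := by
            intro l _
            rw [norm_mul]
            refine mul_le_mul (hCle _ y hy i l) ?_ (norm_nonneg _) (by split_ifs <;> positivity)
            rw [le_div_iff₀ (pow_pos hρ k)]
            exact ih k (Finset.mem_range.1 hk) l j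
          refine (Finset.sum_le_sum h1).trans ?_
          rw [Finset.sum_const, Finset.card_univ, Fintype.card_fin, nsmul_eq_mul, mul_assoc]
        have h2 : ‖mm (fun n => C n y) (n + 1) i j‖ ≤ 2 * b / ((n + 1 : ℕ) : ℝ) := by
          rw [mm_succ' (fun n => C n y) n]
          exact hsol _ b hbd i j
        refine (mul_le_mul_of_nonneg_right h2 (pow_pos hρ (n + 1)).le).trans ?_
        have h3 : b * ρ ^ (n + 1) ≤ N * a * B * S := by
          rw [hb, Finset.sum_mul, hS]
          calc ∑ k ∈ Finset.range (n + 1),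
                (N * (if n + 1 - k ≤ K then a else 0) * (B / ρ ^ k)) * ρ ^ (n + 1)
              = ∑ k ∈ Finset.range (n + 1),
                (N * a * B) * (if n + 1 - k ≤ K then ρ ^ (n + 1 - k) else 0) := by
                refine Finset.sum_congr rfl fun k hk => ?_
                have hk' : k ≤ n + 1 := (Finset.mem_range.1 hk).le
                split_ifs
                · have h4 : ρ ^ (n + 1) = ρ ^ (n + 1 - k) * ρ ^ k := by
                    rw [← pow_add, Nat.sub_add_cancel hk']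
                  rw [h4]
                  have h5 : ρ ^ k ≠ 0 := (pow_pos hρ k).ne'
                  field_simp
                · ring
            _ = (N * a * B) * ∑ k ∈ Finset.range (n + 1),
                (if n + 1 - k ≤ K then ρ ^ (n + 1 - k) else 0) := by
                rw [Finset.mul_sum]
            _ ≤ _ := mul_le_mul_of_nonneg_left (refl_sum hρ (n + 1)) (by positivity)
        calc 2 * b / ((n + 1 : ℕ) : ℝ) * ρ ^ (n + 1)
            = 2 * (b * ρ ^ (n + 1)) / ((n + 1 : ℕ) : ℝ) := by ring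
          _ ≤ 2 * (N * a * B * S) / ((n + 1 : ℕ) : ℝ) :=
            div_le_div_of_nonneg_right (by linarith) hnpos.le
          _ ≤ B := by
            rw [div_le_iff₀ hnpos]
            have h6 : 2 * N * a * S ≤ ((n + 1 : ℕ) : ℝ) := by linarith
            calc 2 * (N * a * B * S) = B * (2 * N * a * S) := by ring
              _ ≤ B * ((n + 1 : ℕ) : ℝ) := mul_le_mul_of_nonneg_left h6 hB0

end Pool.Agent.DSTJ
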