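import Pool.Agent.DSTJ.SpecD

/-!
# DSTJ-GamCls: the classes `e^{t + πi c_1} Γ̂ Ch`
-/

set_option autoImplicit false

open scoped BigOperators Topology
open Filter

namespace Pool.Agent.DSTJ.Spec

open Pool.Agent.Helper18.Dub Pool.Agent.Helper7.DubStokes Pool.Agent.DST.TE

section exp

variable {N : ℕ}

section
open scoped Matrix.Norms.Operator

private theorem semi_exp' {R A D : Matrix (Fin N) (Fin N) ℂ} (h : R * A = D * R) :
    R * NormedSpace.exp A = NormedSpace.exp D * R := by
  have hp : ∀ n : ℕ, R * A ^ n = D ^ n * R := by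
    intro n
    induction n with
    | zero => simp
    | succ n ih => rw [pow_succ, ← mul_assoc, ih, mul_assoc, h, ← mul_assoc, ← pow_succ]
  have h1 := (NormedSpace.exp_series_hasSum_exp' (𝕂 := ℂ) A).mul_left R
  have h2 := (NormedSpace.exp_series_hasSum_exp' (𝕂 := ℂ) D).mul_right R
  have h3 : (fun n : ℕ => R * ((n.factorial : ℂ)⁻¹ • A ^ n)) =
      fun n : ℕ => ((n.factorial : ℂ)⁻¹ • D ^ n) * R := by
    funext n
    rw [mul_smul_comm, smul_mul_assoc, hp]
  rw [h3] at h1
  exact h1.unique h2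

private theorem exp_entry' {E : Type*} [NormedAddCommGroup E] [NormedSpace ℂ E]
    {A : E → Matrix (Fin N) (Fin N) ℂ} {x : E}
    (hA : ∀ i j, DifferentiableAt ℂ (fun x => A x i j) x) (i j : Fin N) :
    DifferentiableAt ℂ (fun x => NormedSpace.exp (A x) i j) x := by
  have h1 : DifferentiableAt ℂ A x :=
    differentiableAt_pi.2 fun i => differentiableAt_pi.2 fun j => hA i j
  have h2 : DifferentiableAt ℂ (fun M : Matrix (Fin N) (Fin N) ℂ => NormedSpace.exp M) (A x) :=
    (NormedSpace.exp_analytic (𝕂 := ℂ) (A x)).differentiableAt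
  have h3 : DifferentiableAt ℂ (fun x => NormedSpace.exp (A x)) x := h2.comp x h1
  exact differentiableAt_pi.1 (differentiableAt_pi.1 h3 i) j

end

theorem semi_exp {R A D : Matrix (Fin N) (Fin N) ℂ} (h : R * A = D * R) :
    R * NormedSpace.exp A = NormedSpace.exp D * R := semi_exp' h

theorem exp_entry {E : Type*} [NormedAddCommGroup E] [NormedSpace ℂ E]
    {A : E → Matrix (Fin N) (Fin N) ℂ} {x : E}
    (hA : ∀ i j, DifferentiableAt ℂ (fun x => A x i j) x) (i j : Fin N) :
    DifferentiableAt ℂ (fun x => NormedSpace.exp (A x) i j) x := exp_entry' hA i j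

theorem mul_entry {E : Type*} [NormedAddCommGroup E] [NormedSpace ℂ E]
    {A B : E → Matrix (Fin N) (Fin N) ℂ} {x : E}
    (hA : ∀ i j, DifferentiableAt ℂ (fun x => A x i j) x)
    (hB : ∀ i j, DifferentiableAt ℂ (fun x => B x i j) x) (i j : Fin N) :
    DifferentiableAt ℂ (fun x => (A x * B x) i j) x := by
  simp only [Matrix.mul_apply]
  exact DifferentiableAt.fun_sum fun k _ => (hA i k).mul (hB k j)

theorem exp_diag (v : Fin N → ℂ) :
    NormedSpace.exp (Matrix.diagonal v) = Matrix.diagonal fun a => Complex.exp (v a) := by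
  rw [Matrix.exp_diagonal]
  congr 1
  funext a
  rw [Pi.coe_exp, Complex.exp_eq_exp_ℂ]

end exp

section cls

variable {N : ℕ} {X : FanoGW (Fin N)} {m : ℕ}

/-- The matrix of the equivariant cup product with `v = ∑ v_a φ_a` at `λ = y`. -/
noncomputable def cupY (T : HData X m) (v : Fin N → ℂ) (y : Fin m → ℂ) :
    Matrix (Fin N) (Fin N) ℂ := ∑ a, v a • evP (gcup T.pairH T.invH a) y

/-- The classes `e^{t + πi c_1} Γ̂ Ch`. -/
noncomputable def gcls (T : HData X m) (t : Fin N → ℂ) (κ : Fin m → ℂ)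
    (Ch : (Fin m → ℂ) → Matrix (Fin N) (Fin N) ℂ) (Gam : (Fin m → ℂ) → Fin N → ℂ)
    (y : Fin m → ℂ) : Matrix (Fin N) (Fin N) ℂ :=
  NormedSpace.exp (cupY T (fun a => t a + Real.pi * Complex.I * X.chern a) y +
      (Real.pi * Complex.I * ∑ i, κ i * y i) • (1 : Matrix (Fin N) (Fin N) ℂ)) *
    cupY T (Gam y) y * Ch y

variable {T : HData X m} {r : Fin N → Fin N → MvPolynomial (Fin m) ℂ}
  {w : Fin N → Fin X.dim → Fin m → ℤ} {κ : Fin m → ℂ} {t : Fin N → ℂ}
  {Ch : (Fin m → ℂ) → Matrix (Fin N) (Fin N) ℂ} {Gam : (Fin m → ℂ) → Fin N → ℂ}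

theorem R_cup (hf : HFix T r w κ) (v : Fin N → ℂ) (y : Fin m → ℂ) :
    Rm r y * cupY T v y =
      Matrix.diagonal (fun p => ∑ a, v a * MvPolynomial.eval y (r p a)) * Rm r y := by
  ext p b
  rw [Matrix.diagonal_mul, Matrix.mul_apply, Finset.sum_mul]
  simp only [cupY, Matrix.sum_apply, Matrix.smul_apply, smul_eq_mul, Finset.mul_sum]
  rw [Finset.sum_comm]
  refine Finset.sum_congr rfl fun a _ => ?_
  have h1 := congrArg (MvPolynomial.eval y) (hf.mul p a b)
  rw [map_mul, map_sum] at h1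
  simp only [Rm, Matrix.of_apply, evP, Matrix.map_apply]
  rw [mul_assoc, h1, Finset.mul_sum]
  refine Finset.sum_congr rfl fun k _ => ?_
  rw [map_mul]
  ring

theorem chern_val (hf : HFix T r w κ) (p : Fin N) (y : Fin m → ℂ) :
    ∑ a, X.chern a * MvPolynomial.eval y (r p a) + ∑ i, κ i * y i = ∑ k, pr (w p k) y := by
  have h1 := congrArg (MvPolynomial.eval y) (hf.chern_res p)
  rw [map_add, map_sum, eval_lin, eval_lin] at h1
  simp only [map_mul, MvPolynomial.eval_C] at h1
  rw [h1]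
  unfold pr
  rw [Finset.sum_comm]
  exact Finset.sum_congr rfl fun i _ => by rw [Finset.sum_mul]

/-- the restrictions of the classes to the fixed points -/
theorem gcls_res (hf : HFix T r w κ) {B : Matrix (Fin N) (Fin N) (RH m)} {y : Fin m → ℂ}
    (hCh : ∀ p i, ∑ a, MvPolynomial.eval y (r p a) * Ch y a i = evK y (B i p))
    (hGam : ∀ p, ∑ a, MvPolynomial.eval y (r p a) * Gam y a =
      ∏ k, Complex.Gamma (1 - pr (w p k) y)) (p i : Fin N) :
    ∑ a, MvPolynomial.eval y (r p a) * gcls T t κ Ch Gam y a i =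
      Complex.exp (∑ a, t a * MvPolynomial.eval y (r p a) +
        Real.pi * Complex.I * ∑ k, pr (w p k) y) *
        evK y (B i p) * ∏ k, Complex.Gamma (1 - pr (w p k) y) := by
  have h1 : Rm r y * (cupY T (fun a => t a + Real.pi * Complex.I * X.chern a) y +
      (Real.pi * Complex.I * ∑ i, κ i * y i) • (1 : Matrix (Fin N) (Fin N) ℂ)) =
      Matrix.diagonal (fun p => ∑ a, t a * MvPolynomial.eval y (r p a) +
        Real.pi * Complex.I * ∑ k, pr (w p k) y) * Rm r y := by
    rw [mul_add, R_cup hf, Matrix.mul_smul, mul_one]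
    ext p b
    rw [Matrix.add_apply, Matrix.diagonal_mul, Matrix.diagonal_mul, Matrix.smul_apply,
      smul_eq_mul, ← chern_val hf p y, ← add_mul]
    have h0 : ∑ a, (t a + Real.pi * Complex.I * X.chern a) * MvPolynomial.eval y (r p a) =
        ∑ a, t a * MvPolynomial.eval y (r p a) +
          Real.pi * Complex.I * ∑ a, X.chern a * MvPolynomial.eval y (r p a) := by
      rw [Finset.mul_sum, ← Finset.sum_add_distrib]
      exact Finset.sum_congr rfl fun a _ => by ring
    rw [h0]
    ring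
  have h2 := semi_exp h1
  rw [exp_diag] at h2
  have h3 : Rm r y * gcls T t κ Ch Gam y =
      Matrix.diagonal (fun p => Complex.exp (∑ a, t a * MvPolynomial.eval y (r p a) +
        Real.pi * Complex.I * ∑ k, pr (w p k) y)) *
      (Matrix.diagonal (fun p => ∑ a, Gam y a * MvPolynomial.eval y (r p a)) *
        (Rm r y * Ch y)) := by
    unfold gcls
    rw [← mul_assoc, ← mul_assoc, h2, mul_assoc _ (Rm r y), R_cup hf]
    simp only [mul_assoc]
  have h4 := congrFun (congrFun h3 p) i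
  rw [Matrix.diagonal_mul, Matrix.diagonal_mul, Matrix.mul_apply, Matrix.mul_apply] at h4
  simp only [Rm, Matrix.of_apply] at h4
  have h5 : ∑ a, Gam y a * MvPolynomial.eval y (r p a) =
      ∏ k, Complex.Gamma (1 - pr (w p k) y) := by
    rw [← hGam p]
    exact Finset.sum_congr rfl fun a _ => mul_comm _ _
  rw [h4, hCh, h5]
  ring

theorem cupY_hol {v : (Fin m → ℂ) → Fin N → ℂ} {y : Fin m → ℂ}
    (hv : ∀ a, DifferentiableAt ℂ (fun y => v y a) y) (i j : Fin N) :
    DifferentiableAt ℂ (fun y => cupY T (v y) y i j) y := by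
  simp only [cupY, Matrix.sum_apply, Matrix.smul_apply, smul_eq_mul]
  refine DifferentiableAt.fun_sum fun a _ => (hv a).mul ?_
  exact diff_evalK _ y

/-- the classes are holomorphic -/
theorem gcls_hol {y : Fin m → ℂ} (hCh : ∀ a i, DifferentiableAt ℂ (fun y => Ch y a i) y)
    (hGam : ∀ a, DifferentiableAt ℂ (fun y => Gam y a) y) (i j : Fin N) :
    DifferentiableAt ℂ (fun y => gcls T t κ Ch Gam y i j) y := by
  have h1 : ∀ i j, DifferentiableAt ℂ
      (fun x => cupY T (fun a => t a + Real.pi * Complex.I * X.chern a) x i j) y :=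
    cupY_hol (v := fun _ a => t a + Real.pi * Complex.I * X.chern a)
      (fun a => differentiableAt_const _)
  have h2 : DifferentiableAt ℂ (fun x : Fin m → ℂ => ∑ i, κ i * x i) y :=
    DifferentiableAt.fun_sum fun i _ => (differentiableAt_apply i y).const_mul (κ i)
  have h3 : ∀ i j, DifferentiableAt ℂ (fun x : Fin m → ℂ =>
      (cupY T (fun a => t a + Real.pi * Complex.I * X.chern a) x +
        (Real.pi * Complex.I * ∑ i, κ i * x i) • (1 : Matrix (Fin N) (Fin N) ℂ)) i j) y := by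
    intro i j
    simp only [Matrix.add_apply, Matrix.smul_apply, smul_eq_mul]
    exact (h1 i j).fun_add ((h2.const_mul _).mul_const _)
  have h4 := fun i j => exp_entry (A := fun x : Fin m → ℂ =>
      cupY T (fun a => t a + Real.pi * Complex.I * X.chern a) x +
        (Real.pi * Complex.I * ∑ i, κ i * x i) • (1 : Matrix (Fin N) (Fin N) ℂ)) h3 i j
  have h5 := fun i j => mul_entry (A := fun x : Fin m → ℂ => NormedSpace.exp
      (cupY T (fun a => t a + Real.pi * Complex.I * X.chern a) x +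
        (Real.pi * Complex.I * ∑ i, κ i * x i) • (1 : Matrix (Fin N) (Fin N) ℂ)))
      (B := fun x => cupY T (Gam x) x) h4 (cupY_hol hGam) i j
  exact mul_entry (A := fun x : Fin m → ℂ => NormedSpace.exp
      (cupY T (fun a => t a + Real.pi * Complex.I * X.chern a) x +
        (Real.pi * Complex.I * ∑ i, κ i * x i) • (1 : Matrix (Fin N) (Fin N) ℂ)) *
      cupY T (Gam x) x) (B := Ch) h5 hCh i j

theorem cupY_zero (h : HAx T) (v : Fin N → ℂ) : cupY T v 0 = cupV X v := by
  ext k b
  simp only [cupY, cupV, Matrix.sum_apply, Matrix.smul_apply, smul_eq_mul, Matrix.of_apply, evP,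
    Matrix.map_apply, gcup, map_sum, map_mul, h.inv_zero]
  have h1 := map_inv (MvPolynomial.eval (0 : Fin m → ℂ)) h.pair_nondeg
  have h2 : T.pairH.map (MvPolynomial.eval (0 : Fin m → ℂ)) = X.pair := by
    ext i j
    exact h.pair_zero i j
  rw [h2] at h1
  rw [h1]
  rfl

/-- the non-equivariant limit of the classes -/
theorem gcls_zero (h : HAx T) {ch : Fin N → Fin N → ℂ}
    (hCh : ∀ a i, Ch 0 a i = (2 * Real.pi * Complex.I) ^ X.deg a * ch i a) (i j : Fin N) :
    gcls T t κ Ch Gam 0 i j = gammaVec X t (Gam 0) (ch j) i := by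
  unfold gcls gammaVec
  rw [cupY_zero h, cupY_zero h]
  have h1 : (∑ i, κ i * (0 : Fin m → ℂ) i) = 0 := by simp
  rw [h1, mul_zero, zero_smul, add_zero, Matrix.mul_apply, Matrix.mulVec, dotProduct]
  refine Finset.sum_congr rfl fun a _ => ?_
  rw [hCh, twist, Matrix.mulVec_diagonal]

end cls

namespace HGW

variable {N : ℕ} {X : FanoGW (Fin N)} {t : Fin N → ℂ} (T : HGW X t)

/-- The classes `e^{t + πi c_1} Γ̂ Ch` at `λ = y`. -/
noncomputable def G : (Fin T.m → ℂ) → Matrix (Fin N) (Fin N) ℂ :=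
  gcls T.toHData t T.κ T.Ch T.Gam

theorem hkg : HKG t T.ξ T.res T.wt T.B T.χ T.G where
  B_tri := T.kth.B_tri
  B_diag := T.kth.B_diag
  χ_unit := T.kth.χ_unit
  χ_loc := T.kth.χ_loc
  G_hol := fun y hy i j => gcls_hol (fun a i => T.kth.Ch_hol a i y) (T.kth.Gam_hol y hy) i j
  G_res := fun y hy p i => gcls_res T.fix (T.kth.Ch_res y) (T.kth.Gam_res y hy) p i

theorem G_zero : T.G 0 = NormedSpace.exp (cupV X fun a => t a + Real.pi * Complex.I * X.chern a) *
    cupV X (T.Gam 0) * T.Ch 0 := by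
  show gcls T.toHData t T.κ T.Ch T.Gam 0 = _
  unfold gcls
  rw [cupY_zero T.ax, cupY_zero T.ax]
  have h1 : (∑ i, T.κ i * (0 : Fin T.m → ℂ) i) = 0 := by simp
  rw [h1, mul_zero, zero_smul, add_zero]

theorem G_zero_apply (i j : Fin N) : T.G 0 i j = gammaVec X t (T.Gam 0) (T.ch j) i :=
  gcls_zero T.ax T.kth.Ch_zero i j

end HGW

end Pool.Agent.DSTJ.Spec
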