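import Mathlib

/-!
# DSTJ-GamShift: the functional equation of the Gamma function
-/

set_option autoImplicit false

namespace Pool.Agent.DSTJ

/-- `∏_{c ≤ 0} (a - c) / ∏_{c ≤ n} (a - c)` -/
noncomputable def gfac (a : ℂ) (n : ℤ) : ℂ :=
  (∏ c ∈ Finset.Icc (n + 1) 0, (a - c)) / ∏ c ∈ Finset.Icc 1 n, (a - c)

theorem gfac_zero (a : ℂ) : gfac a 0 = 1 := by
  simp [gfac]

theorem gfac_succ {a : ℂ} (ha : ∀ k : ℤ, a ≠ k) (n : ℤ) :
    gfac a (n + 1) * (a - (n + 1 : ℤ)) = gfac a n := by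
  have hne : a - ((n + 1 : ℤ) : ℂ) ≠ 0 := sub_ne_zero.2 (ha _)
  unfold gfac
  rcases le_or_gt 0 n with h | h
  · have h1 : Finset.Icc (n + 1 + 1) (0 : ℤ) = ∅ := Finset.Icc_eq_empty (by omega)
    have h2 : Finset.Icc (n + 1) (0 : ℤ) = ∅ := Finset.Icc_eq_empty (by omega)
    have h3 : Finset.Icc 1 (n + 1) = insert (n + 1) (Finset.Icc 1 n) := by
      ext x
      simp only [Finset.mem_Icc, Finset.mem_insert]
      omega
    have h4 : n + 1 ∉ Finset.Icc 1 n := by
      simp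
    have h5 : ∏ c ∈ Finset.Icc 1 n, (a - (c : ℂ)) ≠ 0 :=
      Finset.prod_ne_zero_iff.2 fun c _ => sub_ne_zero.2 (ha c)
    rw [h1, h2, h3, Finset.prod_insert h4, Finset.prod_empty]
    field_simp
  · have h1 : Finset.Icc (1 : ℤ) (n + 1) = ∅ := Finset.Icc_eq_empty (by omega)
    have h2 : Finset.Icc (1 : ℤ) n = ∅ := Finset.Icc_eq_empty (by omega)
    have h3 : Finset.Icc (n + 1) 0 = insert (n + 1) (Finset.Icc (n + 1 + 1) 0) := by
      ext x
      simp only [Finset.mem_Icc, Finset.mem_insert]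
      omega
    have h4 : n + 1 ∉ Finset.Icc (n + 1 + 1) 0 := by
      simp
    rw [h1, h2, h3, Finset.prod_insert h4, Finset.prod_empty, div_one, div_one]
    ring

theorem gamma_succ {a : ℂ} (ha : ∀ k : ℤ, a ≠ k) (n : ℤ) :
    Complex.Gamma (1 - (a - (n + 1 : ℤ))) =
      -(a - (n + 1 : ℤ)) * Complex.Gamma (1 - (a - n)) := by
  have h1 : 1 - (a - (n : ℂ)) ≠ 0 := by
    intro h
    apply ha (n + 1)
    push_cast
    linear_combination -h
  rw [show 1 - (a - ((n + 1 : ℤ) : ℂ)) = 1 - (a - n) + 1 by push_cast; ring,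
    Complex.Gamma_add_one _ h1]
  push_cast
  ring

theorem gamma_shift {a : ℂ} (ha : ∀ k : ℤ, a ≠ k) (n : ℤ) :
    (-1 : ℂ) ^ n * Complex.Gamma (1 - a) = gfac a n * Complex.Gamma (1 - (a - n)) := by
  have hstep : ∀ n : ℤ, gfac a (n + 1) * Complex.Gamma (1 - (a - (n + 1 : ℤ))) =
      -(gfac a n * Complex.Gamma (1 - (a - n))) := by
    intro n
    rw [gamma_succ ha, ← gfac_succ ha n]
    ring
  induction n using Int.induction_on with
  | zero => simp [gfac_zero]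
  | succ n ih =>
    rw [hstep, ← ih, zpow_add₀ (by norm_num), zpow_one]
    ring
  | pred n ih =>
    have h1 := hstep (-(n : ℤ) - 1)
    rw [sub_add_cancel] at h1
    have h2 : (-1 : ℂ) ^ (-(n : ℤ)) = (-1) ^ (-(n : ℤ) - 1) * (-1) := by
      rw [← zpow_add_one₀ (by norm_num), sub_add_cancel]
    rw [h1, h2] at ih
    linear_combination -ih

end Pool.Agent.DSTJ
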