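import Pool.Agent.DSTJ.CalHol
import Pool.Agent.DST.EHol

/-!
# DSTJ-JOde: the differential equation of `J0`

PLAN. `y` is fixed. With `H n = D.ms y n` the function `w ↦ D.cal y (exp (-w))` has the derivative
`-∑ n e^{-nw} H_n`, and `mm_rec` gives `n H_n = ∑_{k ≤ n} C_k H_{n-k} - H_n C_0`; so
`d/dw (cal · exp (-w C_0)) = -(∑_k e^{-kw} C_k) cal · exp (-w C_0)` and
`d/dw J0 = (θ - e^{wθ} (∑_k e^{-kw} C_k) e^{-wθ}) J0`. The hypothesis `hCt` identifies the bracket. Compare
Pool/Agent/DST/EHol.lean (`serM_deriv`: derivative of the series with this recursion, for all-radius bounds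
`hb`, here from `mm_bound` with `s = {y}`) and Pool/Agent/DST/ESol.lean.
-/

set_option autoImplicit false

open scoped BigOperators Topology
open Filter

namespace Pool.Agent.DSTJ

open Pool.Agent.DST.TE

section
open scoped Matrix.Norms.Operator

private theorem jode_exp' {N : ℕ} (M : Matrix (Fin N) (Fin N) ℂ) (w : ℂ) (k j : Fin N) :
    HasDerivAt (fun w : ℂ => NormedSpace.exp (-w • M) k j)
      (-((M * NormedSpace.exp (-w • M)) k j)) w := by
  have h1 : HasDerivAt (fun u : ℂ => NormedSpace.exp (u • M))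
      (M * NormedSpace.exp ((-w) • M)) (-w) := hasDerivAt_exp_smul_const' M (-w)
  have h2 := h1.scomp w (hasDerivAt_neg w)
  have h3 := hasDerivAt_pi.1 (hasDerivAt_pi.1 h2 k) j
  refine h3.congr_deriv ?_
  show (-1 : ℂ) * ((M * NormedSpace.exp ((-w) • M)) k j) = _
  rw [neg_one_mul]

end

private theorem jode_exp {N : ℕ} (M : Matrix (Fin N) (Fin N) ℂ) (w : ℂ) (k j : Fin N) :
    HasDerivAt (fun w : ℂ => NormedSpace.exp (-w • M) k j)
      (-((M * NormedSpace.exp (-w • M)) k j)) w := jode_exp' M w k j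

private theorem jode_diag {N : ℕ} (θ : Fin N → ℂ) (w : ℂ) (Y : Matrix (Fin N) (Fin N) ℂ)
    (i j : Fin N) :
    (NormedSpace.exp (w • Matrix.diagonal θ) * Y) i j = Complex.exp (w * θ i) * Y i j := by
  have h1 : w • Matrix.diagonal θ = Matrix.diagonal fun a => w * θ a := by
    rw [← Matrix.diagonal_smul]
    rfl
  have h2 : NormedSpace.exp (w • Matrix.diagonal θ) =
      Matrix.diagonal fun a => Complex.exp (w * θ a) := by
    rw [h1, Matrix.exp_diagonal]
    congr 1
    funext a
    rw [Pi.coe_exp, Complex.exp_eq_exp_ℂ]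
  rw [h2, Matrix.diagonal_mul]

namespace Base

variable {m N : ℕ} (D : Base m N) {G : (Fin m → ℂ) → Matrix (Fin N) (Fin N) ℂ}

theorem J0_ode {y : Fin m → ℂ} (hy : D.NR y) (Ct : ℂ → Matrix (Fin N) (Fin N) ℂ)
    (hCt : ∀ w i j, Complex.exp (-w) * Ct w i j = ∑ k ∈ Finset.range (D.K + 1),
      Complex.exp (-(k * w)) * Complex.exp (w * (D.θ i - D.θ j)) * D.C k y i j) (w : ℂ) (i j : Fin N) :
    HasDerivAt (fun w => D.J0 G y w i j)
      (((Matrix.diagonal D.θ - Complex.exp (-w) • Ct w) * D.J0 G y w) i j) w := by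
  classical
  -- the recursion
  have hrec : ∀ n : ℕ, (n : ℂ) • D.ms y n =
      ∑ p ∈ Finset.HasAntidiagonal.antidiagonal n, D.C p.1 y * D.ms y p.2 -
        D.ms y n * D.C 0 y := by
    intro n
    have h1 := mm_rec (C := fun n => D.C n y) (fun n hn => D.nr_det hy n hn) n
    have h2 : ∑ p ∈ Finset.HasAntidiagonal.antidiagonal n, D.C p.1 y * D.ms y p.2 =
        ∑ k ∈ Finset.range n, D.C (n - k) y * D.ms y k + D.C 0 y * D.ms y n := by
      rw [← Finset.Nat.sum_antidiagonal_swap]
      simp only [Prod.fst_swap, Prod.snd_swap]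
      rw [Finset.Nat.sum_antidiagonal_eq_sum_range_succ
        (fun a b => D.C b y * D.ms y a) n, Finset.sum_range_succ, Nat.sub_self]
    rw [h2]
    have h3 : (n : ℂ) • D.ms y n = D.C 0 y * D.ms y n - D.ms y n * D.C 0 y +
        ∑ k ∈ Finset.range n, D.C (n - k) y * D.ms y k := h1
    rw [h3]
    abel
  have hb : ∀ r : ℝ, 0 < r → ∃ B : ℝ, ∀ n i j, ‖D.ms y n i j‖ * r ^ n ≤ B := by
    intro r hr
    obtain ⟨B, hB⟩ := mm_bound (C := fun n y => D.C n y) (K := D.K)
      (fun n hn y => D.C_big n hn y) (s := {y}) isCompact_singleton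
      (fun n i j y' _ => (D.C_hol n i j).differentiableAt)
      (fun y' hy' n hn => by
        rw [Set.mem_singleton_iff] at hy'
        subst hy'
        exact D.nr_det hy n hn) r hr
    exact ⟨B, fun n i j => hB y (Set.mem_singleton y) n i j⟩
  have hK : ∀ d, D.K < d → D.C d y = 0 := fun d hd => D.C_big d hd y
  obtain ⟨X, hX⟩ : ∃ X : ℂ → Matrix (Fin N) (Fin N) ℂ,
      X = fun w => NormedSpace.exp (-w • D.C 0 y) * G y := ⟨_, rfl⟩
  obtain ⟨q, hq⟩ : ∃ q, q = Complex.exp (-w) := ⟨_, rfl⟩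
  obtain ⟨S, hS⟩ : ∃ S, S = DST.serM (D.ms y) q := ⟨_, rfl⟩
  obtain ⟨A, hA⟩ : ∃ A : Matrix (Fin N) (Fin N) ℂ,
      A = ∑ d ∈ Finset.range (D.K + 1), q ^ d • D.C d y := ⟨_, rfl⟩
  have hXd : ∀ k, HasDerivAt (fun w => X w k j) (-((D.C 0 y * X w) k j)) w := fun k => by
    have h1 : HasDerivAt (fun w => ∑ l, NormedSpace.exp (-w • D.C 0 y) k l * G y l j)
        (∑ l, (-((D.C 0 y * NormedSpace.exp (-w • D.C 0 y)) k l)) * G y l j) w :=
      HasDerivAt.fun_sum fun l _ => (jode_exp (D.C 0 y) w k l).mul_const _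
    have h2 : (fun w => X w k j) =
        fun w => ∑ l, NormedSpace.exp (-w • D.C 0 y) k l * G y l j := by
      funext w
      rw [hX]
      exact Matrix.mul_apply
    rw [h2]
    refine h1.congr_deriv ?_
    rw [hX]
    show _ = -((D.C 0 y * (NormedSpace.exp (-w • D.C 0 y) * G y)) k j)
    rw [← mul_assoc, Matrix.mul_apply (M := D.C 0 y * NormedSpace.exp (-w • D.C 0 y)),
      ← Finset.sum_neg_distrib]
    refine Finset.sum_congr rfl fun l _ => ?_
    rw [neg_mul]
  have hSd : ∀ k, HasDerivAt (fun w => DST.serM (D.ms y) (Complex.exp (-w)) i k)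
      (-((A * S - S * D.C 0 y) i k)) w := by
    intro k
    obtain ⟨E, h1, h2⟩ := DST.serM_deriv hb (C := fun n => D.C n y) hK hrec q i k
    have h3 : HasDerivAt (fun w : ℂ => Complex.exp (-w)) (-q) w := by
      have h4 := (hasDerivAt_neg w).cexp
      refine h4.congr_deriv ?_
      rw [hq]
      ring
    rw [hq] at h1
    have h5 := HasDerivAt.comp w h1 h3
    refine h5.congr_deriv ?_
    rw [hA, hS, ← h2]
    ring
  have hEd : HasDerivAt (fun w : ℂ => Complex.exp (w * D.θ i))
      (D.θ i * Complex.exp (w * D.θ i)) w := by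
    have h4 := ((hasDerivAt_id w).mul_const (D.θ i)).cexp
    refine h4.congr_deriv ?_
    simp only [id_eq, one_mul]
    ring
  have hsum : HasDerivAt (fun w => ∑ k, DST.serM (D.ms y) (Complex.exp (-w)) i k * X w k j)
      (∑ k, (-((A * S - S * D.C 0 y) i k) * X w k j + DST.serM (D.ms y) (Complex.exp (-w)) i k *
        (-((D.C 0 y * X w) k j)))) w :=
    HasDerivAt.fun_sum fun k _ => (hSd k).mul (hXd k)
  have hall := hEd.mul hsum
  have hJ : ∀ w k, D.J0 G y w k j =
      Complex.exp (w * D.θ k) * (DST.serM (D.ms y) (Complex.exp (-w)) * X w) k j := by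
    intro w k
    have h1 : D.J0 G y w = NormedSpace.exp (w • Matrix.diagonal D.θ) *
        (DST.serM (D.ms y) (Complex.exp (-w)) * X w) := by
      rw [hX]
      show NormedSpace.exp (w • Matrix.diagonal D.θ) * D.cal y (Complex.exp (-w)) *
        NormedSpace.exp (-w • D.C 0 y) * G y = _
      simp only [mul_assoc]
      rfl
    rw [h1, jode_diag]
  have hfun : (fun w => D.J0 G y w i j) =
      fun w => Complex.exp (w * D.θ i) *
        ∑ k, DST.serM (D.ms y) (Complex.exp (-w)) i k * X w k j := by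
    funext w
    rw [hJ, Matrix.mul_apply]
  rw [hfun]
  refine hall.congr_deriv ?_
  -- the derivative of the sum
  have h1 : ∑ k, (-((A * S - S * D.C 0 y) i k) * X w k j +
      DST.serM (D.ms y) (Complex.exp (-w)) i k * (-((D.C 0 y * X w) k j))) =
      -((A * S * X w) i j) := by
    rw [← hq, ← hS]
    have h2 : ∑ k, (-((A * S - S * D.C 0 y) i k) * X w k j +
        S i k * (-((D.C 0 y * X w) k j))) =
        -(((A * S - S * D.C 0 y) * X w) i j + (S * (D.C 0 y * X w)) i j) := by
      rw [Matrix.mul_apply, Matrix.mul_apply (M := S), ← Finset.sum_add_distrib,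
        ← Finset.sum_neg_distrib]
      refine Finset.sum_congr rfl fun k _ => ?_
      ring
    rw [h2, ← Matrix.add_apply, sub_mul, mul_assoc S, sub_add_cancel]
  rw [h1, ← Matrix.mul_apply, ← hq, ← hS]
  have h4 : ∀ k, Complex.exp (w * D.θ i) * A i k = q * Ct w i k * Complex.exp (w * D.θ k) := by
    intro k
    rw [hq, hCt w i k, hA, Matrix.sum_apply, Finset.mul_sum, Finset.sum_mul]
    refine Finset.sum_congr rfl fun d _ => ?_
    rw [Matrix.smul_apply, smul_eq_mul]
    have h8 : Complex.exp (w * D.θ i) * q ^ d =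
        Complex.exp (-(d * w)) * Complex.exp (w * (D.θ i - D.θ k)) * Complex.exp (w * D.θ k) := by
      rw [hq, ← Complex.exp_nat_mul, ← Complex.exp_add, ← Complex.exp_add, ← Complex.exp_add]
      congr 1
      ring
    rw [← mul_assoc, h8]
    ring
  have h3 : ∀ k, D.J0 G y w k j = Complex.exp (w * D.θ k) * (S * X w) k j := by
    intro k
    rw [hJ, hS, hq]
  have h10 : ((Matrix.diagonal D.θ - q • Ct w) * D.J0 G y w) i j =
      D.θ i * D.J0 G y w i j - q * ∑ k, Ct w i k * D.J0 G y w k j := by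
    rw [Matrix.sub_mul, Matrix.sub_apply, Matrix.diagonal_mul, Matrix.smul_mul, Matrix.smul_apply,
      smul_eq_mul, Matrix.mul_apply]
  have h11 : Complex.exp (w * D.θ i) * (A * S * X w) i j = q * ∑ k, Ct w i k * D.J0 G y w k j := by
    rw [mul_assoc A, Matrix.mul_apply, Finset.mul_sum, Finset.mul_sum]
    refine Finset.sum_congr rfl fun k _ => ?_
    rw [h3 k, ← mul_assoc, h4 k]
    ring
  rw [h10, ← h11, h3 i]
  ring

end Base

end Pool.Agent.DSTJ
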