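import Pool.Agent.DSTJ.JLem
import Pool.Agent.DSTJ.GamShift

/-!
# DSTJ-ShiftJ: the shift equation of `J0` from the localisation formula of the shift operator
-/

set_option autoImplicit false

open scoped BigOperators Topology
open Filter

namespace Pool.Agent.DSTJ

open Pool.Agent.DST.TE

namespace Base

variable {m N : ℕ} (D : Base m N) {G : (Fin m → ℂ) → Matrix (Fin N) (Fin N) ℂ}

/-- the columns of the fundamental solution at the fixed points -/
noncomputable def EE (y : Fin m → ℂ) (w : ℂ) : Matrix (Fin N) (Fin N) ℂ :=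
  NormedSpace.exp (w • Matrix.diagonal D.θ) * D.cal y (Complex.exp (-w)) * (D.R y)⁻¹

private theorem exp_diag' (v : Fin N → ℂ) (w : ℂ) :
    NormedSpace.exp (w • Matrix.diagonal v) = Matrix.diagonal fun a => Complex.exp (w * v a) := by
  have h1 : w • Matrix.diagonal v = Matrix.diagonal fun a => w * v a := by
    rw [← Matrix.diagonal_smul]
    rfl
  rw [h1, Matrix.exp_diagonal]
  congr 1
  funext a
  rw [Pi.coe_exp, Complex.exp_eq_exp_ℂ]

theorem J0_EE {y : Fin m → ℂ} (hR : (D.R y).det ≠ 0) (w : ℂ) :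
    D.J0 G y w = D.EE y w *
      ((Matrix.diagonal fun p => Complex.exp (-w * pr (D.e p) y)) * (D.R y * G y)) := by
  have hu : IsUnit (D.R y) := (Matrix.isUnit_iff_isUnit_det _).2 (isUnit_iff_ne_zero.2 hR)
  have hud : IsUnit (D.R y).det := isUnit_iff_ne_zero.2 hR
  have h1 : -w • D.C 0 y =
      (D.R y)⁻¹ * (-w • Matrix.diagonal fun p => pr (D.e p) y) * D.R y := by
    rw [Matrix.mul_smul, Matrix.smul_mul, Matrix.mul_assoc, ← D.R_comm, ← Matrix.mul_assoc,
      Matrix.nonsing_inv_mul _ hud, Matrix.one_mul]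
  have h2 : NormedSpace.exp (-w • D.C 0 y) =
      (D.R y)⁻¹ * (Matrix.diagonal fun p => Complex.exp (-w * pr (D.e p) y)) * D.R y := by
    rw [h1, Matrix.exp_conj' _ _ hu, exp_diag']
  rw [J0, EE, h2]
  simp only [Matrix.mul_assoc]

/-- The shift equation. -/
theorem J0_shift {y y' : Fin m → ℂ} (hR : (D.R y).det ≠ 0) (hR' : (D.R y').det ≠ 0) (w : ℂ)
    {S B B' : Matrix (Fin N) (Fin N) ℂ} {Δ g g' : Fin N → ℂ}
    (hS : S * D.EE y' w = D.EE y w * Matrix.diagonal Δ)
    (hG : D.R y * G y = Matrix.diagonal g * B) (hG' : D.R y' * G y' = Matrix.diagonal g' * B')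
    (hB : B' = B) (hg : ∀ p, Complex.exp (-w * pr (D.e p) y) * g p =
      Δ p * (Complex.exp (-w * pr (D.e p) y') * g' p)) :
    D.J0 G y w = S * D.J0 G y' w := by
  rw [D.J0_EE hR, D.J0_EE hR', hG, hG', hB, ← Matrix.mul_assoc S, hS, Matrix.mul_assoc (D.EE y w)]
  congr 1
  rw [← Matrix.mul_assoc, ← Matrix.mul_assoc, Matrix.diagonal_mul_diagonal,
    Matrix.diagonal_mul_diagonal, ← Matrix.mul_assoc, Matrix.diagonal_mul_diagonal]
  congr 2
  funext p
  rw [hg p, mul_assoc]

end Base

/-- the factor of the localisation formula at one tangent weight -/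
theorem gfac_prod {K : ℕ} {a : Fin K → ℂ} (ha : ∀ k, ∀ n : ℤ, a k ≠ n) (n : Fin K → ℤ) :
    Complex.exp (Real.pi * Complex.I * ∑ k, a k) * ∏ k, Complex.Gamma (1 - a k) =
      (∏ k, gfac (a k) (n k)) * (Complex.exp (Real.pi * Complex.I * ∑ k, (a k - n k)) *
        ∏ k, Complex.Gamma (1 - (a k - n k))) := by
  have h1 : ∀ k, Complex.exp (Real.pi * Complex.I * a k) * Complex.Gamma (1 - a k) =
      gfac (a k) (n k) * (Complex.exp (Real.pi * Complex.I * (a k - n k)) *
        Complex.Gamma (1 - (a k - n k))) := by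
    intro k
    have h2 := gamma_shift (ha k) (n k)
    have h3 : Complex.exp (Real.pi * Complex.I * a k) =
        Complex.exp (Real.pi * Complex.I * (a k - n k)) * (-1) ^ n k := by
      rw [← Complex.exp_pi_mul_I, ← Complex.exp_int_mul, ← Complex.exp_add]
      congr 1
      ring
    rw [h3]
    linear_combination Complex.exp (Real.pi * Complex.I * (a k - n k)) * h2
  rw [Finset.mul_sum, Finset.mul_sum, Complex.exp_sum, Complex.exp_sum, ← Finset.prod_mul_distrib,
    ← Finset.prod_mul_distrib, ← Finset.prod_mul_distrib]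
  exact Finset.prod_congr rfl fun k _ => h1 k

end Pool.Agent.DSTJ
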