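import Pool.Agent.DSTJ.SpecD
import Pool.Agent.DSTJ.ShiftJ

/-!
# DSTJ-SpecE: the `Γ`-class and the shifts `y ↦ y - μ`
-/

set_option autoImplicit false

open scoped BigOperators Topology
open Filter

namespace Pool.Agent.DSTJ.Spec

open Pool.Agent.Helper18.Dub Pool.Agent.SHF Pool.Agent.DST Pool.Agent.DST.TE

/-- homogeneity -/
theorem hyp_scale (a : ℂ) (z : ℂ) (n : ℤ) :
    hyp (a * z) z n = z ^ (-n) * gfac a n := by
  have h : ∀ s : Finset ℤ, ∏ c ∈ s, (a * z - (c : ℂ) * z) =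
      z ^ s.card * ∏ c ∈ s, (a - (c : ℂ)) := by
    intro s
    rw [← Finset.prod_const, ← Finset.prod_mul_distrib]
    exact Finset.prod_congr rfl fun c _ => by ring
  unfold hyp gfac
  rw [h, h, Int.card_Icc, Int.card_Icc]
  rcases le_or_gt 0 n with hn | hn
  · have h1 : (0 + 1 - (n + 1)).toNat = 0 := by omega
    have h2 : z ^ (-n) = (z ^ (n + 1 - 1).toNat)⁻¹ := by
      rw [zpow_neg, ← zpow_natCast]
      congr 2
      omega
    rw [h1, h2, pow_zero, one_mul]
    rw [div_eq_mul_inv, div_eq_mul_inv, mul_inv]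
    ring
  · have h1 : (n + 1 - 1).toNat = 0 := by omega
    have h2 : z ^ (-n) = z ^ (0 + 1 - (n + 1)).toNat := by
      rw [← zpow_natCast]
      congr 1
      omega
    rw [h1, h2, pow_zero, one_mul, mul_div_assoc]

section shift

variable {N : ℕ} {X : FanoGW (Fin N)} {m : ℕ}

theorem pr_sub_cc (a : Fin m → ℤ) (y : Fin m → ℂ) (μ : Fin m → ℤ) :
    pr a (y - cc μ) = pr a y - ((∑ i, a i * μ i : ℤ) : ℂ) := by
  rw [← pr_cc]
  unfold pr
  rw [← Finset.sum_sub_distrib]
  exact Finset.sum_congr rfl fun i _ => by rw [Pi.sub_apply, mul_sub]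

/-- The Chern characters are periodic. -/
theorem Bm_sub (B : Matrix (Fin N) (Fin N) (RH m)) (y : Fin m → ℂ) (μ : Fin m → ℤ) :
    Bm B (y - cc μ) = Bm B y := by
  have h := Bm_per B μ y (-1)
  rw [← h]
  congr 1
  funext i
  simp only [Pi.sub_apply, cc]
  push_cast
  ring

/-- a polynomial all of whose monomials have degree one is additive -/
theorem eval_sub_of_lin {p : MvPolynomial (Fin m) ℂ}
    (hp : ∀ d : Fin m →₀ ℕ, p.coeff d ≠ 0 → ∑ k, d k = 1) (y y' : Fin m → ℂ) :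
    MvPolynomial.eval (y - y') p = MvPolynomial.eval y p - MvPolynomial.eval y' p := by
  rw [MvPolynomial.eval_eq', MvPolynomial.eval_eq', MvPolynomial.eval_eq', ← Finset.sum_sub_distrib]
  refine Finset.sum_congr rfl fun d hd => ?_
  rw [← mul_sub]
  congr 1
  have h1 := hp d (MvPolynomial.mem_support_iff.1 hd)
  obtain ⟨k, hk⟩ : ∃ k, d k ≠ 0 := by
    by_contra hne
    push Not at hne
    simp [hne] at h1
  have h2 : ∀ l, l ≠ k → d l = 0 := by
    intro l hl
    have h3 : d k + d l ≤ ∑ k, d k := by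
      have h4 : ∑ i ∈ ({k, l} : Finset (Fin m)), d i ≤ ∑ k, d k :=
        Finset.sum_le_sum_of_subset (Finset.subset_univ _)
      rwa [Finset.sum_pair (Ne.symm hl)] at h4
    omega
  have h3 : d k = 1 := by
    have h4 : ∑ l, d l = d k := by
      rw [Finset.sum_eq_single k (fun l _ hl => h2 l hl) (fun h => absurd (Finset.mem_univ k) h)]
    omega
  have h5 : ∀ v : Fin m → ℂ, ∏ i, v i ^ d i = v k := by
    intro v
    rw [Finset.prod_eq_single k (fun l _ hl => by rw [h2 l hl, pow_zero])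
      (fun h => absurd (Finset.mem_univ k) h), h3, pow_one]
  rw [h5, h5, h5, Pi.sub_apply]

/-- The shift of `e^t e^{πi c_1} Γ̂` at the fixed point `p`. -/
theorem gam_shift {t : Fin N → ℂ} (ht : ∀ i, t i ≠ 0 → X.deg i = 1)
    {r : Fin N → Fin N → MvPolynomial (Fin m) ℂ}
    (hr : ∀ p a (d : Fin m →₀ ℕ), (r p a).coeff d ≠ 0 → ∑ k, d k = X.deg a)
    (w : Fin N → Fin X.dim → Fin m → ℤ) {y : Fin m → ℂ}
    (hy : ∀ p k, ∀ n : ℤ, pr (w p k) y ≠ n) (μ : Fin m → ℤ) (p : Fin N) :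
    gam t r w p y = Complex.exp (∑ a, t a * MvPolynomial.eval (cc μ) (r p a)) *
      (∏ k, gfac (pr (w p k) y) (∑ i, w p k i * μ i)) * gam t r w p (y - cc μ) := by
  have h1 : ∑ a, t a * MvPolynomial.eval (y - cc μ) (r p a) =
      ∑ a, t a * MvPolynomial.eval y (r p a) - ∑ a, t a * MvPolynomial.eval (cc μ) (r p a) := by
    rw [← Finset.sum_sub_distrib]
    refine Finset.sum_congr rfl fun a _ => ?_
    rcases eq_or_ne (t a) 0 with h3 | h3
    · rw [h3]
      ring
    · rw [eval_sub_of_lin (fun d hd => by rw [hr p a d hd, ht a h3]), mul_sub]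
  have h2 := gfac_prod (a := fun k => pr (w p k) y) (fun k n => hy p k n)
    (fun k => ∑ i, w p k i * μ i)
  unfold gam
  simp only [pr_sub_cc]
  rw [h1, Complex.exp_add, Complex.exp_add, Complex.exp_sub, mul_assoc (Complex.exp _), h2]
  have h3 := Complex.exp_ne_zero (∑ a, t a * MvPolynomial.eval (cc μ) (r p a))
  field_simp

end shift

end Pool.Agent.DSTJ.Spec
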