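import Pool.Agent.DSTJ.Piece
import Pool.Agent.DSTJ.SpecE
import Pool.Agent.DSTJ.JOde

/-!
# DSTJ-HBase: the equation of an equivariant theory and its calibrations
-/

set_option autoImplicit false

open scoped BigOperators Topology
open Filter

namespace Pool.Agent.DSTJ.Spec

open Pool.Agent.Helper18.Dub Pool.Agent.Helper7.DubStokes Pool.Agent.SHF
open Pool.Agent.DST Pool.Agent.DST.TE

variable {N : ℕ} {X : FanoGW (Fin N)} {t : Fin N → ℂ}

theorem pr_sum {m : ℕ} {K : ℕ} (a : Fin K → Fin m → ℤ) (y : Fin m → ℂ) :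
    pr (fun i => ∑ k, a k i) y = ∑ k, pr (a k) y := by
  unfold pr
  rw [Finset.sum_comm]
  refine Finset.sum_congr rfl fun i _ => ?_
  push_cast
  rw [Finset.sum_mul]

namespace HGW

variable (T : HGW X t)

/-- the equation -/
noncomputable def toBase : Base T.m N where
  θ := fun i => (X.dim : ℂ) / 2 - X.deg i
  K := KK X
  C := fun n y => evP (piece T.toHData t (lin T.κ) n) y
  C_hol := fun n i j => diff_evalK _
  C_big := fun n hn y => by
    rw [T.ax.piece_big t (lin T.κ) hn]
    ext1 i j
    simp [evP]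
  e := fun p i => ∑ k, T.wt p k i
  I := Fin N × Fin X.dim
  finI := inferInstance
  wt := fun a => T.wt a.1 a.2
  R := Rm T.res
  R_hol := HFix.R_hol T.res
  R_comm := fun y => by
    rw [HAx.piece_zero T.period_zero]
    exact T.fix.R_comm y
  R_det := fun y hy => T.fix.R_det T.ax y fun p k => hy (p, k)
  ξ := T.ξ
  ξ_wt := fun a => T.ξ_ne a.1 a.2
  ξ_e := by
    intro p q hpq
    apply T.strict.injective
    have h1 : ∀ p, ∑ k, ∑ i, T.wt p k i * T.ξ i = ∑ i, (∑ k, T.wt p k i) * T.ξ i := by
      intro p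
      rw [Finset.sum_comm]
      exact Finset.sum_congr rfl fun i _ => by rw [Finset.sum_mul]
    show ∑ k, ∑ i, T.wt p k i * T.ξ i = ∑ k, ∑ i, T.wt q k i * T.ξ i
    rw [h1, h1]
    exact hpq

theorem nonRes_iff (y : Fin T.m → ℂ) : NonRes T.wt y ↔ T.toBase.NR y := by
  have h1 : ∀ p, pr (T.toBase.e p) y = ∑ k, pr (T.wt p k) y := fun p => pr_sum (T.wt p) y
  constructor
  · intro h p q n hn
    rw [h1, h1]
    exact h p q n hn
  · intro h p q n hn
    rw [← h1, ← h1]
    exact h p q n hn

theorem theta_eq : theta X = Matrix.diagonal T.toBase.θ := rfl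

theorem κ_homog (d : Fin T.m →₀ ℕ) (hd : (lin T.κ).coeff d ≠ 0) : ∑ k, d k = 1 := by
  rw [lin, MvPolynomial.coeff_sum] at hd
  obtain ⟨i, _, hi⟩ := Finset.exists_ne_zero_of_sum_ne_zero hd
  rw [MvPolynomial.coeff_C_mul, MvPolynomial.coeff_X] at hi
  have h1 : Finsupp.single i 1 = d := by
    by_contra h
    rw [if_neg h, mul_zero] at hi
    exact hi rfl
  rw [← h1, Finset.sum_eq_single i]
  · rw [Finsupp.single_eq_same]
  · intro j _ hj
    rw [Finsupp.single_apply, if_neg (fun h => hj h.symm)]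
  · exact fun h => absurd (Finset.mem_univ i) h

theorem C_zero (y : Fin T.m → ℂ) :
    T.toBase.C 0 y = evP (gcupChern T.toHData.pairH T.toHData.invH (lin T.κ)) y := by
  show evP (piece T.toHData t (lin T.κ) 0) y = _
  rw [HAx.piece_zero T.period_zero]

theorem C_sum (y : Fin T.m → ℂ) (w : ℂ) (i j : Fin N) :
    Complex.exp (-w) * evP (gchern T.toHData.pairH T.toHData.invH t (lin T.κ))
        (fun i => y i * Complex.exp w) i j =
      ∑ k ∈ Finset.range (T.toBase.K + 1), Complex.exp (-(k * w)) *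
        Complex.exp (w * (T.toBase.θ i - T.toBase.θ j)) * T.toBase.C k y i j :=
  T.ax.gchern_scale t T.κ_homog y w i j

/-- the series of the Frobenius method is the calibration -/
theorem isCal_cal {y : Fin T.m → ℂ} (hy : T.toBase.NR y) :
    IsCal T.toHData t (lin T.κ) y fun z => T.toBase.cal y z⁻¹ where
  lim := fun i j => T.toBase.cal_lim hy i j
  ode := fun w i j => by
    have h1 := T.toBase.J0_ode (G := fun _ => 1) hy
      (fun w => evP (gchern T.toHData.pairH T.toHData.invH t (lin T.κ))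
        (fun i => y i * Complex.exp w)) (T.C_sum y) w i j
    have h2 : ∀ w, T.toBase.J0 (fun _ => 1) y w = NormedSpace.exp (w • theta X) *
        T.toBase.cal y (Complex.exp w)⁻¹ * NormedSpace.exp
          (-w • evP (gcupChern T.toHData.pairH T.toHData.invH (lin T.κ)) y) := by
      intro w
      unfold Base.J0
      rw [Matrix.mul_one, Complex.exp_neg, T.C_zero]
      rfl
    simp only [h2] at h1
    exact h1

end HGW

end Pool.Agent.DSTJ.Spec
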