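import Pool.Agent.Helper7.DubStokes.Defs
import Pool.Agent.DST.TE2

/-!
# Genus-zero theory of a Fano manifold, equivariant for a torus `H = (ℂ^*)^m`

`H_H^*(pt) = ℂ[λ_1, …, λ_m]`. The structure `FanoGW` (`Pool/Agent/Helper18/Dub/GWDefs.lean`) is the
non-equivariant genus-zero theory of `X` in a homogeneous basis `φ_i` of `H^*(X)`. For an integral
form `a` and `y ∈ ℂ^m = Lie H`, `pr a y = ∑ a_i y_i` (`Pool/Agent/DST/TE2.lean`).
-/

set_option autoImplicit false

open scoped BigOperators Topology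
open Filter

namespace Pool.Agent.DSTJ.Spec

open Pool.Agent.Helper18.Dub Pool.Agent.Helper7.DubStokes Pool.Agent.DST.TE

section general

variable {N : ℕ} {X : FanoGW (Fin N)} {A : Type} [CommRing A] [Algebra ℂ A]

/-- The correlator `⟨φ_{i_1}, …, φ_{i_n}⟩` with the class `β` weighted by `e^{∫_β t}`,
`t ∈ H^2(X)`, for numbers `inv` with values in a `ℂ`-algebra `A`. -/
noncomputable def gcorr (inv : X.Curve → Multiset (Fin N) → A) (t : Fin N → ℂ)
    (s : Multiset (Fin N)) : A :=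
  ∑ᶠ β, algebraMap ℂ A (Complex.exp (∑ i, t i * X.period β i)) * inv β s

/-- `⟨⟨φ_{i_1}, …, φ_{i_n}⟩⟩` near the point `t ∈ H^2(X)`, a power series in the coordinates of the
point relative to `t`. -/
noncomputable def gser (inv : X.Curve → Multiset (Fin N) → A) (t : Fin N → ℂ)
    (s : Multiset (Fin N)) : MvPowerSeries (Fin N) A :=
  fun m => algebraMap ℂ A (∏ i, ((m i).factorial : ℂ))⁻¹ *
    gcorr inv t (s + Finsupp.toMultiset m)

/-- The WDVV equations near `t`. -/
def GWdvv (pr : Matrix (Fin N) (Fin N) A) (inv : X.Curve → Multiset (Fin N) → A)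
    (t : Fin N → ℂ) : Prop := ∀ a b c d,
  ∑ e, ∑ f, MvPowerSeries.C (pr⁻¹ e f) * gser inv t {a, b, e} * gser inv t {f, c, d} =
    ∑ e, ∑ f, MvPowerSeries.C (pr⁻¹ e f) * gser inv t {b, c, e} * gser inv t {f, a, d}

/-- The matrix of big quantum multiplication `φ_a •` near `t`. -/
noncomputable def gmul (pr : Matrix (Fin N) (Fin N) A) (inv : X.Curve → Multiset (Fin N) → A)
    (t : Fin N → ℂ) (a : Fin N) : Matrix (Fin N) (Fin N) (MvPowerSeries (Fin N) A) :=
  Matrix.of fun k b => ∑ l, MvPowerSeries.C (pr⁻¹ k l) * gser inv t {a, b, l}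

/-- The matrix of the classical cup product with `φ_a`. -/
noncomputable def gcup (pr : Matrix (Fin N) (Fin N) A) (inv : X.Curve → Multiset (Fin N) → A)
    (a : Fin N) : Matrix (Fin N) (Fin N) A :=
  Matrix.of fun k b => ∑ l, pr⁻¹ k l * inv X.zero {a, b, l}

/-- The matrix of the classical cup product with `c_1(X)`; `κ` is the part of `c_1(X)` in
`H_H^2(pt)`. -/
noncomputable def gcupChern (pr : Matrix (Fin N) (Fin N) A)
    (inv : X.Curve → Multiset (Fin N) → A) (κ : A) : Matrix (Fin N) (Fin N) A :=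
  (∑ a, algebraMap ℂ A (X.chern a) • gcup pr inv a) + κ • 1

/-- The matrix of quantum multiplication by `c_1(X)` at `t`. -/
noncomputable def gchern (pr : Matrix (Fin N) (Fin N) A) (inv : X.Curve → Multiset (Fin N) → A)
    (t : Fin N → ℂ) (κ : A) : Matrix (Fin N) (Fin N) A :=
  (Matrix.of fun k b => ∑ a, algebraMap ℂ A (X.chern a) * ∑ l, pr⁻¹ k l * gcorr inv t {a, b, l}) +
    κ • 1

end general

/-- Equivariant Gromov–Witten numbers, with values in `H_H^*(pt) = ℂ[λ_1, …, λ_m]`: the Poincaré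
pairing `∫_X φ_i ∪ φ_j` and `⟨φ_{i_1}, …, φ_{i_n}⟩_{0,n,β}`, in a homogeneous basis of `H_H^*(X)`
which lifts the basis of `H^*(X)`. -/
structure HData {N : ℕ} (X : FanoGW (Fin N)) (m : ℕ) where
  pairH : Matrix (Fin N) (Fin N) (MvPolynomial (Fin m) ℂ)
  invH : X.Curve → Multiset (Fin N) → MvPolynomial (Fin m) ℂ

/-- The axioms of the theory equivariant for the torus `H = (ℂ^*)^m`. -/
structure HAx {N : ℕ} {X : FanoGW (Fin N)} {m : ℕ} (T : HData X m) : Prop where
  /-- the limit `λ = 0` is the theory of `X` -/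
  pair_zero : ∀ i j, MvPolynomial.eval 0 (T.pairH i j) = X.pair i j
  inv_zero : ∀ β s, MvPolynomial.eval 0 (T.invH β s) = X.inv β s
  pair_symm : ∀ i j, T.pairH i j = T.pairH j i
  pair_nondeg : IsUnit T.pairH.det
  /-- dimension axioms -/
  pair_deg : ∀ i j (d : Fin m →₀ ℕ), (T.pairH i j).coeff d ≠ 0 →
    X.deg i + X.deg j = X.dim + ∑ k, d k
  dimension : ∀ β s (d : Fin m →₀ ℕ), (T.invH β s).coeff d ≠ 0 →
    (s.map X.deg).sum + 3 = X.dim + Multiset.card s + X.c1 β + ∑ k, d k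
  /-- unit axiom -/
  unit_zero : ∀ i j, T.invH X.zero {X.one, i, j} = T.pairH i j
  unit_ne : ∀ β i j, β ≠ X.zero → T.invH β {X.one, i, j} = 0
  unit_many : ∀ β s, 3 ≤ Multiset.card s → T.invH β (X.one ::ₘ s) = 0
  /-- divisor axiom -/
  divisor : ∀ β s i, β ≠ X.zero → 3 ≤ Multiset.card s → X.deg i = 1 →
    T.invH β (i ::ₘ s) = MvPolynomial.C (X.period β i) * T.invH β s
  degree_zero : ∀ s, 4 ≤ Multiset.card s → T.invH X.zero s = 0
  /-- WDVV equations, with the class `β` weighted by `e^{∫_β t}`, `t ∈ H^2(X)` -/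
  wdvv : ∀ t : Fin N → ℂ, (∀ i, t i ≠ 0 → X.deg i = 1) → GWdvv T.pairH T.invH t

/-- The linear form `∑ v_i λ_i`. -/
noncomputable def lin {m : ℕ} (v : Fin m → ℂ) : MvPolynomial (Fin m) ℂ :=
  ∑ i, MvPolynomial.C (v i) * MvPolynomial.X i

section fixed

variable {N : ℕ} {X : FanoGW (Fin N)} {m : ℕ}

/-- `N` isolated fixed points: `r p a` is the restriction of `φ_a` to `p`, `w p k` are the tangent
weights at `p`, and `c_1(X) = ∑_a chern_a φ_a + ∑_i κ_i λ_i`. -/
structure HFix (T : HData X m) (r : Fin N → Fin N → MvPolynomial (Fin m) ℂ)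
    (w : Fin N → Fin X.dim → Fin m → ℤ) (κ : Fin m → ℂ) : Prop where
  /-- the restriction to `p` is a homomorphism of graded rings -/
  one : ∀ p, r p X.one = 1
  mul : ∀ p a b, r p a * r p b = ∑ k, gcup T.pairH T.invH a k b * r p k
  homog : ∀ p a (d : Fin m →₀ ℕ), (r p a).coeff d ≠ 0 → ∑ k, d k = X.deg a
  /-- Atiyah–Bott localisation -/
  localization : ∀ y : Fin m → ℂ, (∀ p k, pr (w p k) y ≠ 0) → ∀ a b,
    MvPolynomial.eval y (T.pairH a b) =
      ∑ p, MvPolynomial.eval y (r p a) * MvPolynomial.eval y (r p b) / ∏ k, pr (w p k) y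
  chern_res : ∀ p, ∑ a, MvPolynomial.C (X.chern a) * r p a + lin κ =
    lin fun i => ∑ k, (w p k i : ℂ)

end fixed

/-- The representation ring of `H = (ℂ^*)^m`: Laurent polynomials in `m` variables. -/
abbrev RH (m : ℕ) : Type := AddMonoidAlgebra ℤ (Fin m → ℤ)

/-- The character `μ`. -/
noncomputable def chr {m : ℕ} (μ : Fin m → ℤ) : RH m := AddMonoidAlgebra.single μ 1

section ev

variable {m : ℕ}

theorem pr_zero_left (y : Fin m → ℂ) : pr (0 : Fin m → ℤ) y = 0 := by simp [pr]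

theorem pr_add_left (a b : Fin m → ℤ) (y : Fin m → ℂ) : pr (a + b) y = pr a y + pr b y := by
  simp [pr, add_mul, Finset.sum_add_distrib]

/-- `μ ↦ e^{2πi μ(y)}` -/
noncomputable def chrHom (y : Fin m → ℂ) : Multiplicative (Fin m → ℤ) →* ℂ where
  toFun μ := Complex.exp (2 * Real.pi * Complex.I * pr μ.toAdd y)
  map_one' := by
    rw [toAdd_one, pr_zero_left, mul_zero, Complex.exp_zero]
  map_mul' a b := by
    rw [toAdd_mul, pr_add_left, mul_add, Complex.exp_add]

/-- The value of an element of the representation ring at `e^{2πiy}`, `y ∈ Lie H`. -/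
noncomputable def evK (y : Fin m → ℂ) : RH m →+* ℂ :=
  (AddMonoidAlgebra.lift ℤ ℂ (Fin m → ℤ) (chrHom y)).toRingHom

end ev

section kth

variable {N : ℕ} {X : FanoGW (Fin N)} {m : ℕ}

/-- Equivariant `K`-theory, equivariant Chern characters and the equivariant `Γ`-class. -/
structure HK (ξ : Fin m → ℤ) (r : Fin N → Fin N → MvPolynomial (Fin m) ℂ)
    (w : Fin N → Fin X.dim → Fin m → ℤ) (B χ : Matrix (Fin N) (Fin N) (RH m))
    (ch : Fin N → Fin N → ℂ) (Ch : (Fin m → ℂ) → Matrix (Fin N) (Fin N) ℂ)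
    (Gam : (Fin m → ℂ) → Fin N → ℂ) : Prop where
  /-- `B i p` is the restriction to `p` of the `i`-th element of a basis of `K_H(X)` over
  `K_H(pt)`, adapted to the Białynicki-Birula decomposition of the cocharacter `ξ` -/
  B_tri : ∀ i p, p < i → B i p = 0
  B_diag : ∀ p, B p p = ∏ k, if 0 < ∑ i, w p k i * ξ i then 1 - chr (w p k) else 1
  /-- the equivariant Euler pairing `∑ (-1)^k ch_H Ext^k` of the basis, and its localisation -/
  χ_unit : IsUnit χ.det
  χ_loc : ∀ y : Fin m → ℂ, (∀ p k, ∀ n : ℤ, pr (w p k) y ≠ n) → ∀ i j, evK y (χ i j) =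
    ∑ p, evK (-y) (B i p) * evK y (B j p) /
      ∏ k, (1 - Complex.exp (-(2 * Real.pi * Complex.I * pr (w p k) y)))
  /-- the `i`-th column of `Ch y` is the equivariant Chern character `∑ (2πi)^k ch_k` of the `i`-th
  element of the basis, at `λ = y` -/
  Ch_hol : ∀ a i, Differentiable ℂ fun y => Ch y a i
  Ch_res : ∀ y p i, ∑ a, MvPolynomial.eval y (r p a) * Ch y a i = evK y (B i p)
  Ch_zero : ∀ a i, Ch 0 a i = (2 * Real.pi * Complex.I) ^ X.deg a * ch i a
  /-- the equivariant `Γ`-class at `λ = y`, with the Chern roots `w_k(y)` at the fixed points -/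
  Gam_hol : ∀ y : Fin m → ℂ, (∀ p k, ∀ n : ℤ, n ≠ 0 → pr (w p k) y ≠ n) → ∀ a,
    DifferentiableAt ℂ (fun y => Gam y a) y
  Gam_res : ∀ y : Fin m → ℂ, (∀ p k, ∀ n : ℤ, n ≠ 0 → pr (w p k) y ≠ n) → ∀ p,
    ∑ a, MvPolynomial.eval y (r p a) * Gam y a = ∏ k, Complex.Gamma (1 - pr (w p k) y)

/-- The value at `y ∈ Lie H` of a matrix of polynomials in `λ_1, …, λ_m`. -/
noncomputable def evP (P : Matrix (Fin N) (Fin N) (MvPolynomial (Fin m) ℂ)) (y : Fin m → ℂ) :
    Matrix (Fin N) (Fin N) ℂ := P.map (MvPolynomial.eval y)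

/-- The matrix of the restrictions to the fixed points, at `y`. -/
noncomputable def Rm (r : Fin N → Fin N → MvPolynomial (Fin m) ℂ) (y : Fin m → ℂ) :
    Matrix (Fin N) (Fin N) ℂ := Matrix.of fun p a => MvPolynomial.eval y (r p a)

/-- The substitution `λ_k ↦ λ_k - μ_k z`, from `ℂ[λ_1, …, λ_m]` to `ℂ[λ_1, …, λ_m, z]`. -/
noncomputable def shH (μ : Fin m → ℤ) :
    MvPolynomial (Fin m) ℂ →ₐ[ℂ] MvPolynomial (Option (Fin m)) ℂ :=
  MvPolynomial.aeval fun k =>
    MvPolynomial.X (some k) - MvPolynomial.C (μ k : ℂ) * MvPolynomial.X none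

/-- The value at `t`, `λ = y z`, `z = e^w` of a matrix of power series near `t` with coefficients in
`ℂ[λ_1, …, λ_m, z]`. -/
noncomputable def evS
    (S : Matrix (Fin N) (Fin N) (MvPowerSeries (Fin N) (MvPolynomial (Option (Fin m)) ℂ)))
    (y : Fin m → ℂ) (w : ℂ) : Matrix (Fin N) (Fin N) ℂ :=
  S.map fun f => MvPolynomial.eval (fun o => o.elim (Complex.exp w) fun k => y k * Complex.exp w)
    (MvPowerSeries.constantCoeff f)

/-- `∏_{c ≤ 0} (a - c z) / ∏_{c ≤ n} (a - c z)` -/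
noncomputable def hyp (a z : ℂ) (n : ℤ) : ℂ :=
  (∏ c ∈ Finset.Icc (n + 1) 0, (a - c * z)) / ∏ c ∈ Finset.Icc 1 n, (a - c * z)

/-- No difference of the weights of `c_1(X)` at the fixed points is a nonzero integer at `y`. -/
def NonRes (w : Fin N → Fin X.dim → Fin m → ℤ) (y : Fin m → ℂ) : Prop :=
  ∀ p q, ∀ n : ℤ, n ≠ 0 → ∑ k, pr (w p k) y - ∑ k, pr (w q k) y ≠ n

/-- `M` is the calibration at the point `t`, for the equivariant parameters `λ = y z`: `M(z) → 1` as
`z → ∞`, and the columns of `J = z^θ M(z) z^{-c_1}`, `z = e^w`, are solutions of the equivariant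
quantum differential equation `dJ/dw = (θ - z^{-1} c_1 •) J`. -/
structure IsCal (T : HData X m) (t : Fin N → ℂ) (κH : MvPolynomial (Fin m) ℂ) (y : Fin m → ℂ)
    (M : ℂ → Matrix (Fin N) (Fin N) ℂ) : Prop where
  lim : ∀ i j, Tendsto (fun z => M z i j) (Bornology.cobounded ℂ) (𝓝 ((1 : Matrix _ _ ℂ) i j))
  ode : ∀ w i j, HasDerivAt (fun w => (NormedSpace.exp (w • theta X) * M (Complex.exp w) *
      NormedSpace.exp (-w • evP (gcupChern T.pairH T.invH κH) y)) i j)
    (((theta X - Complex.exp (-w) • evP (gchern T.pairH T.invH t κH)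
        (fun i => y i * Complex.exp w)) *
      (NormedSpace.exp (w • theta X) * M (Complex.exp w) *
        NormedSpace.exp (-w • evP (gcupChern T.pairH T.invH κH) y))) i j) w

end kth

/-- Equivariant genus-zero theory, near a point `t ∈ H^2(X)`, of a Fano manifold `X` with an action
of a torus `H = (ℂ^*)^m` with `N = dim H^*(X)` isolated fixed points and primitive tangent weights at
the fixed points, and a cocharacter `ξ` of `H` on which `c_1(X)` has pairwise distinct weights;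
equivariant `K`-theory; and the shift operators. -/
structure HGW {N : ℕ} (X : FanoGW (Fin N)) (t : Fin N → ℂ) where
  /-- `∫_0 φ_i = 0` -/
  period_zero : ∀ i, X.period X.zero i = 0
  /-- the rank of `H`, and the equivariant numbers -/
  m : ℕ
  toHData : HData X m
  ax : HAx toHData
  /-- the tangent weights at the fixed points -/
  wt : Fin N → Fin X.dim → Fin m → ℤ
  prim : ∀ p k, ∃ μ : Fin m → ℤ, ∑ i, wt p k i * μ i = 1
  /-- the cocharacter; the fixed points are numbered by increasing weight of `c_1(X)` -/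
  ξ : Fin m → ℤ
  ξ_ne : ∀ p k, ∑ i, wt p k i * ξ i ≠ 0
  strict : StrictMono fun p => ∑ k, ∑ i, wt p k i * ξ i
  /-- restrictions to the fixed points and localisation -/
  res : Fin N → Fin N → MvPolynomial (Fin m) ℂ
  κ : Fin m → ℂ
  fix : HFix toHData res wt κ
  /-- the Todd class and the Chern characters of a basis of `K_0(X)` -/
  Td : Fin N → ℂ
  todd : IsToddLike X Td
  ch : Fin N → Fin N → ℂ
  /-- equivariant `K`-theory, Chern characters and the `Γ`-class -/
  B : Matrix (Fin N) (Fin N) (RH m)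
  χ : Matrix (Fin N) (Fin N) (RH m)
  Ch : (Fin m → ℂ) → Matrix (Fin N) (Fin N) ℂ
  Gam : (Fin m → ℂ) → Fin N → ℂ
  kth : HK ξ res wt B χ ch Ch Gam
  hrr : ∀ i j, eulerForm X Td (ch i) (ch j) = evK 0 (χ i j)
  /-- the shift operator of the cocharacter `μ` near `t`, from `λ - μ z` to `λ`; it intertwines the
  quantum connections `z ∂_a - φ_a •` at `λ - μ z` and `λ` -/
  Sh : (Fin m → ℤ) →
    Matrix (Fin N) (Fin N) (MvPowerSeries (Fin N) (MvPolynomial (Option (Fin m)) ℂ))
  intertwine : ∀ μ a,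
    (MvPowerSeries.C (MvPolynomial.X none : MvPolynomial (Option (Fin m)) ℂ) :
        MvPowerSeries (Fin N) (MvPolynomial (Option (Fin m)) ℂ)) •
        (Sh μ).map (MvPowerSeries.pderiv (MvPolynomial (Option (Fin m)) ℂ) a) =
      (gmul toHData.pairH toHData.invH t a).map
        (MvPowerSeries.map (shH (0 : Fin m → ℤ)).toRingHom) * Sh μ -
        Sh μ * (gmul toHData.pairH toHData.invH t a).map
          (MvPowerSeries.map (shH μ).toRingHom)
  /-- its localisation at `t`: at the fixed point `p` it is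
  `e^{t(μ)} ∏_k ∏_{c ≤ 0} (w_k(λ) - c z) / ∏_{c ≤ w_k(μ)} (w_k(λ) - c z)` -/
  Sh_loc : ∀ (μ : Fin m → ℤ) (y : Fin m → ℂ), (∀ p k, ∀ n : ℤ, pr (wt p k) y ≠ n) →
    NonRes wt y → NonRes wt (y - cc μ) → ∀ M M' : ℂ → Matrix (Fin N) (Fin N) ℂ,
    IsCal toHData t (lin κ) y M → IsCal toHData t (lin κ) (y - cc μ) M' → ∀ w : ℂ,
      evS (Sh μ) y w * (NormedSpace.exp (w • theta X) * M' (Complex.exp w) *
          (Rm res (y - cc μ))⁻¹) =
        NormedSpace.exp (w • theta X) * M (Complex.exp w) * (Rm res y)⁻¹ *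
          Matrix.diagonal fun p => Complex.exp (∑ a, t a * MvPolynomial.eval (cc μ) (res p a)) *
            ∏ k, hyp (pr (wt p k) y * Complex.exp w) (Complex.exp w) (∑ i, wt p k i * μ i)

section statement

variable {N : ℕ} (X : FanoGW (Fin N))

/-- The matrix of multiplication by the class `v = ∑ v_a φ_a` in the quantum cohomology algebra at
the point `p`. -/
noncomputable def prodMat (p v : Fin N → ℂ) : Matrix (Fin N) (Fin N) ℂ :=
  Matrix.of fun k b => ∑ a, v a * ∑ l, X.pair⁻¹ k l * ∑' m, term X p {a, b, l} m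

/-- The oriented line `ℝ e^{iφ}` is admissible at `p`: it contains no ray `i (u - u') ℝ_{>0}`,
`u ≠ u'` canonical coordinates at `p`. -/
def IsAdmissible (p : Fin N → ℂ) (φ : ℝ) : Prop :=
  ∀ x y, (eulerMat X p).charpoly.IsRoot x → (eulerMat X p).charpoly.IsRoot y → x ≠ y →
    ((x - y) * Complex.exp (-φ * Complex.I)).re ≠ 0

/-- The integral combinations `v_j = ∑_i U_ij c_i` of the classes `c_i`. -/
def comb (U : Matrix (Fin N) (Fin N) ℤ) (c : Fin N → Fin N → ℂ) : Fin N → Fin N → ℂ :=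
  fun j a => ∑ i, (U i j : ℂ) * c i a

/-- The matrix of the classical cup product with the class `v = ∑ v_a φ_a`. -/
noncomputable def cupV (v : Fin N → ℂ) : Matrix (Fin N) (Fin N) ℂ :=
  Matrix.of fun k b => ∑ a, v a * ∑ l, X.pair⁻¹ k l * X.inv X.zero {a, b, l}

/-- `Z = z^θ M(z) z^{-c_1(X)}`, `z = e^w`, is the standard fundamental solution of the quantum
differential equation at the point `t`: `M(z) → 1` as `z → ∞`. -/
def IsStandard (t : Fin N → ℂ) (Z : ℂ → Matrix (Fin N) (Fin N) ℂ) : Prop :=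
  IsSolution X t Z ∧ ∃ M : ℂ → Matrix (Fin N) (Fin N) ℂ,
    (∀ i j, Tendsto (fun z => M z i j) (Bornology.cobounded ℂ) (𝓝 ((1 : Matrix _ _ ℂ) i j))) ∧
    ∀ w, Z w = NormedSpace.exp (w • theta X) * M (Complex.exp w) *
      NormedSpace.exp (-w • X.cupMat)

/-- `e^{t + πi c_1(X)} ∪ Γ̂ ∪ Ch(v)`, `Ch(v) = (2πi)^deg v`; `Gam` are the coordinates of the
`Γ`-class. -/
noncomputable def gammaVec (t Gam v : Fin N → ℂ) : Fin N → ℂ :=
  (NormedSpace.exp (cupV X fun a => t a + Real.pi * Complex.I * X.chern a) *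
    cupV X Gam).mulVec ((twist X).mulVec v)

/-- `F` is the parallel transport along the segment `t + s (p - t)`, `|s| ≤ 1`, for the flat
connection `z ∂_a - φ_a •`, `z = e^w`. -/
def IsTransport (t p : Fin N → ℂ) (F : ℂ → ℂ → Matrix (Fin N) (Fin N) ℂ) : Prop :=
  ∀ s : ℂ, ‖s‖ ≤ 1 → ∀ w i j, HasDerivAt (fun s => F s w i j) (Complex.exp (-w) *
    (prodMat X (fun a => t a + s * (p a - t a)) (fun a => p a - t a) * F s w) i j) s

end statement

end Pool.Agent.DSTJ.Spec
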