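import Pool.Agent.DSTJ.SpecB

/-!
# DSTJ-SpecF: the intertwining equation of the shift operators, restricted to a cocharacter
-/

set_option autoImplicit false

open scoped BigOperators Topology
open Filter

namespace Pool.Agent.DSTJ.Spec

open Pool.Agent.Helper18.Dub Pool.Agent.SHF Pool.Agent.DST

section hom

variable {m : ℕ}

/-- The restriction `λ_k ↦ ξ_k λ`, `z ↦ z`. -/
noncomputable def spz (ξ : Fin m → ℤ) :
    MvPolynomial (Option (Fin m)) ℂ →+* Polynomial (Polynomial ℂ) :=
  MvPolynomial.eval₂Hom (Polynomial.C.comp Polynomial.C) fun o => o.elim Polynomial.X fun k =>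
    Polynomial.C (Polynomial.C (ξ k : ℂ) * Polynomial.X)

theorem spz_C (ξ : Fin m → ℤ) (c : ℂ) :
    spz ξ (MvPolynomial.C c) = Polynomial.C (Polynomial.C c) := by
  simp [spz]

theorem spz_z (ξ : Fin m → ℤ) : spz ξ (MvPolynomial.X none) = Polynomial.X := by
  simp [spz]

theorem spz_some (ξ : Fin m → ℤ) (k : Fin m) : spz ξ (MvPolynomial.X (some k)) =
    Polynomial.C (Polynomial.C (ξ k : ℂ) * Polynomial.X) := by
  simp [spz]

theorem sp_C (ξ : Fin m → ℤ) (c : ℂ) : sp ξ (MvPolynomial.C c) = Polynomial.C c := by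
  simp [sp]

theorem sp_X (ξ : Fin m → ℤ) (k : Fin m) :
    sp ξ (MvPolynomial.X k) = Polynomial.C (ξ k : ℂ) * Polynomial.X := by
  simp [sp]

theorem spz_inc (ξ : Fin m → ℤ) (p : MvPolynomial (Fin m) ℂ) :
    spz ξ ((shH (0 : Fin m → ℤ)).toRingHom p) = Polynomial.C (sp ξ p) := by
  have h : (spz ξ).comp (shH (0 : Fin m → ℤ)).toRingHom =
      (Polynomial.C : Polynomial ℂ →+* Polynomial (Polynomial ℂ)).comp
        (sp ξ : MvPolynomial (Fin m) ℂ →+* Polynomial ℂ) := by
    apply MvPolynomial.ringHom_ext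
    · intro c
      show spz ξ (shH (0 : Fin m → ℤ) (MvPolynomial.C c)) =
        Polynomial.C (sp ξ (MvPolynomial.C c))
      rw [shH, MvPolynomial.aeval_C, MvPolynomial.algebraMap_eq, spz_C, sp_C]
    · intro k
      show spz ξ (shH (0 : Fin m → ℤ) (MvPolynomial.X k)) =
        Polynomial.C (sp ξ (MvPolynomial.X k))
      rw [shH, MvPolynomial.aeval_X, map_sub, map_mul, spz_some, spz_z, spz_C, sp_X]
      simp
  exact DFunLike.congr_fun h p

theorem spz_shH (ξ : Fin m → ℤ) (p : MvPolynomial (Fin m) ℂ) :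
    spz ξ ((shH ξ).toRingHom p) = shiftHom 1 (sp ξ p) := by
  have h : (spz ξ).comp (shH ξ).toRingHom =
      (shiftHom 1).comp (sp ξ : MvPolynomial (Fin m) ℂ →+* Polynomial ℂ) := by
    apply MvPolynomial.ringHom_ext
    · intro c
      show spz ξ (shH ξ (MvPolynomial.C c)) = shiftHom 1 (sp ξ (MvPolynomial.C c))
      rw [shH, MvPolynomial.aeval_C, MvPolynomial.algebraMap_eq, spz_C, sp_C]
      simp [shiftHom]
    · intro k
      show spz ξ (shH ξ (MvPolynomial.X k)) = shiftHom 1 (sp ξ (MvPolynomial.X k))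
      rw [shH, MvPolynomial.aeval_X, map_sub, map_mul, spz_some, spz_z, spz_C, sp_X]
      simp only [shiftHom, Polynomial.coe_eval₂RingHom, Polynomial.eval₂_mul, Polynomial.eval₂_C,
        Polynomial.eval₂_X, RingHom.comp_apply, Int.cast_one, one_mul, Polynomial.C_mul]
      ring
  exact DFunLike.congr_fun h p

end hom

theorem map_pderiv {σ R S : Type*} [DecidableEq σ] [CommRing R] [CommRing S] (f : R →+* S) (a : σ)
    (p : MvPowerSeries σ R) :
    MvPowerSeries.map f (MvPowerSeries.pderiv R a p) =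
      MvPowerSeries.pderiv S a (MvPowerSeries.map f p) := by
  ext m
  rw [MvPowerSeries.coeff_map, MvPowerSeries.coeff_pderiv, MvPowerSeries.coeff_pderiv,
    MvPowerSeries.coeff_map, map_mul]
  congr 1
  rw [map_add, map_natCast, map_one]

section mulH

variable {N : ℕ} {X : FanoGW (Fin N)} {m : ℕ}

/-- `S` intertwines the connections `z ∂_a - φ_a •` at `λ - μ z` and `λ`. -/
def Intertwines (T : HData X m) (t : Fin N → ℂ) (μ : Fin m → ℤ)
    (S : Matrix (Fin N) (Fin N) (MvPowerSeries (Fin N) (MvPolynomial (Option (Fin m)) ℂ))) :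
    Prop :=
  ∀ a, (MvPowerSeries.C (MvPolynomial.X none : MvPolynomial (Option (Fin m)) ℂ) :
      MvPowerSeries (Fin N) (MvPolynomial (Option (Fin m)) ℂ)) •
        S.map (MvPowerSeries.pderiv (MvPolynomial (Option (Fin m)) ℂ) a) =
      (gmul T.pairH T.invH t a).map
        (MvPowerSeries.map (shH (0 : Fin m → ℤ)).toRingHom) * S -
        S * (gmul T.pairH T.invH t a).map (MvPowerSeries.map (shH μ).toRingHom)

/-- the restriction of a matrix of power series -/
noncomputable def resS (ξ : Fin m → ℤ)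
    (S : Matrix (Fin N) (Fin N) (MvPowerSeries (Fin N) (MvPolynomial (Option (Fin m)) ℂ))) :
    Matrix (Fin N) (Fin N) (MvPowerSeries (Fin N) (Polynomial (Polynomial ℂ))) :=
  S.map (MvPowerSeries.map (spz ξ))

theorem mulAt_eq {T : HData X m} (h : HAx T) (ξ : Fin m → ℤ) (t : Fin N → ℂ) (a : Fin N) :
    mulAt (h.toEquivGW ξ).toEquivData t a =
      (gmul T.pairH T.invH t a).map (MvPowerSeries.map (sp ξ : MvPolynomial (Fin m) ℂ →+* _)) := by
  have h2 : (T.pairH.map (sp ξ))⁻¹ = T.pairH⁻¹.map (sp ξ) :=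
    map_inv (sp ξ : MvPolynomial (Fin m) ℂ →+* Polynomial ℂ) h.pair_nondeg
  ext1 k b
  rw [Matrix.map_apply]
  simp only [gmul, Matrix.of_apply, map_sum, map_mul, MvPowerSeries.map_C,
    gser_map (sp ξ) T.invH t h.finite_support]
  show ∑ l, MvPowerSeries.C ((T.pairH.map (sp ξ))⁻¹ k l) * _ = _
  rw [h2]
  rfl

theorem intertwine_res {T : HData X m} (h : HAx T) (ξ : Fin m → ℤ) (t : Fin N → ℂ)
    {S : Matrix (Fin N) (Fin N) (MvPowerSeries (Fin N) (MvPolynomial (Option (Fin m)) ℂ))}
    (hS : Intertwines T t ξ S) (a : Fin N) :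
    (MvPowerSeries.C (Polynomial.X : Polynomial (Polynomial ℂ)) :
        MvPowerSeries (Fin N) (Polynomial (Polynomial ℂ))) •
        (resS ξ S).map (MvPowerSeries.pderiv (Polynomial (Polynomial ℂ)) a) =
      (mulAt (h.toEquivGW ξ).toEquivData t a).map (MvPowerSeries.map Polynomial.C) * resS ξ S -
        resS ξ S *
          (mulAt (h.toEquivGW ξ).toEquivData t a).map (MvPowerSeries.map (shiftHom 1)) := by
  set F : MvPowerSeries (Fin N) (MvPolynomial (Option (Fin m)) ℂ) →+*
      MvPowerSeries (Fin N) (Polynomial (Polynomial ℂ)) :=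
    MvPowerSeries.map (spz ξ) with hF
  have h1 := congrArg (fun M => M.map F) (hS a)
  have h2 : ((MvPowerSeries.C (MvPolynomial.X none : MvPolynomial (Option (Fin m)) ℂ) :
      MvPowerSeries (Fin N) (MvPolynomial (Option (Fin m)) ℂ)) •
        S.map (MvPowerSeries.pderiv (MvPolynomial (Option (Fin m)) ℂ) a)).map F =
      (MvPowerSeries.C (Polynomial.X : Polynomial (Polynomial ℂ)) :
        MvPowerSeries (Fin N) (Polynomial (Polynomial ℂ))) •
        (resS ξ S).map (MvPowerSeries.pderiv (Polynomial (Polynomial ℂ)) a) := by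
    ext1 i j
    simp only [Matrix.map_apply, Matrix.smul_apply, smul_eq_mul, map_mul, resS]
    rw [hF, MvPowerSeries.map_C, map_pderiv]
    congr 2
    exact spz_z ξ
  have h3 : (mulAt (h.toEquivGW ξ).toEquivData t a).map (MvPowerSeries.map Polynomial.C) =
      ((gmul T.pairH T.invH t a).map (MvPowerSeries.map (shH (0 : Fin m → ℤ)).toRingHom)).map F := by
    rw [mulAt_eq h]
    ext1 i j
    simp only [Matrix.map_apply]
    rw [hF]
    ext1 n
    simp only [MvPowerSeries.coeff_map]
    exact (spz_inc ξ _).symm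
  have h4 : (mulAt (h.toEquivGW ξ).toEquivData t a).map (MvPowerSeries.map (shiftHom 1)) =
      ((gmul T.pairH T.invH t a).map (MvPowerSeries.map (shH ξ).toRingHom)).map F := by
    rw [mulAt_eq h]
    ext1 i j
    simp only [Matrix.map_apply]
    rw [hF]
    ext1 n
    simp only [MvPowerSeries.coeff_map]
    exact (spz_shH ξ _).symm
  rw [← h2, h3, h4]
  show _ = (((gmul T.pairH T.invH t a).map (MvPowerSeries.map (shH (0 : Fin m → ℤ)).toRingHom)).map F) *
    S.map F - S.map F *
      (((gmul T.pairH T.invH t a).map (MvPowerSeries.map (shH ξ).toRingHom)).map F)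
  rw [← Matrix.map_mul, ← Matrix.map_mul]
  refine h1.trans ?_
  ext1 i j
  simp only [Matrix.map_apply, Matrix.sub_apply, map_sub]

end mulH

/-! ### the constant term -/

section const

variable {N : ℕ} {m : ℕ}

/-- the value of a matrix of polynomials in `λ_1, …, λ_m, z` -/
theorem evm₂_spz (ξ : Fin m → ℤ) (M : Matrix (Fin N) (Fin N) (MvPolynomial (Option (Fin m)) ℂ))
    (x z : ℂ) : evm₂ (M.map (spz ξ)) x z =
      M.map (MvPolynomial.eval fun o => o.elim z fun k => x * (ξ k : ℂ)) := by
  have h : (Polynomial.evalEvalRingHom x z).comp (spz ξ) =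
      (MvPolynomial.eval fun o => o.elim z fun k => x * (ξ k : ℂ)) := by
    apply MvPolynomial.ringHom_ext
    · intro c
      rw [RingHom.comp_apply, MvPolynomial.eval_C]
      show Polynomial.evalEval x z (spz ξ (MvPolynomial.C c)) = c
      rw [spz_C]
      simp [Polynomial.evalEval]
    · intro o
      rw [RingHom.comp_apply, MvPolynomial.eval_X]
      show Polynomial.evalEval x z (spz ξ (MvPolynomial.X o)) = _
      cases o with
      | none =>
        rw [spz_z]
        simp [Polynomial.evalEval]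
      | some k =>
        rw [spz_some]
        simp [Polynomial.evalEval]
        ring
  ext1 i j
  exact DFunLike.congr_fun h (M i j)

theorem resS_const (ξ : Fin m → ℤ)
    (S : Matrix (Fin N) (Fin N) (MvPowerSeries (Fin N) (MvPolynomial (Option (Fin m)) ℂ)))
    (i j : Fin N) : MvPowerSeries.constantCoeff (resS ξ S i j) =
      ((S.map MvPowerSeries.constantCoeff).map (spz ξ)) i j := by
  simp only [resS, Matrix.map_apply]
  rw [← MvPowerSeries.coeff_zero_eq_constantCoeff_apply, MvPowerSeries.coeff_map,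
    MvPowerSeries.coeff_zero_eq_constantCoeff_apply]

theorem isUnit_spz (ξ : Fin m → ℤ) {M : Matrix (Fin N) (Fin N) (MvPolynomial (Option (Fin m)) ℂ)}
    (hM : IsUnit M.det) : IsUnit (M.map (spz ξ)).det := by
  have h1 : (M.map (spz ξ)).det = spz ξ M.det := by
    have := (spz ξ).map_det M
    rw [RingHom.mapMatrix_apply] at this
    exact this.symm
  rw [h1]
  exact hM.map (spz ξ)

end const

end Pool.Agent.DSTJ.Spec
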