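import Pool.Agent.DSTJ.Ext
import Pool.Agent.DSTJ.JOde
import Pool.Agent.DST.HC

/-!
# DSTJ-ToJ: the entire solutions along the line `ℂ ξ`, in the form needed for `GammaGW`
-/

set_option autoImplicit false

open scoped BigOperators Topology
open Filter

namespace Pool.Agent.DSTJ

open Pool.Agent.DST.TE Pool.Agent.DST
open Pool.Agent.Helper18.Dub Pool.Agent.Helper7.DubStokes Pool.Agent.SHF

variable {m N : ℕ} (D : Fro m N)

private theorem pr_ln0 (a : Fin m → ℤ) (y : ℂ) :
    pr a (fun l => y * (D.ξ l : ℂ)) = y * ((∑ i, a i * D.ξ i : ℤ) : ℂ) := by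
  unfold pr
  push_cast
  rw [Finset.mul_sum]
  refine Finset.sum_congr rfl fun i _ => ?_
  ring

private theorem no_int {y : ℂ} (hy : y.im ≠ 0) {a : ℤ} (ha : a ≠ 0) (n : ℤ) : y * (a : ℂ) ≠ n := by
  intro h
  have h3 := congrArg Complex.im h
  simp only [Complex.mul_im, Complex.intCast_im, Complex.intCast_re, mul_zero, zero_add] at h3
  rcases mul_eq_zero.1 h3 with h4 | h4
  · exact hy h4
  · exact ha (by exact_mod_cast h4)

theorem w1_line {y : ℂ} (hy : y.im ≠ 0) : D.W1 (fun l => y * (D.ξ l : ℂ)) := by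
  intro k n h
  rw [pr_ln0] at h
  exact no_int hy (D.ξ_wt k) n h

theorem nr_line {y : ℂ} (hy : y.im ≠ 0) : D.NR (fun l => y * (D.ξ l : ℂ)) := by
  intro p q n hn h
  rw [pr_ln0, pr_ln0, ← mul_sub] at h
  have h1 : ((∑ i, D.e p i * D.ξ i : ℤ) : ℂ) - ((∑ i, D.e q i * D.ξ i : ℤ) : ℂ) =
      ((∑ i, D.e p i * D.ξ i - ∑ i, D.e q i * D.ξ i : ℤ) : ℂ) := by push_cast; ring
  rw [h1] at h
  rcases eq_or_ne (∑ i, D.e p i * D.ξ i - ∑ i, D.e q i * D.ξ i) 0 with h2 | h2
  · rw [h2, Int.cast_zero, mul_zero] at h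
    exact hn (by exact_mod_cast h.symm)
  · exact no_int hy h2 n h

theorem nr_zero : D.NR 0 := by
  intro p q n hn h
  simp only [pr, Pi.zero_apply, mul_zero, Finset.sum_const_zero, sub_zero] at h
  exact hn (by exact_mod_cast h.symm)

theorem w2_zero : D.W2 0 := by
  intro k n hn h
  simp only [pr, Pi.zero_apply, mul_zero, Finset.sum_const_zero] at h
  exact hn (by exact_mod_cast h.symm)

theorem exists_JE {X : FanoGW (Fin N)} (E : EquivData X) (t : Fin N → ℂ) (κ : ℂ)
    (S : Matrix (Fin N) (Fin N) (Polynomial (Polynomial ℂ)))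
    (hprim : ∀ k, ∀ n : ℤ, ∃ μ : Fin m → ℤ, ∑ i, D.wt k i * μ i = n)
    (hθ : ∀ i, D.θ i = (X.dim : ℂ) / 2 - X.deg i)
    (hC : ∀ (y w : ℂ) (i j : Fin N),
      Complex.exp (-w) * evm (chernT E t κ) (y * Complex.exp w) i j =
        ∑ k ∈ Finset.range (D.K + 1), Complex.exp (-(k * w)) *
          Complex.exp (w * (D.θ i - D.θ j)) * D.C k (fun l => y * (D.ξ l : ℂ)) i j)
    (hC0 : ∀ y, evm (cupChernT E κ) y = D.C 0 (fun l => y * (D.ξ l : ℂ)))
    (hS : ∀ y w, D.S D.ξ (fun l => y * (D.ξ l : ℂ)) w =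
      evm₂ S (y * Complex.exp w) (Complex.exp w)) :
    ∃ (J : ℂ → ℂ → Matrix (Fin N) (Fin N) ℂ) (cal : ℂ → ℂ → Matrix (Fin N) (Fin N) ℂ),
      (∀ i j, Differentiable ℂ fun p : ℂ × ℂ => J p.1 p.2 i j) ∧
      (∀ y w i j, HasDerivAt (fun w => J y w i j)
        (((theta X - Complex.exp (-w) • evm (chernT E t κ) (y * Complex.exp w)) *
          J y w) i j) w) ∧
      (∀ y w, J y w = evm₂ S (y * Complex.exp w) (Complex.exp w) * J (y - 1) w) ∧
      (∀ y : ℂ, y.im ≠ 0 → ∀ i j,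
        Tendsto (fun z => cal y z i j) (Bornology.cobounded ℂ) (𝓝 ((1 : Matrix _ _ ℂ) i j))) ∧
      (∀ y : ℂ, y.im ≠ 0 → ∀ w, J y w =
        NormedSpace.exp (w • theta X) * cal y (Complex.exp w) *
          NormedSpace.exp (-w • evm (cupChernT E κ) y) * D.G (fun l => y * (D.ξ l : ℂ))) ∧
      ∀ w, J 0 w = D.J0 D.G 0 w := by
  obtain ⟨Jt, hJ1, hJ2⟩ := exists_Jt D hprim
  have hth : theta X = Matrix.diagonal D.θ := by
    unfold theta
    congr 1
    funext a
    rw [hθ]
  have hshift : ∀ y : ℂ, y.im ≠ 0 → ∀ w,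
      Jt y w = evm₂ S (y * Complex.exp w) (Complex.exp w) * Jt (y - 1) w := by
    intro y hy w
    have hy1 : (y - 1).im ≠ 0 := by simpa using hy
    have h1 : (fun l => y * (D.ξ l : ℂ) : Fin m → ℂ) - cc D.ξ = fun l => (y - 1) * (D.ξ l : ℂ) := by
      funext l
      simp only [Pi.sub_apply, cc]
      ring
    have h2 := D.shift D.ξ (fun l => y * (D.ξ l : ℂ)) (w1_line D hy) (nr_line D hy)
      (by rw [h1]; exact nr_line D hy1) w
    rw [h1] at h2
    rw [hJ2 y (Or.inl hy) w, hJ2 (y - 1) (Or.inl hy1) w, h2, hS]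
  refine ⟨Jt, fun y z => D.cal (fun l => y * (D.ξ l : ℂ)) z⁻¹, hJ1, ?_, ?_, ?_, ?_, ?_⟩
  · intro y w i j
    have hR : Continuous fun p : ℂ × ℂ => ((theta X - Complex.exp (-p.2) •
        evm (chernT E t κ) (p.1 * Complex.exp p.2)) * Jt p.1 p.2) i j := by
      simp only [Matrix.mul_apply, Matrix.sub_apply, Matrix.smul_apply, smul_eq_mul]
      refine continuous_finsetSum _ fun a _ => ?_
      refine (continuous_const.sub ((by fun_prop : Continuous fun p : ℂ × ℂ =>
        Complex.exp (-p.2)).mul ?_)).mul (hJ1 a j).continuous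
      exact (diff_evm (chernT E t κ) i a).continuous.comp (by fun_prop)
    refine ode_ext (F := fun p => Jt p.1 p.2 i j) (hJ1 i j) hR (fun y hy w => ?_) y w
    have h1 := D.J0_ode (G := D.G) (nr_line D hy)
      (fun w => evm (chernT E t κ) (y * Complex.exp w)) (hC y) w i j
    rw [← hth] at h1
    have h2 : ∀ w, Jt y w = D.J0 D.G (fun l => y * (D.ξ l : ℂ)) w := hJ2 y (Or.inl hy)
    simp only [h2]
    exact h1
  · intro y w
    ext i j
    refine eq_ext (f := fun y => Jt y w i j) (g := fun y => (evm₂ S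
      (y * Complex.exp w) (Complex.exp w) * Jt (y - 1) w) i j) ?_ ?_ (fun y hy => ?_) y
    · exact (hJ1 i j).continuous.comp (by fun_prop : Continuous fun y : ℂ => (y, w))
    · simp only [Matrix.mul_apply]
      refine continuous_finsetSum _ fun a _ => ?_
      refine Continuous.mul ?_ ((hJ1 a j).continuous.comp
        (by fun_prop : Continuous fun y : ℂ => (y - 1, w)))
      exact (diff_evm₂ S i a).continuous.comp
        (by fun_prop : Continuous fun y : ℂ => (y * Complex.exp w, Complex.exp w))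
    · show Jt y w i j = _
      rw [hshift y hy w]
  · intro y hy i j
    exact D.cal_lim (nr_line D hy) i j
  · intro y hy w
    rw [hJ2 y (Or.inl hy) w, hC0, hth]
    unfold Base.J0
    rw [Complex.exp_neg]
  · intro w
    rw [hJ2 0 (Or.inr rfl) w]
    congr 1
    funext l
    simp

end Pool.Agent.DSTJ
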