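import Pool.Agent.DSTJ.HUnit
import Pool.Agent.DSTJ.GamCls
import Pool.Agent.DSTJ.SpecF
import Pool.Agent.DSTJ.ToJ

/-!
# DSTJ-HFro: the equation, the shift operators and the `Γ`-classes of an equivariant theory
-/

set_option autoImplicit false

open scoped BigOperators Topology
open Filter

namespace Pool.Agent.DSTJ.Spec

open Pool.Agent.Helper18.Dub Pool.Agent.Helper7.DubStokes Pool.Agent.SHF
open Pool.Agent.DST Pool.Agent.DST.TE

variable {N : ℕ} {X : FanoGW (Fin N)} {t : Fin N → ℂ}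

namespace HGW

variable (T : HGW X t)

theorem evS_hol (μ : Fin T.m → ℤ) (i j : Fin N) :
    Differentiable ℂ fun x : (Fin T.m → ℂ) × ℂ => evS (T.Sh μ) x.1 x.2 i j := by
  have h1 : ∀ p : MvPolynomial (Option (Fin T.m)) ℂ,
      Differentiable ℂ fun x : (Fin T.m → ℂ) × ℂ =>
        MvPolynomial.eval (fun o => o.elim (Complex.exp x.2) fun k => x.1 k * Complex.exp x.2) p := by
    intro p
    induction p using MvPolynomial.induction_on with
    | C a => simp
    | add p q hp hq =>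
      simp only [map_add]
      exact hp.add hq
    | mul_X p o hp =>
      simp only [map_mul, MvPolynomial.eval_X]
      refine hp.mul ?_
      cases o with
      | none => simp only [Option.elim_none]; fun_prop
      | some k => simp only [Option.elim_some]; fun_prop
  exact h1 _

theorem evS_det (ht : ∀ i, t i ≠ 0 → X.deg i = 1) (μ : Fin T.m → ℤ) (y : Fin T.m → ℂ) (w : ℂ) :
    (evS (T.Sh μ) y w).det ≠ 0 := by
  have h1 := ((T.isUnit_Sh ht μ).map (MvPowerSeries.constantCoeff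
    (σ := Fin N) (R := MvPolynomial (Option (Fin T.m)) ℂ))).map (MvPolynomial.eval
      fun o => o.elim (Complex.exp w) fun k => y k * Complex.exp w)
  rw [RingHom.map_det, RingHom.map_det] at h1
  exact h1.ne_zero

theorem shift (ht : ∀ i, t i ≠ 0 → X.deg i = 1) (μ : Fin T.m → ℤ) (y : Fin T.m → ℂ)
    (hy : T.toBase.W1 y) (hr : T.toBase.NR y) (hr' : T.toBase.NR (y - cc μ)) (w : ℂ) :
    T.toBase.J0 T.G y w = evS (T.Sh μ) y w * T.toBase.J0 T.G (y - cc μ) w := by
  have hy0 : ∀ p k, ∀ n : ℤ, pr (T.wt p k) y ≠ n := fun p k n => hy (p, k) n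
  have hy' : T.toBase.W1 (y - cc μ) := by
    intro k n hn
    rw [pr_sub, pr_cc] at hn
    apply hy k (n + ∑ i, T.toBase.wt k i * μ i)
    rw [Int.cast_add, ← hn]
    ring
  have hy1 : ∀ p k, ∀ n : ℤ, pr (T.wt p k) (y - cc μ) ≠ n := fun p k n => hy' (p, k) n
  have hS := T.Sh_loc μ y hy0 ((T.nonRes_iff y).2 hr) ((T.nonRes_iff _).2 hr') _ _
    (T.isCal_cal hr) (T.isCal_cal hr') w
  rw [T.theta_eq] at hS
  simp only [← Complex.exp_neg] at hS
  refine T.toBase.J0_shift (y := y) (y' := y - cc μ) hy.det hy'.det w hS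
    (T.hkg.RG fun p k n _ => hy0 p k n) (T.hkg.RG fun p k n _ => hy1 p k n)
    (Bm_sub T.B y μ) fun p => ?_
  have h1 := gam_shift ht T.fix.homog T.wt hy0 μ p
  have h2 : ∀ k, hyp (pr (T.wt p k) y * Complex.exp w) (Complex.exp w)
      (∑ i, T.wt p k i * μ i) = Complex.exp (-w * ((∑ i, T.wt p k i * μ i : ℤ) : ℂ)) *
        gfac (pr (T.wt p k) y) (∑ i, T.wt p k i * μ i) := by
    intro k
    rw [hyp_scale, ← Complex.exp_int_mul]
    congr 2
    push_cast
    ring
  have h3 : pr (T.toBase.e p) y = pr (T.toBase.e p) (y - cc μ) +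
      ∑ k, ((∑ i, T.wt p k i * μ i : ℤ) : ℂ) := by
    have h4 : ∀ y, pr (T.toBase.e p) y = ∑ k, pr (T.wt p k) y := fun y => pr_sum (T.wt p) y
    rw [h4, h4, ← Finset.sum_add_distrib]
    refine Finset.sum_congr rfl fun k _ => ?_
    rw [pr_sub, pr_cc]
    ring
  rw [h1, h3, Finset.prod_congr rfl fun k _ => h2 k, Finset.prod_mul_distrib, ← Complex.exp_sum,
    ← Finset.mul_sum, mul_add, Complex.exp_add]
  ring

/-- the equation with its shift operators -/
noncomputable def toFro (ht : ∀ i, t i ≠ 0 → X.deg i = 1) : Fro T.m N where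
  toBase := T.toBase
  G := T.G
  G_hol := fun y hy i j => T.hkg.G_hol y (fun p k n hn => hy (p, k) n hn) i j
  g := fun p y => gam t T.res T.wt p y
  g_hol := fun y hy p => gam_hol t T.res T.wt (fun p k n => hy (p, k) n) p
  g_ne := fun y hy p => gam_ne t T.res T.wt (fun p k n => hy (p, k) n) p
  B := Bm T.B
  B_per := fun y _ j => Bm_per T.B T.ξ y j
  B_det := fun y hy => T.hkg.Bm_det fun p k n => hy (p, k) n
  RG := fun y hy => T.hkg.RG fun p k n _ => hy (p, k) n
  S := fun μ y w => evS (T.Sh μ) y w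
  S_hol := fun μ i j => T.evS_hol μ i j
  S_det := fun μ y w => T.evS_det ht μ y w
  shift := fun μ y h1 h2 h3 w => T.shift ht μ y h1 h2 h3 w

theorem hprim (ht : ∀ i, t i ≠ 0 → X.deg i = 1) :
    ∀ k, ∀ n : ℤ, ∃ μ : Fin T.m → ℤ, ∑ i, (T.toFro ht).wt k i * μ i = n := by
  intro k n
  obtain ⟨μ, hμ⟩ := T.prim k.1 k.2
  refine ⟨fun i => n * μ i, ?_⟩
  have h1 : ∀ i, (T.toFro ht).wt k i * (n * μ i) = n * (T.wt k.1 k.2 i * μ i) := fun i => by
    show T.wt k.1 k.2 i * (n * μ i) = _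
    ring
  rw [Finset.sum_congr rfl fun i _ => h1 i, ← Finset.mul_sum, hμ, mul_one]

end HGW

end Pool.Agent.DSTJ.Spec
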