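import Pool.Agent.DSTJ.HBase
import Pool.Agent.DSTJ.ToJ
import Pool.Agent.DST.FEuler

/-!
# DSTJ-HStd: the standard solution, the vectors `e^{t + πi c_1} Γ̂ Ch(v)` and parallel transport
-/

set_option autoImplicit false

open scoped BigOperators Topology
open Filter

namespace Pool.Agent.DSTJ.Spec

open Pool.Agent.Helper18.Dub Pool.Agent.Helper7.DubStokes Pool.Agent.SHF
open Pool.Agent.DST Pool.Agent.DST.TE

variable {N : ℕ} {X : FanoGW (Fin N)} {t : Fin N → ℂ}

namespace HGW

variable (T : HGW X t)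

theorem nr_zero : T.toBase.NR 0 := by
  intro p q n hn h
  simp only [pr, Pi.zero_apply, mul_zero, Finset.sum_const_zero, sub_zero] at h
  exact hn (by exact_mod_cast h.symm)

theorem gcupChern_zero :
    evP (gcupChern T.toHData.pairH T.toHData.invH (lin T.κ)) 0 = X.cupMat := by
  have h2 : T.toHData.pairH⁻¹.map (MvPolynomial.eval 0) = X.pair⁻¹ := by
    rw [← map_inv (MvPolynomial.eval 0) T.ax.pair_nondeg]
    congr 1
    ext i j
    exact T.ax.pair_zero i j
  ext k b
  simp only [evP, gcupChern, gcup, Matrix.map_apply, Matrix.add_apply, Matrix.sum_apply,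
    Matrix.smul_apply, smul_eq_mul, Matrix.of_apply, map_add, map_sum, map_mul,
    MvPolynomial.algebraMap_eq, MvPolynomial.eval_C, T.ax.inv_zero]
  have h3 : MvPolynomial.eval 0 (lin T.κ) = 0 := by
    rw [eval_lin]
    simp
  rw [h3, zero_mul, add_zero]
  show _ = ∑ a, X.chern a * ∑ l, X.pair⁻¹ k l * X.inv X.zero {a, b, l}
  refine Finset.sum_congr rfl fun a _ => ?_
  congr 1
  refine Finset.sum_congr rfl fun l _ => ?_
  congr 1
  exact congrFun (congrFun h2 k) l

theorem gchern_zero (ht : ∀ i, t i ≠ 0 → X.deg i = 1) :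
    evP (gchern T.toHData.pairH T.toHData.invH t (lin T.κ)) 0 = eulerMat X t := by
  rw [euler_at_zero (T.ax.toEquivGW T.ξ) (∑ i, T.κ i * (T.ξ i : ℂ)) T.period_zero ht,
    T.ax.chernT_eq T.ξ t (sp_lin T.ξ T.κ)]
  ext i j
  show MvPolynomial.eval 0 _ = Polynomial.eval 0 (sp T.ξ _)
  rw [eval_sp]
  congr 2
  funext k
  simp

/-- the standard solution -/
noncomputable def Zs (w : ℂ) : Matrix (Fin N) (Fin N) ℂ :=
  NormedSpace.exp (w • theta X) * T.toBase.cal 0 (Complex.exp w)⁻¹ *
    NormedSpace.exp (-w • X.cupMat)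

theorem isStandard (ht : ∀ i, t i ≠ 0 → X.deg i = 1) : IsStandard X t T.Zs := by
  have h1 := T.isCal_cal T.nr_zero
  refine ⟨fun w i j => ?_, fun z => T.toBase.cal 0 z⁻¹, h1.lim, fun w => rfl⟩
  have h2 := h1.ode w i j
  have h3 : (fun i => (0 : Fin T.m → ℂ) i * Complex.exp w) = 0 := by
    funext i
    simp
  rw [h3, T.gchern_zero ht, T.gcupChern_zero] at h2
  exact h2

end HGW

/-- the columns -/
theorem gamma_cols {ch : Fin N → Fin N → ℂ} {Ch0 : Matrix (Fin N) (Fin N) ℂ}
    (hCh : ∀ a i, Ch0 a i = (2 * Real.pi * Complex.I) ^ X.deg a * ch i a) (Gam : Fin N → ℂ)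
    (U : Matrix (Fin N) (Fin N) ℤ) (Z : Matrix (Fin N) (Fin N) ℂ) (i j : Fin N) :
    (Z * (NormedSpace.exp (cupV X fun a => t a + Real.pi * Complex.I * X.chern a) *
        cupV X Gam * Ch0) * U.map (Int.castRingHom ℂ)) i j =
      Z.mulVec (gammaVec X t Gam (comb U ch j)) i := by
  have h1 : ∀ a, (Ch0 * U.map (Int.castRingHom ℂ)) a j =
      ((twist X).mulVec (comb U ch j)) a := by
    intro a
    rw [Matrix.mul_apply, twist, Matrix.mulVec_diagonal, comb, Finset.mul_sum]
    refine Finset.sum_congr rfl fun i _ => ?_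
    rw [hCh, Matrix.map_apply]
    show _ * ((U i j : ℤ) : ℂ) = _
    ring
  have h2 : Z * (NormedSpace.exp (cupV X fun a => t a + Real.pi * Complex.I * X.chern a) *
        cupV X Gam * Ch0) * U.map (Int.castRingHom ℂ) =
      Z * ((NormedSpace.exp (cupV X fun a => t a + Real.pi * Complex.I * X.chern a) *
        cupV X Gam) * (Ch0 * U.map (Int.castRingHom ℂ))) := by
    simp only [Matrix.mul_assoc]
  rw [h2, Matrix.mul_apply, Matrix.mulVec, dotProduct]
  refine Finset.sum_congr rfl fun k _ => ?_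
  congr 1
  rw [Matrix.mul_apply, gammaVec, Matrix.mulVec, dotProduct]
  exact Finset.sum_congr rfl fun a _ => by rw [h1]

/-- linear combinations of the columns are transported -/
theorem transport_mul {p : Fin N → ℂ} {F : ℂ → ℂ → Matrix (Fin N) (Fin N) ℂ}
    (h : IsTransport X t p F) (c : ℂ) (V : Matrix (Fin N) (Fin N) ℂ) :
    IsTransport X t p fun s w => c • (F s w * V) := by
  intro s hs w i j
  set A : Matrix (Fin N) (Fin N) ℂ :=
    prodMat X (fun a => t a + s * (p a - t a)) (fun a => p a - t a) with hA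
  have h1 : HasDerivAt (fun s => c * ∑ k, F s w i k * V k j)
      (c * ∑ k, Complex.exp (-w) * (A * F s w) i k * V k j) s := by
    refine (HasDerivAt.fun_sum fun k _ => ?_).const_mul c
    exact (h s hs w i k).mul_const (V k j)
  have h2 : (fun s => (c • (F s w * V)) i j) = fun s => c * ∑ k, F s w i k * V k j := by
    funext s
    rw [Matrix.smul_apply, Matrix.mul_apply, smul_eq_mul]
  rw [h2]
  refine h1.congr_deriv ?_
  rw [Matrix.mul_smul, Matrix.smul_apply, ← Matrix.mul_assoc, Matrix.mul_apply, smul_eq_mul,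
    Finset.mul_sum, Finset.mul_sum, Finset.mul_sum]
  exact Finset.sum_congr rfl fun k _ => by ring

end Pool.Agent.DSTJ.Spec
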