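import Pool.Agent.DSTJ.HFro
import Pool.Agent.DSTJ.HStd
import Pool.Agent.DST.GFin

/-!
# DSTJ-HMain: the theorem for theories equivariant for a torus
-/

set_option autoImplicit false

open scoped BigOperators Topology
open Filter

namespace Pool.Agent.DSTJ.Spec

open Pool.Agent.Helper18.Dub Pool.Agent.Helper7.DubStokes Pool.Agent.SHF
open Pool.Agent.DST Pool.Agent.DST.TE

variable {N : ℕ} {X : FanoGW (Fin N)} {t : Fin N → ℂ}

namespace HGW

variable (T : HGW X t)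

/-- the weight of `κ` on `ξ` -/
noncomputable def κξ : ℂ := ∑ i, T.κ i * (T.ξ i : ℂ)

theorem sp_κ : sp T.ξ (lin T.κ) = Polynomial.C T.κξ * Polynomial.X := sp_lin T.ξ T.κ

/-- the shift operator of `ξ` at `t` -/
noncomputable def Sx : Matrix (Fin N) (Fin N) (Polynomial (Polynomial ℂ)) :=
  ((T.Sh T.ξ).map MvPowerSeries.constantCoeff).map (spz T.ξ)

theorem isUnit_Sx (ht : ∀ i, t i ≠ 0 → X.deg i = 1) : IsUnit T.Sx.det := by
  apply isUnit_spz
  have h1 := (T.isUnit_Sh ht T.ξ).map (MvPowerSeries.constantCoeff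
    (σ := Fin N) (R := MvPolynomial (Option (Fin T.m)) ℂ))
  rw [RingHom.map_det] at h1
  exact h1

/-- the equivariant theory of `ξ` -/
noncomputable def E : EquivGW X := T.ax.toEquivGW T.ξ

theorem hC (y w : ℂ) (i j : Fin N) :
    Complex.exp (-w) * evm (chernT T.E.toEquivData t T.κξ) (y * Complex.exp w) i j =
      ∑ k ∈ Finset.range (T.toBase.K + 1), Complex.exp (-(k * w)) *
        Complex.exp (w * (T.toBase.θ i - T.toBase.θ j)) *
          T.toBase.C k (fun l => y * (T.toBase.ξ l : ℂ)) i j := by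
  have h1 := T.C_sum (fun l => y * (T.ξ l : ℂ)) w i j
  have h2 : evm (chernT T.E.toEquivData t T.κξ) (y * Complex.exp w) i j =
      MvPolynomial.eval (fun l => y * (T.ξ l : ℂ) * Complex.exp w)
        (gchern T.toHData.pairH T.toHData.invH t (lin T.κ) i j) := by
    unfold E
    rw [T.ax.chernT_eq T.ξ t T.sp_κ]
    show Polynomial.eval (y * Complex.exp w) (sp T.ξ _) = _
    rw [eval_sp]
    congr 2
    funext l
    ring
  rw [h2]
  exact h1

theorem hC0 (y : ℂ) : evm (cupChernT T.E.toEquivData T.κξ) y =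
    T.toBase.C 0 (fun l => y * (T.toBase.ξ l : ℂ)) := by
  unfold E
  rw [T.ax.cupChernT_eq T.ξ T.sp_κ, T.C_zero]
  ext1 i j
  show Polynomial.eval y (sp T.ξ _) = MvPolynomial.eval _ _
  rw [eval_sp]
  congr 2
  funext l
  exact mul_comm _ _

theorem hS (y w : ℂ) : evS (T.Sh T.ξ) (fun l => y * (T.ξ l : ℂ)) w =
    evm₂ T.Sx (y * Complex.exp w) (Complex.exp w) := by
  unfold Sx
  rw [evm₂_spz]
  ext1 i j
  simp only [evS, Matrix.map_apply]
  congr 2
  funext o
  cases o with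
  | none => rfl
  | some k =>
    simp only [Option.elim_some]
    ring

theorem hJ (ht : ∀ i, t i ≠ 0 → X.deg i = 1) :
    ∃ (J : ℂ → ℂ → Matrix (Fin N) (Fin N) ℂ) (cal : ℂ → ℂ → Matrix (Fin N) (Fin N) ℂ),
      (∀ i j, Differentiable ℂ fun p : ℂ × ℂ => J p.1 p.2 i j) ∧
      (∀ y w i j, HasDerivAt (fun w => J y w i j)
        (((theta X - Complex.exp (-w) • evm (chernT T.E.toEquivData t T.κξ)
          (y * Complex.exp w)) * J y w) i j) w) ∧
      (∀ y w, J y w = evm₂ T.Sx (y * Complex.exp w) (Complex.exp w) * J (y - 1) w) ∧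
      (∀ y : ℂ, y.im ≠ 0 → ∀ i j,
        Tendsto (fun z => cal y z i j) (Bornology.cobounded ℂ) (𝓝 ((1 : Matrix _ _ ℂ) i j))) ∧
      (∀ y : ℂ, y.im ≠ 0 → ∀ w, J y w =
        NormedSpace.exp (w • theta X) * cal y (Complex.exp w) *
          NormedSpace.exp (-w • evm (cupChernT T.E.toEquivData T.κξ) y) *
            T.G (fun l => y * (T.ξ l : ℂ))) ∧
      ∀ w, J 0 w = T.toBase.J0 T.G 0 w :=
  exists_JE (T.toFro ht) T.E.toEquivData t T.κξ T.Sx (T.hprim ht) (fun _ => rfl) T.hC T.hC0 T.hS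

/-- The theory for the action of `ℂ^*` given by the cocharacter `ξ`. -/
noncomputable def toBulkGW (ht : ∀ i, t i ≠ 0 → X.deg i = 1) : BulkGW X t :=
  { T.E with
    period_zero := T.period_zero
    wt := fun p k => ∑ i, T.wt p k i * T.ξ i
    wt_ne := T.ξ_ne
    strict := T.strict
    res := fun p a => MvPolynomial.eval (fun k => (T.ξ k : ℂ)) (T.res p a)
    isRestriction := fun p => T.fix.restr T.ax T.ξ p
    localization := fun a b => T.fix.loc_one T.ax T.ξ T.ξ_ne a b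
    κ := T.κξ
    chern_res := fun p => T.fix.chern_one T.ξ p
    B := T.B.map (resK T.ξ)
    B_tri := T.hkg.tri
    B_diag := T.hkg.diag
    χ := T.χ.map (resK T.ξ)
    χ_unit := T.hkg.unit
    χ_loc := fun y hy i j => T.hkg.loc T.ξ_ne y hy i j
    Td := T.Td
    todd := T.todd
    ch := T.ch
    hrr := fun i j => by
      rw [T.hrr, Matrix.map_apply, evZ_resK]
      congr 2
      funext k
      simp
    S := T.Sx
    isUnit_S := T.isUnit_Sx ht
    J := (T.hJ ht).choose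
    J_entire := (T.hJ ht).choose_spec.choose_spec.1
    J_ode := (T.hJ ht).choose_spec.choose_spec.2.1
    J_shift := (T.hJ ht).choose_spec.choose_spec.2.2.1
    cal := (T.hJ ht).choose_spec.choose
    cal_lim := (T.hJ ht).choose_spec.choose_spec.2.2.2.1
    G := fun y => T.G fun l => y * (T.ξ l : ℂ)
    G_res := fun y hy p i => T.hkg.res T.ξ_ne T.fix.homog ht y hy p i
    J_gamma := (T.hJ ht).choose_spec.choose_spec.2.2.2.2.1
    divisorT := fun β s i hβ hs hi => T.ax.divisorT T.ξ β s i hβ hs hi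
    degree_zeroT := fun s hs => T.ax.degree_zeroT T.ξ s hs
    wdvvAt := fun t' ht' a b c d => T.ax.wdvvAt T.ξ t' ht' a b c d
    Sb := resS T.ξ (T.Sh T.ξ)
    Sb_zero := fun i j => resS_const T.ξ (T.Sh T.ξ) i j
    intertwine := fun a => intertwine_res T.ax T.ξ t (T.intertwine T.ξ) a }

theorem J_zero (ht : ∀ i, t i ≠ 0 → X.deg i = 1) (w : ℂ) :
    (T.toBulkGW ht).J 0 w = T.Zs w * T.G 0 := by
  have h1 : (T.toBulkGW ht).J 0 w = T.toBase.J0 T.G 0 w :=
    (T.hJ ht).choose_spec.choose_spec.2.2.2.2.2 w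
  rw [h1, Base.J0, T.C_zero, T.gcupChern_zero, Complex.exp_neg]
  rfl

end HGW

theorem numerical_dubrovinG (ht : ∀ i, t i ≠ 0 → X.deg i = 1) (T : HGW X t) :
    ∃ ρ : ℝ, 0 < ρ ∧ ∀ p : Fin N → ℂ, (∀ i, ‖p i - t i‖ < ρ) →
      ConvergesAt X p ∧
      (∀ δ : ℝ, 0 < δ → ∃ p' : Fin N → ℂ, (∀ i, ‖p' i - p i‖ < δ) ∧
        (eulerMat X p').charpoly.Separable) ∧
      ((eulerMat X p).charpoly.Separable → ∀ φ : ℝ, IsAdmissible X p φ →
        ∃ M : MonodromyData X p, M.φ = φ) ∧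
      ∀ M : MonodromyData X p, ∃ U : Matrix (Fin N) (Fin N) ℤ, IsUnit U.det ∧
        IsExceptional X T.Td (comb U T.ch) ∧
        M.S = gramMatrix X T.Td (comb U T.ch) ∧
        ConnectionFactors M (fun j => (twist X).mulVec (comb U T.ch j)) ∧
        ConnectionIsometric M T.Td (comb U T.ch) ∧
        ∃ (Z : ℂ → Matrix (Fin N) (Fin N) ℂ) (F : ℂ → ℂ → Matrix (Fin N) (Fin N) ℂ),
          IsStandard X t Z ∧ IsTransport X t p F ∧
          (∀ w i j, F 0 w i j = (Complex.I / (Real.sqrt (2 * Real.pi) : ℂ)) ^ X.dim *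
            (Z w).mulVec (gammaVec X t (T.Gam 0) (comb U T.ch j)) i) ∧
          ∀ w, F 1 w = M.Xminus w := by
  obtain ⟨ρ, hρ, h⟩ := numerical_dubrovin ht (T.toBulkGW ht)
  refine ⟨ρ, hρ, fun p hp => ?_⟩
  obtain ⟨h1, h2, h3, h4⟩ := h p hp
  refine ⟨h1, h2, h3, fun M => ?_⟩
  obtain ⟨U, hU, h5, h6, h7, h8, Y, ⟨F, hF0, hF1, hF⟩, h9⟩ := h4 M
  refine ⟨U, hU, h5, h6, h7, h8, T.Zs, fun s w =>
    (Complex.I / (Real.sqrt (2 * Real.pi) : ℂ)) ^ X.dim •
      (F s w * U.map (Int.castRingHom ℂ)), T.isStandard ht, transport_mul hF _ _, ?_, ?_⟩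
  · intro w i j
    beta_reduce
    rw [Matrix.smul_apply, smul_eq_mul, hF0, T.J_zero ht, T.G_zero,
      gamma_cols T.kth.Ch_zero (T.Gam 0) U (T.Zs w) i j]
  · intro w
    ext i j
    beta_reduce
    rw [Matrix.smul_apply, smul_eq_mul, hF1, h9]

end Pool.Agent.DSTJ.Spec
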