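import Pool.Agent.DSTJ.SpecE

/-!
# DSTJ-ShUnit: the shift operators are invertible

`S_μ(λ, z) S_{-μ}(λ - μ z, z) = 1`, by the localisation formula.
-/

set_option autoImplicit false

open scoped BigOperators Topology
open Filter

namespace Pool.Agent.DSTJ.Spec

open Pool.Agent.Helper18.Dub Pool.Agent.SHF Pool.Agent.DST Pool.Agent.DST.TE

/-! ### density -/

/-- The complement of countably many affine hyperplanes transversal to `ξ` is dense. -/
theorem dense_hyp {m : ℕ} {K : Type*} [Countable K] (a : K → Fin m → ℤ) (c : K → ℂ)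
    (ξ : Fin m → ℤ) (h : ∀ k, ∑ i, a k i * ξ i ≠ 0) (y : Fin m → ℂ) :
    y ∈ closure {y' : Fin m → ℂ | ∀ k, pr (a k) y' ≠ c k} := by
  have hlin : ∀ k (σ : ℂ), pr (a k) (fun i => y i + σ * (ξ i : ℂ)) =
      pr (a k) y + σ * ((∑ i, a k i * ξ i : ℤ) : ℂ) := by
    intro k σ
    unfold pr
    push_cast
    rw [Finset.mul_sum, ← Finset.sum_add_distrib]
    exact Finset.sum_congr rfl fun i _ => by ring
  have hc : (⋃ k, {σ : ℂ | pr (a k) (fun i => y i + σ * (ξ i : ℂ)) = c k}).Countable := by
    refine Set.countable_iUnion fun k => Set.Subsingleton.countable ?_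
    intro σ hσ σ' hσ'
    have hσ1 : pr (a k) (fun i => y i + σ * (ξ i : ℂ)) = c k := hσ
    have hσ2 : pr (a k) (fun i => y i + σ' * (ξ i : ℂ)) = c k := hσ'
    rw [hlin] at hσ1 hσ2
    have h1 : (σ - σ') * ((∑ i, a k i * ξ i : ℤ) : ℂ) = 0 := by linear_combination hσ1 - hσ2
    rcases mul_eq_zero.1 h1 with h2 | h2
    · exact sub_eq_zero.1 h2
    · exact absurd (by exact_mod_cast h2) (h k)
  have hd := hc.dense_compl ℂ
  have h0 : (0 : ℂ) ∈ closure (⋃ k, {σ : ℂ | pr (a k) (fun i => y i + σ * (ξ i : ℂ)) = c k})ᶜ :=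
    hd 0
  have hf : Continuous fun σ : ℂ => (fun i => y i + σ * (ξ i : ℂ) : Fin m → ℂ) := by fun_prop
  have h1 := map_mem_closure hf h0 (t := {y' : Fin m → ℂ | ∀ k, pr (a k) y' ≠ c k})
    (fun σ hσ k hk => hσ (Set.mem_iUnion.2 ⟨k, hk⟩))
  have h2 : (fun i => y i + (0 : ℂ) * (ξ i : ℂ) : Fin m → ℂ) = y := by
    funext i
    ring
  rwa [h2] at h1

/-! ### the abstract theorem -/

section abs

variable {m N : ℕ}

/-- the value of a matrix of polynomials in `λ, z` -/
noncomputable def valZ (M : Matrix (Fin N) (Fin N) (MvPolynomial (Option (Fin m)) ℂ))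
    (x : Fin m → ℂ) (z : ℂ) : Matrix (Fin N) (Fin N) ℂ :=
  M.map (MvPolynomial.eval fun o => o.elim z x)

/-- `λ ↦ λ - μ z`, `z ↦ z` -/
noncomputable def shZ (μ : Fin m → ℤ) :
    MvPolynomial (Option (Fin m)) ℂ →+* MvPolynomial (Option (Fin m)) ℂ :=
  MvPolynomial.eval₂Hom MvPolynomial.C fun o => o.elim (MvPolynomial.X none) fun k =>
    MvPolynomial.X (some k) - MvPolynomial.C (μ k : ℂ) * MvPolynomial.X none

theorem eval_shZ (μ : Fin m → ℤ) (x : Fin m → ℂ) (z : ℂ)
    (p : MvPolynomial (Option (Fin m)) ℂ) :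
    MvPolynomial.eval (fun o => o.elim z x) (shZ μ p) =
      MvPolynomial.eval (fun o => o.elim z fun i => x i - (μ i : ℂ) * z) p := by
  have h : (MvPolynomial.eval (fun o => o.elim z x)).comp (shZ μ) =
      MvPolynomial.eval (fun o => o.elim z fun i => x i - (μ i : ℂ) * z) := by
    apply MvPolynomial.ringHom_ext
    · intro c
      simp [shZ]
    · intro o
      cases o with
      | none => simp [shZ]
      | some k => simp [shZ]
  exact DFunLike.congr_fun h p

theorem valZ_shZ (μ : Fin m → ℤ) (x : Fin m → ℂ) (z : ℂ)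
    (M : Matrix (Fin N) (Fin N) (MvPolynomial (Option (Fin m)) ℂ)) :
    valZ (M.map (shZ μ)) x z = valZ M (fun i => x i - (μ i : ℂ) * z) z := by
  ext i j
  exact eval_shZ μ x z (M i j)

/-- a polynomial in `λ, z` which vanishes at `(y s, s)` for `s` large and `y` in a dense set -/
theorem poly_zero {p : MvPolynomial (Option (Fin m)) ℂ} {A : Set (Fin m → ℂ)} (hA : Dense A)
    (h : ∀ y ∈ A, ∃ r : ℝ, ∀ w : ℂ, r < w.re →
      MvPolynomial.eval (fun o => o.elim (Complex.exp w) fun k => y k * Complex.exp w) p = 0) :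
    p = 0 := by
  -- all `s` for `y ∈ A`
  have h1 : ∀ y ∈ A, ∀ s : ℂ,
      MvPolynomial.eval (fun o => o.elim s fun k => y k * s) p = 0 := by
    intro y hy s
    obtain ⟨r, hr⟩ := h y hy
    set Q : Polynomial ℂ := MvPolynomial.eval₂Hom Polynomial.C
      (fun o : Option (Fin m) => o.elim Polynomial.X fun k => Polynomial.C (y k) * Polynomial.X) p
      with hQ
    have hev : ∀ s : ℂ, Q.eval s = MvPolynomial.eval (fun o => o.elim s fun k => y k * s) p := by
      intro s
      have h2 : (Polynomial.evalRingHom s).comp (MvPolynomial.eval₂Hom Polynomial.C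
          (fun o : Option (Fin m) => o.elim Polynomial.X fun k =>
            Polynomial.C (y k) * Polynomial.X)) =
          MvPolynomial.eval (fun o => o.elim s fun k => y k * s) := by
        apply MvPolynomial.ringHom_ext
        · intro c
          simp
        · intro o
          cases o with
          | none => simp
          | some k => simp
      exact DFunLike.congr_fun h2 p
    have hQ0 : Q = 0 := by
      apply Polynomial.eq_zero_of_infinite_isRoot
      have hinj : Function.Injective fun n : ℕ => Complex.exp (((n : ℝ) + |r| + 1 : ℝ) : ℂ) := by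
        intro a b hab
        simp only [← Complex.ofReal_exp] at hab
        have h3 := Real.exp_injective (Complex.ofReal_injective hab)
        have h4 : (a : ℝ) = b := by linarith
        exact_mod_cast h4
      refine Set.Infinite.mono ?_ (Set.infinite_range_of_injective hinj)
      rintro _ ⟨n, rfl⟩
      show Q.eval _ = 0
      rw [hev]
      refine hr _ ?_
      rw [Complex.ofReal_re]
      have h3 := le_abs_self r
      have h4 : (0 : ℝ) ≤ n := Nat.cast_nonneg n
      linarith
    rw [← hev, hQ0, Polynomial.eval_zero]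
  -- all `y`
  have h2 : ∀ (s : ℂ) (y : Fin m → ℂ),
      MvPolynomial.eval (fun o => o.elim s fun k => y k * s) p = 0 := by
    intro s
    have hc : Continuous fun y : Fin m → ℂ =>
        MvPolynomial.eval (fun o => o.elim s fun k => y k * s) p := by
      refine (MvPolynomial.continuous_eval p).comp ?_
      refine continuous_pi fun o => ?_
      cases o with
      | none => exact continuous_const
      | some k =>
        simp only [Option.elim_some]
        fun_prop
    have h3 := Continuous.ext_on hA hc (continuous_const (y := (0 : ℂ))) fun y hy => h1 y hy s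
    exact fun y => congrFun h3 y
  -- all `(x, z)` with `z ≠ 0`
  have h3 : ∀ (z : ℂ) (x : Fin m → ℂ), z ≠ 0 →
      MvPolynomial.eval (fun o => o.elim z x) p = 0 := by
    intro z x hz
    have h4 := h2 z fun k => x k / z
    have h5 : (fun k => x k / z * z) = x := by
      funext k
      exact div_mul_cancel₀ (x k) hz
    rwa [h5] at h4
  have h4 : ∀ (x : Fin m → ℂ) (z : ℂ), MvPolynomial.eval (fun o => o.elim z x) p = 0 := by
    intro x
    have hc : Continuous fun z : ℂ => MvPolynomial.eval (fun o => o.elim z x) p := by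
      refine (MvPolynomial.continuous_eval p).comp ?_
      refine continuous_pi fun o => ?_
      cases o with
      | none => exact continuous_id
      | some k => exact continuous_const
    have hd : Dense ({0}ᶜ : Set ℂ) := dense_compl_singleton 0
    have h5 := Continuous.ext_on hd hc (continuous_const (y := (0 : ℂ))) fun z hz => h3 z x hz
    exact fun z => congrFun h5 z
  apply MvPolynomial.funext
  intro v
  rw [map_zero]
  have h5 : v = fun o => o.elim (v none) fun k => v (some k) := by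
    funext o
    cases o <;> rfl
  rw [h5]
  exact h4 _ _

/-- The shift operators are invertible. -/
theorem sh_unit {S : (Fin m → ℤ) → Matrix (Fin N) (Fin N) (MvPolynomial (Option (Fin m)) ℂ)}
    {L : (Fin m → ℂ) → ℂ → Matrix (Fin N) (Fin N) ℂ}
    {Δ : (Fin m → ℤ) → (Fin m → ℂ) → ℂ → Fin N → ℂ} {good : (Fin m → ℤ) → Set (Fin m → ℂ)}
    (hS : ∀ μ, ∀ y ∈ good μ, ∀ w : ℂ,
      valZ (S μ) (fun k => y k * Complex.exp w) (Complex.exp w) * L (y - cc μ) w =
        L y w * Matrix.diagonal (Δ μ y w))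
    (hsym : ∀ μ, ∀ y ∈ good μ, y - cc μ ∈ good (-μ))
    (hΔ : ∀ μ, ∀ y ∈ good μ, ∀ w p, Δ μ y w p * Δ (-μ) (y - cc μ) w p = 1)
    (hL : ∀ μ, ∀ y ∈ good μ, ∃ r : ℝ, ∀ w : ℂ, r < w.re → (L y w).det ≠ 0)
    (hd : ∀ μ, Dense (good μ)) (μ : Fin m → ℤ) :
    S μ * (S (-μ)).map (shZ μ) = 1 := by
  have hneg : ∀ y : Fin m → ℂ, y - cc μ - cc (-μ) = y := by
    intro y
    funext i
    simp [cc]
  have hmain : ∀ y ∈ good μ, ∃ r : ℝ, ∀ w : ℂ, r < w.re →
      valZ (S μ * (S (-μ)).map (shZ μ)) (fun k => y k * Complex.exp w) (Complex.exp w) = 1 := by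
    intro y hy
    obtain ⟨r, hr⟩ := hL μ y hy
    obtain ⟨r', hr'⟩ := hL (-μ) (y - cc μ) (hsym μ y hy)
    refine ⟨max r r', fun w hw => ?_⟩
    have hw1 := hr w ((le_max_left _ _).trans_lt hw)
    have hw2 := hr' w ((le_max_right _ _).trans_lt hw)
    have h1 := hS μ y hy w
    have h2 := hS (-μ) (y - cc μ) (hsym μ y hy) w
    rw [hneg] at h2
    have hmul : valZ (S μ * (S (-μ)).map (shZ μ)) (fun k => y k * Complex.exp w)
        (Complex.exp w) = valZ (S μ) (fun k => y k * Complex.exp w) (Complex.exp w) *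
          valZ (S (-μ)) (fun k => (y - cc μ) k * Complex.exp w) (Complex.exp w) := by
      have h3 : (fun k => (y - cc μ) k * Complex.exp w) =
          fun k => y k * Complex.exp w - (μ k : ℂ) * Complex.exp w := by
        funext k
        simp only [Pi.sub_apply, cc]
        ring
      rw [h3, ← valZ_shZ]
      unfold valZ
      rw [Matrix.map_mul]
    rw [hmul]
    have hu : IsUnit (L y w).det := isUnit_iff_ne_zero.2 hw1
    have h3 : (valZ (S μ) (fun k => y k * Complex.exp w) (Complex.exp w) *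
          valZ (S (-μ)) (fun k => (y - cc μ) k * Complex.exp w) (Complex.exp w)) * L y w =
        L y w := by
      rw [Matrix.mul_assoc, h2, ← Matrix.mul_assoc, h1, Matrix.mul_assoc,
        Matrix.diagonal_mul_diagonal]
      have h4 : (Matrix.diagonal fun i => Δ μ y w i * Δ (-μ) (y - cc μ) w i) =
          (1 : Matrix (Fin N) (Fin N) ℂ) := by
        rw [← Matrix.diagonal_one]
        congr 1
        funext i
        exact hΔ μ y hy w i
      rw [h4, Matrix.mul_one]
    have h5 := congrArg (fun M => M * (L y w)⁻¹) h3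
    simp only [Matrix.mul_assoc, Matrix.mul_nonsing_inv _ hu, Matrix.mul_one] at h5
    exact h5
  ext1 i j
  have h6 : (S μ * (S (-μ)).map (shZ μ)) i j - (1 : Matrix (Fin N) (Fin N) _) i j = 0 := by
    refine poly_zero (hd μ) fun y hy => ?_
    obtain ⟨r, hr⟩ := hmain y hy
    refine ⟨r, fun w hw => ?_⟩
    have h7 := congrFun (congrFun (hr w hw) i) j
    rw [map_sub]
    have h8 : MvPolynomial.eval (fun o => o.elim (Complex.exp w) fun k => y k * Complex.exp w)
        ((1 : Matrix (Fin N) (Fin N) (MvPolynomial (Option (Fin m)) ℂ)) i j) =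
        (1 : Matrix (Fin N) (Fin N) ℂ) i j := by
      by_cases hij : i = j
      · subst hij
        rw [Matrix.one_apply_eq, Matrix.one_apply_eq, map_one]
      · rw [Matrix.one_apply_ne hij, Matrix.one_apply_ne hij, map_zero]
    rw [h8, sub_eq_zero]
    exact h7
  exact sub_eq_zero.1 h6

theorem isUnit_of_mul {S : (Fin m → ℤ) → Matrix (Fin N) (Fin N) (MvPolynomial (Option (Fin m)) ℂ)}
    {μ : Fin m → ℤ} (h : S μ * (S (-μ)).map (shZ μ) = 1) : IsUnit (S μ).det := by
  have h1 := congrArg Matrix.det h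
  rw [Matrix.det_mul, Matrix.det_one] at h1
  exact IsUnit.of_mul_eq_one _ h1

end abs

/-! ### the fields of the structure -/

section fields

variable {N : ℕ} {X : FanoGW (Fin N)} {m : ℕ}

theorem gfac_inv {a : ℂ} (ha : ∀ k : ℤ, a ≠ k) (n : ℤ) : gfac a n * gfac (a - n) (-n) = 1 := by
  have ha' : ∀ k : ℤ, a - (n : ℂ) ≠ k := fun k h => ha (k + n) (by
    push_cast
    linear_combination h)
  have h1 := gamma_shift ha n
  have h2 := gamma_shift ha' (-n)
  have h3 : a - (n : ℂ) - ((-n : ℤ) : ℂ) = a := by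
    push_cast
    ring
  rw [h3] at h2
  have h4 : Complex.Gamma (1 - a) ≠ 0 := by
    refine Complex.Gamma_ne_zero fun k h => ha (k + 1) ?_
    push_cast
    linear_combination -h
  have h5 : Complex.Gamma (1 - (a - n)) ≠ 0 := by
    refine Complex.Gamma_ne_zero fun k h => ha' (k + 1) ?_
    push_cast
    linear_combination -h
  have h6 : (-1 : ℂ) ^ n * (-1) ^ (-n) = 1 := by
    rw [← zpow_add₀ (by norm_num), add_neg_cancel, zpow_zero]
  have h7 : (gfac a n * gfac (a - n) (-n)) *
      (Complex.Gamma (1 - a) * Complex.Gamma (1 - (a - n))) =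
      Complex.Gamma (1 - a) * Complex.Gamma (1 - (a - n)) := by
    calc _ = (gfac a n * Complex.Gamma (1 - (a - n))) *
          (gfac (a - n) (-n) * Complex.Gamma (1 - a)) := by ring
      _ = ((-1 : ℂ) ^ n * (-1) ^ (-n)) *
          (Complex.Gamma (1 - a) * Complex.Gamma (1 - (a - n))) := by
        rw [← h1, ← h2]
        ring
      _ = _ := by rw [h6, one_mul]
  exact mul_right_cancel₀ (mul_ne_zero h4 h5) (h7.trans (one_mul _).symm)

theorem hyp_inv {a z : ℂ} (hz : z ≠ 0) (ha : ∀ k : ℤ, a ≠ k) (n : ℤ) :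
    hyp (a * z) z n * hyp ((a - n) * z) z (-n) = 1 := by
  rw [hyp_scale, hyp_scale, neg_neg]
  have h1 : z ^ (-n) * z ^ n = 1 := by
    rw [← zpow_add₀ hz, neg_add_cancel, zpow_zero]
  calc _ = (z ^ (-n) * z ^ n) * (gfac a n * gfac (a - n) (-n)) := by ring
    _ = 1 := by rw [h1, gfac_inv ha, one_mul]

/-- no integral weight, and no resonance at `y` and at `y - μ` -/
def Good (w : Fin N → Fin X.dim → Fin m → ℤ) (μ : Fin m → ℤ) : Set (Fin m → ℂ) :=
  {y | (∀ p k, ∀ n : ℤ, pr (w p k) y ≠ n) ∧ NonRes w y ∧ NonRes w (y - cc μ)}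

theorem dense_Good {w : Fin N → Fin X.dim → Fin m → ℤ} {ξ : Fin m → ℤ}
    (hξ : ∀ p k, ∑ i, w p k i * ξ i ≠ 0)
    (hinj : Function.Injective fun p => ∑ k, ∑ i, w p k i * ξ i) (μ : Fin m → ℤ) :
    Dense (Good w μ) := by
  intro y
  -- the weights, and the differences of the weights of `c_1`
  let K := (Fin N × Fin X.dim × ℤ) ⊕ ({q : Fin N × Fin N // q.1 ≠ q.2} × ℤ)
  let a : K → Fin m → ℤ := Sum.elim (fun q => w q.1 q.2.1)
    (fun q i => ∑ k, w q.1.1.1 k i - ∑ k, w q.1.1.2 k i)
  let c : K → ℂ := Sum.elim (fun q => (q.2.2 : ℂ)) (fun q => (q.2 : ℂ))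
  have h := dense_hyp a c ξ (by
    rintro (q | q)
    · exact hξ q.1 q.2.1
    · intro h0
      apply q.1.2
      apply hinj
      have h1 : ∑ i, (∑ k, w q.1.1.1 k i - ∑ k, w q.1.1.2 k i) * ξ i = 0 := h0
      simp only [sub_mul, Finset.sum_sub_distrib, Finset.sum_mul] at h1
      show ∑ k, ∑ i, w q.1.1.1 k i * ξ i = ∑ k, ∑ i, w q.1.1.2 k i * ξ i
      rw [Finset.sum_comm, Finset.sum_comm (f := fun k i => w q.1.1.2 k i * ξ i)]
      linarith) y
  refine closure_mono ?_ h
  intro y' hy'
  have hdiff : ∀ p q, p ≠ q → ∀ n : ℤ, ∑ k, pr (w p k) y' - ∑ k, pr (w q k) y' ≠ n := by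
    intro p q hpq n h1
    refine hy' (Sum.inr (⟨(p, q), hpq⟩, n)) ?_
    show pr (fun i => ∑ k, w p k i - ∑ k, w q k i) y' = (n : ℂ)
    rw [← h1]
    unfold pr
    push_cast
    simp only [sub_mul, Finset.sum_sub_distrib, Finset.sum_mul]
    rw [Finset.sum_comm, Finset.sum_comm (f := fun i k => (w q k i : ℂ) * y' i)]
  refine ⟨fun p k n => hy' (Sum.inl (p, k, n)), ?_, ?_⟩
  · intro p q n hn
    rcases eq_or_ne p q with rfl | hpq
    · rw [sub_self]
      exact_mod_cast hn.symm
    · exact hdiff p q hpq n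
  · intro p q n hn
    rcases eq_or_ne p q with rfl | hpq
    · rw [sub_self]
      exact_mod_cast hn.symm
    · intro h1
      simp only [pr_sub_cc, Finset.sum_sub_distrib] at h1
      refine hdiff p q hpq (n + (∑ k, ∑ i, w p k i * μ i - ∑ k, ∑ i, w q k i * μ i)) ?_
      push_cast at h1 ⊢
      linear_combination h1

/-- The shift operators of the structure are invertible. -/
theorem isUnit_Sh {t : Fin N → ℂ} (ht : ∀ i, t i ≠ 0 → X.deg i = 1)
    {w : Fin N → Fin X.dim → Fin m → ℤ} {ξ : Fin m → ℤ}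
    (hξ : ∀ p k, ∑ i, w p k i * ξ i ≠ 0)
    (hinj : Function.Injective fun p => ∑ k, ∑ i, w p k i * ξ i)
    {r : Fin N → Fin N → MvPolynomial (Fin m) ℂ}
    (hr : ∀ p a (d : Fin m →₀ ℕ), (r p a).coeff d ≠ 0 → ∑ k, d k = X.deg a)
    {L : (Fin m → ℂ) → ℂ → Matrix (Fin N) (Fin N) ℂ}
    (hL : ∀ y, (∀ p k, ∀ n : ℤ, pr (w p k) y ≠ n) → NonRes w y →
      ∃ r : ℝ, ∀ s : ℂ, r < s.re → (L y s).det ≠ 0)
    {Sh : (Fin m → ℤ) →
      Matrix (Fin N) (Fin N) (MvPowerSeries (Fin N) (MvPolynomial (Option (Fin m)) ℂ))}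
    (hS : ∀ (μ : Fin m → ℤ) (y : Fin m → ℂ), (∀ p k, ∀ n : ℤ, pr (w p k) y ≠ n) →
      NonRes w y → NonRes w (y - cc μ) → ∀ s : ℂ,
        evS (Sh μ) y s * L (y - cc μ) s = L y s *
          Matrix.diagonal fun p => Complex.exp (∑ a, t a * MvPolynomial.eval (cc μ) (r p a)) *
            ∏ k, hyp (pr (w p k) y * Complex.exp s) (Complex.exp s) (∑ i, w p k i * μ i))
    (μ : Fin m → ℤ) : IsUnit (Sh μ).det := by
  have hW : ∀ (μ : Fin m → ℤ) (y : Fin m → ℂ), (∀ p k, ∀ n : ℤ, pr (w p k) y ≠ n) →
      ∀ p k, ∀ n : ℤ, pr (w p k) (y - cc μ) ≠ n := by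
    intro μ y hy p k n h
    rw [pr_sub_cc] at h
    refine hy p k (n + ∑ i, w p k i * μ i) ?_
    push_cast at h ⊢
    linear_combination h
  have h0 := sh_unit (S := fun μ => (Sh μ).map MvPowerSeries.constantCoeff) (L := L)
    (Δ := fun μ y s p => Complex.exp (∑ a, t a * MvPolynomial.eval (cc μ) (r p a)) *
      ∏ k, hyp (pr (w p k) y * Complex.exp s) (Complex.exp s) (∑ i, w p k i * μ i))
    (good := Good w) (fun μ y hy s => hS μ y hy.1 hy.2.1 hy.2.2 s)
    (fun μ y hy => ⟨hW μ y hy.1, hy.2.2, by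
      have h1 : y - cc μ - cc (-μ) = y := by
        funext i
        simp [cc]
      rw [h1]
      exact hy.2.1⟩)
    (by
      intro μ y hy s p
      have h1 : Complex.exp (∑ a, t a * MvPolynomial.eval (cc μ) (r p a)) *
          Complex.exp (∑ a, t a * MvPolynomial.eval (cc (-μ)) (r p a)) = 1 := by
        rw [← Complex.exp_add, ← Finset.sum_add_distrib, ← Complex.exp_zero]
        congr 1
        refine Finset.sum_eq_zero fun a _ => ?_
        rcases eq_or_ne (t a) 0 with h3 | h3
        · rw [h3]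
          ring
        · have h4 := eval_sub_of_lin (p := r p a)
            (fun d hd => by rw [hr p a d hd, ht a h3]) (cc μ) (cc μ + cc μ)
          have h5 := eval_sub_of_lin (p := r p a)
            (fun d hd => by rw [hr p a d hd, ht a h3]) (cc μ + cc μ) (cc μ)
          have h6 : cc μ - (cc μ + cc μ) = cc (-μ) := by
            funext i
            simp [cc]
          have h7 : cc μ + cc μ - cc μ = cc μ := by
            funext i
            simp
          rw [h6] at h4
          rw [h7] at h5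
          rw [h4]
          linear_combination (t a) * h5
      have h2 : ∀ k, hyp (pr (w p k) y * Complex.exp s) (Complex.exp s) (∑ i, w p k i * μ i) *
          hyp (pr (w p k) (y - cc μ) * Complex.exp s) (Complex.exp s)
            (∑ i, w p k i * (-μ) i) = 1 := by
        intro k
        have h3 : ∑ i, w p k i * (-μ) i = -∑ i, w p k i * μ i := by
          simp
        rw [h3, pr_sub_cc]
        exact hyp_inv (Complex.exp_ne_zero s) (fun n => hy.1 p k n) _
      calc _ = (Complex.exp (∑ a, t a * MvPolynomial.eval (cc μ) (r p a)) *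
          Complex.exp (∑ a, t a * MvPolynomial.eval (cc (-μ)) (r p a))) *
          ∏ k, (hyp (pr (w p k) y * Complex.exp s) (Complex.exp s) (∑ i, w p k i * μ i) *
          hyp (pr (w p k) (y - cc μ) * Complex.exp s) (Complex.exp s)
            (∑ i, w p k i * (-μ) i)) := by
            rw [Finset.prod_mul_distrib]
            ring
        _ = 1 := by
            rw [h1, Finset.prod_eq_one fun k _ => h2 k, one_mul])
    (fun μ y hy => hL y hy.1 hy.2.1) (dense_Good hξ hinj) μ
  have h1 := isUnit_of_mul (S := fun μ => (Sh μ).map MvPowerSeries.constantCoeff) h0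
  rw [MvPowerSeries.isUnit_iff_constantCoeff]
  have h2 := (MvPowerSeries.constantCoeff (σ := Fin N)
    (R := MvPolynomial (Option (Fin m)) ℂ)).map_det (Sh μ)
  rw [h2, RingHom.mapMatrix_apply]
  exact h1

end fields

end Pool.Agent.DSTJ.Spec
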