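import Pool.Agent.DSTJ.HBase
import Pool.Agent.DSTJ.ShUnit

/-!
# DSTJ-HUnit: the shift operators of an equivariant theory are invertible
-/

set_option autoImplicit false

open scoped BigOperators Topology
open Filter

namespace Pool.Agent.DSTJ.Spec

open Pool.Agent.Helper18.Dub Pool.Agent.Helper7.DubStokes Pool.Agent.SHF
open Pool.Agent.DST Pool.Agent.DST.TE

variable {N : ℕ} {X : FanoGW (Fin N)} {t : Fin N → ℂ}

namespace HGW

variable (T : HGW X t)

/-- the columns of the fundamental solution -/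
noncomputable def LL (y : Fin T.m → ℂ) (s : ℂ) : Matrix (Fin N) (Fin N) ℂ :=
  NormedSpace.exp (s • theta X) * T.toBase.cal y (Complex.exp s)⁻¹ * (Rm T.res y)⁻¹

theorem LL_det {y : Fin T.m → ℂ} (hy : ∀ p k, ∀ n : ℤ, pr (T.wt p k) y ≠ n)
    (hr : NonRes T.wt y) : ∃ r : ℝ, ∀ s : ℂ, r < s.re → (T.LL y s).det ≠ 0 := by
  have hcal := (T.isCal_cal ((T.nonRes_iff y).1 hr)).lim
  have hR : (Rm T.res y).det ≠ 0 := T.fix.R_det T.ax y fun p k => by
    have h := hy p k 0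
    rwa [Int.cast_zero] at h
  have h1 : Tendsto (fun z : ℂ => (T.toBase.cal y z⁻¹).det) (Bornology.cobounded ℂ) (𝓝 1) := by
    have h2 : Tendsto (fun z : ℂ => T.toBase.cal y z⁻¹) (Bornology.cobounded ℂ)
        (𝓝 (1 : Matrix (Fin N) (Fin N) ℂ)) :=
      tendsto_pi_nhds.2 fun i => tendsto_pi_nhds.2 fun j => hcal i j
    have h3 : Continuous fun M : Matrix (Fin N) (Fin N) ℂ => M.det := continuous_id.matrix_det
    have h4 := (h3.tendsto (1 : Matrix (Fin N) (Fin N) ℂ)).comp h2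
    rwa [Matrix.det_one] at h4
  have h2 : ∀ᶠ z in Bornology.cobounded ℂ, (T.toBase.cal y z⁻¹).det ≠ 0 :=
    h1.eventually_ne one_ne_zero
  rw [← comap_norm_atTop, eventually_comap] at h2
  obtain ⟨R, hR1⟩ := eventually_atTop.1 h2
  refine ⟨Real.log (max R 1), fun s hs => ?_⟩
  have h5 : R ≤ ‖Complex.exp s‖ := by
    rw [Complex.norm_exp]
    have h6 : (0 : ℝ) < max R 1 := lt_max_of_lt_right one_pos
    calc R ≤ max R 1 := le_max_left _ _
      _ = Real.exp (Real.log (max R 1)) := (Real.exp_log h6).symm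
      _ ≤ Real.exp s.re := Real.exp_le_exp.2 hs.le
  have h7 := hR1 _ h5 (Complex.exp s) rfl
  unfold LL
  rw [Matrix.det_mul, Matrix.det_mul]
  refine mul_ne_zero (mul_ne_zero ?_ h7) ?_
  · exact ((Matrix.isUnit_iff_isUnit_det _).1 (Matrix.isUnit_exp _)).ne_zero
  · rw [Matrix.det_nonsing_inv, Ring.inverse_eq_inv']
    exact inv_ne_zero hR

theorem isUnit_Sh (ht : ∀ i, t i ≠ 0 → X.deg i = 1) (μ : Fin T.m → ℤ) :
    IsUnit (T.Sh μ).det := by
  refine Spec.isUnit_Sh ht (w := T.wt) (ξ := T.ξ) T.ξ_ne T.strict.injective T.fix.homog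
    (L := T.LL) (fun y hy hr => T.LL_det hy hr) (fun μ y hy hr hr' s => ?_) μ
  exact T.Sh_loc μ y hy hr hr' _ _ (T.isCal_cal ((T.nonRes_iff y).1 hr))
    (T.isCal_cal ((T.nonRes_iff _).1 hr')) s

end HGW

end Pool.Agent.DSTJ.Spec
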