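import Pool.Agent.DSTJ.CalHol

/-!
# DSTJ-JLem: the solutions `J0`
-/

set_option autoImplicit false

open scoped BigOperators Topology
open Filter

namespace Pool.Agent.DSTJ

open Pool.Agent.DST.TE

section
open scoped Matrix.Norms.Operator

private theorem exp_entry' {E : Type*} [NormedAddCommGroup E] [NormedSpace ℂ E] {N : ℕ}
    {A : E → Matrix (Fin N) (Fin N) ℂ} {x : E}
    (hA : ∀ i j, DifferentiableAt ℂ (fun x => A x i j) x) (i j : Fin N) :
    DifferentiableAt ℂ (fun x => NormedSpace.exp (A x) i j) x := by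
  have h1 : DifferentiableAt ℂ A x :=
    differentiableAt_pi.2 fun i => differentiableAt_pi.2 fun j => hA i j
  have h2 : DifferentiableAt ℂ (fun M : Matrix (Fin N) (Fin N) ℂ => NormedSpace.exp M) (A x) :=
    (NormedSpace.exp_analytic (𝕂 := ℂ) (A x)).differentiableAt
  have h3 := h2.comp x h1
  exact differentiableAt_pi.1 (differentiableAt_pi.1 h3 i) j

end

private theorem exp_entry {E : Type*} [NormedAddCommGroup E] [NormedSpace ℂ E] {N : ℕ}
    {A : E → Matrix (Fin N) (Fin N) ℂ} {x : E}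
    (hA : ∀ i j, DifferentiableAt ℂ (fun x => A x i j) x) (i j : Fin N) :
    DifferentiableAt ℂ (fun x => NormedSpace.exp (A x) i j) x := exp_entry' hA i j

private theorem mul_entry {E : Type*} [NormedAddCommGroup E] [NormedSpace ℂ E] {N : ℕ}
    {A B : E → Matrix (Fin N) (Fin N) ℂ} {x : E}
    (hA : ∀ i j, DifferentiableAt ℂ (fun x => A x i j) x)
    (hB : ∀ i j, DifferentiableAt ℂ (fun x => B x i j) x) (i j : Fin N) :
    DifferentiableAt ℂ (fun x => (A x * B x) i j) x := by
  simp only [Matrix.mul_apply]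
  exact DifferentiableAt.fun_sum fun k _ => (hA i k).mul (hB k j)

private theorem exp_diag {N : ℕ} (v : Fin N → ℂ) (w : ℂ) :
    NormedSpace.exp (w • Matrix.diagonal v) = Matrix.diagonal fun a => Complex.exp (w * v a) := by
  have h1 : w • Matrix.diagonal v = Matrix.diagonal fun a => w * v a := by
    rw [← Matrix.diagonal_smul]
    rfl
  rw [h1, Matrix.exp_diagonal]
  congr 1
  funext a
  rw [Pi.coe_exp, Complex.exp_eq_exp_ℂ]

namespace Base

variable {m N : ℕ} (D : Base m N) {G : (Fin m → ℂ) → Matrix (Fin N) (Fin N) ℂ}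

theorem J0_diff {y : Fin m → ℂ} (hy : D.NR y) (hG : ∀ i j, DifferentiableAt ℂ (fun y => G y i j) y)
    (w : ℂ) (i j : Fin N) :
    DifferentiableAt ℂ (fun q : (Fin m → ℂ) × ℂ => D.J0 G q.1 q.2 i j) (y, w) := by
  have hE1 : ∀ i j, DifferentiableAt ℂ (fun q : (Fin m → ℂ) × ℂ =>
      NormedSpace.exp (q.2 • Matrix.diagonal D.θ) i j) (y, w) := by
    intro i j
    apply exp_entry
    intro a b
    simp only [Matrix.smul_apply, smul_eq_mul]
    fun_prop
  have hE2 : ∀ i j, DifferentiableAt ℂ (fun q : (Fin m → ℂ) × ℂ =>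
      D.cal q.1 (Complex.exp (-q.2)) i j) (y, w) := by
    intro i j
    have h1 := D.cal_diff hy (Complex.exp (-w)) i j
    have h2 : DifferentiableAt ℂ (fun q : (Fin m → ℂ) × ℂ => (q.1, Complex.exp (-q.2))) (y, w) := by
      fun_prop
    exact DifferentiableAt.comp (y, w) (g := fun q : (Fin m → ℂ) × ℂ => D.cal q.1 q.2 i j) h1 h2
  have hE3 : ∀ i j, DifferentiableAt ℂ (fun q : (Fin m → ℂ) × ℂ =>
      NormedSpace.exp (-q.2 • D.C 0 q.1) i j) (y, w) := by
    intro i j
    apply exp_entry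
    intro a b
    simp only [Matrix.smul_apply, smul_eq_mul]
    have h1 : DifferentiableAt ℂ (fun q : (Fin m → ℂ) × ℂ => D.C 0 q.1 a b) (y, w) :=
      DifferentiableAt.comp (y, w) (g := fun y => D.C 0 y a b) (D.C_hol 0 a b y)
        differentiableAt_fst
    exact (DifferentiableAt.neg differentiableAt_snd).mul h1
  have hE4 : ∀ i j, DifferentiableAt ℂ (fun q : (Fin m → ℂ) × ℂ => G q.1 i j) (y, w) := by
    intro i j
    exact DifferentiableAt.comp (y, w) (g := fun y => G y i j) (hG i j) differentiableAt_fst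
  exact mul_entry (mul_entry (mul_entry hE1 hE2) hE3) hE4 i j

theorem J0_cols {y : Fin m → ℂ} (hy : D.NR y) (hR : (D.R y).det ≠ 0) (w : ℂ) (i j : Fin N) :
    D.J0 G y w i j = ∑ p, so D.θ (D.xs y p) (pr (D.e p) y) w i * (D.R y * G y) p j := by
  have hu : IsUnit (D.R y) := (Matrix.isUnit_iff_isUnit_det _).2 (isUnit_iff_ne_zero.2 hR)
  have hud : IsUnit (D.R y).det := isUnit_iff_ne_zero.2 hR
  -- the exponential of `-w C_0`
  have h1 : -w • D.C 0 y =
      (D.R y)⁻¹ * (-w • Matrix.diagonal fun p => pr (D.e p) y) * D.R y := by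
    rw [Matrix.mul_smul, Matrix.smul_mul, Matrix.mul_assoc, ← D.R_comm, ← Matrix.mul_assoc,
      Matrix.nonsing_inv_mul _ hud, Matrix.one_mul]
  have h2 : NormedSpace.exp (-w • D.C 0 y) =
      (D.R y)⁻¹ * (Matrix.diagonal fun p => Complex.exp (-w * pr (D.e p) y)) * D.R y := by
    rw [h1, Matrix.exp_conj' _ _ hu, exp_diag]
  -- the columns
  have h3 : ∀ p, (D.cal y (Complex.exp (-w)) * (D.R y)⁻¹) i p =
      sm (D.xs y p) (Complex.exp (-w)) i := by
    intro p
    simp only [Matrix.mul_apply, cal, Matrix.of_apply, sm, xs, Finset.mul_sum]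
    rw [Summable.tsum_finsetSum]
    · refine Finset.sum_congr rfl fun k _ => ?_
      rw [← tsum_mul_right]
      exact tsum_congr fun n => by ring
    · intro k _
      have h4 := (D.cal_summable hy (Complex.exp (-w)) i k).mul_right ((D.R y)⁻¹ k p)
      refine h4.congr fun n => by ring
  have h5 : D.J0 G y w = (Matrix.diagonal fun a => Complex.exp (w * D.θ a)) *
      ((D.cal y (Complex.exp (-w)) * (D.R y)⁻¹) *
        ((Matrix.diagonal fun p => Complex.exp (-w * pr (D.e p) y)) * (D.R y * G y))) := by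
    rw [J0, exp_diag, h2]
    simp only [Matrix.mul_assoc]
  rw [h5, Matrix.diagonal_mul, Matrix.mul_apply, Finset.mul_sum]
  refine Finset.sum_congr rfl fun p _ => ?_
  rw [h3, Matrix.diagonal_mul, so]
  ring

end Base

end Pool.Agent.DSTJ
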