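import Pool.Agent.DSTJ.PolA
import Pool.Agent.DSTJ.Core

/-!
# DSTJ-Step: the shift operator excludes the poles of the columns

Strong induction on `q` in decreasing order of `δ q` (finite type): the columns `p` with `δ p > δ q` are
regular at both ends. For column `q` show `Pol ε K` for all `n i` and both ends by descending induction on `K`
down to `0`.  The leading coefficients `r`, `r'` satisfy the hypotheses of `core`, so they vanish, and
`pol_pred` gives a smaller `K`.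
-/

set_option autoImplicit false

open scoped BigOperators Topology
open Filter

namespace Pool.Agent.DSTJ

variable {N : ℕ}

namespace StepAux

variable {ε : ℝ}

/-- `F` extends `σ ^ K` times the column `q` -/
def Lim (X : End N ε) (q : Fin N) (K : ℕ) (F : ℕ → ℂ → Fin N → ℂ) : Prop :=
  ∀ n i, DifferentiableOn ℂ (fun σ => F n σ i) (Metric.ball 0 ε) ∧
    ∀ σ ∈ Metric.ball (0 : ℂ) ε, σ ≠ 0 → F n σ i = σ ^ K * X.x q n σ i

theorem exists_lim {X : End N ε} {q : Fin N} {K : ℕ} (h : ∀ n i, Pol ε K fun σ => X.x q n σ i) :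
    ∃ F, Lim X q K F := by
  choose F h1 h2 using h
  exact ⟨fun n σ i => F n i σ, fun n i => ⟨h1 n i, h2 n i⟩⟩

theorem ball_ev (hε : 0 < ε) : ∀ᶠ σ in 𝓝[≠] (0 : ℂ), σ ∈ Metric.ball (0 : ℂ) ε ∧ σ ≠ 0 := by
  have h1 : ∀ᶠ σ in 𝓝[≠] (0 : ℂ), σ ∈ Metric.ball (0 : ℂ) ε :=
    mem_nhdsWithin_of_mem_nhds (Metric.ball_mem_nhds 0 hε)
  filter_upwards [h1, self_mem_nhdsWithin] with σ h2 h3
  exact ⟨h2, h3⟩

/-- equality at `0` by continuity -/
theorem eq_zero_of_punct {f g : ℂ → ℂ} (hf : ContinuousAt f 0) (hg : ContinuousAt g 0)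
    (h : ∀ᶠ σ in 𝓝[≠] (0 : ℂ), f σ = g σ) : f 0 = g 0 := by
  have h1 : Tendsto f (𝓝[≠] 0) (𝓝 (f 0)) := hf.tendsto.mono_left nhdsWithin_le_nhds
  have h2 : Tendsto g (𝓝[≠] 0) (𝓝 (g 0)) := hg.tendsto.mono_left nhdsWithin_le_nhds
  exact tendsto_nhds_unique (h1.congr' h) h2

variable {X : End N ε} {q : Fin N} {K : ℕ} {F : ℕ → ℂ → Fin N → ℂ}

theorem Lim.cont (hε : 0 < ε) (h : Lim X q K F) (n : ℕ) (i : Fin N) :
    ContinuousAt (fun σ => F n σ i) 0 :=
  ((h n i).1.differentiableAt (Metric.ball_mem_nhds 0 hε)).continuousAt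

theorem Lim.x_cont (hε : 0 < ε) (X : End N ε) (q : Fin N) (i : Fin N) :
    ContinuousAt (fun σ => X.x q 0 σ i) 0 :=
  ((X.x_zero q i).differentiableAt (Metric.ball_mem_nhds 0 hε)).continuousAt

theorem Lim.zero_succ (hε : 0 < ε) (h : Lim X q (K + 1) F) : F 0 0 = 0 := by
  funext i
  have h1 := eq_zero_of_punct (f := fun σ => F 0 σ i) (g := fun σ => σ ^ (K + 1) * X.x q 0 σ i)
    (h.cont hε 0 i) ((continuousAt_id.pow _).mul (Lim.x_cont hε X q i)) (by
      filter_upwards [ball_ev hε] with σ hσ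
      exact (h 0 i).2 σ hσ.1 hσ.2)
  simpa using h1

theorem Lim.zero_zero (hε : 0 < ε) (h : Lim X q 0 F) : F 0 0 = X.x q 0 0 := by
  funext i
  exact eq_zero_of_punct (f := fun σ => F 0 σ i) (g := fun σ => X.x q 0 σ i)
    (h.cont hε 0 i) (Lim.x_cont hε X q i) (by
      filter_upwards [ball_ev hε] with σ hσ
      rw [(h 0 i).2 σ hσ.1 hσ.2, pow_zero, one_mul])

theorem Lim.isRec (hε : 0 < ε) (h : Lim X q K F) :
    IsRec (fun n => X.C n 0) (X.E q 0) (fun n => F n 0) := by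
  intro n
  funext i
  have h1 := eq_zero_of_punct
    (f := fun σ => ((n : ℂ) + X.E q σ) * F n σ i)
    (g := fun σ => ∑ k ∈ Finset.range (n + 1), ∑ j, X.C k σ i j * F (n - k) σ j)
    ((continuousAt_const.add (X.E_cont q)).mul (h.cont hε n i)) (by
      apply tendsto_finsetSum
      intro k _
      apply tendsto_finsetSum
      intro j _
      exact (X.C_cont k i j).mul (h.cont hε (n - k) j)) (by
      filter_upwards [ball_ev hε] with σ hσ
      have h2 := congrFun (X.isRec σ hσ.1 hσ.2 q n) i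
      simp only [Pi.smul_apply, smul_eq_mul, Finset.sum_apply, Matrix.mulVec, dotProduct] at h2
      rw [(h n i).2 σ hσ.1 hσ.2]
      calc ((n : ℂ) + X.E q σ) * (σ ^ K * X.x q n σ i)
          = σ ^ K * (((n : ℂ) + X.E q σ) * X.x q n σ i) := by ring
        _ = ∑ k ∈ Finset.range (n + 1), ∑ j, X.C k σ i j * F (n - k) σ j := by
            rw [h2, Finset.mul_sum]
            refine Finset.sum_congr rfl fun k _ => ?_
            rw [Finset.mul_sum]
            refine Finset.sum_congr rfl fun j _ => ?_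
            rw [(h (n - k) j).2 σ hσ.1 hσ.2]
            ring)
  simpa [Matrix.mulVec, dotProduct] using h1

theorem Lim.bound (h : Lim X q K F) : ∃ ε' : ℝ, 0 < ε' ∧ ∀ ρ : ℝ, 0 < ρ →
    ∃ B : ℝ, ∀ n i (σ : ℂ), ‖σ‖ ≤ ε' → ‖F n σ i‖ * ρ ^ n ≤ B := by
  obtain ⟨ε', h0, h1, h2⟩ := X.fast
  refine ⟨ε', h0, fun ρ hρ => ?_⟩
  obtain ⟨B, hB⟩ := h2 ρ hρ
  refine ⟨ε' ^ K * B, fun n i σ hσ => ?_⟩
  have hρn : 0 < ρ ^ n := pow_pos hρ n
  have h3 := pol_bound h0 h1 (k := K) (F := fun σ => F n σ i) (f := fun σ => X.x q n σ i)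
    (B := B / ρ ^ n) (h n i).1 (h n i).2 (fun σ hσ => by
      rw [le_div_iff₀ hρn]
      exact hB q n i σ hσ) σ hσ
  calc ‖F n σ i‖ * ρ ^ n ≤ ε' ^ K * (B / ρ ^ n) * ρ ^ n := by gcongr
    _ = ε' ^ K * B := by field_simp

theorem Lim.fast (h : Lim X q K F) : Fast (fun n => F n 0) := by
  obtain ⟨ε', h0, h1⟩ := h.bound
  intro ρ hρ
  obtain ⟨B, hB⟩ := h1 ρ hρ
  exact ⟨B, fun n i => hB n i 0 (by simpa using h0.le)⟩

theorem Lim.so_lim (hε : 0 < ε) (h : Lim X q K F) (θ : Fin N → ℂ) (w : ℂ) :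
    Tendsto (fun σ => so θ (fun n => F n σ) (X.E q σ) w) (𝓝 0)
      (𝓝 (so θ (fun n => F n 0) (X.E q 0) w)) := by
  obtain ⟨ε', h0, h1⟩ := h.bound
  exact so_tendsto (F := F) (e := X.E q) (fun n i => h.cont hε n i) (X.E_cont q) h0 h1 w

theorem Lim.so_eq (h : Lim X q K F) (θ : Fin N → ℂ) (e w : ℂ) {σ : ℂ}
    (hσ : σ ∈ Metric.ball (0 : ℂ) ε) (hσ0 : σ ≠ 0) :
    so θ (fun n => F n σ) e w = σ ^ K • so θ (fun n => X.x q n σ) e w := by
  funext i
  have h1 : sm (fun n => F n σ) (Complex.exp (-w)) i =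
      σ ^ K * sm (fun n => X.x q n σ) (Complex.exp (-w)) i := by
    unfold sm
    rw [← tsum_mul_left]
    refine tsum_congr fun n => ?_
    simp only
    rw [(h n i).2 σ hσ hσ0]
    ring
  simp only [so, Pi.smul_apply, smul_eq_mul, h1]
  ring

/-- the limit of the shift identity -/
theorem lim_rel (hε : 0 < ε) {θ : Fin N → ℂ} {P M : End N ε}
    {S : ℂ → ℂ → Matrix (Fin N) (Fin N) ℂ} (hS : ∀ w i j, ContinuousAt (fun σ => S σ w i j) 0)
    {d : Fin N → ℂ → ℂ} (hd : ∀ p, ContinuousAt (d p) 0)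
    (hsh : ∀ σ ∈ Metric.ball (0 : ℂ) ε, σ ≠ 0 → ∀ p w,
      d p σ • so θ (fun n => P.x p n σ) (P.E p σ) w =
        (S σ w).mulVec (so θ (fun n => M.x p n σ) (M.E p σ) w))
    {p : Fin N} {K : ℕ} {F F' : ℕ → ℂ → Fin N → ℂ} (hF : Lim P p K F) (hF' : Lim M p K F') (w : ℂ) :
    d p 0 • so θ (fun n => F n 0) (P.E p 0) w =
      (S 0 w).mulVec (so θ (fun n => F' n 0) (M.E p 0) w) := by
  funext i
  have h1 := tendsto_pi_nhds.1 (hF.so_lim hε θ w)
  have h2 := tendsto_pi_nhds.1 (hF'.so_lim hε θ w)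
  have h3 := eq_zero_of_punct
    (f := fun σ => d p σ * so θ (fun n => F n σ) (P.E p σ) w i)
    (g := fun σ => ∑ j, S σ w i j * so θ (fun n => F' n σ) (M.E p σ) w j)
    ((hd p).mul (h1 i)) (by
      apply tendsto_finsetSum
      intro j _
      exact (hS w i j).mul (h2 j)) (by
      filter_upwards [ball_ev hε] with σ hσ
      rw [hF.so_eq θ _ _ hσ.1 hσ.2, hF'.so_eq θ _ _ hσ.1 hσ.2]
      have h4 := congrFun (hsh σ hσ.1 hσ.2 p w) i
      simp only [Pi.smul_apply, smul_eq_mul, Matrix.mulVec, dotProduct] at h4 ⊢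
      calc d p σ * (σ ^ K * so θ (fun n => P.x p n σ) (P.E p σ) w i)
          = σ ^ K * (d p σ * so θ (fun n => P.x p n σ) (P.E p σ) w i) := by ring
        _ = _ := by
            rw [h4, Finset.mul_sum]
            refine Finset.sum_congr rfl fun j _ => ?_
            ring)
  simpa [Matrix.mulVec, dotProduct] using h3

end StepAux

open StepAux in
theorem cols_regular {ε : ℝ} (hε : 0 < ε) {θ : Fin N → ℂ} (P M : End N ε)
    (S : ℂ → ℂ → Matrix (Fin N) (Fin N) ℂ) (hS : ∀ w i j, ContinuousAt (fun σ => S σ w i j) 0)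
    (hSdet : ∀ w, (S 0 w).det ≠ 0) (d : Fin N → ℂ → ℂ) (hd : ∀ p, ContinuousAt (d p) 0)
    (hd0 : ∀ p, d p 0 ≠ 0)
    (hsh : ∀ σ ∈ Metric.ball (0 : ℂ) ε, σ ≠ 0 → ∀ p w,
      d p σ • so θ (fun n => P.x p n σ) (P.E p σ) w =
        (S σ w).mulVec (so θ (fun n => M.x p n σ) (M.E p σ) w))
    (δ : Fin N → ℤ)
    (h1 : ∀ p q, ∀ n : ℕ, 1 ≤ n → P.E p 0 = P.E q 0 + n →
      δ q < δ p ∧ ∃ k : ℕ, 1 ≤ k ∧ M.E p 0 = M.E q 0 - k)
    (h2 : Function.Injective fun p => M.E p 0) (p : Fin N) (n : ℕ) (i : Fin N) :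
    Pol ε 0 (fun σ => P.x p n σ i) ∧ Pol ε 0 (fun σ => M.x p n σ i) := by
  classical
  have hwf : WellFounded fun p q : Fin N => δ q < δ p := by
    have : IsTrans (Fin N) fun p q => δ q < δ p := ⟨fun a b c hab hbc => hbc.trans hab⟩
    have : Std.Irrefl (fun p q : Fin N => δ q < δ p) := ⟨fun a => lt_irrefl _⟩
    exact Finite.wellFounded_of_trans_of_irrefl _
  revert n i
  induction p using hwf.induction with
  | _ q ih => ?_
  -- descending induction on the order of the pole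
  have key : ∀ K : ℕ, (∀ n i, Pol ε K (fun σ => P.x q n σ i) ∧ Pol ε K fun σ => M.x q n σ i) →
      ∀ n i, Pol ε 0 (fun σ => P.x q n σ i) ∧ Pol ε 0 fun σ => M.x q n σ i := by
    intro K
    induction K with
    | zero => exact fun h => h
    | succ K ihK =>
      intro hK
      apply ihK
      obtain ⟨F, hF⟩ := exists_lim fun n i => (hK n i).1
      obtain ⟨F', hF'⟩ := exists_lim fun n i => (hK n i).2
      set A : Finset (Fin N) := Finset.univ.filter
        (fun p => ∃ n : ℕ, 1 ≤ n ∧ P.E p 0 = P.E q 0 + n) with hA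
      have hAm : ∀ p, p ∈ A ↔ ∃ n : ℕ, 1 ≤ n ∧ P.E p 0 = P.E q 0 + n := fun p => by simp [hA]
      have hAn : ∀ p, p ∈ A → ∃ n : ℕ, 1 ≤ n ∧ P.E p 0 = P.E q 0 + n := fun p hp => (hAm p).1 hp
      choose! nn hnn using hAn
      have hAk : ∀ p, p ∈ A → ∃ k : ℕ, 1 ≤ k ∧ M.E p 0 = M.E q 0 - k := fun p hp =>
        (h1 p q (nn p) (hnn p hp).1 (hnn p hp).2).2
      choose! kk hkk using hAk
      have hAδ : ∀ p, p ∈ A → δ q < δ p := fun p hp =>
        (h1 p q (nn p) (hnn p hp).1 (hnn p hp).2).1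
      have hU : ∀ p, p ∈ A → ∃ U, Lim P p 0 U := fun p hp =>
        exists_lim fun n i => (ih p (hAδ p hp) n i).1
      have hU' : ∀ p, p ∈ A → ∃ U, Lim M p 0 U := fun p hp =>
        exists_lim fun n i => (ih p (hAδ p hp) n i).2
      choose! U hU using hU
      choose! U' hU' using hU'
      have hcore := core (θ := θ) (C := fun n => P.C n 0)
        (V := Matrix.of fun i p => P.x p 0 0 i) (E := fun p => P.E p 0) P.x_det P.eig
        (q := P.E q 0) (r := fun n => F n 0) (hF.isRec hε) (hF.zero_succ hε) A nn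
        (fun p n hn hp => (hAm p).2 ⟨n, hn, hp⟩) hnn
        (fun p n => U p n 0) (fun p hp => (hU p hp).isRec hε)
        (fun p hp => (hU p hp).zero_zero hε) hF.fast (fun p hp => (hU p hp).fast)
        (q' := M.E q 0) (r' := fun n => F' n 0) (hF'.zero_succ hε) hF'.fast
        (fun p => M.E p 0) kk hkk
        (fun a ha b hb hab => h2 (by
          have e1 := (hkk a ha).2
          have e2 := (hkk b hb).2
          simp only
          rw [e1, e2, hab]))
        (fun p n => U' p n 0) (fun p hp => (hU' p hp).fast)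
        (fun p hp h0 => by
          have e1 : M.x p 0 0 = 0 := by rw [← (hU' p hp).zero_zero hε]; exact h0
          apply M.x_det
          apply Matrix.det_eq_zero_of_column_eq_zero p
          intro i
          simp [e1])
        (S 0) hSdet (fun p => d p 0) (fun p _ => hd0 p) (hd0 q)
        (fun p hp w => lim_rel hε hS hd hsh (hU p hp) (hU' p hp) w)
        (fun w => lim_rel hε hS hd hsh hF hF' w)
      intro n i
      constructor
      · exact pol_pred hε (hF n i).1 (hF n i).2 (congrFun (hcore.1 n) i)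
      · exact pol_pred hε (hF' n i).1 (hF' n i).2 (congrFun (hcore.2 n) i)
  -- a common order of the poles
  obtain ⟨K1, hK1⟩ := P.pole
  obtain ⟨K2, hK2⟩ := M.pole
  have up : ∀ (a b : ℕ) (f : ℂ → ℂ), Pol ε a f → Pol ε (a + b) f := by
    rintro a b f ⟨G, g1, g2⟩
    refine ⟨fun σ => σ ^ b * G σ, (differentiableOn_id.pow b).mul g1, fun σ h3 h4 => ?_⟩
    simp only
    rw [g2 σ h3 h4, pow_add]
    ring
  exact key (K1 + K2) fun n i => ⟨up _ _ _ (hK1 q n i), by rw [add_comm]; exact up _ _ _ (hK2 q n i)⟩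

end Pool.Agent.DSTJ
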