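import Pool.Agent.DSTJ.JLem
import Pool.Agent.DSTJ.EndLine
import Pool.Agent.DSTJ.Step

/-!
# DSTJ-LineReg: `J0` is bounded near every point of `W1`, along the line `y + σ ξ`

PLAN. Let `δ p = ∑ e p i ξ i` (injective, `ξ_e`), `a p = pr (e p) y`. Choose `j : ℕ` larger than all `‖a p - a q‖`,
`1 ≤ j`, and `y₊ = ln y j`, `y₋ = ln y (-j)` (both in `W1`: weights change by integers). `exists_end` at `y₊`, `y₋` with a
common `ε` gives `P`, `M`. `P.E p 0 = a p + j δ p`, `M.E p 0 = a p - j δ p`.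
`h1` of `cols_regular`: if `a p + j δ p = a q + j δ q + n`, `n ≥ 1`, put `Δ = δ p - δ q`; `a p - a q = n - j Δ` is real;
`Δ ≤ 0` gives `a p - a q ≥ n + j |Δ|`: for `Δ ≤ -1` this is `> j`, contradiction; for `Δ = 0`, `p = q` by injectivity, and
`n = 0`, contradiction. So `Δ ≥ 1`, and `M.E p 0 - M.E q 0 = n - 2 j Δ`, an integer `< 0` because
`n - j Δ = a p - a q < j ≤ j Δ`. `h2`: `a p - a q = j Δ` with `|a p - a q| < j` gives `Δ = 0`, `p = q`.
Shift: for `σ ≠ 0` small, `D.shift` with `μ = 2 j ξ` at `ln y₊ σ` (`ln y₊ σ - cc μ = ln y₋ σ`), `J0_cols` at both ends, `RG` and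
`B_per`, `B_det`: both sides are `(columns matrix) * diagonal g * B`, so multiplying by `B⁻¹`:
`g p (y₊) so(x₊ p) = S (g p (y₋) so (x₋ p))`; put `d p σ = g p (ln y₊ σ) / g p (ln y₋ σ)` (continuous and nonzero at `0`,
`g_hol`, `g_ne`). `cols_regular` gives `Pol ε 0` for all `x p n`; with `pol_bound` and `so_tendsto` (extended functions)
the columns `so ...` converge as `σ → 0`, so `J0 (ln y₊ σ) w` is bounded near `σ = 0` (`J0_cols`, `R G` is continuous).
Finally `J0 (ln y σ) w = S (-j ξ) (ln y σ) w * J0 (ln y₊ σ) w` (`D.shift` with `μ = -j ξ`), `S` continuous.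
-/

set_option autoImplicit false

open scoped BigOperators Topology
open Filter

namespace Pool.Agent.DSTJ

open Pool.Agent.DST.TE

variable {m N : ℕ} (D : Fro m N)

private theorem ln_ln (y : Fin m → ℂ) (a b : ℂ) : D.ln (D.ln y a) b = D.ln y (a + b) := by
  funext i
  unfold Base.ln
  ring

private theorem ln_zero' (y : Fin m → ℂ) : D.ln y 0 = y := by
  funext i
  unfold Base.ln
  ring

private theorem W1_ln {D : Fro m N} {y : Fin m → ℂ} (hy : D.W1 y) (j : ℤ) :
    D.W1 (D.ln y (j : ℂ)) := by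
  intro k n h
  rw [D.toBase.pr_ln] at h
  apply hy k (n - j * ∑ i, D.wt k i * D.ξ i)
  push_cast
  push_cast at h
  linear_combination h

private theorem W12 {D : Fro m N} {y : Fin m → ℂ} (hy : D.W1 y) : D.W2 y :=
  fun k n _ => hy k n

private theorem ln_cont (y : Fin m → ℂ) : Continuous (D.ln y) := by
  unfold Base.ln
  fun_prop

private theorem ln_cc (y : Fin m → ℂ) (σ : ℂ) (j : ℤ) :
    D.ln y σ - cc (fun i => j * D.ξ i) = D.ln y (σ - j) := by
  funext i
  unfold Base.ln cc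
  rw [Pi.sub_apply]
  push_cast
  ring

private theorem exists_big (a : Fin N → ℂ) : ∃ J : ℤ, 1 ≤ J ∧ ∀ p q, ‖a p - a q‖ < (J : ℝ) := by
  refine ⟨⌈∑ p, ∑ q, ‖a p - a q‖⌉ + 1, ?_, fun p q => ?_⟩
  · have h : 0 ≤ ⌈∑ p, ∑ q, ‖a p - a q‖⌉ :=
      Int.ceil_nonneg (Finset.sum_nonneg fun p _ => Finset.sum_nonneg fun q _ => norm_nonneg _)
    omega
  · have h1 : ‖a p - a q‖ ≤ ∑ q, ‖a p - a q‖ :=
      Finset.single_le_sum (f := fun q => ‖a p - a q‖) (fun q _ => norm_nonneg _)
        (Finset.mem_univ q)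
    have h2 : ∑ q, ‖a p - a q‖ ≤ ∑ p, ∑ q, ‖a p - a q‖ :=
      Finset.single_le_sum (f := fun p => ∑ q, ‖a p - a q‖)
        (fun p _ => Finset.sum_nonneg fun q _ => norm_nonneg _) (Finset.mem_univ p)
    have h3 := Int.le_ceil (∑ p, ∑ q, ‖a p - a q‖)
    push_cast
    linarith

/-- the matrix of the columns -/
private noncomputable def XX (y : Fin m → ℂ) (w : ℂ) : Matrix (Fin N) (Fin N) ℂ :=
  Matrix.of fun i p => so D.θ (D.xs y p) (pr (D.e p) y) w i

private theorem J0_mat {D : Fro m N} {y : Fin m → ℂ} (hy : D.W1 y) (hn : D.NR y) (w : ℂ) :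
    D.J0 D.G y w = XX D y w * (Matrix.diagonal (fun p => D.g p y) * D.B y) := by
  ext i j
  rw [D.toBase.J0_cols hn (Base.W1.det D.toBase hy) w i j, D.RG y hy, Matrix.mul_apply]
  rfl

private theorem shift_cols {D : Fro m N} {y : Fin m → ℂ} {J : ℤ} {σ : ℂ}
    (hW : D.W1 (D.ln y (J + σ))) (hW' : D.W1 (D.ln y (-J + σ)))
    (hN : D.NR (D.ln y (J + σ))) (hN' : D.NR (D.ln y (-J + σ))) (p : Fin N) (w : ℂ) :
    (D.g p (D.ln y (J + σ)) / D.g p (D.ln y (-J + σ))) •
      so D.θ (D.xs (D.ln y (J + σ)) p) (pr (D.e p) (D.ln y (J + σ))) w =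
    (D.S (fun i => (2 * J) * D.ξ i) (D.ln y (J + σ)) w).mulVec
      (so D.θ (D.xs (D.ln y (-J + σ)) p) (pr (D.e p) (D.ln y (-J + σ))) w) := by
  have e : D.ln y (J + σ) - cc (fun i => (2 * J) * D.ξ i) = D.ln y (-J + σ) := by
    have h := ln_cc D y (J + σ) (2 * J)
    rw [h]
    congr 1
    push_cast
    ring
  have hsh := D.shift (fun i => (2 * J) * D.ξ i) (D.ln y (J + σ)) hW hN (by rw [e]; exact hN') w
  rw [e, J0_mat hW hN w, J0_mat hW' hN' w] at hsh
  have hB : D.B (D.ln y (J + σ)) = D.B (D.ln y (-J + σ)) := by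
    have h := D.B_per (D.ln y (-J + σ)) hW' (2 * J)
    rw [← h, ln_ln]
    congr 2
    push_cast
    ring
  rw [hB, ← Matrix.mul_assoc, ← Matrix.mul_assoc, ← Matrix.mul_assoc] at hsh
  have hBu : IsUnit (D.B (D.ln y (-J + σ))).det := (D.B_det _ hW').isUnit
  have hsh2 : XX D (D.ln y (J + σ)) w * Matrix.diagonal (fun p => D.g p (D.ln y (J + σ))) =
      D.S (fun i => (2 * J) * D.ξ i) (D.ln y (J + σ)) w * XX D (D.ln y (-J + σ)) w *
        Matrix.diagonal (fun p => D.g p (D.ln y (-J + σ))) := by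
    have h := congrArg (fun X => X * (D.B (D.ln y (-J + σ)))⁻¹) hsh
    rwa [Matrix.mul_nonsing_inv_cancel_right _ _ hBu,
      Matrix.mul_nonsing_inv_cancel_right _ _ hBu] at h
  have hg := D.g_ne _ hW' p
  funext i
  have h := congrFun (congrFun hsh2 i) p
  rw [Matrix.mul_diagonal, Matrix.mul_diagonal, Matrix.mul_apply] at h
  rw [Pi.smul_apply, smul_eq_mul, Matrix.mulVec, dotProduct]
  rw [div_mul_eq_mul_div, div_eq_iff hg, mul_comm (D.g p (D.ln y (J + σ)))]
  exact h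

/-- the columns of one end converge -/
private theorem end_tendsto {ε : ℝ} (hε : 0 < ε) (T : End N ε) (θ : Fin N → ℂ)
    (hpol : ∀ p n i, Pol ε 0 (fun σ => T.x p n σ i)) (p : Fin N) (w : ℂ) (i : Fin N) :
    ∃ c : ℂ, Tendsto (fun σ => so θ (fun n => T.x p n σ) (T.E p σ) w i) (𝓝[≠] 0) (𝓝 c) := by
  choose F hF hFx using fun n i => hpol p n i
  obtain ⟨ε', h0, h1, hfast⟩ := T.fast
  have hlim := so_tendsto (θ := θ) (F := fun n σ i => F n i σ) (e := T.E p)
    (fun n i => (hF n i).continuousOn.continuousAt (Metric.ball_mem_nhds 0 hε)) (T.E_cont p) h0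
    (by
      intro ρ hρ
      obtain ⟨B, hB⟩ := hfast ρ hρ
      refine ⟨B, fun n i σ hσ => ?_⟩
      have hρn : 0 < ρ ^ n := pow_pos hρ n
      have h2 := pol_bound (B := B / ρ ^ n) h0 h1 (hF n i) (hFx n i) (by
        intro σ' hσ'
        rw [le_div_iff₀ hρn]
        exact hB p n i σ' hσ') σ hσ
      rw [pow_zero, one_mul, le_div_iff₀ hρn] at h2
      exact h2) w
  refine ⟨_, ((tendsto_pi_nhds.1 hlim i).mono_left nhdsWithin_le_nhds).congr' ?_⟩
  have hb : ∀ᶠ σ in 𝓝[≠] (0 : ℂ), σ ∈ Metric.ball (0 : ℂ) ε :=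
    nhdsWithin_le_nhds (Metric.ball_mem_nhds 0 hε)
  filter_upwards [hb, self_mem_nhdsWithin] with σ h2 h3
  have h4 : (fun n i => F n i σ) = fun n => T.x p n σ := by
    funext n i
    have h5 := hFx n i σ h2 h3
    rw [pow_zero, one_mul] at h5
    exact h5
  show so θ (fun n i => F n i σ) (T.E p σ) w i = so θ (fun n => T.x p n σ) (T.E p σ) w i
  rw [h4]

theorem line_bdd {y : Fin m → ℂ} (hy : D.W1 y) (w : ℂ) (i j : Fin N) :
    ∃ B : ℝ, ∀ᶠ σ in 𝓝[≠] (0 : ℂ), ‖D.J0 D.G (D.ln y σ) w i j‖ ≤ B := by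
  obtain ⟨J, hJ1, hJ⟩ := exists_big (fun p => pr (D.e p) y)
  have hWP : D.W1 (D.ln y (J : ℂ)) := W1_ln hy J
  have hWM : D.W1 (D.ln y (-(J : ℂ))) := by
    have h := W1_ln hy (-J)
    push_cast at h
    exact h
  obtain ⟨ε₁, hε₁, hP⟩ := D.toBase.exists_end hWP
  obtain ⟨ε₂, hε₂, hM⟩ := D.toBase.exists_end hWM
  obtain ⟨ε₃, hε₃, hN⟩ := D.toBase.nr_ln y
  obtain ⟨ε, hε, hle1, hle2, hle3⟩ : ∃ ε : ℝ, 0 < ε ∧ ε ≤ ε₁ ∧ ε ≤ ε₂ ∧ ε ≤ ε₃ :=
    ⟨min ε₁ (min ε₂ ε₃), lt_min hε₁ (lt_min hε₂ hε₃), min_le_left _ _,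
      (min_le_right _ _).trans (min_le_left _ _), (min_le_right _ _).trans (min_le_right _ _)⟩
  obtain ⟨hP1, hP2, P, hPC, hPE, hPx⟩ := hP ε hε hle1
  obtain ⟨hM1, hM2, M, hMC, hME, hMx⟩ := hM ε hε hle2
  have hδ : Function.Injective fun p => ∑ i, D.e p i * D.ξ i := D.ξ_e
  -- the differences of the values
  have hdiff : ∀ p q, ∀ n : ℤ, pr (D.e p) y - pr (D.e q) y = (n : ℂ) → |n| < J := by
    intro p q n h
    have h1 := hJ p q
    rw [h, Complex.norm_intCast] at h1
    exact_mod_cast h1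
  have hPE0 : ∀ p, P.E p 0 = pr (D.e p) y + J * ((∑ i, D.e p i * D.ξ i : ℤ) : ℂ) := by
    intro p
    rw [hPE, ln_zero', D.toBase.pr_ln]
  have hME0 : ∀ p, M.E p 0 = pr (D.e p) y - J * ((∑ i, D.e p i * D.ξ i : ℤ) : ℂ) := by
    intro p
    rw [hME, ln_zero', D.toBase.pr_ln]
    ring
  have hPln : ∀ σ, D.ln (D.ln y (J : ℂ)) σ = D.ln y (J + σ) := fun σ => ln_ln D y _ _
  have hMln : ∀ σ, D.ln (D.ln y (-(J : ℂ))) σ = D.ln y (-J + σ) := fun σ => ln_ln D y _ _
  have hreg := cols_regular hε (θ := D.θ) P M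
    (fun σ w => D.S (fun i => (2 * J) * D.ξ i) (D.ln y (J + σ)) w)
    (by
      intro w i j
      have h1 : Continuous fun x : (Fin m → ℂ) × ℂ => D.S (fun i => (2 * J) * D.ξ i) x.1 x.2 i j :=
        (D.S_hol _ i j).continuous
      have h2 : Continuous fun σ : ℂ => (D.ln y (J + σ), w) :=
        ((ln_cont D y).comp (continuous_const.add continuous_id)).prodMk continuous_const
      exact (h1.comp h2).continuousAt)
    (fun w => D.S_det _ _ w)
    (fun p σ => D.g p (D.ln y (J + σ)) / D.g p (D.ln y (-J + σ)))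
    (by
      intro p
      have h1 : ContinuousAt (D.g p) (D.ln y (J + 0)) := by
        rw [add_zero]
        exact (D.g_hol _ hWP p).continuousAt
      have h2 : ContinuousAt (D.g p) (D.ln y (-J + 0)) := by
        rw [add_zero]
        exact (D.g_hol _ hWM p).continuousAt
      have h3 : ContinuousAt (fun σ : ℂ => D.ln y (J + σ)) 0 :=
        ((ln_cont D y).comp (continuous_const.add continuous_id)).continuousAt
      have h4 : ContinuousAt (fun σ : ℂ => D.ln y (-J + σ)) 0 :=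
        ((ln_cont D y).comp (continuous_const.add continuous_id)).continuousAt
      refine ContinuousAt.div (ContinuousAt.comp (g := D.g p) h1 h3)
        (ContinuousAt.comp (g := D.g p) h2 h4) ?_
      rw [add_zero]
      exact D.g_ne _ hWM p)
    (by
      intro p
      rw [add_zero, add_zero]
      exact div_ne_zero (D.g_ne _ hWP p) (D.g_ne _ hWM p))
    (by
      intro σ hσ hσ0 p w
      have e1 : (fun n => P.x p n σ) = D.xs (D.ln y (J + σ)) p := by
        funext n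
        rw [hPx, hPln]
      have e2 : (fun n => M.x p n σ) = D.xs (D.ln y (-J + σ)) p := by
        funext n
        rw [hMx, hMln]
      rw [e1, e2, hPE, hME, hPln, hMln]
      have a1 := hP1 σ hσ
      have a2 := hM1 σ hσ
      have a3 := hP2 σ hσ hσ0
      have a4 := hM2 σ hσ hσ0
      rw [hPln] at a1 a3
      rw [hMln] at a2 a4
      exact shift_cols a1 a2 a3 a4 p w)
    (fun p => ∑ i, D.e p i * D.ξ i)
    (by
      intro p q n hn h
      rw [hPE0, hPE0] at h
      obtain ⟨Δ, hΔ⟩ : ∃ Δ : ℤ, Δ = (∑ i, D.e p i * D.ξ i) - ∑ i, D.e q i * D.ξ i := ⟨_, rfl⟩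
      have h1 : pr (D.e p) y - pr (D.e q) y = (((n : ℤ) - J * Δ : ℤ) : ℂ) := by
        rw [hΔ]
        push_cast
        push_cast at h
        linear_combination h
      have h2 := hdiff p q _ h1
      rw [abs_lt] at h2
      have hn' : (1 : ℤ) ≤ n := by exact_mod_cast hn
      have h3 : 0 ≤ Δ := by
        by_contra hc
        have : Δ ≤ -1 := by omega
        nlinarith [h2.2]
      have h4 : Δ ≠ 0 := by
        intro h0
        have h5 : p = q := hδ (by
          simp only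
          omega)
        subst h5
        have h6 : ((n : ℕ) : ℂ) = 0 := by linear_combination -h
        have h7 : n = 0 := by exact_mod_cast h6
        omega
      have h5 : 1 ≤ Δ := by omega
      refine ⟨by omega, (2 * J * Δ - n).toNat, ?_, ?_⟩
      · have : 1 ≤ 2 * J * Δ - n := by nlinarith [h2.2]
        omega
      · have h6 : 0 ≤ 2 * J * Δ - n := by nlinarith [h2.2]
        have h7 : (((2 * J * Δ - n).toNat : ℕ) : ℂ) = ((2 * J * Δ - n : ℤ) : ℂ) := by
          have := Int.toNat_of_nonneg h6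
          exact_mod_cast congrArg (fun z : ℤ => (z : ℂ)) this
        rw [hME0, hME0, h7, hΔ]
        push_cast
        push_cast at h
        linear_combination h)
    (by
      intro p q h
      simp only at h
      rw [hME0, hME0] at h
      obtain ⟨Δ, hΔ⟩ : ∃ Δ : ℤ, Δ = (∑ i, D.e p i * D.ξ i) - ∑ i, D.e q i * D.ξ i := ⟨_, rfl⟩
      have h1 : pr (D.e p) y - pr (D.e q) y = ((J * Δ : ℤ) : ℂ) := by
        rw [hΔ]
        push_cast
        push_cast at h
        linear_combination h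
      have h2 := hdiff p q _ h1
      rw [abs_lt] at h2
      have h3 : Δ = 0 := by
        have h4 : -1 < Δ := by nlinarith [h2.1]
        have h5 : Δ < 1 := by nlinarith [h2.2]
        omega
      apply hδ
      simp only
      omega)
  -- convergence at the end `P`
  have hcols : ∀ p i, ∃ c : ℂ, Tendsto (fun σ => so D.θ (fun n => P.x p n σ) (P.E p σ) w i)
      (𝓝[≠] 0) (𝓝 c) := fun p i => end_tendsto hε P D.θ (fun p n i => (hreg p n i).1) p w i
  have hJP : ∀ i j, ∃ c : ℂ, Tendsto (fun σ => D.J0 D.G (D.ln y (J + σ)) w i j) (𝓝[≠] 0) (𝓝 c) := by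
    intro i j
    choose c hc using fun p => hcols p i
    have hRG : ∀ p, Tendsto (fun σ : ℂ => (D.R (D.ln y (J + σ)) * D.G (D.ln y (J + σ))) p j)
        (𝓝[≠] 0) (𝓝 ((D.R (D.ln y J) * D.G (D.ln y J)) p j)) := by
      intro p
      have h3 : Tendsto (fun σ : ℂ => D.ln y (J + σ)) (𝓝[≠] 0) (𝓝 (D.ln y J)) := by
        have h4 : ContinuousAt (fun σ : ℂ => D.ln y (J + σ)) 0 :=
          ((ln_cont D y).comp (continuous_const.add continuous_id)).continuousAt
        have h5 : Tendsto (fun σ : ℂ => D.ln y (J + σ)) (𝓝 0) (𝓝 (D.ln y (J + 0))) := h4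
        rw [add_zero] at h5
        exact h5.mono_left nhdsWithin_le_nhds
      have h4 : ContinuousAt (fun y => (D.R y * D.G y) p j) (D.ln y J) := by
        simp only [Matrix.mul_apply]
        refine tendsto_finsetSum _ fun k _ => ?_
        exact ((D.R_hol p k).continuous.continuousAt).mul
          (D.G_hol _ (W12 hWP) k j).continuousAt
      exact Tendsto.comp (g := fun y => (D.R y * D.G y) p j) h4 h3
    refine ⟨∑ p, c p * (D.R (D.ln y J) * D.G (D.ln y J)) p j, ?_⟩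
    refine (tendsto_finsetSum (Finset.univ : Finset (Fin N))
      (fun p _ => (hc p).mul (hRG p))).congr' ?_
    have hb : ∀ᶠ σ in 𝓝[≠] (0 : ℂ), σ ∈ Metric.ball (0 : ℂ) ε :=
      nhdsWithin_le_nhds (Metric.ball_mem_nhds 0 hε)
    filter_upwards [hb, self_mem_nhdsWithin] with σ h2 h3
    have a1 := hP1 σ h2
    have a3 := hP2 σ h2 h3
    rw [hPln] at a1 a3
    rw [D.toBase.J0_cols a3 (Base.W1.det D.toBase a1) w i j]
    refine Finset.sum_congr rfl fun p _ => ?_
    have e1 : (fun n => P.x p n σ) = D.xs (D.ln y (J + σ)) p := by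
      funext n
      rw [hPx, hPln]
    rw [e1, hPE, hPln]
  -- back to `y`
  choose c hc using hJP
  have hS : ∀ k, Tendsto (fun σ : ℂ => D.S (fun i => (-J) * D.ξ i) (D.ln y σ) w i k) (𝓝[≠] 0)
      (𝓝 (D.S (fun i => (-J) * D.ξ i) (D.ln y 0) w i k)) := by
    intro k
    have h1 : Continuous fun x : (Fin m → ℂ) × ℂ => D.S (fun i => (-J) * D.ξ i) x.1 x.2 i k :=
      (D.S_hol _ i k).continuous
    have h2 : Continuous fun σ : ℂ => (D.ln y σ, w) := (ln_cont D y).prodMk continuous_const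
    exact ((h1.comp h2).tendsto 0).mono_left nhdsWithin_le_nhds
  have hfin : Tendsto (fun σ : ℂ => D.J0 D.G (D.ln y σ) w i j) (𝓝[≠] 0)
      (𝓝 (∑ k, D.S (fun i => (-J) * D.ξ i) (D.ln y 0) w i k * c k j)) := by
    refine (tendsto_finsetSum (Finset.univ : Finset (Fin N))
      (fun k _ => (hS k).mul (hc k j))).congr' ?_
    have hb : ∀ᶠ σ in 𝓝[≠] (0 : ℂ), σ ∈ Metric.ball (0 : ℂ) ε :=
      nhdsWithin_le_nhds (Metric.ball_mem_nhds 0 hε)
    filter_upwards [hb, self_mem_nhdsWithin] with σ h2 h3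
    have a1 := hP1 σ h2
    have a3 := hP2 σ h2 h3
    rw [hPln] at a1 a3
    have e : D.ln y σ - cc (fun i => (-J) * D.ξ i) = D.ln y (J + σ) := by
      have h := ln_cc D y σ (-J)
      rw [h]
      congr 1
      push_cast
      ring
    have b1 : D.W1 (D.ln y σ) := by
      have h := W1_ln a1 (-J)
      rw [ln_ln] at h
      have e2 : (J : ℂ) + σ + ((-J : ℤ) : ℂ) = σ := by
        push_cast
        ring
      rwa [e2] at h
    have b2 : D.NR (D.ln y σ) := hN σ (Metric.ball_subset_ball hle3 h2) h3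
    rw [D.shift (fun i => (-J) * D.ξ i) (D.ln y σ) b1 b2 (by rw [e]; exact a3) w, e,
      Matrix.mul_apply]
  obtain ⟨B, hB⟩ := hfin.norm.isBoundedUnder_le
  exact ⟨B, hB⟩

end Pool.Agent.DSTJ
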