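import Pool.Agent.DSTJ.Seq

/-!
# DSTJ-Peel

PLAN. `m L`: there is `α` with `r n = ∑ ..` for all `n ≤ L`. The difference `d n = r n - ∑ ..` satisfies the
same recursion (`((n - nn p) + E p) = n + q`, and the sum over `k ≤ n` of `C_k u_{n-k-nn p}` with the terms
`n - k < nn p` omitted), and `d n = 0` for `n ≤ L` gives `C 0 d_{L+1} = (L + 1 + q) d_{L+1}`, so `d_{L+1}` is a
combination of the columns `V · p` with `E p = q + (L + 1)` (write `d = V a`, `V` invertible: `(E p) a p =
(L+1+q) a p`). Add these `a p` to `α p` (`nn p = L + 1`). For `L ≥ max nn` nothing is added, so one `α` works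
for all `n` (or: choose `L = ∑ nn p` and prove `d n = 0` for all `n` by strong induction).
-/

set_option autoImplicit false

open scoped BigOperators Topology
open Filter

namespace Pool.Agent.DSTJ

variable {N : ℕ}

private theorem peel_key {C : ℕ → Matrix (Fin N) (Fin N) ℂ} {V : Matrix (Fin N) (Fin N) ℂ}
    {E : Fin N → ℂ} (hV : V.det ≠ 0) (hCV : C 0 * V = V * Matrix.diagonal E) {q : ℂ}
    {d : ℕ → Fin N → ℂ} (hd : IsRec C q d) {n : ℕ} (h : ∀ m < n, d m = 0) :
    ∃ a : Fin N → ℂ, d n = V.mulVec a ∧ ∀ p, a p ≠ 0 → E p = q + n := by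
  have hU : IsUnit V.det := isUnit_iff_ne_zero.2 hV
  have hinv : ∀ w : Fin N → ℂ, V⁻¹.mulVec (V.mulVec w) = w := by
    intro w
    rw [Matrix.mulVec_mulVec, Matrix.nonsing_inv_mul V hU, Matrix.one_mulVec]
  have ha : d n = V.mulVec (V⁻¹.mulVec (d n)) := by
    rw [Matrix.mulVec_mulVec, Matrix.mul_nonsing_inv V hU, Matrix.one_mulVec]
  refine ⟨V⁻¹.mulVec (d n), ha, ?_⟩
  set a : Fin N → ℂ := V⁻¹.mulVec (d n) with hadef
  have h1 := hd n
  rw [Finset.sum_range_succ', Finset.sum_eq_zero, zero_add, Nat.sub_zero] at h1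
  · have h2 : V.mulVec ((Matrix.diagonal E).mulVec a) = V.mulVec (((n : ℂ) + q) • a) := by
      rw [Matrix.mulVec_mulVec, ← hCV, ← Matrix.mulVec_mulVec, ← ha, ← h1, Matrix.mulVec_smul, ← ha]
    have h3 : (Matrix.diagonal E).mulVec a = ((n : ℂ) + q) • a := by
      rw [← hinv ((Matrix.diagonal E).mulVec a), h2, hinv]
    intro p hp
    have h4 := congrFun h3 p
    rw [Matrix.mulVec_diagonal, Pi.smul_apply, smul_eq_mul] at h4
    rw [mul_right_cancel₀ hp h4, add_comm]
  · intro k hk
    rw [h (n - (k + 1)) (by have := Finset.mem_range.1 hk; omega), Matrix.mulVec_zero]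

private theorem peel_shift {C : ℕ → Matrix (Fin N) (Fin N) ℂ} {e q : ℂ} {u : ℕ → Fin N → ℂ}
    (hu : IsRec C e u) {m : ℕ} (he : e = q + m) :
    IsRec C q (fun n => if m ≤ n then u (n - m) else 0) := by
  intro n
  dsimp only
  rcases Nat.lt_or_ge n m with h | h
  · rw [if_neg (by omega), smul_zero]
    symm
    refine Finset.sum_eq_zero fun k _ => ?_
    rw [if_neg (by omega), Matrix.mulVec_zero]
  · rw [if_pos h]
    have h1 := hu (n - m)
    have h2 : ((n - m : ℕ) : ℂ) + e = (n : ℂ) + q := by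
      rw [he, Nat.cast_sub h]
      ring
    rw [h2] at h1
    rw [h1]
    symm
    rw [← Finset.sum_subset (s₁ := Finset.range (n - m + 1))]
    · refine Finset.sum_congr rfl fun k hk => ?_
      have hk' := Finset.mem_range.1 hk
      rw [if_pos (by omega)]
      congr 2
      omega
    · intro k hk
      rw [Finset.mem_range] at hk ⊢
      omega
    · intro k hk hk'
      rw [Finset.mem_range] at hk hk'
      rw [if_neg (by omega), Matrix.mulVec_zero]

private theorem peel_sub {C : ℕ → Matrix (Fin N) (Fin N) ℂ} {q : ℂ} {r s : ℕ → Fin N → ℂ}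
    (hr : IsRec C q r) (hs : IsRec C q s) : IsRec C q (fun n => r n - s n) := by
  intro n
  dsimp only
  rw [smul_sub, hr n, hs n, ← Finset.sum_sub_distrib]
  exact Finset.sum_congr rfl fun k _ => by rw [Matrix.mulVec_sub]

private theorem peel_sum {C : ℕ → Matrix (Fin N) (Fin N) ℂ} {q : ℂ} (A : Finset (Fin N))
    (α : Fin N → ℂ) (s : Fin N → ℕ → Fin N → ℂ) (hs : ∀ p ∈ A, IsRec C q (s p)) :
    IsRec C q (fun n => ∑ p ∈ A, α p • s p n) := by
  intro n
  dsimp only
  rw [Finset.smul_sum]
  have h1 : ∀ k ∈ Finset.range (n + 1), (C k).mulVec (∑ p ∈ A, α p • s p (n - k)) =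
      ∑ p ∈ A, α p • (C k).mulVec (s p (n - k)) := by
    intro k _
    have h2 := map_sum (C k).mulVecLin (fun p => α p • s p (n - k)) A
    simp only [Matrix.mulVecLin_apply] at h2
    rw [h2]
    exact Finset.sum_congr rfl fun p _ => by rw [Matrix.mulVec_smul]
  rw [Finset.sum_congr rfl h1, Finset.sum_comm]
  refine Finset.sum_congr rfl fun p hp => ?_
  rw [smul_comm, hs p hp n, Finset.smul_sum]

theorem peel {C : ℕ → Matrix (Fin N) (Fin N) ℂ} {V : Matrix (Fin N) (Fin N) ℂ} {E : Fin N → ℂ}
    (hV : V.det ≠ 0) (hCV : C 0 * V = V * Matrix.diagonal E) {q : ℂ} {r : ℕ → Fin N → ℂ}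
    (hr : IsRec C q r) (h0 : r 0 = 0) (A : Finset (Fin N)) (nn : Fin N → ℕ)
    (hA : ∀ p, ∀ n : ℕ, 1 ≤ n → E p = q + n → p ∈ A)
    (hn : ∀ p ∈ A, 1 ≤ nn p ∧ E p = q + nn p)
    (u : Fin N → ℕ → Fin N → ℂ) (hu : ∀ p ∈ A, IsRec C (E p) (u p))
    (hu0 : ∀ p ∈ A, u p 0 = fun i => V i p) :
    ∃ α : Fin N → ℂ, ∀ n, r n = ∑ p ∈ A, if nn p ≤ n then α p • u p (n - nn p) else 0 := by
  classical
  obtain ⟨s, hs⟩ : ∃ s : Fin N → ℕ → Fin N → ℂ,
      s = fun p n => if nn p ≤ n then u p (n - nn p) else 0 := ⟨_, rfl⟩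
  have hsr : ∀ p ∈ A, IsRec C q (s p) := by
    intro p hp
    rw [hs]
    exact peel_shift (hu p hp) (hn p hp).2
  have hgoal : ∀ (α : Fin N → ℂ) (n : ℕ),
      (∑ p ∈ A, if nn p ≤ n then α p • u p (n - nn p) else 0) = ∑ p ∈ A, α p • s p n := by
    intro α n
    refine Finset.sum_congr rfl fun p _ => ?_
    rw [hs]
    dsimp only
    split_ifs
    · rfl
    · rw [smul_zero]
  simp only [hgoal]
  -- the general step
  have hstep : ∀ (α : Fin N → ℂ) (n : ℕ), 1 ≤ n → (∀ m < n, r m = ∑ p ∈ A, α p • s p m) →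
      ∃ a : Fin N → ℂ, r n - ∑ p ∈ A, α p • s p n = V.mulVec a ∧
        ∀ p, a p ≠ 0 → p ∈ A ∧ nn p = n := by
    intro α n hn1 hm
    obtain ⟨a, ha1, ha2⟩ := peel_key hV hCV (peel_sub hr (peel_sum A α s hsr)) (n := n)
      (fun m hmn => by
        rw [hm m hmn, sub_self])
    refine ⟨a, ha1, fun p hp => ?_⟩
    have h1 := ha2 p hp
    have h2 := hA p n hn1 h1
    refine ⟨h2, ?_⟩
    have h3 := (hn p h2).2
    rw [h1] at h3
    exact_mod_cast (add_left_cancel h3).symm
  have hclaim : ∀ L : ℕ, ∃ α : Fin N → ℂ, ∀ n ≤ L, r n = ∑ p ∈ A, α p • s p n := by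
    intro L
    induction L with
    | zero =>
      refine ⟨0, fun n hn0 => ?_⟩
      have h1 : n = 0 := by omega
      rw [h1, h0]
      symm
      refine Finset.sum_eq_zero fun p _ => ?_
      rw [Pi.zero_apply, zero_smul]
    | succ L ih =>
      obtain ⟨α, hα⟩ := ih
      obtain ⟨a, ha1, ha2⟩ := hstep α (L + 1) (by omega) (fun m hm => hα m (by omega))
      refine ⟨fun p => α p + if nn p = L + 1 then a p else 0, fun n hn' => ?_⟩
      simp only [add_smul, Finset.sum_add_distrib]
      rcases Nat.lt_or_ge n (L + 1) with h | h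
      · rw [← hα n (by omega)]
        have h1 : ∑ p ∈ A, (if nn p = L + 1 then a p else 0) • s p n = 0 := by
          refine Finset.sum_eq_zero fun p _ => ?_
          by_cases hp : nn p = L + 1
          · have h2 : s p n = 0 := by
              rw [hs]
              exact if_neg (by omega)
            rw [h2, smul_zero]
          · rw [if_neg hp, zero_smul]
        rw [h1, add_zero]
      · have hn1 : n = L + 1 := by omega
        subst hn1
        have h1 : ∑ p ∈ A, (if nn p = L + 1 then a p else 0) • s p (L + 1) = V.mulVec a := by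
          have h2 : V.mulVec a = ∑ p, a p • fun i => V i p := by
            funext i
            rw [Matrix.mulVec, dotProduct, Finset.sum_apply]
            refine Finset.sum_congr rfl fun p _ => ?_
            rw [Pi.smul_apply, smul_eq_mul, mul_comm]
          rw [h2]
          refine Finset.sum_subset_zero_on_sdiff (Finset.subset_univ A) ?_ ?_
          · intro p hp
            by_contra hne
            have h3 : a p ≠ 0 := by
              intro h4
              rw [h4, zero_smul] at hne
              exact hne rfl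
            exact (Finset.mem_sdiff.1 hp).2 (ha2 p h3).1
          · intro p hp
            by_cases hp' : nn p = L + 1
            · rw [if_pos hp', hs]
              dsimp only
              rw [if_pos hp'.le, hp', Nat.sub_self, hu0 p hp]
            · have h3 : a p = 0 := by
                by_contra h4
                exact hp' (ha2 p h4).2
              rw [if_neg hp', h3, zero_smul, zero_smul]
        rw [h1, ← ha1]
        abel
  obtain ⟨α, hα⟩ := hclaim (A.sup nn)
  refine ⟨α, fun n => ?_⟩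
  induction n using Nat.strong_induction_on with
  | _ n ih =>
    rcases Nat.lt_or_ge (A.sup nn) n with h | h
    · obtain ⟨a, ha1, ha2⟩ := hstep α n (by omega) ih
      have h1 : a = 0 := by
        funext p
        by_contra hp
        obtain ⟨h2, h3⟩ := ha2 p hp
        have h4 : nn p ≤ A.sup nn := Finset.le_sup h2
        omega
      rw [h1, Matrix.mulVec_zero] at ha1
      exact sub_eq_zero.1 ha1
    · exact hα n h

end Pool.Agent.DSTJ
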