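import Pool.Agent.DSTJ.SpecB

/-!
# DSTJ-Piece: the graded pieces of the equivariant quantum multiplication by `c_1`

`λ = y s`, `s = e^w`; the piece of degree `n` comes from the curve classes with `c_1(β) = n`.
-/

set_option autoImplicit false

open scoped BigOperators Topology
open Filter

namespace Pool.Agent.DSTJ.Spec

open Pool.Agent.Helper18.Dub Pool.Agent.SHF Pool.Agent.DST

theorem eval_scale {m : ℕ} {p : MvPolynomial (Fin m) ℂ} {α β : ℕ}
    (h : ∀ d : Fin m →₀ ℕ, p.coeff d ≠ 0 → (∑ k, d k) + α = β) (s : ℂ) (y : Fin m → ℂ) :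
    s ^ α * MvPolynomial.eval (fun k => y k * s) p = s ^ β * MvPolynomial.eval y p := by
  rw [MvPolynomial.eval_eq', MvPolynomial.eval_eq', Finset.mul_sum, Finset.mul_sum]
  refine Finset.sum_congr rfl fun d hd => ?_
  have h1 := h d (MvPolynomial.mem_support_iff.1 hd)
  simp only [mul_pow, Finset.prod_mul_distrib, Finset.prod_pow_eq_pow_sum]
  rw [← h1, pow_add]
  ring

section

variable {N : ℕ} {X : FanoGW (Fin N)} {m : ℕ}

/-- the part of `gchern` from the curve classes with `c_1(β) = n` -/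
noncomputable def piece (T : HData X m) (t : Fin N → ℂ) (κH : MvPolynomial (Fin m) ℂ) (n : ℕ) :
    Matrix (Fin N) (Fin N) (MvPolynomial (Fin m) ℂ) :=
  (Matrix.of fun k b => ∑ a, algebraMap ℂ _ (X.chern a) * ∑ l, T.pairH⁻¹ k l *
    ∑ β ∈ (X.c1_finite n).toFinset,
      algebraMap ℂ _ (Complex.exp (∑ i, t i * X.period β i)) * T.invH β {a, b, l}) +
    if n = 0 then κH • 1 else 0

/-- the bound for the degrees -/
def KK (X : FanoGW (Fin N)) : ℕ := 3 * ∑ i, X.deg i

theorem deg_le (i : Fin N) : X.deg i ≤ ∑ i, X.deg i :=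
  Finset.single_le_sum (f := fun i => X.deg i) (fun _ _ => Nat.zero_le _) (Finset.mem_univ i)

theorem HAx.dim3 {T : HData X m} (h : HAx T) {β : X.Curve} {a b l : Fin N} {d : Fin m →₀ ℕ}
    (hd : (T.invH β {a, b, l}).coeff d ≠ 0) :
    (∑ k, d k) + (X.dim + X.c1 β) = X.deg a + X.deg b + X.deg l := by
  have h1 := h.dimension β {a, b, l} d hd
  simp only [Multiset.insert_eq_cons, Multiset.map_cons, Multiset.map_singleton,
    Multiset.sum_cons, Multiset.sum_singleton, Multiset.card_cons, Multiset.card_singleton] at h1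
  omega

theorem HAx.zero_big {T : HData X m} (h : HAx T) {β : X.Curve} (hβ : KK X < X.c1 β)
    (a b l : Fin N) : T.invH β {a, b, l} = 0 := by
  by_contra hne
  obtain ⟨d, hd⟩ := MvPolynomial.ne_zero_iff.1 hne
  have h1 := h.dim3 hd
  have h2 := deg_le (X := X) a
  have h3 := deg_le (X := X) b
  have h4 := deg_le (X := X) l
  unfold KK at hβ
  omega

theorem HAx.piece_big {T : HData X m} (h : HAx T) (t : Fin N → ℂ)
    (κH : MvPolynomial (Fin m) ℂ) {n : ℕ} (hn : KK X < n) : piece T t κH n = 0 := by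
  unfold piece
  rw [if_neg (by omega), add_zero]
  ext1 k b
  simp only [Matrix.of_apply, Matrix.zero_apply]
  refine Finset.sum_eq_zero fun a _ => ?_
  rw [Finset.sum_eq_zero fun l _ => ?_, mul_zero]
  rw [Finset.sum_eq_zero fun β hβ => ?_, mul_zero]
  have hβ1 : X.c1 β = n := by simpa using hβ
  rw [h.zero_big (by rw [hβ1]; exact hn), mul_zero]

theorem HAx.gcorr_sum {T : HData X m} (h : HAx T) (t : Fin N → ℂ) (a b l : Fin N) :
    gcorr T.invH t {a, b, l} = ∑ n ∈ Finset.range (KK X + 1),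
      ∑ β ∈ (X.c1_finite n).toFinset,
        algebraMap ℂ _ (Complex.exp (∑ i, t i * X.period β i)) * T.invH β {a, b, l} := by
  classical
  rw [← Finset.sum_biUnion]
  · unfold gcorr
    refine finsum_eq_sum_of_support_subset _ fun β hβ => ?_
    have h1 : T.invH β {a, b, l} ≠ 0 := right_ne_zero_of_mul hβ
    simp only [Finset.coe_biUnion, Set.mem_iUnion]
    refine ⟨X.c1 β, ?_, ?_⟩
    · rw [Finset.mem_coe, Finset.mem_range]
      by_contra hcon
      exact h1 (h.zero_big (by omega) a b l)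
    · simp
  · intro n _ n' _ hnn
    rw [Function.onFun, Finset.disjoint_left]
    intro β h1 h2
    apply hnn
    have h3 : X.c1 β = n := by simpa using h1
    have h4 : X.c1 β = n' := by simpa using h2
    rw [← h3, ← h4]

theorem HAx.gchern_sum {T : HData X m} (h : HAx T) (t : Fin N → ℂ)
    (κH : MvPolynomial (Fin m) ℂ) :
    gchern T.pairH T.invH t κH = ∑ n ∈ Finset.range (KK X + 1), piece T t κH n := by
  unfold gchern piece
  rw [Finset.sum_add_distrib]
  congr 1
  · ext1 k b
    rw [Matrix.sum_apply]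
    simp only [Matrix.of_apply]
    rw [Finset.sum_comm]
    refine Finset.sum_congr rfl fun a _ => ?_
    rw [← Finset.mul_sum, Finset.sum_comm]
    congr 1
    refine Finset.sum_congr rfl fun l _ => ?_
    rw [h.gcorr_sum, ← Finset.mul_sum]
  · rw [Finset.sum_ite_eq' (Finset.range (KK X + 1)) 0 fun _ => κH • (1 : Matrix _ _ _),
      if_pos (by simp)]

theorem HAx.piece_zero {T : HData X m} (hper : ∀ i, X.period X.zero i = 0)
    (t : Fin N → ℂ) (κH : MvPolynomial (Fin m) ℂ) :
    piece T t κH 0 = gcupChern T.pairH T.invH κH := by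
  unfold piece gcupChern gcup
  rw [if_pos rfl]
  congr 1
  ext1 k b
  rw [Matrix.sum_apply]
  simp only [Matrix.of_apply, Matrix.smul_apply, smul_eq_mul]
  refine Finset.sum_congr rfl fun a _ => ?_
  congr 1
  refine Finset.sum_congr rfl fun l _ => ?_
  have h1 : (X.c1_finite 0).toFinset = {X.zero} := by
    ext β
    simp [X.c1_eq_zero]
  rw [h1, Finset.sum_singleton]
  simp [hper]

/-- scaling of the inverse pairing -/
theorem HAx.inv_scale {T : HData X m} (h : HAx T) {s : ℂ} (hs : s ≠ 0) (y : Fin m → ℂ)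
    (k l : Fin N) :
    MvPolynomial.eval (fun i => y i * s) (T.pairH⁻¹ k l) =
      s ^ X.dim * (s ^ X.deg k)⁻¹ * (s ^ X.deg l)⁻¹ * MvPolynomial.eval y (T.pairH⁻¹ k l) := by
  have h1 : ∀ y : Fin m → ℂ, (T.pairH.map (MvPolynomial.eval y))⁻¹ =
      T.pairH⁻¹.map (MvPolynomial.eval y) := fun y => map_inv _ h.pair_nondeg
  have h2 : ∀ y : Fin m → ℂ, IsUnit (T.pairH.map (MvPolynomial.eval y)).det := by
    intro y
    have h3 := h.pair_nondeg.map (MvPolynomial.eval y)
    rw [RingHom.map_det] at h3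
    exact h3
  have h4 : ∀ i j, MvPolynomial.eval (fun i => y i * s) (T.pairH i j) =
      (s ^ X.dim)⁻¹ * s ^ X.deg i * s ^ X.deg j * MvPolynomial.eval y (T.pairH i j) := by
    intro i j
    have h5 := eval_scale (p := T.pairH i j) (α := X.dim) (β := X.deg i + X.deg j)
      (fun d hd => by rw [h.pair_deg i j d hd]; ring) s y
    rw [pow_add] at h5
    have h6 : s ^ X.dim ≠ 0 := pow_ne_zero _ hs
    field_simp
    linear_combination h5
  have h7 : (T.pairH.map (MvPolynomial.eval fun i => y i * s))⁻¹ =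
      Matrix.of fun k l => s ^ X.dim * (s ^ X.deg k)⁻¹ * (s ^ X.deg l)⁻¹ *
        (T.pairH.map (MvPolynomial.eval y))⁻¹ k l := by
    apply Matrix.inv_eq_right_inv
    ext i j
    rw [Matrix.mul_apply]
    have h8 : ∀ e, (T.pairH.map (MvPolynomial.eval fun i => y i * s)) i e *
        (Matrix.of fun k l => s ^ X.dim * (s ^ X.deg k)⁻¹ * (s ^ X.deg l)⁻¹ *
          (T.pairH.map (MvPolynomial.eval y))⁻¹ k l) e j =
        s ^ X.deg i * (s ^ X.deg j)⁻¹ * ((T.pairH.map (MvPolynomial.eval y)) i e *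
          (T.pairH.map (MvPolynomial.eval y))⁻¹ e j) := by
      intro e
      simp only [Matrix.of_apply]
      rw [Matrix.map_apply, h4, Matrix.map_apply]
      have h9 : s ^ X.dim ≠ 0 := pow_ne_zero _ hs
      have h10 : s ^ X.deg e ≠ 0 := pow_ne_zero _ hs
      have h11 : s ^ X.deg j ≠ 0 := pow_ne_zero _ hs
      field_simp
    rw [Finset.sum_congr rfl fun e _ => h8 e, ← Finset.mul_sum, ← Matrix.mul_apply,
      Matrix.mul_nonsing_inv _ (h2 y)]
    rcases eq_or_ne i j with rfl | hij
    · rw [Matrix.one_apply_eq, mul_one, mul_inv_cancel₀ (pow_ne_zero _ hs)]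
    · rw [Matrix.one_apply_ne hij, mul_zero]
  have h12 := congrFun (congrFun h7 k) l
  rw [h1, h1, Matrix.of_apply, Matrix.map_apply, Matrix.map_apply] at h12
  exact h12

/-- scaling of the pieces -/
theorem HAx.piece_scale {T : HData X m} (h : HAx T) (t : Fin N → ℂ)
    {κH : MvPolynomial (Fin m) ℂ} (hκ : ∀ d : Fin m →₀ ℕ, κH.coeff d ≠ 0 → ∑ k, d k = 1)
    {s : ℂ} (hs : s ≠ 0) (y : Fin m → ℂ) (n : ℕ) (k b : Fin N) :
    s⁻¹ * MvPolynomial.eval (fun i => y i * s) (piece T t κH n k b) =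
      (s ^ n)⁻¹ * (s ^ X.deg b * (s ^ X.deg k)⁻¹) *
        MvPolynomial.eval y (piece T t κH n k b) := by
  have hb : s ^ X.deg b ≠ 0 := pow_ne_zero _ hs
  have hk : s ^ X.deg k ≠ 0 := pow_ne_zero _ hs
  have hn : s ^ n ≠ 0 := pow_ne_zero _ hs
  have hD : s ^ X.dim ≠ 0 := pow_ne_zero _ hs
  unfold piece
  rw [Matrix.add_apply, map_add, map_add, mul_add, mul_add]
  congr 1
  · simp only [Matrix.of_apply, map_sum, map_mul, MvPolynomial.algebraMap_eq,
      MvPolynomial.eval_C]
    rw [Finset.mul_sum, Finset.mul_sum]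
    refine Finset.sum_congr rfl fun a _ => ?_
    rcases eq_or_ne (X.chern a) 0 with ha | ha
    · simp [ha]
    have ha1 := X.chern_deg a ha
    rw [Finset.mul_sum, Finset.mul_sum, Finset.mul_sum, Finset.mul_sum]
    refine Finset.sum_congr rfl fun l _ => ?_
    have hl : s ^ X.deg l ≠ 0 := pow_ne_zero _ hs
    rw [Finset.mul_sum, Finset.mul_sum, Finset.mul_sum, Finset.mul_sum, Finset.mul_sum,
      Finset.mul_sum]
    refine Finset.sum_congr rfl fun β hβ => ?_
    have hβ1 : X.c1 β = n := by simpa using hβ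
    have h5 := eval_scale (p := T.invH β {a, b, l}) (α := X.dim + X.c1 β)
      (β := X.deg a + X.deg b + X.deg l) (fun d hd => h.dim3 hd) s y
    rw [hβ1, ha1, pow_add, pow_add, pow_add, pow_one] at h5
    have h6 : MvPolynomial.eval (fun i => y i * s) (T.invH β {a, b, l}) =
        (s ^ X.dim)⁻¹ * (s ^ n)⁻¹ * (s * s ^ X.deg b * s ^ X.deg l) *
          MvPolynomial.eval y (T.invH β {a, b, l}) := by
      field_simp
      linear_combination h5
    rw [h.inv_scale hs, h6]
    field_simp
  · rcases eq_or_ne n 0 with rfl | hn0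
    · simp only [if_true, Matrix.smul_apply, smul_eq_mul, map_mul]
      rcases eq_or_ne k b with rfl | hkb
      · have h5 := eval_scale (p := κH) (α := 0) (β := 1) (fun d hd => by
          rw [hκ d hd]) s y
        rw [pow_zero, one_mul, pow_one] at h5
        rw [Matrix.one_apply_eq, map_one, map_one, h5]
        field_simp
      · rw [Matrix.one_apply_ne hkb, map_zero, map_zero]
        simp
    · simp [hn0]

/-- The decomposition of the quantum multiplication by `c_1`. -/
theorem HAx.gchern_scale {T : HData X m} (h : HAx T) (t : Fin N → ℂ)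
    {κH : MvPolynomial (Fin m) ℂ} (hκ : ∀ d : Fin m →₀ ℕ, κH.coeff d ≠ 0 → ∑ k, d k = 1)
    (y : Fin m → ℂ) (w : ℂ) (k b : Fin N) :
    Complex.exp (-w) * MvPolynomial.eval (fun i => y i * Complex.exp w)
        (gchern T.pairH T.invH t κH k b) =
      ∑ n ∈ Finset.range (KK X + 1), Complex.exp (-(n * w)) *
        Complex.exp (w * (((X.dim : ℂ) / 2 - X.deg k) - ((X.dim : ℂ) / 2 - X.deg b))) *
          MvPolynomial.eval y (piece T t κH n k b) := by
  rw [h.gchern_sum, Matrix.sum_apply, map_sum, Finset.mul_sum]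
  refine Finset.sum_congr rfl fun n _ => ?_
  have h1 := h.piece_scale t hκ (Complex.exp_ne_zero w) y n k b
  rw [← Complex.exp_neg, ← Complex.exp_nat_mul, ← Complex.exp_nat_mul, ← Complex.exp_nat_mul,
    ← Complex.exp_neg, ← Complex.exp_neg, ← Complex.exp_add] at h1
  rw [h1]
  congr 3
  ring

end

end Pool.Agent.DSTJ.Spec
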