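import Pool.Agent.DSTJ.Seq

/-!
# DSTJ-PolA: holomorphic functions on a punctured disc, passage to the limit

PLAN. `pol_bound`: maximum modulus (`Complex.norm_le_of_forall_mem_frontier_norm_le` on `ball 0 ε'`, `F` is
`DiffContOnCl` there because it is differentiable on the larger ball). `pol_pred`: `dslope F 0`
(`DifferentiableOn.dslope...` / `Complex.differentiableOn_dslope`), `F σ / σ`. `so_tendsto`:
`tendsto_tsum_of_dominated_convergence` with the bound `B (‖exp (-w)‖ / ρ)^n`, `ρ = 2 ‖exp (-w)‖`.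
-/

set_option autoImplicit false

open scoped BigOperators Topology
open Filter

namespace Pool.Agent.DSTJ

variable {N : ℕ}

theorem pol_bound {ε ε' B : ℝ} (h0 : 0 < ε') (h1 : ε' < ε) {k : ℕ} {F f : ℂ → ℂ}
    (hF : DifferentiableOn ℂ F (Metric.ball 0 ε))
    (hFf : ∀ σ ∈ Metric.ball (0 : ℂ) ε, σ ≠ 0 → F σ = σ ^ k * f σ)
    (hB : ∀ σ : ℂ, ‖σ‖ = ε' → ‖f σ‖ ≤ B) (σ : ℂ) (hσ : ‖σ‖ ≤ ε') : ‖F σ‖ ≤ ε' ^ k * B := by
  have hd : DiffContOnCl ℂ F (Metric.ball 0 ε') := by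
    apply DifferentiableOn.diffContOnCl
    rw [closure_ball _ h0.ne']
    exact hF.mono (Metric.closedBall_subset_ball h1)
  apply Complex.norm_le_of_forall_mem_frontier_norm_le Metric.isBounded_ball hd
  · intro z hz
    rw [frontier_ball _ h0.ne', mem_sphere_zero_iff_norm] at hz
    have hz0 : z ≠ 0 := by
      intro h
      rw [h, norm_zero] at hz
      exact h0.ne hz
    rw [hFf z (by rw [mem_ball_zero_iff, hz]; exact h1) hz0, norm_mul, norm_pow, hz]
    exact mul_le_mul_of_nonneg_left (hB z hz) (by positivity)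
  · rw [closure_ball _ h0.ne', mem_closedBall_zero_iff]
    exact hσ

/-- if the value of `σ^(k+1) f` at `0` vanishes, then the pole order is at most `k` -/
theorem pol_pred {ε : ℝ} (hε : 0 < ε) {k : ℕ} {F f : ℂ → ℂ}
    (hF : DifferentiableOn ℂ F (Metric.ball 0 ε))
    (hFf : ∀ σ ∈ Metric.ball (0 : ℂ) ε, σ ≠ 0 → F σ = σ ^ (k + 1) * f σ) (h0 : F 0 = 0) :
    Pol ε k f := by
  refine ⟨dslope F 0, (Complex.differentiableOn_dslope (Metric.ball_mem_nhds 0 hε)).2 hF, ?_⟩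
  intro σ hσ hσ0
  rw [dslope_of_ne _ hσ0, slope_def_field, hFf σ hσ hσ0, h0]
  field_simp
  ring

theorem so_tendsto {θ : Fin N → ℂ} {F : ℕ → ℂ → Fin N → ℂ} {e : ℂ → ℂ}
    (hF : ∀ n i, ContinuousAt (fun σ => F n σ i) 0) (he : ContinuousAt e 0) {ε' : ℝ} (hε : 0 < ε')
    (hB : ∀ ρ : ℝ, 0 < ρ → ∃ B : ℝ, ∀ n i (σ : ℂ), ‖σ‖ ≤ ε' → ‖F n σ i‖ * ρ ^ n ≤ B) (w : ℂ) :
    Tendsto (fun σ => so θ (fun n => F n σ) (e σ) w) (𝓝 0) (𝓝 (so θ (fun n => F n 0) (e 0) w)) := by
  rw [tendsto_pi_nhds]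
  intro i
  unfold so
  refine Tendsto.mul (Tendsto.mul tendsto_const_nhds ?_) ?_
  · unfold sm
    set x := Complex.exp (-w) with hx
    have hx0 : 0 < ‖x‖ := norm_pos_iff.2 (Complex.exp_ne_zero _)
    obtain ⟨B, hB⟩ := hB (2 * ‖x‖) (by positivity)
    refine tendsto_tsum_of_dominated_convergence (bound := fun n => B * (1 / 2 : ℝ) ^ n)
      ((summable_geometric_two).mul_left B) ?_ ?_
    · intro n
      exact Tendsto.mul tendsto_const_nhds (hF n i)
    · filter_upwards [Metric.closedBall_mem_nhds (0 : ℂ) hε] with σ hσ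
      intro n
      rw [mem_closedBall_zero_iff] at hσ
      have h := hB n i σ hσ
      rw [norm_mul, norm_pow]
      have e1 : ‖x‖ ^ n * ‖F n σ i‖ = ‖F n σ i‖ * (2 * ‖x‖) ^ n * (1 / 2 : ℝ) ^ n := by
        rw [mul_assoc, ← mul_pow]
        have : 2 * ‖x‖ * (1 / 2) = ‖x‖ := by ring
        rw [this]
        ring
      rw [e1]
      exact mul_le_mul_of_nonneg_right h (by positivity)
  · exact (Complex.continuous_exp.tendsto _).comp (Tendsto.mul tendsto_const_nhds he)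

end Pool.Agent.DSTJ
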