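import Pool.Agent.DST.BulkDefs
import Pool.Agent.DSTJ.HDefs

/-!
# DSTJ-SpecA: Gromov–Witten potentials over a general coefficient ring and specialisation

`A` is a commutative `ℂ`-algebra, for instance `ℂ[λ_1, …, λ_m]`; `pr` and `inv` are the pairing and
the Gromov–Witten numbers with values in `A`.
-/

set_option autoImplicit false

open scoped BigOperators Topology
open Filter

namespace Pool.Agent.DSTJ.Spec

open Pool.Agent.Helper18.Dub Pool.Agent.SHF Pool.Agent.DST

section general

variable {N : ℕ} {X : FanoGW (Fin N)} {A B : Type} [CommRing A] [Algebra ℂ A] [CommRing B]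
  [Algebra ℂ B]

/-- the inverse matrix and ring homomorphisms -/
theorem map_inv {n : Type*} [Fintype n] [DecidableEq n] {R S : Type*} [CommRing R] [CommRing S]
    (f : R →+* S) {M : Matrix n n R} (hM : IsUnit M.det) : (M.map f)⁻¹ = M⁻¹.map f := by
  apply Matrix.inv_eq_right_inv
  rw [← Matrix.map_mul, Matrix.mul_nonsing_inv _ hM]
  exact Matrix.map_one f (map_zero f) (map_one f)

theorem gcorr_map (f : A →ₐ[ℂ] B) (inv : X.Curve → Multiset (Fin N) → A) (t : Fin N → ℂ)
    (s : Multiset (Fin N)) (hfin : {β | inv β s ≠ 0}.Finite) :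
    f (gcorr inv t s) = gcorr (fun β s => f (inv β s)) t s := by
  unfold gcorr
  have h1 : (Function.support fun β =>
      algebraMap ℂ A (Complex.exp (∑ i, t i * X.period β i)) * inv β s).Finite := by
    refine hfin.subset fun β hβ => ?_
    simp only [Function.mem_support] at hβ
    exact right_ne_zero_of_mul hβ
  have h2 := (f : A →+ B).map_finsum h1
  refine h2.trans (finsum_congr fun β => ?_)
  simp

theorem gser_map (f : A →ₐ[ℂ] B) (inv : X.Curve → Multiset (Fin N) → A) (t : Fin N → ℂ)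
    (hfin : ∀ s, {β | inv β s ≠ 0}.Finite) (s : Multiset (Fin N)) :
    MvPowerSeries.map (f : A →+* B) (gser inv t s) = gser (fun β s => f (inv β s)) t s := by
  ext m
  rw [MvPowerSeries.coeff_map]
  have h1 : MvPowerSeries.coeff m (gser inv t s) = algebraMap ℂ A (∏ i, ((m i).factorial : ℂ))⁻¹ *
    gcorr inv t (s + Finsupp.toMultiset m) := rfl
  have h2 : MvPowerSeries.coeff m (gser (fun β s => f (inv β s)) t s) =
    algebraMap ℂ B (∏ i, ((m i).factorial : ℂ))⁻¹ *
      gcorr (fun β s => f (inv β s)) t (s + Finsupp.toMultiset m) := rfl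
  rw [h1, h2, ← gcorr_map f inv t _ (hfin _)]
  simp

theorem wdvv_map (f : A →ₐ[ℂ] B) {pr : Matrix (Fin N) (Fin N) A}
    {inv : X.Curve → Multiset (Fin N) → A} (hpr : IsUnit pr.det)
    (hfin : ∀ s, {β | inv β s ≠ 0}.Finite) {t : Fin N → ℂ} (h : GWdvv pr inv t) :
    GWdvv (pr.map f) (fun β s => f (inv β s)) t := by
  intro a b c d
  have h1 := congrArg (MvPowerSeries.map (f : A →+* B)) (h a b c d)
  have h2 : (pr.map f)⁻¹ = pr⁻¹.map f := map_inv (f : A →+* B) hpr
  simp only [map_sum, map_mul, gser_map f inv t hfin, MvPowerSeries.map_C] at h1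
  rw [h2]
  exact h1

end general

section one

variable {N : ℕ} {X : FanoGW (Fin N)} (T : EquivData X)

theorem gcorr_eq (t : Fin N → ℂ) (s : Multiset (Fin N)) : gcorr T.invT t s = corrAt T t s := rfl

theorem gser_eq (t : Fin N → ℂ) (s : Multiset (Fin N)) : gser T.invT t s = serAt T t s := rfl

theorem gser_zero (s : Multiset (Fin N)) : gser T.invT 0 s = T.serT s := by
  funext m
  have h1 : gcorr T.invT 0 (s + Finsupp.toMultiset m) = T.corrT (s + Finsupp.toMultiset m) := by
    unfold gcorr EquivData.corrT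
    refine finsum_congr fun β => ?_
    simp
  show Polynomial.C (∏ i, ((m i).factorial : ℂ))⁻¹ * gcorr T.invT 0 (s + Finsupp.toMultiset m) = _
  rw [h1]
  rfl

end one

section special

variable {m : ℕ} (ξ : Fin m → ℤ)

/-- The restriction `λ_k ↦ ξ_k λ` to the cocharacter `ξ`. -/
noncomputable def sp : MvPolynomial (Fin m) ℂ →ₐ[ℂ] Polynomial ℂ :=
  MvPolynomial.aeval fun k => Polynomial.C (ξ k : ℂ) * Polynomial.X

theorem eval_sp (p : MvPolynomial (Fin m) ℂ) (l : ℂ) :
    (sp ξ p).eval l = MvPolynomial.eval (fun k => (ξ k : ℂ) * l) p := by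
  have h1 : ((Polynomial.aeval l).comp (sp ξ) : MvPolynomial (Fin m) ℂ →ₐ[ℂ] ℂ) =
      MvPolynomial.aeval fun k => (ξ k : ℂ) * l := by
    apply MvPolynomial.algHom_ext
    intro k
    simp [sp]
  have h2 := DFunLike.congr_fun h1 p
  rw [AlgHom.comp_apply, Polynomial.coe_aeval_eq_eval, MvPolynomial.aeval_eq_eval] at h2
  exact h2

theorem sp_monomial (d : Fin m →₀ ℕ) (c : ℂ) :
    sp ξ (MvPolynomial.monomial d c) =
      Polynomial.C (c * ∏ k, (ξ k : ℂ) ^ d k) * Polynomial.X ^ (∑ k, d k) := by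
  unfold sp
  rw [MvPolynomial.aeval_monomial, Finsupp.prod_fintype _ _ (fun k => pow_zero _)]
  simp only [mul_pow, Finset.prod_mul_distrib, Finset.prod_pow_eq_pow_sum, ← Polynomial.C_pow,
    ← map_prod, Polynomial.algebraMap_eq]
  rw [← mul_assoc, ← Polynomial.C_mul]

/-- a nonzero coefficient comes from a monomial of the same degree -/
theorem coeff_sp {p : MvPolynomial (Fin m) ℂ} {n : ℕ} (h : (sp ξ p).coeff n ≠ 0) :
    ∃ d : Fin m →₀ ℕ, p.coeff d ≠ 0 ∧ ∑ k, d k = n := by
  by_contra hcon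
  push Not at hcon
  apply h
  rw [p.as_sum, map_sum, Polynomial.finsetSum_coeff]
  refine Finset.sum_eq_zero fun d hd => ?_
  rw [sp_monomial, Polynomial.coeff_C_mul, Polynomial.coeff_X_pow, if_neg, mul_zero]
  exact fun h2 => hcon d (MvPolynomial.mem_support_iff.1 hd) h2.symm

end special

end Pool.Agent.DSTJ.Spec
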