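import Pool.Agent.DSTJ.SpecA

/-!
# DSTJ-SpecB: the theory equivariant for a torus and its restriction to a cocharacter
-/

set_option autoImplicit false

open scoped BigOperators Topology
open Filter

namespace Pool.Agent.DSTJ.Spec

open Pool.Agent.Helper18.Dub Pool.Agent.SHF Pool.Agent.DST

section general

variable {N : ℕ} {X : FanoGW (Fin N)} {A B : Type} [CommRing A] [Algebra ℂ A] [CommRing B]
  [Algebra ℂ B]

theorem gchern_map (f : A →ₐ[ℂ] B) {pr : Matrix (Fin N) (Fin N) A}
    {inv : X.Curve → Multiset (Fin N) → A} (hpr : IsUnit pr.det)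
    (hfin : ∀ s, {β | inv β s ≠ 0}.Finite) (t : Fin N → ℂ) (κ : A) :
    (gchern pr inv t κ).map f = gchern (pr.map f) (fun β s => f (inv β s)) t (f κ) := by
  have h2 : (pr.map f)⁻¹ = pr⁻¹.map f := map_inv (f : A →+* B) hpr
  ext i j
  unfold gchern
  rw [h2]
  simp only [Matrix.map_apply, Matrix.add_apply, Matrix.of_apply, Matrix.smul_apply, smul_eq_mul,
    map_add, map_sum, map_mul, AlgHom.commutes, gcorr_map f inv t _ (hfin _)]
  congr 2
  by_cases h : i = j
  · subst h; simp
  · simp [Matrix.one_apply_ne h]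

theorem gcup_map (f : A →ₐ[ℂ] B) {pr : Matrix (Fin N) (Fin N) A}
    {inv : X.Curve → Multiset (Fin N) → A} (hpr : IsUnit pr.det) (a : Fin N) :
    (gcup pr inv a).map f = gcup (pr.map f) (fun β s => f (inv β s)) a := by
  have h2 : (pr.map f)⁻¹ = pr⁻¹.map f := map_inv (f : A →+* B) hpr
  ext i j
  unfold gcup
  rw [h2]
  simp only [Matrix.map_apply, Matrix.of_apply, map_sum, map_mul]

theorem gcupChern_map (f : A →ₐ[ℂ] B) {pr : Matrix (Fin N) (Fin N) A}
    {inv : X.Curve → Multiset (Fin N) → A} (hpr : IsUnit pr.det) (κ : A) :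
    (gcupChern pr inv κ).map f = gcupChern (pr.map f) (fun β s => f (inv β s)) (f κ) := by
  unfold gcupChern
  ext i j
  have h3 : ∀ a, f (gcup pr inv a i j) = gcup (pr.map f) (fun β s => f (inv β s)) a i j := by
    intro a
    rw [← gcup_map f hpr a]
    rfl
  simp only [Matrix.map_apply, Matrix.add_apply, Matrix.sum_apply, Matrix.smul_apply, smul_eq_mul,
    map_add, map_sum, map_mul, AlgHom.commutes, h3]
  congr 2
  by_cases h : i = j
  · subst h; simp
  · simp [Matrix.one_apply_ne h]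

end general

section one

variable {N : ℕ} {X : FanoGW (Fin N)} (T : EquivData X)

theorem gchern_eq (t : Fin N → ℂ) (κ : ℂ) :
    gchern T.pairT T.invT t (Polynomial.C κ * Polynomial.X) = chernT T t κ := rfl

theorem gcup_eq (a : Fin N) : gcup T.pairT T.invT a = T.cupMatT a := rfl

theorem gcupChern_eq (κ : ℂ) :
    gcupChern T.pairT T.invT (Polynomial.C κ * Polynomial.X) = cupChernT T κ := rfl

end one

namespace HAx

variable {N : ℕ} {X : FanoGW (Fin N)} {m : ℕ} {T : HData X m} (h : HAx T) (ξ : Fin m → ℤ)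
include h

theorem finite_support (s : Multiset (Fin N)) : {β | T.invH β s ≠ 0}.Finite := by
  have h1 : (⋃ n ∈ Finset.range ((s.map X.deg).sum + 4), {β | X.c1 β = n}).Finite :=
    Set.Finite.biUnion (Finset.finite_toSet _) fun n _ => X.c1_finite n
  refine h1.subset fun β hβ => ?_
  obtain ⟨d, hd⟩ := MvPolynomial.ne_zero_iff.1 hβ
  have h2 := h.dimension β s d hd
  simp only [Set.mem_iUnion]
  exact ⟨X.c1 β, Finset.mem_range.2 (by omega), rfl⟩

end HAx

/-- The restriction of the numbers to the cocharacter `ξ`. -/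
noncomputable def HData.toEquivData {N : ℕ} {X : FanoGW (Fin N)} {m : ℕ} (T : HData X m)
    (ξ : Fin m → ℤ) : EquivData X where
  pairT := T.pairH.map (sp ξ)
  invT := fun β s => sp ξ (T.invH β s)

namespace HAx

variable {N : ℕ} {X : FanoGW (Fin N)} {m : ℕ} {T : HData X m}

theorem eval_zero_sp (ξ : Fin m → ℤ) (p : MvPolynomial (Fin m) ℂ) :
    (sp ξ p).eval 0 = MvPolynomial.eval 0 p := by
  rw [eval_sp]
  congr 2
  funext k
  simp

/-- the theory equivariant for `ξ` -/
noncomputable def toEquivGW (h : HAx T) (ξ : Fin m → ℤ) : EquivGW X where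
  toEquivData := T.toEquivData ξ
  pair_zero := fun i j => by
    rw [← h.pair_zero]
    exact eval_zero_sp ξ _
  inv_zero := fun β s => by
    rw [← h.inv_zero]
    exact eval_zero_sp ξ _
  pair_symm := fun i j => by
    show sp ξ (T.pairH i j) = sp ξ (T.pairH j i)
    rw [h.pair_symm]
  pair_nondeg := by
    show IsUnit (T.pairH.map (sp ξ)).det
    have h1 : (T.pairH.map (sp ξ)).det = sp ξ T.pairH.det := by
      have := (sp ξ : MvPolynomial (Fin m) ℂ →+* Polynomial ℂ).map_det T.pairH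
      rw [RingHom.mapMatrix_apply] at this
      exact this.symm
    rw [h1]
    exact h.pair_nondeg.map (sp ξ)
  pair_deg := fun i j n hn => by
    obtain ⟨d, hd, hdn⟩ := coeff_sp ξ hn
    rw [← hdn]
    exact h.pair_deg i j d hd
  dimension := fun β s n hn => by
    obtain ⟨d, hd, hdn⟩ := coeff_sp ξ hn
    rw [← hdn]
    exact h.dimension β s d hd
  unit_zero := fun i j => by
    show sp ξ (T.invH X.zero {X.one, i, j}) = sp ξ (T.pairH i j)
    rw [h.unit_zero]
  unit_ne := fun β i j hβ => by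
    show sp ξ (T.invH β {X.one, i, j}) = 0
    rw [h.unit_ne β i j hβ, map_zero]
  unit_many := fun β s hs => by
    show sp ξ (T.invH β (X.one ::ₘ s)) = 0
    rw [h.unit_many β s hs, map_zero]
  wdvv := fun a b c d => by
    have h1 := wdvv_map (sp ξ) h.pair_nondeg h.finite_support (h.wdvv 0 (by simp)) a b c d
    have h2 : ∀ s, gser (fun β s => sp ξ (T.invH β s)) 0 s = (T.toEquivData ξ).serT s :=
      gser_zero (T.toEquivData ξ)
    simp only [h2] at h1
    exact h1

theorem divisorT (h : HAx T) (ξ : Fin m → ℤ) (β : X.Curve) (s : Multiset (Fin N)) (i : Fin N)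
    (hβ : β ≠ X.zero) (hs : 3 ≤ Multiset.card s) (hi : X.deg i = 1) :
    (h.toEquivGW ξ).invT β (i ::ₘ s) =
      Polynomial.C (X.period β i) * (h.toEquivGW ξ).invT β s := by
  show sp ξ (T.invH β (i ::ₘ s)) = Polynomial.C (X.period β i) * sp ξ (T.invH β s)
  rw [h.divisor β s i hβ hs hi, map_mul]
  congr 1
  exact (sp ξ).commutes _

theorem degree_zeroT (h : HAx T) (ξ : Fin m → ℤ) (s : Multiset (Fin N))
    (hs : 4 ≤ Multiset.card s) : (h.toEquivGW ξ).invT X.zero s = 0 := by
  show sp ξ (T.invH X.zero s) = 0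
  rw [h.degree_zero s hs, map_zero]

theorem wdvvAt (h : HAx T) (ξ : Fin m → ℤ) (t' : Fin N → ℂ) (ht : ∀ i, t' i ≠ 0 → X.deg i = 1)
    (a b c d : Fin N) :
    ∑ e, ∑ f, MvPowerSeries.C ((h.toEquivGW ξ).pairT⁻¹ e f) *
        serAt (h.toEquivGW ξ).toEquivData t' {a, b, e} *
        serAt (h.toEquivGW ξ).toEquivData t' {f, c, d} =
      ∑ e, ∑ f, MvPowerSeries.C ((h.toEquivGW ξ).pairT⁻¹ e f) *
        serAt (h.toEquivGW ξ).toEquivData t' {b, c, e} *
        serAt (h.toEquivGW ξ).toEquivData t' {f, a, d} :=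
  wdvv_map (sp ξ) h.pair_nondeg h.finite_support (h.wdvv t' ht) a b c d

/-- quantum multiplication by `c_1` restricted to `ξ` -/
theorem chernT_eq (h : HAx T) (ξ : Fin m → ℤ) (t : Fin N → ℂ) {κH : MvPolynomial (Fin m) ℂ}
    {κ : ℂ} (hκ : sp ξ κH = Polynomial.C κ * Polynomial.X) :
    chernT (h.toEquivGW ξ).toEquivData t κ = (gchern T.pairH T.invH t κH).map (sp ξ) := by
  rw [gchern_map (sp ξ) h.pair_nondeg h.finite_support, hκ]
  rfl

theorem cupMatT_eq (h : HAx T) (ξ : Fin m → ℤ) (a : Fin N) :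
    (h.toEquivGW ξ).cupMatT a = (gcup T.pairH T.invH a).map (sp ξ) := by
  rw [gcup_map (sp ξ) h.pair_nondeg]
  rfl

theorem cupChernT_eq (h : HAx T) (ξ : Fin m → ℤ) {κH : MvPolynomial (Fin m) ℂ}
    {κ : ℂ} (hκ : sp ξ κH = Polynomial.C κ * Polynomial.X) :
    cupChernT (h.toEquivGW ξ).toEquivData κ = (gcupChern T.pairH T.invH κH).map (sp ξ) := by
  rw [gcupChern_map (sp ξ) h.pair_nondeg, hκ]
  rfl

/-- restriction homomorphisms restrict to restriction homomorphisms -/
theorem isRestriction (h : HAx T) (ξ : Fin m → ℤ) {r : Fin N → MvPolynomial (Fin m) ℂ}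
    (h1 : r X.one = 1) (hmul : ∀ a b, r a * r b = ∑ k, gcup T.pairH T.invH a k b * r k) :
    (h.toEquivGW ξ).toEquivData.IsRestriction fun a => sp ξ (r a) where
  one := by
    show sp ξ (r X.one) = 1
    rw [h1, map_one]
  mul := fun a b => by
    rw [← map_mul, hmul, map_sum]
    refine Finset.sum_congr rfl fun k _ => ?_
    rw [map_mul]
    congr 1
    have h2 := congrFun (congrFun (h.cupMatT_eq ξ a) k) b
    exact h2.symm

end HAx

end Pool.Agent.DSTJ.Spec
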