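import Pool.Agent.DSTJ.SpecB
import Pool.Agent.DSTJ.Data

/-!
# DSTJ-SpecC: fixed points: restriction homomorphisms, localisation, first Chern class
-/

set_option autoImplicit false

open scoped BigOperators Topology
open Filter

namespace Pool.Agent.DSTJ.Spec

open Pool.Agent.Helper18.Dub Pool.Agent.SHF Pool.Agent.DST Pool.Agent.DST.TE

theorem eval_lin {m : ℕ} (v : Fin m → ℂ) (y : Fin m → ℂ) :
    MvPolynomial.eval y (lin v) = ∑ i, v i * y i := by
  simp [lin]

theorem sp_lin {m : ℕ} (ξ : Fin m → ℤ) (v : Fin m → ℂ) :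
    sp ξ (lin v) = Polynomial.C (∑ i, v i * (ξ i : ℂ)) * Polynomial.X := by
  simp only [lin, map_sum, map_mul, sp, MvPolynomial.aeval_C, MvPolynomial.aeval_X,
    Polynomial.algebraMap_eq, Finset.sum_mul]
  exact Finset.sum_congr rfl fun i _ => by ring

theorem sp_homog {m : ℕ} (ξ : Fin m → ℤ) {p : MvPolynomial (Fin m) ℂ} {n : ℕ}
    (hp : ∀ d : Fin m →₀ ℕ, p.coeff d ≠ 0 → ∑ k, d k = n) :
    sp ξ p = Polynomial.C (MvPolynomial.eval (fun k => (ξ k : ℂ)) p) * Polynomial.X ^ n := by
  conv_lhs => rw [p.as_sum]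
  conv_rhs => rw [p.as_sum]
  rw [map_sum, map_sum, map_sum, Finset.sum_mul]
  refine Finset.sum_congr rfl fun d hd => ?_
  rw [sp_monomial, hp d (MvPolynomial.mem_support_iff.1 hd), MvPolynomial.eval_monomial,
    Finsupp.prod_fintype _ _ (fun k => pow_zero _)]

section fixed

variable {N : ℕ} {X : FanoGW (Fin N)} {m : ℕ} {T : HData X m}

namespace HFix

variable {r : Fin N → Fin N → MvPolynomial (Fin m) ℂ} {w : Fin N → Fin X.dim → Fin m → ℤ}
  {κ : Fin m → ℂ}

theorem R_comm (hf : HFix T r w κ) (y : Fin m → ℂ) :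
    Rm r y * (gcupChern T.pairH T.invH (lin κ)).map (MvPolynomial.eval y) =
      Matrix.diagonal (fun p => pr (fun i => ∑ k, w p k i) y) * Rm r y := by
  ext p b
  rw [Matrix.diagonal_mul, Matrix.mul_apply]
  have h1 : ∑ k, r p k * gcupChern T.pairH T.invH (lin κ) k b =
      (lin fun i => ∑ k, (w p k i : ℂ)) * r p b := by
    rw [← hf.chern_res p, add_mul, Finset.sum_mul]
    simp only [gcupChern, Matrix.add_apply, Matrix.sum_apply, Matrix.smul_apply, smul_eq_mul,
      mul_add, Finset.sum_add_distrib, Finset.mul_sum]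
    congr 1
    · rw [Finset.sum_comm]
      refine Finset.sum_congr rfl fun a _ => ?_
      rw [mul_assoc, hf.mul, Finset.mul_sum]
      refine Finset.sum_congr rfl fun k _ => ?_
      rw [MvPolynomial.algebraMap_eq]
      ring
    · rw [Finset.sum_eq_single b]
      · rw [Matrix.one_apply_eq]
        ring
      · intro k _ hk
        rw [Matrix.one_apply_ne hk]
        ring
      · exact fun hb => absurd (Finset.mem_univ b) hb
  have h2 := congrArg (MvPolynomial.eval y) h1
  rw [map_sum, map_mul, eval_lin] at h2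
  simp only [map_mul] at h2
  have h3 : ∑ i, (∑ k, (w p k i : ℂ)) * y i = pr (fun i => ∑ k, w p k i) y := by
    unfold pr
    refine Finset.sum_congr rfl fun i _ => ?_
    push_cast
    rfl
  rw [h3] at h2
  exact h2

theorem R_det (hf : HFix T r w κ) (h : HAx T) (y : Fin m → ℂ) (hy : ∀ p k, pr (w p k) y ≠ 0) :
    (Rm r y).det ≠ 0 := by
  intro h0
  have h1 : T.pairH.map (MvPolynomial.eval y) =
      (Rm r y).transpose * (Matrix.diagonal (fun p => (∏ k, pr (w p k) y)⁻¹) * Rm r y) := by
    ext a b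
    rw [Matrix.map_apply, hf.localization y hy, Matrix.mul_apply]
    refine Finset.sum_congr rfl fun p _ => ?_
    rw [Matrix.transpose_apply, Matrix.diagonal_mul]
    simp only [Rm, Matrix.of_apply]
    rw [div_eq_mul_inv]
    ring
  have h2 : (T.pairH.map (MvPolynomial.eval y)).det = MvPolynomial.eval y T.pairH.det := by
    have := (MvPolynomial.eval y).map_det T.pairH
    rw [RingHom.mapMatrix_apply] at this
    exact this.symm
  have h3 : IsUnit (MvPolynomial.eval y T.pairH.det) := h.pair_nondeg.map _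
  rw [← h2, h1, Matrix.det_mul, Matrix.det_transpose, h0, zero_mul] at h3
  exact not_isUnit_zero h3

theorem R_hol (r : Fin N → Fin N → MvPolynomial (Fin m) ℂ) (i j : Fin N) :
    Differentiable ℂ fun y => Rm r y i j := by
  simp only [Rm, Matrix.of_apply]
  generalize r i j = p
  induction p using MvPolynomial.induction_on with
  | C a => simp
  | add p q hp hq =>
    simp only [map_add]
    exact hp.add hq
  | mul_X p k hp =>
    simp only [map_mul, MvPolynomial.eval_X]
    exact hp.mul (differentiable_apply k)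

/-! ### restriction to `ξ` -/

/-- the value of an integral form at `ξ` -/
theorem pr_xi (a ξ : Fin m → ℤ) :
    pr a (fun k => (ξ k : ℂ)) = ((∑ i, a i * ξ i : ℤ) : ℂ) := pr_cc a ξ

theorem sp_r (hf : HFix T r w κ) (ξ : Fin m → ℤ) (p a : Fin N) :
    sp ξ (r p a) = Polynomial.C (MvPolynomial.eval (fun k => (ξ k : ℂ)) (r p a)) *
      Polynomial.X ^ X.deg a := sp_homog ξ (hf.homog p a)

theorem restr (hf : HFix T r w κ) (h : HAx T) (ξ : Fin m → ℤ) (p : Fin N) :
    (h.toEquivGW ξ).toEquivData.IsRestriction fun a =>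
      Polynomial.C (MvPolynomial.eval (fun k => (ξ k : ℂ)) (r p a)) * Polynomial.X ^ X.deg a := by
  have h1 := h.isRestriction ξ (hf.one p) (hf.mul p)
  have h2 : (fun a => sp ξ (r p a)) = fun a =>
      Polynomial.C (MvPolynomial.eval (fun k => (ξ k : ℂ)) (r p a)) * Polynomial.X ^ X.deg a := by
    funext a
    exact hf.sp_r ξ p a
  rwa [h2] at h1

theorem loc_one (hf : HFix T r w κ) (h : HAx T) (ξ : Fin m → ℤ)
    (hξ : ∀ p k, ∑ i, w p k i * ξ i ≠ 0) (a b : Fin N) :
    ((h.toEquivGW ξ).pairT a b).eval 1 =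
      ∑ p, MvPolynomial.eval (fun k => (ξ k : ℂ)) (r p a) *
        MvPolynomial.eval (fun k => (ξ k : ℂ)) (r p b) /
          ∏ k, ((∑ i, w p k i * ξ i : ℤ) : ℂ) := by
  have h1 : ((h.toEquivGW ξ).pairT a b).eval 1 =
      MvPolynomial.eval (fun k => (ξ k : ℂ)) (T.pairH a b) := by
    show (sp ξ (T.pairH a b)).eval 1 = _
    rw [eval_sp]
    simp only [mul_one]
  have h2 := hf.localization (fun k => (ξ k : ℂ)) (fun p k => by
    rw [pr_xi]
    exact_mod_cast hξ p k) a b
  rw [h1, h2]
  refine Finset.sum_congr rfl fun p _ => ?_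
  congr 1
  exact Finset.prod_congr rfl fun k _ => pr_xi _ _

theorem chern_one (hf : HFix T r w κ) (ξ : Fin m → ℤ) (p : Fin N) :
    ∑ a, X.chern a * MvPolynomial.eval (fun k => (ξ k : ℂ)) (r p a) + ∑ i, κ i * (ξ i : ℂ) =
      ∑ k, ((∑ i, w p k i * ξ i : ℤ) : ℂ) := by
  have h1 := congrArg (MvPolynomial.eval fun k => (ξ k : ℂ)) (hf.chern_res p)
  rw [map_add, map_sum, eval_lin, eval_lin] at h1
  simp only [map_mul, MvPolynomial.eval_C] at h1
  rw [h1]
  push_cast
  rw [Finset.sum_comm]
  refine Finset.sum_congr rfl fun i _ => ?_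
  rw [Finset.sum_mul]

end HFix

end fixed

end Pool.Agent.DSTJ.Spec
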