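import Pool.Agent.DSTJ.SpecC
import Pool.Agent.DST.Gamma

/-!
# DSTJ-SpecD: the representation ring of `H`, equivariant `K`-theory and the `Γ`-class
-/

set_option autoImplicit false

open scoped BigOperators Topology
open Filter

namespace Pool.Agent.DSTJ.Spec

open Pool.Agent.Helper18.Dub Pool.Agent.SHF Pool.Agent.DST Pool.Agent.DST.TE

section ev

variable {m : ℕ}

theorem evK_single (y : Fin m → ℂ) (μ : Fin m → ℤ) (n : ℤ) :
    evK y (AddMonoidAlgebra.single μ n) =
      (n : ℂ) * Complex.exp (2 * Real.pi * Complex.I * pr μ y) := by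
  have h := AddMonoidAlgebra.lift_single (R := ℤ) (A := ℂ) (M := Fin m → ℤ) (chrHom y) μ n
  show (AddMonoidAlgebra.lift ℤ ℂ (Fin m → ℤ) (chrHom y)) (AddMonoidAlgebra.single μ n) = _
  rw [h, zsmul_eq_mul]
  rfl

/-- the pairing with a cocharacter -/
def prHom (ξ : Fin m → ℤ) : (Fin m → ℤ) →+ ℤ where
  toFun μ := ∑ i, μ i * ξ i
  map_zero' := by simp
  map_add' a b := by simp [add_mul, Finset.sum_add_distrib]

/-- The restriction to the subgroup given by the cocharacter `ξ`. -/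
noncomputable def resK (ξ : Fin m → ℤ) : RH m →+* LaurentPolynomial ℤ :=
  AddMonoidAlgebra.mapDomainRingHom ℤ (prHom ξ)

theorem resK_single (ξ μ : Fin m → ℤ) (n : ℤ) :
    resK ξ (AddMonoidAlgebra.single μ n) =
      LaurentPolynomial.C n * LaurentPolynomial.T (∑ i, μ i * ξ i) := by
  have h : resK ξ (AddMonoidAlgebra.single μ n) =
      AddMonoidAlgebra.single (∑ i, μ i * ξ i) n := by
    show AddMonoidAlgebra.mapDomain _ _ = _
    rw [AddMonoidAlgebra.mapDomain_single]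
    rfl
  rw [h, LaurentPolynomial.single_eq_C_mul_T]

theorem resK_chr (ξ μ : Fin m → ℤ) :
    resK ξ (chr μ) = LaurentPolynomial.T (∑ i, μ i * ξ i) := by
  rw [chr, resK_single, map_one, one_mul]

theorem evZ_CT (y : ℂ) (n k : ℤ) :
    evZ y (LaurentPolynomial.C n * LaurentPolynomial.T k) =
      (n : ℂ) * Complex.exp (2 * Real.pi * Complex.I * (k * y)) := by
  rw [map_mul, evZ, LaurentPolynomial.eval₂_C, LaurentPolynomial.eval₂_T]
  congr 1
  rw [Units.val_zpow_eq_zpow_val]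
  show (Complex.exp (2 * Real.pi * Complex.I * y)) ^ k = _
  rw [← Complex.exp_int_mul]
  congr 1
  ring

theorem pr_ln0 (a ξ : Fin m → ℤ) (y : ℂ) :
    pr a (fun l => y * (ξ l : ℂ)) = ((∑ i, a i * ξ i : ℤ) : ℂ) * y := by
  unfold pr
  push_cast
  rw [Finset.sum_mul]
  exact Finset.sum_congr rfl fun i _ => by ring

theorem evZ_resK (ξ : Fin m → ℤ) (y : ℂ) (f : RH m) :
    evZ y (resK ξ f) = evK (fun k => y * (ξ k : ℂ)) f := by
  have h : (evZ y).comp (resK ξ) = evK (fun k => y * (ξ k : ℂ)) := by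
    refine AddMonoidAlgebra.ringHom_ext (fun n => ?_) (fun μ => ?_)
    · rw [RingHom.comp_apply, resK_single, evZ_CT, evK_single, pr_ln0]
    · rw [RingHom.comp_apply, resK_single, evZ_CT, evK_single, pr_ln0]
  exact congrArg (fun g => g f) h

theorem evK_add_int (ξ : Fin m → ℤ) (y : Fin m → ℂ) (j : ℤ) (f : RH m) :
    evK (fun i => y i + (j : ℂ) * (ξ i : ℂ)) f = evK y f := by
  have h1 : ∀ μ : Fin m → ℤ, Complex.exp (2 * Real.pi * Complex.I *
      pr μ (fun i => y i + (j : ℂ) * (ξ i : ℂ))) =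
        Complex.exp (2 * Real.pi * Complex.I * pr μ y) := by
    intro μ
    have h2 : pr μ (fun i => y i + (j : ℂ) * (ξ i : ℂ)) =
        pr μ y + ((j * ∑ i, μ i * ξ i : ℤ) : ℂ) := by
      unfold pr
      push_cast
      rw [Finset.mul_sum, ← Finset.sum_add_distrib]
      exact Finset.sum_congr rfl fun i _ => by ring
    rw [h2, mul_add, Complex.exp_add]
    have h3 : Complex.exp (2 * Real.pi * Complex.I * ((j * ∑ i, μ i * ξ i : ℤ) : ℂ)) = 1 := by
      rw [Complex.exp_eq_one_iff]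
      exact ⟨j * ∑ i, μ i * ξ i, by ring⟩
    rw [h3, mul_one]
  have h : evK (fun i => y i + (j : ℂ) * (ξ i : ℂ)) = evK y := by
    refine AddMonoidAlgebra.ringHom_ext (fun n => ?_) (fun μ => ?_)
    · rw [evK_single, evK_single, h1]
    · rw [evK_single, evK_single, h1]
  exact congrArg (fun g => g f) h

end ev

section kth

variable {N : ℕ} {X : FanoGW (Fin N)} {m : ℕ}

/-- Equivariant `K`-theory and the class `G = e^t e^{πi c_1} Γ̂ Ch`. -/
structure HKG (t : Fin N → ℂ) (ξ : Fin m → ℤ) (r : Fin N → Fin N → MvPolynomial (Fin m) ℂ)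
    (w : Fin N → Fin X.dim → Fin m → ℤ) (B χ : Matrix (Fin N) (Fin N) (RH m))
    (G : (Fin m → ℂ) → Matrix (Fin N) (Fin N) ℂ) : Prop where
  B_tri : ∀ i p, p < i → B i p = 0
  B_diag : ∀ p, B p p = ∏ k, if 0 < ∑ i, w p k i * ξ i then 1 - chr (w p k) else 1
  χ_unit : IsUnit χ.det
  χ_loc : ∀ y : Fin m → ℂ, (∀ p k, ∀ n : ℤ, pr (w p k) y ≠ n) → ∀ i j, evK y (χ i j) =
    ∑ p, evK (-y) (B i p) * evK y (B j p) /
      ∏ k, (1 - Complex.exp (-(2 * Real.pi * Complex.I * pr (w p k) y)))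
  G_hol : ∀ y : Fin m → ℂ, (∀ p k, ∀ n : ℤ, n ≠ 0 → pr (w p k) y ≠ n) → ∀ i j,
    DifferentiableAt ℂ (fun y => G y i j) y
  G_res : ∀ y : Fin m → ℂ, (∀ p k, ∀ n : ℤ, n ≠ 0 → pr (w p k) y ≠ n) → ∀ p i,
    ∑ a, MvPolynomial.eval y (r p a) * G y a i =
      Complex.exp (∑ a, t a * MvPolynomial.eval y (r p a) +
        Real.pi * Complex.I * ∑ k, pr (w p k) y) *
        evK y (B i p) * ∏ k, Complex.Gamma (1 - pr (w p k) y)

/-- `e^t e^{πi c_1} Γ̂` at the fixed point `p` -/
noncomputable def gam (t : Fin N → ℂ) (r : Fin N → Fin N → MvPolynomial (Fin m) ℂ)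
    (w : Fin N → Fin X.dim → Fin m → ℤ) (p : Fin N) (y : Fin m → ℂ) : ℂ :=
  Complex.exp (∑ a, t a * MvPolynomial.eval y (r p a) +
    Real.pi * Complex.I * ∑ k, pr (w p k) y) * ∏ k, Complex.Gamma (1 - pr (w p k) y)

theorem diff_pr (a : Fin m → ℤ) : Differentiable ℂ fun y : Fin m → ℂ => pr a y := by
  unfold pr
  fun_prop

theorem diff_evalK (p : MvPolynomial (Fin m) ℂ) :
    Differentiable ℂ fun y : Fin m → ℂ => MvPolynomial.eval y p := by
  induction p using MvPolynomial.induction_on with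
  | C a => simp
  | add p q hp hq =>
    simp only [map_add]
    exact hp.add hq
  | mul_X p k hp =>
    simp only [map_mul, MvPolynomial.eval_X]
    exact hp.mul (differentiable_apply k)

theorem gam_hol (t : Fin N → ℂ) (r : Fin N → Fin N → MvPolynomial (Fin m) ℂ)
    (w : Fin N → Fin X.dim → Fin m → ℤ) {y : Fin m → ℂ}
    (hy : ∀ p k, ∀ n : ℤ, pr (w p k) y ≠ n) (p : Fin N) :
    DifferentiableAt ℂ (gam t r w p) y := by
  unfold gam
  have h1 : Differentiable ℂ fun y : Fin m → ℂ => ∑ a, t a * MvPolynomial.eval y (r p a) +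
      Real.pi * Complex.I * ∑ k, pr (w p k) y := by
    refine Differentiable.add ?_ ?_
    · exact Differentiable.fun_sum fun a _ => (diff_evalK (r p a)).const_mul (t a)
    · exact (Differentiable.fun_sum fun k _ => diff_pr (w p k)).const_mul _
  refine (h1 y).cexp.mul ?_
  have h3 : ∀ k ∈ Finset.univ, DifferentiableAt ℂ
      (fun y : Fin m → ℂ => Complex.Gamma (1 - pr (w p k) y)) y := by
    intro k _
    have h2 : DifferentiableAt ℂ Complex.Gamma (1 - pr (w p k) y) := by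
      refine Complex.differentiableAt_Gamma _ fun n h => hy p k (n + 1) ?_
      push_cast
      linear_combination -h
    exact h2.comp y ((differentiableAt_const 1).sub ((diff_pr (w p k)) y))
  clear hy
  induction (Finset.univ : Finset (Fin X.dim)) using Finset.cons_induction with
  | empty => simp
  | cons a s ha ih =>
    simp only [Finset.prod_cons]
    exact (h3 a (Finset.mem_univ a)).mul ih

theorem gam_ne (t : Fin N → ℂ) (r : Fin N → Fin N → MvPolynomial (Fin m) ℂ)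
    (w : Fin N → Fin X.dim → Fin m → ℤ) {y : Fin m → ℂ}
    (hy : ∀ p k, ∀ n : ℤ, pr (w p k) y ≠ n) (p : Fin N) : gam t r w p y ≠ 0 := by
  unfold gam
  refine mul_ne_zero (Complex.exp_ne_zero _) (Finset.prod_ne_zero_iff.2 fun k _ => ?_)
  refine Complex.Gamma_ne_zero fun n h => hy p k (n + 1) ?_
  push_cast
  linear_combination -h

/-- the Chern characters at the fixed points -/
noncomputable def Bm (B : Matrix (Fin N) (Fin N) (RH m)) (y : Fin m → ℂ) :
    Matrix (Fin N) (Fin N) ℂ := Matrix.of fun p i => evK y (B i p)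

theorem Bm_per (B : Matrix (Fin N) (Fin N) (RH m)) (ξ : Fin m → ℤ) (y : Fin m → ℂ) (j : ℤ) :
    Bm B (fun i => y i + (j : ℂ) * (ξ i : ℂ)) = Bm B y := by
  ext p i
  exact evK_add_int ξ y j (B i p)

namespace HKG

variable {t : Fin N → ℂ} {ξ : Fin m → ℤ} {r : Fin N → Fin N → MvPolynomial (Fin m) ℂ}
  {w : Fin N → Fin X.dim → Fin m → ℤ} {B χ : Matrix (Fin N) (Fin N) (RH m)}
  {G : (Fin m → ℂ) → Matrix (Fin N) (Fin N) ℂ}

theorem Bm_det (h : HKG t ξ r w B χ G) {y : Fin m → ℂ}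
    (hy : ∀ p k, ∀ n : ℤ, pr (w p k) y ≠ n) : (Bm B y).det ≠ 0 := by
  intro h0
  have h1 : χ.map (evK y) = (Bm B (-y)).transpose * (Matrix.diagonal (fun p =>
      (∏ k, (1 - Complex.exp (-(2 * Real.pi * Complex.I * pr (w p k) y))))⁻¹) * Bm B y) := by
    ext i j
    rw [Matrix.map_apply, h.χ_loc y hy, Matrix.mul_apply]
    refine Finset.sum_congr rfl fun p _ => ?_
    rw [Matrix.transpose_apply, Matrix.diagonal_mul]
    simp only [Bm, Matrix.of_apply]
    rw [div_eq_mul_inv]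
    ring
  have h2 : (χ.map (evK y)).det = evK y χ.det := by
    have := (evK y).map_det χ
    rw [RingHom.mapMatrix_apply] at this
    exact this.symm
  have h3 : IsUnit (evK y χ.det) := h.χ_unit.map _
  rw [← h2, h1, Matrix.det_mul, Matrix.det_mul, h0, mul_zero, mul_zero] at h3
  exact not_isUnit_zero h3

theorem RG (h : HKG t ξ r w B χ G) {y : Fin m → ℂ}
    (hy : ∀ p k, ∀ n : ℤ, n ≠ 0 → pr (w p k) y ≠ n) :
    Rm r y * G y = Matrix.diagonal (fun p => gam t r w p y) * Bm B y := by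
  ext p i
  rw [Matrix.diagonal_mul, Matrix.mul_apply]
  simp only [Rm, Bm, Matrix.of_apply]
  rw [h.G_res y hy p i, gam]
  ring

/-! ### restriction to `ξ` -/

theorem tri (h : HKG t ξ r w B χ G) (i p : Fin N) (hp : p < i) : (B.map (resK ξ)) i p = 0 := by
  rw [Matrix.map_apply, h.B_tri i p hp, map_zero]

theorem diag (h : HKG t ξ r w B χ G) (p : Fin N) : (B.map (resK ξ)) p p =
    ∏ k, if 0 < ∑ i, w p k i * ξ i then 1 - LaurentPolynomial.T (∑ i, w p k i * ξ i) else 1 := by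
  rw [Matrix.map_apply, h.B_diag, map_prod]
  refine Finset.prod_congr rfl fun k _ => ?_
  split_ifs
  · rw [map_sub, map_one, resK_chr]
  · rw [map_one]

theorem unit (h : HKG t ξ r w B χ G) : IsUnit (χ.map (resK ξ)).det := by
  have h1 := (resK ξ).map_det χ
  rw [RingHom.mapMatrix_apply] at h1
  rw [← h1]
  exact h.χ_unit.map _

private theorem hyl (hw : ∀ p k, ∑ i, w p k i * ξ i ≠ 0) {y : ℂ} (hy : y.im ≠ 0) (p : Fin N)
    (k : Fin X.dim) (n : ℤ) : pr (w p k) (fun l => y * (ξ l : ℂ)) ≠ n := by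
  intro h
  rw [pr_ln0] at h
  have h3 := congrArg Complex.im h
  simp only [Complex.mul_im, Complex.intCast_im, Complex.intCast_re, zero_mul, add_zero] at h3
  rcases mul_eq_zero.1 h3 with h4 | h4
  · exact hw p k (by exact_mod_cast h4)
  · exact hy h4

theorem loc (h : HKG t ξ r w B χ G) (hw : ∀ p k, ∑ i, w p k i * ξ i ≠ 0) (y : ℂ) (hy : y.im ≠ 0)
    (i j : Fin N) : evZ y ((χ.map (resK ξ)) i j) =
      ∑ p, evZ (-y) ((B.map (resK ξ)) i p) * evZ y ((B.map (resK ξ)) j p) /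
        ∏ k, (1 - Complex.exp (-(2 * Real.pi * Complex.I * y * (∑ i, w p k i * ξ i : ℤ)))) := by
  simp only [Matrix.map_apply, evZ_resK]
  rw [h.χ_loc _ (hyl hw hy)]
  refine Finset.sum_congr rfl fun p _ => ?_
  have h1 : (fun k => -y * (ξ k : ℂ)) = -(fun k => y * (ξ k : ℂ)) := by
    funext k
    simp
  rw [h1]
  congr 1
  refine Finset.prod_congr rfl fun k _ => ?_
  rw [pr_ln0]
  congr 3
  ring

theorem res (h : HKG t ξ r w B χ G) (hw : ∀ p k, ∑ i, w p k i * ξ i ≠ 0)
    (hr : ∀ p a (d : Fin m →₀ ℕ), (r p a).coeff d ≠ 0 → ∑ k, d k = X.deg a)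
    (ht : ∀ i, t i ≠ 0 → X.deg i = 1) (y : ℂ) (hy : y.im ≠ 0) (p i : Fin N) :
    ∑ a, MvPolynomial.eval (fun k => (ξ k : ℂ)) (r p a) * y ^ X.deg a *
        G (fun k => y * (ξ k : ℂ)) a i =
      Complex.exp ((∑ a, t a * MvPolynomial.eval (fun k => (ξ k : ℂ)) (r p a) +
        Real.pi * Complex.I * ∑ k, ((∑ i, w p k i * ξ i : ℤ) : ℂ)) * y) *
        evZ y ((B.map (resK ξ)) i p) *
          ∏ k, Complex.Gamma (1 - (∑ i, w p k i * ξ i : ℤ) * y) := by
  have h0 : ∀ a, MvPolynomial.eval (fun k => y * (ξ k : ℂ)) (r p a) =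
      MvPolynomial.eval (fun k => (ξ k : ℂ)) (r p a) * y ^ X.deg a := by
    intro a
    have h1 := congrArg (Polynomial.eval y) (sp_homog ξ (hr p a))
    rw [eval_sp] at h1
    rw [Polynomial.eval_mul, Polynomial.eval_C, Polynomial.eval_pow, Polynomial.eval_X] at h1
    rw [← h1]
    congr 2
    funext k
    ring
  have h2 := h.G_res (fun k => y * (ξ k : ℂ)) (fun p k n _ => hyl hw hy p k n) p i
  simp only [h0] at h2
  rw [h2, Matrix.map_apply, evZ_resK]
  congr 1
  · congr 1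
    congr 1
    rw [add_mul, Finset.sum_mul]
    congr 1
    · refine Finset.sum_congr rfl fun a _ => ?_
      rcases eq_or_ne (t a) 0 with h3 | h3
      · rw [h3]
        ring
      · rw [ht a h3, pow_one]
        ring
    · simp only [pr_ln0]
      rw [mul_assoc (Real.pi * Complex.I : ℂ), Finset.sum_mul]
  · refine Finset.prod_congr rfl fun k _ => ?_
    rw [pr_ln0]

end HKG

end kth

end Pool.Agent.DSTJ.Spec
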